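import Pool.Agent.Lib.H16C.D1

/-!
# D2 (S): two identities for the `x`-coordinates

Put `F(a, c, X) = (a-c)² X² - 2((a+c)(a₄+ac) + 2a₆) X + (ac-a₄)² - 4a₆(a+c)`.  By D1, for
`x(P) ≠ x(Q)`: `(x(P)-x(Q))² (X - x(P+Q)) (X - x(P-Q)) = F(x(P), x(Q), X)`.
`F` is symmetric in its three arguments (`ring`): this is `xsym`.
`F(a, c, a) = F(a, a, c) = (a²-a₄)² - 8 a₆ a - 4 (a³ + a₄ a + a₆) c = 4 y(P)² (x(2P) - c)` for
`a = x(P)` (`eqn`, `xc_dbl`): this is `xdbl`; if `y(P) = 0` then `2P = 0`, excluded by hypothesis.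
-/

open WeierstrassCurve

namespace H16C

variable {F : Type*} [Field F] [DecidableEq F] {W : WeierstrassCurve.Affine F} [W.IsShortNF]

theorem D2_expand {P Q : W.Point} (hP : P ≠ 0) (hQ : Q ≠ 0) (h : xc P ≠ xc Q) (X : F) :
    (xc P - xc Q) ^ 2 * ((X - xc (P + Q)) * (X - xc (P - Q))) =
      (xc P - xc Q) ^ 2 * X ^ 2 - 2 * ((xc P + xc Q) * (W.a₄ + xc P * xc Q) + 2 * W.a₆) * X +
        (xc P * xc Q - W.a₄) ^ 2 - 4 * W.a₆ * (xc P + xc Q) := by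
  have h1 := xc_add_sub hP hQ h
  have h2 := xc_add_mul_sub hP hQ h
  linear_combination -X * h1 + h2

theorem xsym {P Q R : W.Point} (hP : P ≠ 0) (hQ : Q ≠ 0) (hR : R ≠ 0) (h : xc P ≠ xc Q)
    (h' : xc P ≠ xc R) :
    (xc P - xc Q) ^ 2 * ((xc R - xc (P + Q)) * (xc R - xc (P - Q))) =
      (xc P - xc R) ^ 2 * ((xc Q - xc (P + R)) * (xc Q - xc (P - R))) := by
  rw [D2_expand hP hQ h, D2_expand hP hR h']
  ring

theorem xdbl (h2 : (2 : F) ≠ 0) {P Q : W.Point} (hP : P ≠ 0) (hQ : Q ≠ 0) (h : xc P ≠ xc Q)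
    (hy : yc P ≠ 0) :
    (xc P - xc Q) ^ 2 * ((xc P - xc (P + Q)) * (xc P - xc (P - Q))) =
      (2 * yc P) ^ 2 * (xc (2 • P) - xc Q) := by
  rw [D2_expand hP hQ h]
  have h3 := xc_dbl h2 hP hy
  have h4 := eqn hP
  linear_combination -h3 + 4 * xc Q * h4

end H16C
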