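import Pool.Agent.Lib.H16C.D0
import Pool.Agent.Lib.H16C.D2

/-!
# D3 (M): `x(kP) = x - ψ_{k+1} ψ_{k-1} / ψ_k²` and rank of apparition

Notation: `P = (x, y)`, `g_k = psi W x y k`, `x_k = xc (k • P)`, `h_k = 2 yc (k • P)`.  Assume
`k • P ≠ 0` for `0 < k < N`.  By strong induction on `k` prove, for `0 < k < N`:
  (a) `g_k ≠ 0`,   (b) `g_k² (x_1 - x_k) = g_{k+1} g_{k-1}`.
`k = 1`: `g_1 = 1`, `g_0 = 0`.
`k = 2`: `g_2 = 2y ≠ 0` (`two_smul_eq_zero_iff`), (b) is `(2y)² (x - x(2P)) = g_3`: `xc_dbl`,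
`psi_three`, `eqn`.
(a) for `k ≥ 3`: (b) for `k - 1` gives `g_k g_{k-2} = g_{k-1}² (x_1 - x_{k-1})`, and
`x_1 ≠ x_{k-1}` because `P ± (k-1) P ≠ 0` (`xc_ne`).
If (b) holds for `m` and `m + 1` then (`psi_odd`, `m ≥ 1`)
  (c_m) `g_{2m+1} = g_{m+2} g_m³ - g_{m-1} g_{m+1}³ = (g_m g_{m+1})² (x_m - x_{m+1})`.
If (b) holds for `m - 1` and `m + 1`, `m ≥ 2` then (`psi_even`)
  (c'_m) `g_{2m} g_2 = g_m (g_{m+2} g_{m-1}² - g_{m-2} g_{m+1}²) = (g_{m-1} g_{m+1})² (x_{m-1} - x_{m+1})`,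
and with `xc_sub_sub_add` for `(mP, P)`: `h_m h_1 = (x_{m-1} - x_{m+1}) (x_m - x_1)²`, (b) for `m`:
`(x_1 - x_m)² g_m⁴ = (g_{m+1} g_{m-1})²`, `g_2 = h_1 ≠ 0`:
  (d_m) `g_{2m} = g_m⁴ h_m`   (`m = 1`: `g_2 = h_1`; `m = 2` directly: `psi_four`, `yc_dbl`).
(b) for `k = 2m`, `m ≥ 2` (`m + 1 < k`): `xdbl` for `(mP, P)`:
`(x_m - x_1)² (x_m - x_{m+1}) (x_m - x_{m-1}) = h_m² (x_{2m} - x_1)`; multiply by `g_m⁸`, use (b_m),
(c_m), (c_{m-1}), (d_m): `g_{2m}² (x_1 - x_{2m}) = g_{2m+1} g_{2m-1}` (after cancelling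
`(g_{m+1} g_{m-1})²`).
(b) for `k = 2m - 1`, `m ≥ 2` (for `m ≥ 3`: `m + 1 < k`, so (d_m) is available; `m = 2`: (d_2)
directly): `xc_sub_sub_add` for `(mP, (m-1)P)`: `h_m h_{m-1} = (x_1 - x_{2m-1}) (x_m - x_{m-1})²`;
multiply by `(g_m g_{m-1})⁴`, use (d_m), (d_{m-1}), (c_{m-1}):
`g_{2m} g_{2m-2} = (x_1 - x_{2m-1}) g_{2m-1}²`.
The points `m P, (m ± 1) P, ...` that occur are `≠ 0` and have different `x`-coordinates since all
`j P ≠ 0` for `0 < j < N` (`xc_ne`).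
Second statement: `N • P = 0`, `N ≥ 3`: (b) for `k = N - 1`: `g_N g_{N-2} = g_{N-1}² (x_1 - x_{N-1})`
`= 0` because `(N-1) P = -P`, and `g_{N-2} ≠ 0`.  `N = 2`: `g_2 = 2y = 0`.
-/

open WeierstrassCurve

namespace H16C

variable {F : Type*} [Field F] [DecidableEq F] {W : WeierstrassCurve.Affine F} [W.IsShortNF]

theorem D3_two {P : W.Point} (h2 : (2 : F) ≠ 0) (hP : P ≠ 0) (hy : yc P ≠ 0) :
    psi W (xc P) (yc P) 4 = psi W (xc P) (yc P) 2 ^ 4 * (2 * yc (2 • P)) := by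
  have h1 := yc_dbl h2 hP hy
  rw [psi_four, psi_two, ← h1]
  ring

theorem psi_main (h2 : (2 : F) ≠ 0) {P : W.Point} (hP : P ≠ 0) (N : ℕ)
    (hN : ∀ k : ℕ, 0 < k → k < N → k • P ≠ 0) (k : ℕ) (hk : 0 < k) (hkN : k < N) :
    psi W (xc P) (yc P) k ≠ 0 ∧
      psi W (xc P) (yc P) k ^ 2 * (xc P - xc (k • P)) =
        psi W (xc P) (yc P) (k + 1) * psi W (xc P) (yc P) (k - 1) := by
  obtain ⟨g, hg⟩ : ∃ g : ℤ → F, g = psi W (xc P) (yc P) := ⟨_, rfl⟩
  obtain ⟨X, hX⟩ : ∃ X : ℕ → F, X = fun j => xc (j • P) := ⟨_, rfl⟩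
  obtain ⟨Y, hY⟩ : ∃ Y : ℕ → F, Y = fun j => yc (j • P) := ⟨_, rfl⟩
  have hX' : ∀ j : ℕ, xc (j • P) = X j := fun j => by rw [hX]
  have hY' : ∀ j : ℕ, yc (j • P) = Y j := fun j => by rw [hY]
  have hX1 : xc P = X 1 := by rw [hX]; simp
  have hY1 : yc P = Y 1 := by rw [hY]; simp
  have g0 : g 0 = 0 := by rw [hg]; exact psi_zero W
  have g1 : g 1 = 1 := by rw [hg]; exact psi_one W
  have g2 : g 2 = 2 * Y 1 := by rw [hg, ← hY1]; exact psi_two W
  have godd : ∀ m : ℤ, g (2 * m + 1) = g (m + 2) * g m ^ 3 - g (m - 1) * g (m + 1) ^ 3 := by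
    rw [hg]; exact psi_odd W
  have geven : ∀ m : ℤ, g (2 * m) * (2 * Y 1) =
      g (m - 1) ^ 2 * g m * g (m + 2) - g (m - 2) * g m * g (m + 1) ^ 2 := by
    rw [hg, ← hY1]; exact psi_even W
  -- main claim
  suffices H : ∀ k : ℕ, 0 < k → k < N → g k ≠ 0 ∧ g k ^ 2 * (X 1 - X k) = g (k + 1) * g (k - 1) by
    have := H k hk hkN
    rw [← hg, hX1, hX']
    exact this
  clear hk hkN k
  intro k
  induction k using Nat.strong_induction_on with
  | _ k ih =>
  intro hk hkN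
  -- the cases `k = 1`
  rcases Nat.lt_or_ge k 2 with hk2 | hk2
  · have : k = 1 := by omega
    subst this
    refine ⟨?_, ?_⟩
    · rw [Nat.cast_one, g1]
      exact one_ne_zero
    · rw [Nat.cast_one, sub_self, sub_self, g0]
      ring
  -- `2 P ≠ 0`
  have h2P : 2 • P ≠ 0 := hN 2 (by norm_num) (by omega)
  have hy0 : yc P ≠ 0 := fun h => h2P ((two_smul_eq_zero_iff h2 hP).mpr h)
  have hY10 : Y 1 ≠ 0 := by rwa [← hY1]
  have hg20 : g 2 ≠ 0 := by
    rw [g2]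
    exact mul_ne_zero h2 hY10
  rcases Nat.lt_or_ge k 3 with hk3 | hk3
  · have : k = 2 := by omega
    subst this
    refine ⟨?_, ?_⟩
    · exact_mod_cast hg20
    · have e1 := xc_dbl h2 hP hy0
      have e2 := eqn hP
      have e3 : g 3 = 3 * X 1 ^ 4 + 6 * W.a₄ * X 1 ^ 2 + 12 * W.a₆ * X 1 - W.a₄ ^ 2 := by
        rw [hg, ← hX1]
        exact psi_three W
      rw [show ((2 : ℕ) : ℤ) + 1 = 3 by norm_num, show ((2 : ℕ) : ℤ) - 1 = 1 by norm_num,
        show ((2 : ℕ) : ℤ) = 2 by norm_num, g1, g2, e3]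
      rw [hX1, hY1, hX'] at e1
      rw [hX1, hY1] at e2
      linear_combination -e1 + 4 * X 1 * e2
  -- the main case
  have ih' : ∀ j : ℕ, 0 < j → j < k →
      g j ≠ 0 ∧ g j ^ 2 * (X 1 - X j) = g (j + 1) * g (j - 1) :=
    fun j hj hjk => ih j hjk hj (hjk.trans hkN)
  -- the points
  have hsm : ∀ i j : ℕ, j ≤ i → i • P - j • P = (i - j) • P := by
    intro i j h
    rw [sub_nsmul P h, sub_eq_add_neg]
  have hne : ∀ i j : ℕ, 0 < j → j < i → i + j < N → X i ≠ X j := by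
    intro i j hj hji hij
    rw [← hX', ← hX']
    apply xc_ne (hN i (by omega) (by omega)) (hN j hj (by omega))
    · rw [← add_smul]
      exact hN _ (by omega) hij
    · rw [hsm i j hji.le]
      exact hN _ (by omega) (by omega)
  have hsub : ∀ i j : ℕ, 0 < j → j < i → i + j < N →
      (X i - X j) ^ 2 * (X (i - j) - X (i + j)) = (2 * Y i) * (2 * Y j) := by
    intro i j hj hji hij
    have e := xc_sub_sub_add (hN i (by omega) (by omega)) (hN j hj (by omega))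
      (by rw [hX', hX']; exact hne i j hj hji hij)
    rw [← add_smul, hsm i j hji.le, hX', hX', hX', hX', hY', hY'] at e
    rw [e]
    ring
  -- (c)
  have hc : ∀ n : ℕ, 0 < n → n + 1 < k →
      g (2 * n + 1) = (g n * g (n + 1)) ^ 2 * (X n - X (n + 1)) := by
    intro n hn hnk
    have b1 := (ih' n hn (by omega)).2
    have b2 := (ih' (n + 1) (by omega) hnk).2
    push_cast at b2
    rw [show (n : ℤ) + 1 + 1 = n + 2 by ring, show (n : ℤ) + 1 - 1 = n by ring] at b2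
    rw [godd]
    linear_combination - g n ^ 2 * b2 + g (n + 1) ^ 2 * b1
  -- (d)
  have hd : ∀ m : ℕ, 0 < m → m < k → (m = 1 ∨ m = 2 ∨ m + 1 < k) →
      g (2 * m) = g m ^ 4 * (2 * Y m) := by
    intro m hm hmk hcase
    rcases Nat.lt_or_ge m 2 with hm2 | hm2
    · have : m = 1 := by omega
      subst this
      rw [Nat.cast_one, mul_one, g1, g2]
      ring
    rcases Nat.lt_or_ge m 3 with hm3 | hm3
    · have : m = 2 := by omega
      subst this
      have := D3_two h2 hP hy0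
      rw [← hg, hY'] at this
      exact this
    · have hmk1 : m + 1 < k := by omega
      obtain ⟨n, rfl⟩ : ∃ n, m = n + 1 := ⟨m - 1, by omega⟩
      have b1 := (ih' n (by omega) (by omega)).2
      have b2 := (ih' (n + 1) (by omega) (by omega)).2
      have b3 := (ih' (n + 2) (by omega) (by omega)).2
      have hs := hsub (n + 1) 1 (by norm_num) (by omega) (by omega)
      rw [Nat.add_sub_cancel, show n + 1 + 1 = n + 2 by ring] at hs
      have he := geven (n + 1)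
      push_cast at *
      rw [show (n : ℤ) + 1 + 1 = n + 2 by ring, show (n : ℤ) + 1 - 1 = n by ring] at b2
      rw [show (n : ℤ) + 2 + 1 = n + 3 by ring, show (n : ℤ) + 2 - 1 = n + 1 by ring] at b3
      rw [show (n : ℤ) + 1 + 1 = n + 2 by ring, show (n : ℤ) + 1 - 1 = n by ring,
        show (n : ℤ) + 1 - 2 = n - 1 by ring, show (n : ℤ) + 1 + 2 = n + 3 by ring] at he
      apply mul_right_cancel₀ (mul_ne_zero h2 hY10)
      rw [he]
      have e1 : g n ^ 2 * g (n + 1) * g (n + 3) - g (n - 1) * g (n + 1) * g (n + 2) ^ 2 =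
          (g (n + 2) * g n) ^ 2 * (X n - X (n + 2)) := by
        linear_combination -g n ^ 2 * b3 + g (n + 2) ^ 2 * b1
      rw [e1, ← b2]
      linear_combination g (n + 1) ^ 4 * hs
  -- (a)
  have ha : g k ≠ 0 := by
    obtain ⟨n, rfl⟩ : ∃ n, k = n + 2 := ⟨k - 2, by omega⟩
    have b := ih' (n + 1) (by omega) (by omega)
    have hx := hne (n + 1) 1 (by norm_num) (by omega) (by omega)
    intro h0
    have b2 := b.2
    push_cast at b2 h0
    rw [show (n : ℤ) + 1 + 1 = n + 2 by ring, h0, zero_mul] at b2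
    rcases mul_eq_zero.mp b2 with h3 | h3
    · apply b.1
      push_cast
      exact pow_eq_zero_iff (two_ne_zero) |>.mp h3
    · exact hx (sub_eq_zero.mp h3).symm
  refine ⟨ha, ?_⟩
  rcases Nat.even_or_odd' k with ⟨m, hm | hm⟩
  · -- even
    obtain ⟨n, rfl⟩ : ∃ n, m = n + 1 := ⟨m - 1, by omega⟩
    have b2 := (ih' (n + 1) (by omega) (by omega)).2
    have c1 := hc n (by omega) (by omega)
    have c2 := hc (n + 1) (by omega) (by omega)
    have d := hd (n + 1) (by omega) (by omega) (by omega)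
    have hx := hne (n + 1) 1 (by norm_num) (by omega) (by omega)
    have hmP : (n + 1) • P ≠ 0 := hN _ (by omega) (by omega)
    have hY2 : yc ((n + 1) • P) ≠ 0 := by
      intro h
      have h3 := (two_smul_eq_zero_iff h2 hmP).mpr h
      rw [← mul_smul, ← hm] at h3
      exact hN k hk hkN h3
    have hdb := xdbl h2 hmP hP (by rw [hX', hX1]; exact hx) hY2
    rw [← mul_smul, ← hm] at hdb
    have e1 : (n + 1) • P + P = (n + 2) • P := by
      rw [show n + 2 = n + 1 + 1 by ring, add_smul (n + 1) 1 P, one_smul]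
    have e2 : (n + 1) • P - P = n • P := by
      rw [add_smul, one_smul, add_sub_cancel_right]
    rw [e1, e2, hX', hX', hX', hX', hX1, hY'] at hdb
    have hkz : (k : ℤ) = 2 * (n + 1) := by
      rw [hm]; push_cast; ring
    have hkz1 : (k : ℤ) + 1 = 2 * (n + 1) + 1 := by rw [hkz]
    have hkz2 : (k : ℤ) - 1 = 2 * n + 1 := by rw [hkz]; ring
    push_cast at *
    rw [show (n : ℤ) + 1 + 1 = n + 2 by ring, show (n : ℤ) + 1 - 1 = n by ring] at b2
    rw [show (n : ℤ) + 1 + 1 = n + 2 by ring] at c2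
    rw [hkz1, hkz2, hkz, c1, c2, d]
    have e3 : (g (n + 1) * g (n + 2)) ^ 2 * (X (n + 1) - X (n + 1 + 1)) *
        ((g n * g (n + 1)) ^ 2 * (X n - X (n + 1))) =
        g (n + 1) ^ 4 * (g (n + 2) * g n) ^ 2 * ((X (n + 1) - X (n + 2)) * (X n - X (n + 1))) := by
      ring
    rw [e3, ← b2]
    linear_combination g (n + 1) ^ 8 * hdb
  · -- odd
    obtain ⟨n, rfl⟩ : ∃ n, m = n + 1 := ⟨m - 1, by omega⟩
    have c1 := hc (n + 1) (by omega) (by omega)
    have d1 := hd (n + 1) (by omega) (by omega) (by omega)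
    have d2 := hd (n + 2) (by omega) (by omega) (by omega)
    have hs := hsub (n + 2) (n + 1) (by omega) (by omega) (by omega)
    rw [show n + 2 - (n + 1) = 1 by omega, show n + 2 + (n + 1) = k by omega] at hs
    have hkz : (k : ℤ) = 2 * (n + 1) + 1 := by
      rw [hm]; push_cast; ring
    have hkz1 : (k : ℤ) + 1 = 2 * (n + 2) := by rw [hkz]; ring
    have hkz2 : (k : ℤ) - 1 = 2 * (n + 1) := by rw [hkz]; ring
    push_cast at *
    rw [show (n : ℤ) + 1 + 1 = n + 2 by ring] at c1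
    rw [hkz1, hkz2, hkz, c1, d1, d2]
    linear_combination g (n + 1) ^ 4 * g (n + 2) ^ 4 * hs

theorem psi_order (h2 : (2 : F) ≠ 0) {P : W.Point} (hP : P ≠ 0) (N : ℕ) (hN2 : 2 ≤ N)
    (hN : ∀ k : ℕ, 0 < k → k < N → k • P ≠ 0) (hNP : N • P = 0) :
    psi W (xc P) (yc P) N = 0 := by
  rcases Nat.lt_or_ge N 3 with h3 | h3
  · have : N = 2 := by omega
    subst this
    have := psi_two W (x := xc P) (y := yc P)
    rw [(two_smul_eq_zero_iff h2 hP).mp hNP, mul_zero] at this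
    rw [(two_smul_eq_zero_iff h2 hP).mp hNP]
    exact_mod_cast this
  · obtain ⟨n, rfl⟩ : ∃ n, N = n + 2 := ⟨N - 2, by omega⟩
    have b := (psi_main h2 hP (n + 2) hN (n + 1) (by omega) (by omega)).2
    have b' := (psi_main h2 hP (n + 2) hN n (by omega) (by omega)).1
    have e : (n + 1) • P = -P := by
      apply eq_neg_of_add_eq_zero_left
      rw [show n + 2 = n + 1 + 1 by ring, add_smul (n + 1) 1 P, one_smul] at hNP
      exact hNP
    rw [e, xc_neg, sub_self, mul_zero] at b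
    push_cast at b ⊢
    rw [show (n : ℤ) + 1 + 1 = n + 2 by ring, show (n : ℤ) + 1 - 1 = n by ring] at b
    exact (mul_eq_zero.mp b.symm).resolve_right b'

end H16C
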