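import Mathlib

/-!
# FR1 (M): the elements of a number field that are integral at a place are fractions `a / c`, `v c = 1`

`F` a subfield of `Ω` finite over the number field `k`, so a number field; `A` a valuation subring of
`Ω`, `v = A.valuation`, `v(q) < 1` for a prime number `q`.  Elements integral over `ℤ` have `v ≤ 1`
(`ValuationSubring` is integrally closed).  `P = {z ∈ 𝓞 F | v z < 1}` is a prime ideal of `𝓞 F`,
`≠ 0` as `q ∈ P`, so maximal (`𝓞 F` Dedekind).  Let `x ∈ F`, `v x ≤ 1`, `x ≠ 0`.  With the valuation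
`w = HeightOneSpectrum.valuation` of `P`: if `w x ≤ 1` then `x = a / c` with `a, c ∈ 𝓞 F`, `c ∉ P`
(the localisation of `𝓞 F` at `P` is the valuation ring of `P`; e.g.
`IsDedekindDomain.HeightOneSpectrum.exists_..`, `Localization.AtPrime`, `IsLocalization.AtPrime`
is a DVR; or by approximation: write `x = a / d`; choose `u ∈ 𝓞 F` with `ord_P u = ` and
`u d⁻¹ ...`, cf. `n3_...`, `exists_reduced_fraction` after multiplying by a suitable element of
`(d : a)`: the ideal `{c ∈ 𝓞 F | c x ∈ 𝓞 F}` is not contained in `P` when `w x ≤ 1`).  If `w x > 1`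
then `x⁻¹ = a / c`, `c ∉ P`, and `w(x⁻¹) < 1` gives `a ∈ P`, so `v(x⁻¹) = v a / v c < 1`,
contradiction with `v x ≤ 1`.
Another proof: the localisation `R` of `𝓞 F` at `P`, inside `F`, is a discrete valuation ring, so a
maximal proper subring of `F`, and it is contained in the proper subring `{x ∈ F | v x ≤ 1}`.
-/

open NumberField

namespace H16C

variable {k : Type*} [Field k] [NumberField k] {Ω : Type*} [Field Ω] [Algebra k Ω]

theorem FR_le_one (A : ValuationSubring Ω) {x : Ω} (hx : IsIntegral ℤ x) : A.valuation x ≤ 1 := by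
  have h1 : IsIntegral A x := hx.tower_top
  obtain ⟨y, hy⟩ := (IsIntegrallyClosed.isIntegral_iff (R := A) (K := Ω)).1 h1
  rw [← hy]
  exact (A.valuation_le_one_iff _).2 y.2

omit [NumberField k] in
theorem FR_isIntegral (F : IntermediateField k Ω) (z : 𝓞 F) : IsIntegral ℤ ((z : F) : Ω) :=
  (RingOfIntegers.isIntegral_coe z).map (F.val.restrictScalars ℤ)

/-- the prime ideal of the ring of integers of `F` below the place `A` -/
def plc (F : IntermediateField k Ω) (A : ValuationSubring Ω) : Ideal (𝓞 F) where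
  carrier := {z | A.valuation ((z : F) : Ω) < 1}
  zero_mem' := by
    change A.valuation (((0 : 𝓞 F) : F) : Ω) < 1
    simp
  add_mem' := by
    intro a b ha hb
    change A.valuation (((a + b : 𝓞 F) : F) : Ω) < 1
    have e : (((a + b : 𝓞 F) : F) : Ω) = ((a : F) : Ω) + ((b : F) : Ω) := by simp
    rw [e]
    exact A.valuation.map_add_lt ha hb
  smul_mem' := by
    intro a b hb
    change A.valuation (((a * b : 𝓞 F) : F) : Ω) < 1
    have e : (((a * b : 𝓞 F) : F) : Ω) = ((a : F) : Ω) * ((b : F) : Ω) := by simp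
    rw [e, map_mul]
    exact lt_of_le_of_lt (mul_le_of_le_one_left' (FR_le_one A (FR_isIntegral F a))) hb

omit [NumberField k] in
theorem mem_plc {F : IntermediateField k Ω} {A : ValuationSubring Ω} {z : 𝓞 F} :
    z ∈ plc F A ↔ A.valuation ((z : F) : Ω) < 1 := Iff.rfl

omit [NumberField k] in
theorem not_mem_plc {F : IntermediateField k Ω} {A : ValuationSubring Ω} {z : 𝓞 F} :
    z ∉ plc F A ↔ A.valuation ((z : F) : Ω) = 1 := by
  rw [mem_plc, not_lt]
  exact ⟨fun h => le_antisymm (FR_le_one A (FR_isIntegral F z)) h, fun h => h.ge⟩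

omit [NumberField k] in
instance plc_isPrime (F : IntermediateField k Ω) (A : ValuationSubring Ω) : (plc F A).IsPrime where
  ne_top' := by
    intro h
    have h1 : (1 : 𝓞 F) ∈ plc F A := by rw [h]; trivial
    rw [mem_plc] at h1
    simp at h1
  mem_or_mem' := by
    intro x y hxy
    by_contra hc
    rw [not_or] at hc
    have h1 := not_mem_plc.1 hc.1
    have h2 := not_mem_plc.1 hc.2
    rw [mem_plc] at hxy
    have e : (((x * y : 𝓞 F) : F) : Ω) = ((x : F) : Ω) * ((y : F) : Ω) := by simp
    rw [e, map_mul, h1, h2, one_mul] at hxy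
    exact lt_irrefl _ hxy

omit [NumberField k] in
theorem natCast_mem_plc (F : IntermediateField k Ω) {A : ValuationSubring Ω} {q : ℕ}
    (hA : A.valuation (q : Ω) < 1) : (q : 𝓞 F) ∈ plc F A := by
  rw [mem_plc]
  simpa using hA

theorem FR_charZero (k : Type*) [Field k] [NumberField k] (Ω : Type*) [Field Ω] [Algebra k Ω] :
    CharZero Ω := charZero_of_injective_algebraMap (algebraMap k Ω).injective

theorem FR_numberField (F : IntermediateField k Ω) [FiniteDimensional k F] : NumberField F :=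
  NumberField.of_module_finite k F

theorem plc_ne_bot (F : IntermediateField k Ω) {A : ValuationSubring Ω} {q : ℕ}
    (hq : q ≠ 0) (hA : A.valuation (q : Ω) < 1) : plc F A ≠ ⊥ := by
  intro h
  have h1 := natCast_mem_plc F hA
  rw [h, Ideal.mem_bot] at h1
  haveI : CharZero F := charZero_of_injective_algebraMap (algebraMap k F).injective
  have h2 : (q : F) = 0 := by simpa using congrArg (algebraMap (𝓞 F) F) h1
  exact hq (Nat.cast_eq_zero.1 h2)

theorem frac_rep_int (F : IntermediateField k Ω) [FiniteDimensional k F] (A : ValuationSubring Ω) (q : ℕ)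
    (hq : q.Prime) (hA : A.valuation (q : Ω) < 1) {x : F} (hvx : A.valuation (x : Ω) ≤ 1) :
    ∃ a c : 𝓞 F, c ∉ plc F A ∧ x * (c : F) = (a : F) := by
  haveI := FR_numberField F
  let v : IsDedekindDomain.HeightOneSpectrum (𝓞 F) := ⟨plc F A, inferInstance, plc_ne_bot F hq.ne_zero hA⟩
  obtain ⟨n, d, h | h⟩ := IsDedekindDomain.HeightOneSpectrum.exists_primeCompl_mul_eq_or_mul_eq v x
  · exact ⟨n, d, d.2, h⟩
  · refine ⟨d, n, ?_, h⟩
    have hd : A.valuation (((d : 𝓞 F) : F) : Ω) = 1 := not_mem_plc.1 d.2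
    intro hn
    rw [mem_plc] at hn
    have h2 : (x : Ω) * ((n : F) : Ω) = (((d : 𝓞 F) : F) : Ω) := by
      have := congrArg (fun z : F => (z : Ω)) h
      simpa using this
    have h3 : A.valuation ((x : Ω) * ((n : F) : Ω)) < 1 := by
      rw [map_mul]
      exact lt_of_le_of_lt (mul_le_of_le_one_left' hvx) hn
    rw [h2, hd] at h3
    exact lt_irrefl _ h3

theorem frac_rep (F : IntermediateField k Ω) [FiniteDimensional k F] (A : ValuationSubring Ω) (q : ℕ)
    (hq : q.Prime) (hA : A.valuation (q : Ω) < 1) {x : Ω} (hx : x ∈ F) (hvx : A.valuation x ≤ 1) :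
    ∃ a c : Ω, a ∈ F ∧ c ∈ F ∧ IsIntegral ℤ a ∧ IsIntegral ℤ c ∧ A.valuation c = 1 ∧ x = a / c := by
  obtain ⟨a, c, hc, h⟩ := frac_rep_int F A q hq hA (x := ⟨x, hx⟩) hvx
  have hc1 := not_mem_plc.1 hc
  refine ⟨((a : F) : Ω), ((c : F) : Ω), (a : F).2, (c : F).2, FR_isIntegral F a, FR_isIntegral F c, hc1, ?_⟩
  have hc0 : ((c : F) : Ω) ≠ 0 := by
    intro h0
    rw [h0, map_zero] at hc1
    exact zero_ne_one hc1
  rw [eq_div_iff hc0]
  have := congrArg (fun z : F => (z : Ω)) h
  simpa using this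

end H16C
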