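import Pool.Agent.Lib.H16C.Defs
import Pool.Agent.Lib.H16C.FR1

/-!
# FR2 (M/L): Frobenius elements and the decomposition group modulo inertia

`K ≤ F` subfields of `Ω`, finite over the number field `k`, `F` stable under `Gal(Ω/K)`, so `F/K`
is a finite Galois extension (`Ω/k` algebraic, `Ω` algebraically closed, characteristic `0`).
`A`, `v = A.valuation`, `v(q) < 1`.  `P₀ = {z ∈ 𝓞 K | v z < 1}`, `Q = #(𝓞 K / P₀)` (it does not
depend on `F`).  `P = {z ∈ 𝓞 F | v z < 1}`: a nonzero prime ideal above `P₀`; `𝓞 F / P` is finite.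
Existence: `Gal(F/K)` acts on `𝓞 F` with invariants `𝓞 K` (`Algebra.IsInvariant`), Mathlib
(`NumberTheory/../Frobenius.lean`, `IsArithFrobAt`, `AlgHom.IsArithFrobAt`,
`exists_arithFrobAt..`) gives `s` with `s z - z ^ Q ∈ P` for `z ∈ 𝓞 F`; lift `s` to
`φ ∈ Gal(Ω/K)` (`AlgEquiv.liftNormal`, or `IntermediateField` lifting).
`Frob A F Q φ`: `x = a / c` as in FR1: `φ a ≡ a^Q`, `φ c ≡ c^Q`, `v(c) = v(φ c) = 1`, so
`φ x ≡ x ^ Q`.
Decomposition: `g ∈ Gal(Ω/K)`, `v(g x) = v x` for all `x`.  The restriction `t` of `g` to `F`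
satisfies `t P = P`, and acts on the finite field `𝓞 F / P` as an automorphism over `𝓞 K / P₀`, so as
`z ↦ z ^ (Q ^ j)` for some `j` (`FiniteField`: the Galois group of an extension of finite fields is
generated by the Frobenius, `FiniteField.bijective_frobeniusAlgEquivOfAlgebraic_pow`).  So
`g⁻¹ φ^j` acts trivially on `𝓞 F / P` (if `z ∈ 𝓞 F`: `φ^j z ≡ z^(Q^j) ≡ g z`, and `g⁻¹` preserves
`v`), and `Inert A F (g⁻¹ φ^j)` by FR1.
Last statement: if all the residue classes of `K` are classes of integers then `𝓞 K / P₀` is the image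
of `ℤ`, so `𝔽_q`: `Q = q`.
-/

open NumberField
open scoped Pointwise

namespace H16C

/-! ### general lemmas -/

theorem FR_div_congr {Ω : Type*} [Field Ω] (A : ValuationSubring Ω) {a a' c c' : Ω}
    (ha : A.valuation (a - a') < 1) (hc : A.valuation (c - c') < 1) (ha1 : A.valuation a' ≤ 1)
    (hc1 : A.valuation c' = 1) : A.valuation (a / c - a' / c') < 1 := by
  have hc2 : A.valuation c = 1 := by
    have h := A.valuation.map_add_eq_of_lt_right (x := c - c') (y := c') (by rw [hc1]; exact hc)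
    rw [sub_add_cancel, hc1] at h
    exact h
  have h0 : c ≠ 0 := by
    intro h
    rw [h, map_zero] at hc2
    exact zero_ne_one hc2
  have h0' : c' ≠ 0 := by
    intro h
    rw [h, map_zero] at hc1
    exact zero_ne_one hc1
  have e : a / c - a' / c' = ((a - a') * c' - a' * (c - c')) / (c * c') := by
    field_simp
    ring
  rw [e, map_div₀, map_mul, hc2, hc1, one_mul, div_one]
  refine A.valuation.map_sub_lt ?_ ?_
  · rw [map_mul, hc1, mul_one]
    exact ha
  · rw [map_mul]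
    exact lt_of_le_of_lt (mul_le_of_le_one_left' ha1) hc

theorem FR_pow {K N : Type*} [Field K] [NumberField K] [Field N] [NumberField N] [Algebra K N]
    [IsGalois K N] (v : Ideal (𝓞 K)) [v.IsPrime] (hv0 : v ≠ ⊥) (W : Ideal (𝓞 N)) [W.IsPrime] (hW0 : W ≠ ⊥)
    [hl : W.LiesOver v] [hc : SMulCommClass Gal(N/K) (𝓞 K) (𝓞 N)] (g : Gal(N/K))
    (hg : IsArithFrobAt (𝓞 K) g W)
    (σ : Gal(N/K)) (hσ : σ • W = W) : ∃ n : ℕ, ∀ x : 𝓞 N, (g ^ n) • x - σ • x ∈ W := by
  have hWm : W.IsMaximal := Ideal.IsPrime.isMaximal inferInstance hW0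
  have hpm : v.IsMaximal := Ideal.IsPrime.isMaximal inferInstance hv0
  have hfin : Finite (𝓞 N ⧸ W) := Ideal.finiteQuotientOfFreeOfNeBot _ hW0
  have hfin' : Finite (𝓞 K ⧸ v) := Ideal.finiteQuotientOfFreeOfNeBot _ hv0
  let _ := Ideal.Quotient.field v
  let _ := Ideal.Quotient.field W
  let _ := Fintype.ofFinite (𝓞 K ⧸ v)
  have hgs := hg.mem_stabilizer
  obtain ⟨⟨n, hn⟩, hn2⟩ := (FiniteField.bijective_frobeniusAlgEquivOfAlgebraic_pow (𝓞 K ⧸ v)
    (𝓞 N ⧸ W)).2 (Ideal.Quotient.stabilizerHom W v Gal(N/K) ⟨σ, hσ⟩)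
  have hF : Ideal.Quotient.stabilizerHom W v Gal(N/K) ⟨g, hgs⟩ =
      FiniteField.frobeniusAlgEquivOfAlgebraic (𝓞 K ⧸ v) (𝓞 N ⧸ W) := by
    apply AlgEquiv.ext
    intro y
    obtain ⟨x, rfl⟩ := Ideal.Quotient.mk_surjective y
    rw [FiniteField.coe_frobeniusAlgEquivOfAlgebraic]
    have h1 := hg.mk_apply x
    rw [← hl.over, Nat.card_eq_fintype_card] at h1
    exact h1
  refine ⟨n, fun x => ?_⟩
  have h2 : Ideal.Quotient.stabilizerHom W v Gal(N/K) (⟨g, hgs⟩ ^ n) =
      Ideal.Quotient.stabilizerHom W v Gal(N/K) ⟨σ, hσ⟩ := by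
    rw [map_pow, hF]
    exact hn2
  have h3 := DFunLike.congr_fun h2 (Ideal.Quotient.mk W x)
  exact (Ideal.Quotient.eq (I := W)).1 h3

theorem FR_card {K : Type*} [Field K] [NumberField K] (v : Ideal (𝓞 K)) [v.IsPrime] (hv0 : v ≠ ⊥) :
    2 ≤ Nat.card (𝓞 K ⧸ v) := by
  have hfin' : Finite (𝓞 K ⧸ v) := Ideal.finiteQuotientOfFreeOfNeBot _ hv0
  exact Finite.one_lt_card

theorem FR_card_eq {K : Type*} [Field K] [NumberField K] (v : Ideal (𝓞 K)) [v.IsPrime] {q : ℕ}
    (hq : q.Prime) (hqv : (q : 𝓞 K) ∈ v) (h : ∀ z : 𝓞 K, ∃ m : ℤ, z - m ∈ v) :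
    Nat.card (𝓞 K ⧸ v) = q := by
  have : Fact q.Prime := ⟨hq⟩
  have h0 : ((q : ℕ) : 𝓞 K ⧸ v) = 0 := by
    have := Ideal.Quotient.eq_zero_iff_mem.2 hqv
    rwa [map_natCast] at this
  have hch : CharP (𝓞 K ⧸ v) q := by
    rcases (Nat.dvd_prime hq).1 ((CharP.cast_eq_zero_iff (𝓞 K ⧸ v) (ringChar (𝓞 K ⧸ v)) q).1 h0) with h1 | h1
    · exact absurd h1 (CharP.ringChar_ne_one)
    · rw [← h1]
      exact ringChar.charP _
  have hb : Function.Bijective (ZMod.castHom (dvd_refl q) (𝓞 K ⧸ v)) := by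
    refine ⟨RingHom.injective _, fun y => ?_⟩
    obtain ⟨z, rfl⟩ := Ideal.Quotient.mk_surjective y
    obtain ⟨m, hm⟩ := h z
    refine ⟨(m : ZMod q), ?_⟩
    rw [map_intCast]
    have := (Ideal.Quotient.eq (I := v)).2 hm
    rw [this, map_intCast]
  rw [← Nat.card_congr (Equiv.ofBijective _ hb), Nat.card_zmod]

variable {k : Type*} [Field k] [NumberField k] {Ω : Type*} [Field Ω] [Algebra k Ω] [IsAlgClosed Ω]
  [Algebra.IsAlgebraic k Ω] [CharZero Ω]

/-- An automorphism of `Ω` over `k` which fixes `K` is an automorphism over `K`. -/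
noncomputable def FR_up {K : IntermediateField k Ω} (g : Ω ≃ₐ[k] Ω) (hg : g ∈ K.fixingSubgroup) :
    Ω ≃ₐ[K] Ω :=
  AlgEquiv.ofRingEquiv (f := (g : Ω ≃+* Ω)) (fun x => hg x)

theorem FR_fin (K F : IntermediateField k Ω) (hKF : K ≤ F) [FiniteDimensional k F] :
    FiniteDimensional K (IntermediateField.extendScalars hKF) := by
  have h1 : FiniteDimensional k (IntermediateField.extendScalars hKF) :=
    inferInstanceAs (FiniteDimensional k F)
  exact Module.Finite.of_restrictScalars_finite k K _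

theorem FR_galois (K F : IntermediateField k Ω) (hKF : K ≤ F) [FiniteDimensional k F]
    (hst : ∀ g ∈ K.fixingSubgroup, ∀ x ∈ F, g x ∈ F) :
    IsGalois K (IntermediateField.extendScalars hKF) := by
  have hfin := FR_fin K F hKF
  have hal : Algebra.IsAlgebraic K Ω := Algebra.IsAlgebraic.tower_top (K := k) K
  have hcl : IsAlgClosure K Ω := ⟨inferInstance, hal⟩
  have hno : Normal K Ω := IsAlgClosure.normal K Ω
  have : Normal K (IntermediateField.extendScalars hKF) := by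
    rw [IntermediateField.normal_iff_forall_map_le']
    intro σ
    rintro y ⟨x, hx, rfl⟩
    have hx' : x ∈ F := IntermediateField.mem_extendScalars hKF |>.1 hx
    have h2 := hst (σ.restrictScalars k) (fun z => σ.commutes z) x hx'
    exact (IntermediateField.mem_extendScalars hKF).2 h2
  have : CharZero K := charZero_of_injective_algebraMap (algebraMap k K).injective
  exact { }

theorem FR_lift {K : IntermediateField k Ω} (F : IntermediateField K Ω) [Normal K F] (s : Gal(F/K)) :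
    ∃ φ : Ω ≃ₐ[k] Ω, φ ∈ K.fixingSubgroup ∧ ∀ x : F, φ (x : Ω) = ((s x : F) : Ω) := by
  have hal : Algebra.IsAlgebraic K Ω := Algebra.IsAlgebraic.tower_top (K := k) K
  have hcl : IsAlgClosure K Ω := ⟨inferInstance, hal⟩
  have hno : Normal K Ω := IsAlgClosure.normal K Ω
  refine ⟨(s.liftNormal Ω).restrictScalars k, fun x => (s.liftNormal Ω).commutes x, fun x => ?_⟩
  exact s.liftNormal_commutes Ω x

theorem FR_restr {K : IntermediateField k Ω} (F : IntermediateField K Ω) [Normal K F] (g : Ω ≃ₐ[k] Ω)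
    (hg : g ∈ K.fixingSubgroup) : ∃ s : Gal(F/K), ∀ x : F, ((s x : F) : Ω) = g (x : Ω) :=
  ⟨(FR_up g hg).restrictNormal F, fun x => (FR_up g hg).restrictNormal_commutes F x⟩

theorem FR_under (K : IntermediateField k Ω) (F : IntermediateField K Ω) (A : ValuationSubring Ω) :
    (plc F A).LiesOver (plc K A) := by
  constructor
  ext z
  rw [Ideal.mem_comap, mem_plc, mem_plc]
  rfl

theorem FR_smul {K : IntermediateField k Ω} (F : IntermediateField K Ω) [FiniteDimensional K F] (s : Gal(F/K))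
    (g : Ω ≃ₐ[k] Ω) (h : ∀ x : F, ((s x : F) : Ω) = g (x : Ω)) (z : 𝓞 F) :
    (((s • z : 𝓞 F) : F) : Ω) = g ((z : F) : Ω) := by
  rw [← h]
  rfl

theorem FR_smul_plc {K : IntermediateField k Ω} (F : IntermediateField K Ω) [FiniteDimensional K F] (s : Gal(F/K))
    (g : Ω ≃ₐ[k] Ω) (h : ∀ x : F, ((s x : F) : Ω) = g (x : Ω)) (A : ValuationSubring Ω)
    (hA : ∀ x, A.valuation (g x) = A.valuation x) : s • plc F A = plc F A := by
  have h1 : ∀ z : 𝓞 F, s • z ∈ plc F A ↔ z ∈ plc F A := by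
    intro z
    rw [mem_plc, mem_plc, FR_smul F s g h, hA]
  ext z
  rw [Ideal.mem_pointwise_smul_iff_inv_smul_mem, ← h1 (s⁻¹ • z), smul_inv_smul]

theorem exists_frob (K : IntermediateField k Ω) [FiniteDimensional k K] (A : ValuationSubring Ω)
    (q : ℕ) (hq : q.Prime) (hA : A.valuation (q : Ω) < 1) :
    ∃ Q : ℕ, 2 ≤ Q ∧
      ((∀ x ∈ K, A.valuation x ≤ 1 → ∃ m : ℤ, A.valuation (x - m) < 1) → Q = q) ∧
      ∀ F : IntermediateField k Ω, K ≤ F → FiniteDimensional k F →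
        (∀ g ∈ K.fixingSubgroup, ∀ x ∈ F, g x ∈ F) →
        ∃ φ ∈ K.fixingSubgroup, Frob A F Q φ ∧
          ∀ g ∈ K.fixingSubgroup, (∀ x, A.valuation (g x) = A.valuation x) →
            ∃ j : ℕ, Inert A F (g⁻¹ * φ ^ j) := by
  have hKn : NumberField K := FR_numberField K
  have hv0 : plc K A ≠ ⊥ := plc_ne_bot K hq.ne_zero hA
  refine ⟨Nat.card (𝓞 K ⧸ plc K A), FR_card _ hv0, fun h => ?_, ?_⟩
  · refine FR_card_eq _ hq (natCast_mem_plc K hA) fun z => ?_
    obtain ⟨m, hm⟩ := h ((z : K) : Ω) (z : K).2 (FR_le_one A (FR_isIntegral K z))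
    refine ⟨m, ?_⟩
    rw [mem_plc]
    simpa using hm
  intro F0 hKF hF0 hst
  have hfin := FR_fin K F0 hKF
  have hgal := FR_galois K F0 hKF hst
  set F : IntermediateField K Ω := IntermediateField.extendScalars hKF with hFdef
  have hFn : NumberField F := FR_numberField F
  have hW0 : plc F A ≠ ⊥ := plc_ne_bot F hq.ne_zero hA
  have hl : (plc F A).LiesOver (plc K A) := FR_under K F A
  have hWf : Finite (𝓞 F ⧸ plc F A) := Ideal.finiteQuotientOfFreeOfNeBot _ hW0
  obtain ⟨s, hs⟩ := IsArithFrobAt.exists_of_isInvariant (𝓞 K) Gal(F/K) (plc F A)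
  obtain ⟨φ, hφ, hφs⟩ := FR_lift F s
  have hφs' : ∀ x : F, ((s x : F) : Ω) = φ (x : Ω) := fun x => (hφs x).symm
  have hfr : ∀ x ∈ F0, A.valuation x ≤ 1 → ∃ a c : 𝓞 F, A.valuation ((c : F) : Ω) = 1 ∧
      x = ((a : F) : Ω) / ((c : F) : Ω) := by
    intro x hx hvx
    obtain ⟨a, c, hc, h⟩ := frac_rep_int F A q hq hA (x := ⟨x, hx⟩) hvx
    have hc1 := not_mem_plc.1 hc
    refine ⟨a, c, hc1, ?_⟩
    have hc0 : ((c : F) : Ω) ≠ 0 := by
      intro h0
      rw [h0, map_zero] at hc1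
      exact zero_ne_one hc1
    rw [eq_div_iff hc0]
    have := congrArg (fun z : F => (z : Ω)) h
    simpa using this
  refine ⟨φ, hφ, ?_, ?_⟩
  · intro x hx hvx
    obtain ⟨a, c, hc, rfl⟩ := hfr x hx hvx
    have key : ∀ z : 𝓞 F, A.valuation (φ ((z : F) : Ω) - ((z : F) : Ω) ^ Nat.card (𝓞 K ⧸ plc K A)) < 1 := by
      intro z
      have h1 := hs z
      rw [← hl.over] at h1
      have h2 := mem_plc.1 h1
      have e : (((MulSemiringAction.toAlgHom (𝓞 K) (𝓞 F) s z - z ^ Nat.card (𝓞 K ⧸ plc K A) : 𝓞 F) : F) : Ω) =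
          φ ((z : F) : Ω) - ((z : F) : Ω) ^ Nat.card (𝓞 K ⧸ plc K A) := by
        rw [← FR_smul F s φ hφs' z]
        simp
      rwa [e] at h2
    rw [map_div₀, div_pow]
    refine FR_div_congr A (key a) (key c) ?_ ?_
    · rw [map_pow]
      exact pow_le_one' (FR_le_one A (FR_isIntegral F a)) _
    · rw [map_pow, hc, one_pow]
  · intro g hg hgA
    obtain ⟨t, ht⟩ := FR_restr F g hg
    obtain ⟨j, hj⟩ := FR_pow (plc K A) hv0 (plc F A) hW0 s hs t (FR_smul_plc F t g ht A hgA)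
    refine ⟨j, fun x hx hvx => ?_⟩
    obtain ⟨a, c, hc, rfl⟩ := hfr x hx hvx
    have hpow : ∀ (n : ℕ) (x : F), (((s ^ n) x : F) : Ω) = (φ ^ n) (x : Ω) := by
      intro n
      induction n with
      | zero => intro x; rfl
      | succ n ih =>
        intro x
        rw [pow_succ, pow_succ, AlgEquiv.mul_apply, AlgEquiv.mul_apply, ih, hφs']
    have key : ∀ z : 𝓞 F, A.valuation ((φ ^ j) ((z : F) : Ω) - g ((z : F) : Ω)) < 1 := by
      intro z
      have h2 := mem_plc.1 (hj z)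
      rw [← FR_smul F (s ^ j) (φ ^ j) (hpow j) z, ← FR_smul F t g ht z]
      simpa using h2
    have h3 : A.valuation ((φ ^ j) (((a : F) : Ω) / ((c : F) : Ω)) - g (((a : F) : Ω) / ((c : F) : Ω))) < 1 := by
      rw [map_div₀, map_div₀]
      refine FR_div_congr A (key a) (key c) ?_ ?_
      · rw [hgA]
        exact FR_le_one A (FR_isIntegral F a)
      · rw [hgA, hc]
    rw [← hgA]
    rw [map_sub, AlgEquiv.mul_apply]
    have e : g (g⁻¹ ((φ ^ j) (((a : F) : Ω) / ((c : F) : Ω)))) = (φ ^ j) (((a : F) : Ω) / ((c : F) : Ω)) :=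
      g.apply_symm_apply _
    rw [e]
    exact h3

end H16C
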