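import Pool.Agent.Lib.H16C.FR2

/-!
# RM (M/L): inertia elements in a totally ramified Kummer extension

`L ≤ F` finite over the number field `k`, `F` stable under `Gal(Ω/L)` (so `F/L` is Galois),
`ζ ∈ L` primitive `n`-th root of unity, `δ ∈ F`, `δ^n = d ∈ L`, `v(d) < 1`, and `v(d)` generates the
value group of `L` at `A` (`v = A.valuation`).  `M = L(δ)`, `P = {z ∈ 𝓞 F | v z < 1}`,
`P_M = P ∩ 𝓞 M`, `P_L = P ∩ 𝓞 L`.  `v(δ)^n = v(d)`, so the ramification index `e(P_M / P_L)` is a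
multiple of `n`, `≤ [M : L] ≤ n`: it is `n` and `[M : L] = n`, the residue degree is 1 and `P_M` is the
only prime of `M` above `P_L`.
First proof: `I = ` inertia group of `P` in `Gal(F/L)`; `#I = e(P/P_L)`
(`Ideal.card_inertia_eq_ramificationIdxIn`), the inertia group of `P` in `Gal(F/M)` is
`I ∩ Gal(F/M)` and has order `e(P/P_M) = e(P/P_L)/n` (multiplicativity,
`ramificationIdxIn_mul_ramificationIdxIn`).  The homomorphism `I → ⟨ζ⟩`, `g ↦ g δ / δ` has kernel
`I ∩ Gal(F/M)`, so its image has `n` elements: some `s ∈ I` has `s δ = ζ δ`.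
Second proof: some `h ∈ Gal(F/L)` has `h δ = ζ δ` (`[M : L] = n`, so all `ζ^i δ` are conjugate over
`L`).  `h P` and `P` lie above the same prime of `M` (the only one above `P_L`), so
`u h P = P` for some `u ∈ Gal(F/M)` (transitivity); replace `h` by `u h`.  `h` acts on
`𝓞 F / P` over `𝓞 L / P_L = 𝓞 M / P_M`, and the stabiliser of `P` in `Gal(F/M)` maps onto
`Aut((𝓞 F/P)/(𝓞 M/P_M))` (`Ideal.Quotient.stabilizerHom_surjective`): correct `h` by an element of
`Gal(F/M)` so that it acts trivially on `𝓞 F / P`.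
Lift `s` to `g ∈ Gal(Ω/L)`; `Inert A F g` by FR1 (`x = a / c`).
-/

open NumberField IsDedekindDomain
open scoped Pointwise

namespace H16C

theorem RM_unr {L F : Type*} [Field L] [NumberField L] [Field F] [NumberField F] [Algebra L F] [IsGalois L F]
    (p : Ideal (𝓞 L)) [p.IsPrime] (hp : p ≠ ⊥) (P : Ideal (𝓞 F)) [P.IsPrime] [hl : P.LiesOver p]
    (T : IntermediateField L F) (hT : IsGaloisGroup (P.inertia Gal(F/L)) T F) :
    (P.under (𝓞 T)).ramificationIdx (𝓞 L) = 1 := by
  have inst1 : IsGaloisGroup (P.inertia Gal(F/L)) (𝓞 T) (𝓞 F) := .of_isFractionRing _ _ _ T F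
  have e1 := Ideal.card_inertia_eq_ramificationIdxIn (G := Gal(F/L)) p P
  have e2 := Ideal.card_inertia_eq_ramificationIdxIn (G := P.inertia Gal(F/L)) (P.under (𝓞 T)) P
  have e3 : P.inertia (P.inertia Gal(F/L)) = ⊤ := by
    rw [eq_top_iff]
    intro g _ x
    exact g.2 x
  rw [e3, Ideal.ramificationIdxIn_eq_ramificationIdx (P.under (𝓞 T)) P (P.inertia Gal(F/L))] at e2
  rw [Ideal.ramificationIdxIn_eq_ramificationIdx p P Gal(F/L)] at e1
  have e4 := Ideal.ramificationIdx_tower (R := 𝓞 L) (P.under (𝓞 T)) P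
  have e5 : Nat.card (⊤ : Subgroup (P.inertia Gal(F/L))) = Nat.card (P.inertia Gal(F/L)) :=
    Nat.card_congr Subgroup.topEquiv.toEquiv
  rw [← e1, ← e2, e5] at e4
  have e6 : Nat.card (P.inertia Gal(F/L)) ≠ 0 := Nat.card_pos.ne'
  exact Nat.eq_of_mul_eq_mul_right (Nat.pos_of_ne_zero e6) (by rw [one_mul]; exact e4.symm)

theorem RM_val {L F : Type*} [Field L] [NumberField L] [Field F] [NumberField F] [Algebra L F] [IsGalois L F]
    (p : Ideal (𝓞 L)) [p.IsPrime] (hp : p ≠ ⊥) (P : Ideal (𝓞 F)) [P.IsPrime] (hP : P ≠ ⊥) [hl : P.LiesOver p]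
    (T : IntermediateField L F) (hT : IsGaloisGroup (P.inertia Gal(F/L)) T F) (x : T) (hx : x ≠ 0) :
    ∃ (y : L) (a c : 𝓞 F), y ≠ 0 ∧ a ∉ P ∧ c ∉ P ∧
      (x : F) * algebraMap (𝓞 F) F c = algebraMap L F y * algebraMap (𝓞 F) F a := by
  have hu := RM_unr p hp P T hT
  have hT0 : P.under (𝓞 T) ≠ ⊥ := Ideal.ne_bot_of_liesOver_of_ne_bot hp (P.under (𝓞 T))
  let v : HeightOneSpectrum (𝓞 L) := ⟨p, inferInstance, hp⟩
  let w : HeightOneSpectrum (𝓞 T) := ⟨P.under (𝓞 T), inferInstance, hT0⟩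
  have hwv : w.asIdeal.LiesOver v.asIdeal := inferInstanceAs ((P.under (𝓞 T)).LiesOver p)
  have hr : v.asIdeal.ramificationIdx' w.asIdeal = 1 := by
    rw [Ideal.ramificationIdx'_eq_ramificationIdx]
    · exact hu
    · exact hp
  obtain ⟨y, hy⟩ := v.valuation_surjective L (w.valuation T x)
  have hy1 : w.valuation T (algebraMap L T y) = w.valuation T x := by
    rw [← hy, ← HeightOneSpectrum.valuation_liesOver T v w, hr, pow_one]
  have hwx : w.valuation T x ≠ 0 := (Valuation.ne_zero_iff _).2 hx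
  have hy0 : y ≠ 0 := by
    rintro rfl
    rw [map_zero, map_zero] at hy1
    exact hwx hy1.symm
  have hy0' : algebraMap L T y ≠ 0 := by simpa using hy0
  have hq : w.valuation T (x / algebraMap L T y) = 1 := by
    rw [map_div₀, hy1, div_self hwx]
  obtain ⟨n, d, hnd⟩ := w.exists_primeCompl_mul_eq_of_integer _ hq.le
  have hn : n ∉ w.asIdeal := by
    intro h
    have h1 : w.valuation T (algebraMap (𝓞 T) T n) < 1 := (w.valuation_lt_one_iff_mem (K := T) n).2 h
    rw [← hnd, map_mul, hq, one_mul] at h1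
    exact d.2 ((w.valuation_lt_one_iff_mem (K := T) (d : 𝓞 T)).1 h1)
  refine ⟨y, algebraMap (𝓞 T) (𝓞 F) n, algebraMap (𝓞 T) (𝓞 F) d, hy0, hn, d.2, ?_⟩
  have h2 : x * algebraMap (𝓞 T) T d = algebraMap L T y * algebraMap (𝓞 T) T n := by
    rw [← hnd]
    field_simp
  have h3 := congrArg (algebraMap T F) h2
  rw [map_mul, map_mul] at h3
  exact h3

/-- The Kummer part: some element of the inertia group acts on `δ` as multiplication with `ζ`. -/
theorem RM_kummer {L F : Type*} [Field L] [NumberField L] [Field F] [NumberField F] [Algebra L F] [IsGalois L F]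
    (P : Ideal (𝓞 F)) (n : ℕ) (hn : 0 < n) (ζ : F) (hζ : IsPrimitiveRoot ζ n)
    (ζL : L) (hζL : algebraMap L F ζL = ζ) (δ : F) (d : L) (hδ0 : δ ≠ 0) (hδ : δ ^ n = algebraMap L F d)
    (hkey : ∀ m : ℕ, 0 < m → (∀ g ∈ P.inertia Gal(F/L), g (δ ^ m) = δ ^ m) → n ∣ m) :
    ∃ g ∈ P.inertia Gal(F/L), g δ = ζ * δ := by
  have hne : NeZero n := ⟨hn.ne'⟩
  have hfix : ∀ (g : Gal(F/L)) (u : rootsOfUnity n F), g ((u : Fˣ) : F) = ((u : Fˣ) : F) := by
    intro g u
    have hu : ((u : Fˣ) : F) ^ n = 1 := by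
      rw [← Units.val_pow_eq_pow_val, (mem_rootsOfUnity n _).1 u.2, Units.val_one]
    obtain ⟨i, _, hi⟩ := hζ.eq_pow_of_pow_eq_one hu
    rw [← hi, map_pow, ← hζL, g.commutes]
  let H : Subgroup (rootsOfUnity n F) :=
    { carrier := {u | ∃ g ∈ P.inertia Gal(F/L), g δ = ((u : Fˣ) : F) * δ}
      one_mem' := ⟨1, one_mem _, by simp⟩
      mul_mem' := by
        rintro u u' ⟨g, hg, h⟩ ⟨g', hg', h'⟩
        refine ⟨g * g', mul_mem hg hg', ?_⟩
        rw [AlgEquiv.mul_apply, h', map_mul, hfix, h]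
        push_cast
        ring
      inv_mem' := by
        rintro u ⟨g, hg, h⟩
        refine ⟨g⁻¹, inv_mem hg, ?_⟩
        have h1 : g⁻¹ (g δ) = δ := g.symm_apply_apply δ
        rw [h, map_mul, hfix] at h1
        have h2 : ((u : Fˣ) : F) ≠ 0 := Units.ne_zero _
        have e : (((u⁻¹ : rootsOfUnity n F) : Fˣ) : F) = (((u : rootsOfUnity n F) : Fˣ) : F)⁻¹ := by
          simp
        rw [e]
        field_simp
        rw [mul_comm]
        exact h1 }
  have hfin : Finite H := inferInstance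
  have hm : 0 < Nat.card H := Nat.card_pos
  have h1 : n ∣ Nat.card H := by
    refine hkey _ hm fun g hg => ?_
    have h2 : (g δ / δ) ^ n = 1 := by
      rw [div_pow, ← map_pow, hδ, g.commutes, ← hδ, div_self (pow_ne_zero _ hδ0)]
    have h3 : g δ / δ ≠ 0 := div_ne_zero (by simpa using hδ0) hδ0
    let u : rootsOfUnity n F := ⟨Units.mk0 _ h3, by
      rw [mem_rootsOfUnity]
      ext
      simpa using h2⟩
    have hu : u ∈ H := ⟨g, hg, by
      change g δ = g δ / δ * δ
      field_simp⟩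
    have h4 : (⟨u, hu⟩ : H) ^ Nat.card H = 1 := pow_card_eq_one'
    have h5 : (g δ / δ) ^ Nat.card H = 1 := by
      have h6 : u ^ Nat.card H = 1 := congrArg Subtype.val h4
      have h7 : (Units.mk0 _ h3) ^ Nat.card H = 1 := congrArg Subtype.val h6
      have h8 := congrArg Units.val h7
      rw [Units.val_pow_eq_pow_val] at h8
      exact h8
    rw [div_pow, div_eq_one_iff_eq (pow_ne_zero _ hδ0)] at h5
    rw [map_pow]
    exact h5
  have h2 : Nat.card (rootsOfUnity n F) = n := hζ.card_rootsOfUnity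
  have h3 : H = ⊤ := by
    apply Subgroup.eq_top_of_card_eq
    apply Nat.dvd_antisymm (Subgroup.card_subgroup_dvd_card H)
    rw [h2]
    exact h1
  have h4 : hζ.toRootsOfUnity ∈ H := by
    rw [h3]
    trivial
  obtain ⟨g, hg, h⟩ := h4
  exact ⟨g, hg, by simpa using h⟩

variable {k : Type*} [Field k] [NumberField k] {Ω : Type*} [Field Ω] [Algebra k Ω] [IsAlgClosed Ω]
  [Algebra.IsAlgebraic k Ω] [CharZero Ω]

theorem exists_inert (L F : IntermediateField k Ω) (hLF : L ≤ F) [FiniteDimensional k F]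
    (hst : ∀ g ∈ L.fixingSubgroup, ∀ x ∈ F, g x ∈ F) (A : ValuationSubring Ω) (q : ℕ)
    (hq : q.Prime) (hA : A.valuation (q : Ω) < 1) (n : ℕ) (hn : 0 < n) (ζ : Ω)
    (hζ : IsPrimitiveRoot ζ n) (hζL : ζ ∈ L) (δ d : Ω) (hδ : δ ^ n = d) (hδF : δ ∈ F) (hd : d ∈ L)
    (hd0 : d ≠ 0) (hvd : A.valuation d < 1)
    (hgen : ∀ z ∈ L, z ≠ 0 → ∃ j : ℤ, A.valuation z = A.valuation d ^ j) :
    ∃ g ∈ L.fixingSubgroup, Inert A F g ∧ g δ = ζ * δ := by
  have hLfin : FiniteDimensional k L :=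
    FiniteDimensional.of_injective (IntermediateField.inclusion hLF).toLinearMap
      (IntermediateField.inclusion_injective hLF)
  have hLn : NumberField L := FR_numberField L
  have hfin := FR_fin L F hLF
  have hgal := FR_galois L F hLF hst
  set F' : IntermediateField L Ω := IntermediateField.extendScalars hLF with hFdef
  have hFn : NumberField F' := FR_numberField F'
  have hp0 : plc L A ≠ ⊥ := plc_ne_bot L hq.ne_zero hA
  have hP0 : plc F' A ≠ ⊥ := plc_ne_bot F' hq.ne_zero hA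
  have hl : (plc F' A).LiesOver (plc L A) := FR_under L F' A
  have hδ0 : δ ≠ 0 := by
    rintro rfl
    rw [zero_pow hn.ne'] at hδ
    exact hd0 hδ.symm
  let δ' : F' := ⟨δ, hδF⟩
  let ζ' : F' := algebraMap L F' ⟨ζ, hζL⟩
  have hζ' : IsPrimitiveRoot ζ' n := by
    have : IsPrimitiveRoot (algebraMap F' Ω ζ') n := hζ
    exact IsPrimitiveRoot.of_map_of_injective this (algebraMap F' Ω).injective
  have hδ' : δ' ^ n = algebraMap L F' ⟨d, hd⟩ := by
    apply Subtype.ext
    exact hδ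
  obtain ⟨s, hs, hsδ⟩ := RM_kummer (L := L) (F := F') (plc F' A) n hn ζ' hζ' ⟨ζ, hζL⟩ rfl δ' ⟨d, hd⟩
    (fun h => hδ0 (congrArg Subtype.val h)) hδ' (by
      intro m hm hfix
      have hT := IsGaloisGroup.subgroup Gal(F'/L) L F' ((plc F' A).inertia Gal(F'/L))
      have hmem : δ' ^ m ∈ (FixedPoints.intermediateField ((plc F' A).inertia Gal(F'/L)) : IntermediateField L F') := by
        intro g
        exact hfix g.1 g.2
      obtain ⟨y, a, c, hy0, ha, hc, hyac⟩ := RM_val (plc L A) hp0 (plc F' A) hP0 _ hT ⟨δ' ^ m, hmem⟩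
        (fun h => by
          have h1 := congrArg Subtype.val h
          exact (pow_ne_zero m (fun h' : δ' = 0 => hδ0 (congrArg Subtype.val h'))) h1)
      have ha1 := not_mem_plc.1 ha
      have hc1 := not_mem_plc.1 hc
      have h2 := congrArg (fun z : F' => A.valuation (z : Ω)) hyac
      have h3 : A.valuation (δ ^ m) = A.valuation (y : Ω) := by
        have e1 : A.valuation (δ ^ m) * A.valuation ((c : F') : Ω) = A.valuation (y : Ω) * A.valuation ((a : F') : Ω) := by
          rw [← map_mul, ← map_mul]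
          exact h2
        rwa [ha1, hc1, mul_one, mul_one] at e1
      obtain ⟨j, hj⟩ := hgen (y : Ω) y.2 (fun h => hy0 (Subtype.ext h))
      rw [hj, ← hδ, map_pow, map_pow, ← zpow_natCast, ← zpow_natCast, ← zpow_mul] at h3
      have hvδ0 : A.valuation δ ≠ 0 := (Valuation.ne_zero_iff _).2 hδ0
      have hvδ1 : A.valuation δ < 1 := by
        by_contra hge
        rw [not_lt] at hge
        rw [← hδ, map_pow] at hvd
        exact absurd hvd (not_lt.2 (one_le_pow_of_one_le' hge n))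
      have h4 : ((m : ℕ) : ℤ) = (n : ℤ) * j := by
        rcases lt_trichotomy ((m : ℕ) : ℤ) ((n : ℤ) * j) with h | h | h
        · exact absurd h3 (zpow_lt_zpow_right_of_lt_one₀ (zero_lt_iff.2 hvδ0) hvδ1 h).ne'
        · exact h
        · exact absurd h3 (zpow_lt_zpow_right_of_lt_one₀ (zero_lt_iff.2 hvδ0) hvδ1 h).ne
      exact Int.natCast_dvd_natCast.1 ⟨j, h4⟩)
  obtain ⟨φ, hφ, hφs⟩ := FR_lift F' s
  refine ⟨φ, hφ, ?_, ?_⟩
  · intro x hx hvx
    obtain ⟨a, c, hc, h⟩ := frac_rep_int F' A q hq hA (x := ⟨x, hx⟩) hvx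
    have hc1 := not_mem_plc.1 hc
    have hc0 : ((c : F') : Ω) ≠ 0 := by
      intro h0
      rw [h0, map_zero] at hc1
      exact zero_ne_one hc1
    have hxe : x = ((a : F') : Ω) / ((c : F') : Ω) := by
      rw [eq_div_iff hc0]
      have := congrArg (fun z : F' => (z : Ω)) h
      simpa using this
    have key : ∀ z : 𝓞 F', A.valuation (φ ((z : F') : Ω) - ((z : F') : Ω)) < 1 := by
      intro z
      have h2 := mem_plc.1 (hs z)
      rw [← FR_smul F' s φ (fun x => (hφs x).symm) z]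
      simpa using h2
    rw [hxe, map_div₀]
    exact FR_div_congr A (key a) (key c) (FR_le_one A (FR_isIntegral F' a)) hc1
  · have h1 := hφs δ'
    rw [hsδ] at h1
    exact h1

end H16C
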