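import Pool.Agent.Lib.H16A.M1

/-!
# MW2 (S/M): Mordell-Weil theorem from the weak one (copy of H16A/M2)

The proof of `H16A.Cub.mordell_weil` (file H16A/M2.lean: `m2_par`, `m2_northcott`, `mordell_weil`) for a
general short elliptic curve over a number field: replace `E.Pt K` by `W.Point`,
`E.addSub_sym2x` by `H16A.Cub.M1_gen (W := W) ha1 ha3 two_ne_zero P Q` (H16A/M1.lean, with
`W.a₁ = W.a₃ = 0`: `a₁_of_isShortNF`, `a₃_of_isShortNF`), and `E.m2_elliptic` by the instance.
-/

open WeierstrassCurve NumberField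

namespace H16C

open Height

/-- the naive height -/
noncomputable def mw2_h {L : Type*} [Field L] [AdmissibleAbsValues L]
    {W : WeierstrassCurve.Affine L} (P : W.Point) : ℝ :=
  logHeight P.xRep

theorem mw2_par {L : Type*} [Field L] [NumberField L] [DecidableEq L]
    (W : WeierstrassCurve.Affine L) [W.IsShortNF] [W.IsElliptic] :
    ∃ C : ℝ, ∀ P Q : W.Point,
      |mw2_h (P + Q) + mw2_h (P - Q) - 2 * (mw2_h P + mw2_h Q)| ≤ C := by
  obtain ⟨C₁, h1⟩ := abs_logHeight_addSubMap_sub_two_mul_logHeight_le W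
  obtain ⟨C₂, h2⟩ := abs_logHeight_sym2_sub_le L
  have hx : ∀ P : W.Point, P.xRep = ![P.xRep 0, P.xRep 1] := by
    intro P
    funext i
    fin_cases i <;> rfl
  have h3 : ∀ P Q : W.Point, |logHeight (P.sym2x Q) - (mw2_h P + mw2_h Q)| ≤ C₂ := by
    intro P Q
    have h4 := h2 (a := P.xRep 0) (b := P.xRep 1) (c := Q.xRep 0) (d := Q.xRep 1)
      (by rw [← hx]; exact P.xRep_ne_zero) (by rw [← hx]; exact Q.xRep_ne_zero)
    rw [← hx, ← hx] at h4
    exact h4
  refine ⟨C₁ + 3 * C₂, fun P Q => ?_⟩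
  obtain ⟨t, ht, h5⟩ := H16A.Cub.M1_gen (W := W) (a₁_of_isShortNF W) (a₃_of_isShortNF W)
    two_ne_zero P Q
  have h6 := h1 (P.sym2x Q)
  rw [h5, logHeight_smul_eq_logHeight _ ht] at h6
  have h7 := h3 P Q
  have h8 := h3 (P + Q) (P - Q)
  rw [abs_le] at h6 h7 h8 ⊢
  constructor <;> linarith [h6.1, h6.2, h7.1, h7.2, h8.1, h8.2]

theorem mw2_northcott {L : Type*} [Field L] [NumberField L] (W : WeierstrassCurve.Affine L) :
    Northcott (fun P : W.Point => mw2_h P) := by
  refine ⟨fun B => ?_⟩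
  have h1 := NumberField.finite_setOfPred_logHeight₁_le L B
  have h2 : ((fun x : L => ![x, 1]) '' {x : L | logHeight₁ x ≤ B} ∪ {![1, 0]}).Finite :=
    (h1.image _).union (Set.finite_singleton _)
  refine Set.Finite.subset (Set.Finite.preimage' (f := fun P : W.Point => P.xRep) h2 ?_) ?_
  · intro b _
    by_cases h : ∃ P : W.Point, P.xRep = b
    · obtain ⟨P, rfl⟩ := h
      refine Set.Finite.subset (Set.toFinite {P, -P}) ?_
      intro Q hQ
      exact WeierstrassCurve.Affine.Point.xRep_eq_xRep_iff.1 hQ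
    · refine Set.Finite.subset Set.finite_empty ?_
      intro Q hQ
      exact h ⟨Q, hQ⟩
  · intro P hP
    rcases P with _ | ⟨x, y, h⟩
    · exact Or.inr rfl
    · refine Or.inl ⟨x, ?_, rfl⟩
      change logHeight₁ x ≤ B
      rw [logHeight₁_eq_logHeight]
      exact hP

theorem mordell_weil {L : Type*} [Field L] [NumberField L] [DecidableEq L]
    (W : WeierstrassCurve.Affine L) [W.IsShortNF] [W.IsElliptic]
    (hw : (H16A.twoG W.Point).index ≠ 0) : Module.Finite ℤ W.Point := by
  obtain ⟨C, hC⟩ := mw2_par W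
  have hN := mw2_northcott W
  have h1 : AddGroup.FG W.Point := by
    refine AddCommGroup.fg_of_descent' (h := fun P : W.Point => mw2_h P) (C := C) ⟨hw⟩ ?_ hC
    intro P
    unfold mw2_h
    rw [logHeight_eq_log_mulHeight]
    exact Real.log_nonneg (one_le_mulHeight _)
  exact Module.Finite.iff_addGroup_fg.2 h1

end H16C
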