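import Mathlib

/-!
# RU (S/M): roots of unity modulo a place

`v` a valuation of the field `F`.
`root_unit`: `η^n = 1`, `v(n) = 1`, `v(η - 1) < 1` imply `η = 1`: otherwise
`1 + η + ... + η^(n-1) = 0` (`geom_sum`, `mul_geom_sum`), but this sum is congruent to `n`.
`fixed_of_unit`: `v β = 1`, `γ^n = β^n`, `v(γ - β) < 1`, `v(n) = 1`: `γ = β` (`η = γ/β`).
`val_sub`: `ζ` primitive `n`-th root of unity, `0 < j < n` (or `η^n = 1`, `η ≠ 1`):
`v(n) ≤ v(η - 1)`: `1 + η + ... + η^(n-1) = 0` and `1 + η + ... + η^(n-1) - n` is a multiple of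
`η - 1` by an element with `v ≤ 1` (`v η = 1`).
`root_near`: `v(β^n - 1) < ε^n`, `ζ` primitive `n`-th root of unity: there is `i < n` with
`v(β - ζ^i) < ε`: `β^n - 1 = ∏_i (β - ζ^i)` (`X_pow_sub_one_eq_prod`/`IsPrimitiveRoot`), if all the
factors had `v ≥ ε` the product would have `v ≥ ε^n`.
-/

namespace H16C

variable {F : Type*} [Field F] {Γ : Type*} [LinearOrderedCommGroupWithZero Γ] (v : Valuation F Γ)
  {n : ℕ}

theorem RU_sum_le {η : F} (hη : v η ≤ 1) (m : ℕ) : v (∑ i ∈ Finset.range m, η ^ i) ≤ 1 := by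
  apply Valuation.map_sum_le
  intro i _
  rw [map_pow]
  exact pow_le_one' hη i

theorem val_sub {η : F} (h : η ^ n = 1) (h1 : η ≠ 1) : v (n : F) ≤ v (η - 1) := by
  rcases Nat.eq_zero_or_pos n with rfl | hn
  · rw [Nat.cast_zero, map_zero]
    exact zero_le
  have hη : v η = 1 := by
    have h2 : v η ^ n = 1 := by rw [← map_pow, h, map_one]
    exact (pow_eq_one_iff.mp h2).resolve_right (by omega)
  have h0 : ∑ i ∈ Finset.range n, η ^ i = 0 := by
    have h3 := mul_geom_sum η n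
    rw [h, sub_self] at h3
    exact (mul_eq_zero.mp h3).resolve_left (sub_ne_zero.mpr h1)
  have h4 : (n : F) = -∑ i ∈ Finset.range n, (η ^ i - 1) := by
    rw [Finset.sum_sub_distrib, h0, Finset.sum_const, Finset.card_range, nsmul_eq_mul]
    ring
  rw [h4, Valuation.map_neg]
  apply Valuation.map_sum_le
  intro i _
  rw [← mul_geom_sum, map_mul]
  exact mul_le_of_le_one_right' (RU_sum_le v hη.le i)

theorem root_unit (hn : v (n : F) = 1) {η : F} (h : η ^ n = 1) (h1 : v (η - 1) < 1) : η = 1 := by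
  by_contra h2
  have h3 := val_sub v h h2
  rw [hn] at h3
  exact absurd (lt_of_le_of_lt h3 h1) (lt_irrefl _)

theorem fixed_of_unit (hn : v (n : F) = 1) {β γ : F} (hβ : v β = 1) (h : γ ^ n = β ^ n)
    (h1 : v (γ - β) < 1) : γ = β := by
  have hb : β ≠ 0 := by
    rintro rfl
    rw [map_zero] at hβ
    exact zero_ne_one hβ
  have h2 : (γ / β) ^ n = 1 := by
    rw [div_pow, h, div_self (pow_ne_zero n hb)]
  have h3 : v (γ / β - 1) < 1 := by
    rw [div_sub_one hb, map_div₀, hβ, div_one]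
    exact h1
  have h4 := root_unit v hn h2 h3
  rwa [div_eq_one_iff_eq hb] at h4

theorem root_near (hn : 0 < n) {ζ : F} (hζ : IsPrimitiveRoot ζ n) {β : F} {ε : Γ}
    (h : v (β ^ n - 1) < ε ^ n) : ∃ i < n, v (β - ζ ^ i) < ε := by
  by_contra hc
  push Not at hc
  have hnz : NeZero n := ⟨by omega⟩
  have h1 := hζ.pow_sub_pow_eq_prod_sub_mul β 1 hn
  rw [one_pow] at h1
  rw [h1, map_prod] at h
  have h2 : ε ^ (Polynomial.nthRootsFinset n (1 : F)).card ≤
      ∏ x ∈ Polynomial.nthRootsFinset n (1 : F), v (β - x * 1) := by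
    apply Finset.pow_card_le_prod
    intro x hx
    rw [Polynomial.mem_nthRootsFinset hn] at hx
    obtain ⟨i, hi, rfl⟩ := hζ.eq_pow_of_pow_eq_one hx
    rw [mul_one]
    exact hc i hi
  rw [hζ.card_nthRootsFinset] at h2
  exact absurd (lt_of_le_of_lt h2 h) (lt_irrefl _)

end H16C
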