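import Pool.Agent.Lib.H16C.T3
import Pool.Agent.Lib.H16C.RU

/-!
# SE3 (M): points over `L`; elements that are inert at a good place are in `N`

`mem_L`: `Ω/k` is Galois (`Ω` algebraically closed and algebraic over `k`, characteristic `0`), so
the fixed field of `N = Gal(Ω/L)` is `L` (`InfiniteGalois.fixedField_fixingSubgroup`).
`coord_mem`: `rho W g P = P` for `g ∈ N` means that `g` fixes the coordinates; `mem_L`.
`mem_of_inert`: `v = A.valuation`, `v(b) = 1`, so `v(n) = v(2) = 1` (`6 n ∣ b`; integers have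
`v ≤ 1`), `v(a₄), v(a₆) ≤ 1`, `v(Δ) = 1` (`Bad`).  `g` is inert on `L`.  `ζ, I ∈ L` (`mem_L`,
`S.fix`).  `(g ζ)^n = ζ^n` and `v(g ζ - ζ) < 1`: `g ζ = ζ` (`fixed_of_unit`; `v ζ = 1`).
`g I = ± I`; `- I ≠ I` modulo `v` since `v(2 I) = 1`.  `(2n) • P = 0`, `P ≠ 0`: the
coordinates are in `L` (`S.fix`, `coord_mem`), `v(xc P) ≤ 1` (otherwise `P ∈ E₁`, `tors_inj` for
`2n`), `v(yc P) ≤ 1` by the equation; `g P` has the coordinates `g (xc P)`, `g (yc P)`, congruent to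
those of `P`: `congr_mem`: `g P - P ∈ E₁`, and it is killed by `2n`: `g P = P`.  Conclude by
`S.gen`.
`rho_sub_mem`: `F ∋ xc P, yc P`, `g` inert on `F`: `g P - P ∈ E₁`: if `v(xc P) ≤ 1` as before; if
`v(xc P) > 1`: `z = (xc P)⁻¹ ∈ F`, `v z < 1`, `v(g z) < 1`, so `g P ∈ E₁`, `e1_sub`.
`rho_mem`: `F ∋ xc P`, `Frob A F q φ`, `P ∈ E₁`: `v(φ z) = v(φ z - z^q + z^q) < 1` for
`z = (xc P)⁻¹`.
-/

open WeierstrassCurve

namespace H16C

variable {k : Type*} [Field k] {Ω : Type*} [Field Ω] [Algebra k Ω] [IsAlgClosed Ω]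
  [Algebra.IsAlgebraic k Ω] [CharZero Ω] [DecidableEq Ω] {W : WeierstrassCurve.Affine k}
  [W.IsShortNF] [W.IsElliptic] {n b : ℕ} [NeZero n] (S : Setup W Ω n)

omit [IsAlgClosed Ω] [Algebra.IsAlgebraic k Ω] [CharZero Ω] [W.IsShortNF] [W.IsElliptic] in
theorem SE3_xc (g : Ω ≃ₐ[k] Ω) (P : Pt W Ω) : xc (rho W g P) = g (xc P) := by
  cases P with
  | zero => exact (map_zero g).symm
  | some x y h => rfl

omit [IsAlgClosed Ω] [Algebra.IsAlgebraic k Ω] [CharZero Ω] [W.IsShortNF] [W.IsElliptic] in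
theorem SE3_yc (g : Ω ≃ₐ[k] Ω) (P : Pt W Ω) : yc (rho W g P) = g (yc P) := by
  cases P with
  | zero => exact (map_zero g).symm
  | some x y h => rfl

omit [IsAlgClosed Ω] [Algebra.IsAlgebraic k Ω] [CharZero Ω] [W.IsShortNF] [W.IsElliptic] in
theorem SE3_ne {g : Ω ≃ₐ[k] Ω} {P : Pt W Ω} (h : P ≠ 0) : rho W g P ≠ 0 := by
  cases P with
  | zero => exact absurd rfl h
  | some x y h1 => exact WeierstrassCurve.Affine.Point.some_ne_zero _

omit [W.IsShortNF] [W.IsElliptic] [NeZero n] in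
theorem Setup.mem_L {x : Ω} (h : ∀ g ∈ S.N, g x = x) : x ∈ S.L := by
  have h0 : CharZero k := ((algebraMap k Ω).charZero_iff (algebraMap k Ω).injective).mpr
    inferInstance
  have h1 : IsAlgClosure k Ω := ⟨inferInstance, inferInstance⟩
  have h2 : Normal k Ω := IsAlgClosure.normal k Ω
  have h3 : IsGalois k Ω := { }
  rw [← InfiniteGalois.fixedField_fixingSubgroup S.L, IntermediateField.mem_fixedField_iff]
  exact h

omit [W.IsShortNF] [W.IsElliptic] [NeZero n] in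
theorem Setup.coord_mem {P : Pt W Ω} (h : ∀ g ∈ S.N, rho W g P = P) : xc P ∈ S.L ∧ yc P ∈ S.L := by
  refine ⟨S.mem_L fun g hg => ?_, S.mem_L fun g hg => ?_⟩
  · rw [← SE3_xc, h g hg]
  · rw [← SE3_yc, h g hg]

omit [IsAlgClosed Ω] [Algebra.IsAlgebraic k Ω] [CharZero Ω] [DecidableEq Ω] [Algebra k Ω] in
theorem SE3_dvd {A : ValuationSubring Ω} {b m : ℕ} (hb : A.valuation (b : Ω) = 1) (h : m ∣ b) :
    A.valuation (m : Ω) = 1 := by
  obtain ⟨c, rfl⟩ := h
  rw [Nat.cast_mul, map_mul] at hb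
  refine le_antisymm (R1_nat m) ?_
  rw [← hb]
  exact mul_le_of_le_one_right' (R1_nat c)

omit [IsAlgClosed Ω] [Algebra.IsAlgebraic k Ω] [W.IsElliptic] [NeZero n] in
/-- congruent points -/
theorem SE3_congr (hb : Bad W Ω n b) {A : ValuationSubring Ω} (hAb : A.valuation (b : Ω) = 1)
    {F : IntermediateField k Ω} {g : Ω ≃ₐ[k] Ω} (hg : Inert A F g) {P : Pt W Ω} (hx : xc P ∈ F)
    (hy : yc P ∈ F) (hP : P ≠ 0) (h1 : A.valuation (xc P) ≤ 1) :
    InE1 A.valuation (rho W g P - P) := by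
  obtain ⟨h4, h6, hΔ⟩ := hb.good A hAb
  have hΔ' : A.valuation (WeierstrassCurve.Affine.baseChange W Ω).Δ = 1 := by
    change A.valuation (WeierstrassCurve.map W (algebraMap k Ω)).Δ = 1
    rw [WeierstrassCurve.map_Δ]
    exact hΔ
  have hy1 := R1_y (W := WeierstrassCurve.Affine.baseChange W Ω) h4 h6 hP h1
  have hgx := hg _ hx h1
  have hgy := hg _ hy hy1
  refine congr_mem h4 h6 hΔ' (SE3_ne hP) hP ?_ h1 ?_ ?_
  · rw [SE3_xc]
    have h2 : g (xc P) = (g (xc P) - xc P) + xc P := by ring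
    rw [h2]
    exact A.valuation.map_add_le hgx.le h1
  · rw [SE3_xc]
    exact hgx
  · rw [SE3_yc]
    exact hgy

theorem Setup.mem_of_inert (hb : Bad W Ω n b) {A : ValuationSubring Ω}
    (hAb : A.valuation (b : Ω) = 1) {g : Ω ≃ₐ[k] Ω} (hg : Inert A S.L g) : g ∈ S.N := by
  have hn0 : n ≠ 0 := NeZero.ne n
  have hvn : A.valuation (n : Ω) = 1 := SE3_dvd hAb ((Dvd.intro_left 6 rfl).trans hb.dvd)
  have hv2 : A.valuation ((2 : ℕ) : Ω) = 1 :=
    SE3_dvd hAb (((by norm_num : 2 ∣ 6).trans (Dvd.intro n rfl)).trans hb.dvd)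
  have hv2n : A.valuation ((2 * n : ℕ) : Ω) = 1 := by
    rw [Nat.cast_mul, map_mul, hv2, hvn, one_mul]
  have hfix := S.fix
  have hvζ : A.valuation S.ζ = 1 := by
    have h1 : A.valuation S.ζ ^ n = 1 := by rw [← map_pow, S.hζ.pow_eq_one, map_one]
    exact (pow_eq_one_iff.mp h1).resolve_right hn0
  have hvI : A.valuation S.I = 1 := by
    have h1 : A.valuation S.I ^ 2 = 1 := by
      rw [← map_pow, S.hI, Valuation.map_neg, map_one]
    exact (pow_eq_one_iff.mp h1).resolve_right (by norm_num)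
  have hζL : S.ζ ∈ S.L := S.mem_L fun g hg => (hfix g hg).1
  have hIL : S.I ∈ S.L := S.mem_L fun g hg => (hfix g hg).2.1
  refine S.gen g ?_ ?_ ?_
  · refine fixed_of_unit A.valuation hvn hvζ ?_ (hg _ hζL hvζ.le)
    rw [← map_pow, S.hζ.pow_eq_one, map_one]
  · refine fixed_of_unit A.valuation (n := 2) hv2 hvI ?_ (hg _ hIL hvI.le)
    rw [← map_pow, S.hI, map_neg, map_one]
  · intro P hP
    by_cases hP0 : P = 0
    · rw [hP0, map_zero]
    obtain ⟨h4, h6, hΔ⟩ := hb.good A hAb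
    obtain ⟨hxL, hyL⟩ := S.coord_mem (P := P) fun g hg => (hfix g hg).2.2 P hP
    have hx1 : A.valuation (xc P) ≤ 1 := by
      by_contra hcon
      push Not at hcon
      exact hP0 (tors_inj (W := WeierstrassCurve.Affine.baseChange W Ω) h4 h6 (2 * n) hv2n hP
        (R1_inE1.mpr (Or.inr hcon)))
    have h1 := SE3_congr hb hAb hg hxL hyL hP0 hx1
    have h2 : (2 * n) • (rho W g P - P) = 0 := by
      rw [nsmul_sub, ← map_nsmul, hP, map_zero, sub_zero]
    exact sub_eq_zero.mp (tors_inj (W := WeierstrassCurve.Affine.baseChange W Ω) h4 h6 (2 * n)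
      hv2n h2 h1)

omit [IsAlgClosed Ω] [Algebra.IsAlgebraic k Ω] [CharZero Ω] [W.IsShortNF] [W.IsElliptic] in
theorem SE3_gt {A : ValuationSubring Ω} {g : Ω ≃ₐ[k] Ω} {P : Pt W Ω}
    (h : A.valuation (g (xc P)⁻¹) < 1) (hx : xc P ≠ 0) : InE1 A.valuation (rho W g P) := by
  rw [R1_inE1]
  right
  rw [SE3_xc]
  have h0 : A.valuation (g (xc P)) ≠ 0 := (Valuation.ne_zero_iff _).mpr ((map_ne_zero g).mpr hx)
  rw [map_inv₀, map_inv₀] at h
  exact (inv_lt_one₀ (zero_lt_iff.mpr h0)).mp h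

omit [NeZero n] in
theorem rho_sub_mem (hb : Bad W Ω n b) {A : ValuationSubring Ω} (hAb : A.valuation (b : Ω) = 1)
    {F : IntermediateField k Ω} {g : Ω ≃ₐ[k] Ω} (hg : Inert A F g) {P : Pt W Ω} (hx : xc P ∈ F)
    (hy : yc P ∈ F) : InE1 A.valuation (rho W g P - P) := by
  by_cases hP0 : P = 0
  · rw [hP0, map_zero, sub_zero]
    trivial
  rcases le_or_gt (A.valuation (xc P)) 1 with h1 | h1
  · exact SE3_congr hb hAb hg hx hy hP0 h1
  · obtain ⟨h4, h6, hΔ⟩ := hb.good A hAb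
    have hx0 : xc P ≠ 0 := by
      intro h0
      rw [h0, map_zero] at h1
      exact absurd h1 (not_lt.mpr zero_le)
    have hz : A.valuation (xc P)⁻¹ < 1 := by
      rw [map_inv₀]
      exact inv_lt_one_of_one_lt₀ h1
    have h2 := hg _ (inv_mem hx) hz.le
    have h3 : A.valuation (g (xc P)⁻¹) < 1 := by
      have h5 : g (xc P)⁻¹ = (g (xc P)⁻¹ - (xc P)⁻¹) + (xc P)⁻¹ := by ring
      rw [h5]
      exact A.valuation.map_add_lt h2 hz
    exact e1_sub (W := WeierstrassCurve.Affine.baseChange W Ω) h4 h6 (SE3_gt h3 hx0)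
      (R1_inE1.mpr (Or.inr h1))

omit [IsAlgClosed Ω] [Algebra.IsAlgebraic k Ω] [W.IsShortNF] [W.IsElliptic] [NeZero n] in
theorem rho_mem {A : ValuationSubring Ω} {F : IntermediateField k Ω} {q : ℕ} (hq : 0 < q)
    {g : Ω ≃ₐ[k] Ω} (hg : Frob A F q g) {P : Pt W Ω} (hx : xc P ∈ F)
    (hP : InE1 A.valuation P) : InE1 A.valuation (rho W g P) := by
  rw [R1_inE1] at hP
  rcases hP with hP | h1
  · rw [hP, map_zero]
    trivial
  · have hx0 : xc P ≠ 0 := by
      intro h0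
      rw [h0, map_zero] at h1
      exact absurd h1 (not_lt.mpr zero_le)
    have hz : A.valuation (xc P)⁻¹ < 1 := by
      rw [map_inv₀]
      exact inv_lt_one_of_one_lt₀ h1
    have h2 := hg _ (inv_mem hx) hz.le
    refine SE3_gt ?_ hx0
    have h5 : g (xc P)⁻¹ = (g (xc P)⁻¹ - (xc P)⁻¹ ^ q) + (xc P)⁻¹ ^ q := by ring
    rw [h5]
    refine A.valuation.map_add_lt h2 ?_
    rw [map_pow]
    exact pow_lt_one₀ zero_le hz (by omega)

end H16C
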