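import Pool.Agent.Lib.H16C.MW1
import Pool.Agent.Lib.H16C.MW2
import Pool.Agent.Lib.H16C.SE3

/-!
# MW3 (M): `E(L)/n E(L)` is finite

`E(L)` = the points `P ∈ E(Ω)` with `rho W g P = P` for `g ∈ N`: their coordinates are in `L`
(`Setup.coord_mem`); `L` is a number field (`S.fin`).  The three points `(e_i, 0)`, `e_i` the roots of
`x³ + a₄ x + a₆` in `Ω`, are killed by `2`, so by `2n`, so fixed by `N` (`S.fix`): `e_i ∈ L`.  The
curve `W_L = WeierstrassCurve.Affine.baseChange W S.L` is short and elliptic (instances), so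
`weak_mw` and `mordell_weil` apply: `E(L) = W_L.Point` is finitely generated, and
`E(L)/n E(L)` is finite (a finitely generated abelian group killed by `n > 0`).
`WeierstrassCurve.Affine.Point.map` (inclusion `L → Ω` over `k`) identifies `W_L.Point` with the points
fixed by `N` (a point with coordinates in `L` comes from `W_L.Point`; `Point.map_some`).
`cl P` = the class of `P` (any value for the points that are not over `L`).
-/

open WeierstrassCurve NumberField

namespace H16C

theorem MW3_cubic {Ω : Type*} [Field Ω] [IsAlgClosed Ω] (a b : Ω) : ∃ e : Fin 3 → Ω,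
    ∀ x : Ω, x ^ 3 + a * x + b = (x - e 0) * (x - e 1) * (x - e 2) := by
  obtain ⟨r, hr⟩ : ∃ r : Ω, r ^ 3 + a * r + b = 0 := by
    have h := IsAlgClosed.exists_root (Polynomial.X ^ 3 + Polynomial.C a * Polynomial.X +
      Polynomial.C b : Polynomial Ω) (by
        have : (Polynomial.X ^ 3 + Polynomial.C a * Polynomial.X +
          Polynomial.C b : Polynomial Ω).degree = 3 := by compute_degree!
        rw [this]
        norm_num)
    obtain ⟨r, hr⟩ := h
    refine ⟨r, ?_⟩
    simpa [Polynomial.IsRoot] using hr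
  obtain ⟨s, hs⟩ : ∃ s : Ω, s ^ 2 + r * s + (r ^ 2 + a) = 0 := by
    have h := IsAlgClosed.exists_root (Polynomial.X ^ 2 + Polynomial.C r * Polynomial.X +
      Polynomial.C (r ^ 2 + a) : Polynomial Ω) (by
        have : (Polynomial.X ^ 2 + Polynomial.C r * Polynomial.X +
          Polynomial.C (r ^ 2 + a) : Polynomial Ω).degree = 2 := by compute_degree!
        rw [this]
        norm_num)
    obtain ⟨s, hs⟩ := h
    refine ⟨s, ?_⟩
    simpa [Polynomial.IsRoot] using hs
  refine ⟨![r, s, -r - s], fun x => ?_⟩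
  change x ^ 3 + a * x + b = (x - r) * (x - s) * (x - (-r - s))
  linear_combination hr + (x - r) * hs

section

variable {k : Type*} [Field k] {Ω : Type*} [Field Ω] [Algebra k Ω]
  [DecidableEq Ω] {W : WeierstrassCurve.Affine k}

noncomputable def MW3_map (W : WeierstrassCurve.Affine k) (L : IntermediateField k Ω) :
    Pt W L →+ Pt W Ω := WeierstrassCurve.Affine.Point.map (L.val : L →ₐ[k] Ω)

theorem MW3_xc (L : IntermediateField k Ω) (P : Pt W L) : xc (MW3_map W L P) = ((xc P : L) : Ω) := by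
  cases P with
  | zero => rfl
  | some x y h => rfl

theorem MW3_yc (L : IntermediateField k Ω) (P : Pt W L) : yc (MW3_map W L P) = ((yc P : L) : Ω) := by
  cases P with
  | zero => rfl
  | some x y h => rfl

theorem MW3_ne {L : IntermediateField k Ω} {P : Pt W L} (h : P ≠ 0) : MW3_map W L P ≠ 0 := by
  cases P with
  | zero => exact absurd rfl h
  | some x y h1 => exact WeierstrassCurve.Affine.Point.some_ne_zero _

theorem MW3_fix [W.IsShortNF] {L : IntermediateField k Ω} (P : Pt W L) {g : Ω ≃ₐ[k] Ω}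
    (hg : g ∈ L.fixingSubgroup) : rho W g (MW3_map W L P) = MW3_map W L P := by
  by_cases hP : P = 0
  · rw [hP, map_zero, map_zero]
  · have h1 : ∀ x : L, g (x : Ω) = x := fun x =>
      (IntermediateField.mem_fixingSubgroup_iff L g).1 hg x x.2
    refine pt_ext (SE3_ne (MW3_ne hP)) (MW3_ne hP) ?_ ?_
    · rw [SE3_xc, MW3_xc, h1]
    · rw [SE3_yc, MW3_yc, h1]

theorem MW3_lift [W.IsShortNF] [W.IsElliptic] {L : IntermediateField k Ω} {P : Pt W Ω}
    (hx : xc P ∈ L) (hy : yc P ∈ L) : ∃ Q : Pt W L, MW3_map W L Q = P := by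
  by_cases hP : P = 0
  · exact ⟨0, by rw [hP, map_zero]⟩
  · have h1 := eqn hP
    have h2 : (⟨yc P, hy⟩ : L) ^ 2 = (⟨xc P, hx⟩ : L) ^ 3 +
        (WeierstrassCurve.Affine.baseChange W L).a₄ * (⟨xc P, hx⟩ : L) +
        (WeierstrassCurve.Affine.baseChange W L).a₆ := by
      apply Subtype.ext
      push_cast
      exact h1
    obtain ⟨Q, hQ, hxQ, hyQ⟩ := exists_pt (W := WeierstrassCurve.Affine.baseChange W L) _ _ h2
    refine ⟨Q, pt_ext (MW3_ne hQ) hP ?_ ?_⟩
    · rw [MW3_xc, hxQ]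
    · rw [MW3_yc, hyQ]

end

variable {k : Type*} [Field k] [NumberField k] {Ω : Type*} [Field Ω] [Algebra k Ω] [IsAlgClosed Ω]
  [Algebra.IsAlgebraic k Ω] [CharZero Ω] [DecidableEq Ω] {W : WeierstrassCurve.Affine k}
  [W.IsShortNF] [W.IsElliptic] {n b : ℕ} [NeZero n] {S : Setup W Ω n}

theorem MW3_fg (S : Setup W Ω n) : Module.Finite ℤ (Pt W S.L) := by
  have hfin : FiniteDimensional k S.L := S.fin
  have hnf : NumberField S.L := NumberField.of_module_finite k S.L
  obtain ⟨e, he⟩ := MW3_cubic (WeierstrassCurve.Affine.baseChange W Ω).a₄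
    (WeierstrassCurve.Affine.baseChange W Ω).a₆
  have hmem : ∀ i, e i ∈ S.L := by
    intro i
    obtain ⟨P, hP, hxP, hyP⟩ := exists_pt (W := WeierstrassCurve.Affine.baseChange W Ω) (e i) 0 (by
      rw [he]
      fin_cases i <;> simp)
    have h2 : 2 • P = 0 := (two_smul_eq_zero_iff two_ne_zero hP).2 hyP
    have h3 := S.coord_mem (P := P) fun g hg => (S.fix g hg).2.2 P (by
      rw [mul_comm, mul_smul, h2, smul_zero])
    rw [← hxP]
    exact h3.1
  have hw := weak_mw (WeierstrassCurve.Affine.baseChange W S.L) (fun i => (⟨e i, hmem i⟩ : S.L))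
    (fun x => by
      apply Subtype.ext
      push_cast
      exact he x)
  exact mordell_weil (WeierstrassCurve.Affine.baseChange W S.L) hw

theorem MW3_quot {G : Type*} [AddCommGroup G] [Module.Finite ℤ G] (n : ℕ) (hn : n ≠ 0) :
    Finite (G ⧸ (nsmulAddMonoidHom n : G →+ G).range) := by
  have h1 : AddGroup.FG G := Module.Finite.iff_addGroup_fg.1 inferInstance
  have h2 : AddGroup.FG (G ⧸ (nsmulAddMonoidHom n : G →+ G).range) := inferInstance
  refine AddCommGroup.finite_of_fg_isAddTorsion _ ?_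
  intro x
  obtain ⟨y, rfl⟩ := QuotientAddGroup.mk_surjective x
  rw [isOfFinAddOrder_iff_nsmul_eq_zero]
  refine ⟨n, Nat.pos_of_ne_zero hn, ?_⟩
  rw [← QuotientAddGroup.mk_nsmul, QuotientAddGroup.eq_zero_iff]
  exact ⟨y, rfl⟩

theorem mw_class (S : Setup W Ω n) : ∃ (h : ℕ) (cl : Pt W Ω → Fin h), ∀ P P' : Pt W Ω,
    (∀ g ∈ S.N, rho W g P = P) → (∀ g ∈ S.N, rho W g P' = P') → cl P = cl P' →
      ∃ P₂ : Pt W Ω, (∀ g ∈ S.N, rho W g P₂ = P₂) ∧ P - P' = n • P₂ := by
  classical
  have hfg := MW3_fg S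
  have hq : Finite (Pt W S.L ⧸ (nsmulAddMonoidHom n : Pt W S.L →+ Pt W S.L).range) :=
    MW3_quot n (NeZero.ne n)
  obtain ⟨h, ⟨φ⟩⟩ := Finite.exists_equiv_fin
    (Pt W S.L ⧸ (nsmulAddMonoidHom n : Pt W S.L →+ Pt W S.L).range)
  have hlift : ∀ P : Pt W Ω, (∀ g ∈ S.N, rho W g P = P) → ∃ Q : Pt W S.L, MW3_map W S.L Q = P := by
    intro P hP
    obtain ⟨hx, hy⟩ := S.coord_mem hP
    exact MW3_lift hx hy
  refine ⟨h, fun P => φ (QuotientAddGroup.mk
    (if hP : ∃ Q : Pt W S.L, MW3_map W S.L Q = P then hP.choose else 0)), ?_⟩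
  intro P P' hP hP' hcl
  have h1 := hlift P hP
  have h2 := hlift P' hP'
  rw [φ.apply_eq_iff_eq, dif_pos h1, dif_pos h2, eq_comm, QuotientAddGroup.eq] at hcl
  obtain ⟨R, hR⟩ := hcl
  refine ⟨MW3_map W S.L R, fun g hg => MW3_fix R hg, ?_⟩
  have h3 := h1.choose_spec
  have h4 := h2.choose_spec
  have h5 : h1.choose - h2.choose = n • R := by
    rw [sub_eq_neg_add]
    exact hR.symm
  rw [← h3, ← h4, ← map_sub, h5, map_nsmul]

end H16C
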