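import Pool.Agent.Lib.H16C.FR1
import Pool.Agent.Lib.H16A.V1

/-!
# GE3 (M): the places of `Ω` on a number field; extension of a prime to `Ω`

`F` a subfield of `Ω` of finite degree over the number field `k` (so a number field; instances:
`FiniteDimensional k F` gives `NumberField F`), `A` a valuation subring of `Ω`, `v = A.valuation`.
`val_cases`: `𝔭 = {z ∈ 𝓞 F | v z < 1}` is a prime ideal.  If `𝔭 = 0`: `v z = 1` for `0 ≠ z ∈ 𝓞 F` and
hence for all `0 ≠ x ∈ F` (fractions).  Otherwise let `w` be the corresponding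
`HeightOneSpectrum (𝓞 F)`.  For `0 ≠ x ∈ F`: if `ord_w x ≥ 0` then `x = a/c`, `c ∉ 𝔭`
(`w.valuation F x ≤ 1`; the localisation at `w`), so `v x = v a/v c ≤ 1`; if `ord_w x > 0` then
`a ∈ 𝔭`, so `v x < 1`; apply this to `x` and `x⁻¹`: `v x ≤ 1 ↔ 0 ≤ ord w x`, `v x < 1 ↔ 0 < ord w x`,
`v x = 1 ↔ ord w x = 0`.
(`ord w x = - (w.valuation F x).log`, `w.valuation F x ≠ 0` for `x ≠ 0`.)
`exists_above`: for `w : HeightOneSpectrum (𝓞 F)` there is a valuation subring `A` of `Ω` such that,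
for `0 ≠ x ∈ F`, `v x ≤ 1 ↔ 0 ≤ ord w x`: the local subring of `Ω` image of the localisation
of `𝓞 F` at `w` is dominated by a valuation subring (Mathlib: `LocalSubring.exists_le_valuationSubring`,
`exists_factor_valuationRing`, Zorn); its maximal ideal contracts to `w`, then `val_cases`.
-/

open NumberField IsDedekindDomain H16A

namespace H16C

variable {k : Type*} [Field k] [NumberField k] {Ω : Type*} [Field Ω] [Algebra k Ω]

omit [NumberField k] in
theorem ge3_dom {F : IntermediateField k Ω} [NumberField F] (A : ValuationSubring Ω)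
    (w : HeightOneSpectrum (𝓞 F)) (hw : w.asIdeal = plc F A) {x : F} (hx : x ≠ 0)
    (h : 0 ≤ ord w x) :
    A.valuation (x : Ω) ≤ 1 ∧ (0 < ord w x → A.valuation (x : Ω) < 1) := by
  obtain ⟨a, b, hb, hxab⟩ := exists_div_of_ord_nonneg w h
  have hb1 : A.valuation ((b : F) : Ω) = 1 := by
    rw [hw] at hb
    exact not_mem_plc.1 hb
  have hb0 : (b : F) ≠ 0 := by
    intro h0
    rw [h0, div_zero] at hxab
    exact hx hxab
  have hb0' : b ≠ 0 := by
    intro h0
    apply hb0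
    rw [h0]
    simp
  have hval : A.valuation (x : Ω) = A.valuation ((a : F) : Ω) := by
    have h1 : (x : Ω) * ((b : F) : Ω) = ((a : F) : Ω) := by
      have h2 : x * (b : F) = (a : F) := by rw [hxab, div_mul_cancel₀ _ hb0]
      have := congrArg (fun z : F => (z : Ω)) h2
      simpa using this
    rw [← h1, map_mul, hb1, mul_one]
  refine ⟨by rw [hval]; exact FR_le_one A (FR_isIntegral F a), fun hpos => ?_⟩
  have ha0 : a ≠ 0 := by
    intro h0
    apply hx
    rw [hxab, h0]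
    simp
  have ha0F : (a : F) ≠ 0 := fun h => ha0 (RingOfIntegers.ext h)
  have hob : ord w (b : F) = 0 := by
    have h1 := ord_int_nonneg w b
    have h2 : ¬ 0 < ord w (b : F) := fun h => hb ((ord_int_pos_iff w hb0').1 h)
    omega
  have hoa : 0 < ord w (a : F) := by
    rw [hxab, ord_div w ha0F hb0, hob] at hpos
    omega
  have hmem := (ord_int_pos_iff w ha0).1 hoa
  rw [hw, mem_plc] at hmem
  rw [hval]
  exact hmem

omit [NumberField k] in
theorem ge3_iff {F : IntermediateField k Ω} [NumberField F] (A : ValuationSubring Ω)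
    (w : HeightOneSpectrum (𝓞 F)) (hw : w.asIdeal = plc F A) {x : F} (hx : x ≠ 0) :
    (A.valuation (x : Ω) ≤ 1 ↔ 0 ≤ ord w x) ∧ (A.valuation (x : Ω) < 1 ↔ 0 < ord w x) ∧
      (A.valuation (x : Ω) = 1 ↔ ord w x = 0) := by
  have hxi : x⁻¹ ≠ 0 := inv_ne_zero hx
  have hxO : (x : Ω) ≠ 0 := by
    intro h0
    exact hx (by exact_mod_cast h0)
  have hv0 : A.valuation (x : Ω) ≠ 0 := (Valuation.ne_zero_iff _).2 hxO
  have hinv : A.valuation ((x⁻¹ : F) : Ω) = (A.valuation (x : Ω))⁻¹ := by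
    have h1 : ((x⁻¹ : F) : Ω) = (x : Ω)⁻¹ := by simp
    rw [h1, map_inv₀]
  have h1 := ge3_dom A w hw hx
  have h2 := ge3_dom A w hw hxi
  rw [hinv, ord_inv] at h2
  have hneg : ord w x < 0 → 1 < A.valuation (x : Ω) := by
    intro h
    have h3 := (h2 (by omega)).2 (by omega)
    exact (inv_lt_one₀ (zero_lt_iff.2 hv0)).1 h3
  have hzero : ord w x = 0 → A.valuation (x : Ω) = 1 := by
    intro h
    have h3 := (h2 (by omega)).1
    have h4 := (h1 (by omega)).1
    exact le_antisymm h4 ((inv_le_one₀ (zero_lt_iff.2 hv0)).1 h3)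
  have hposi : 0 < ord w x → A.valuation (x : Ω) < 1 := fun h => (h1 h.le).2 h
  rcases lt_trichotomy (ord w x) 0 with h | h | h
  · have h5 := hneg h
    refine ⟨⟨fun h6 => absurd h6 (not_le.2 h5), fun h6 => absurd h (not_lt.2 h6)⟩,
      ⟨fun h6 => absurd h6 (not_lt.2 h5.le), fun h6 => absurd h (not_lt.2 h6.le)⟩,
      ⟨fun h6 => absurd h6 h5.ne', fun h6 => absurd h6 h.ne⟩⟩
  · have h5 := hzero h
    refine ⟨⟨fun _ => h.ge, fun _ => h5.le⟩, ⟨fun h6 => absurd h5 h6.ne, fun h6 => absurd h h6.ne'⟩,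
      ⟨fun _ => h, fun _ => h5⟩⟩
  · have h5 := hposi h
    refine ⟨⟨fun _ => h.le, fun _ => h5.le⟩, ⟨fun _ => h, fun _ => h5⟩,
      ⟨fun h6 => absurd h6 h5.ne, fun h6 => absurd h6 h.ne'⟩⟩

omit [NumberField k] in
theorem ge3_triv {F : IntermediateField k Ω} [NumberField F] (A : ValuationSubring Ω)
    (hw : plc F A = ⊥) {x : F} (hx : x ≠ 0) : A.valuation (x : Ω) = 1 := by
  have hint : ∀ z : 𝓞 F, z ≠ 0 → A.valuation ((z : F) : Ω) = 1 := by
    intro z hz
    apply not_mem_plc.1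
    rw [hw, Ideal.mem_bot]
    exact hz
  obtain ⟨a, b, hb, hxab⟩ := IsFractionRing.div_surjective (A := 𝓞 F) x
  have hb0 : b ≠ 0 := nonZeroDivisors.ne_zero hb
  have ha0 : a ≠ 0 := by
    intro h0
    apply hx
    rw [← hxab, h0]
    simp
  have h1 : (x : Ω) = ((a : F) : Ω) / ((b : F) : Ω) := by
    have := congrArg (fun z : F => (z : Ω)) hxab
    simpa using this.symm
  rw [h1, map_div₀, hint a ha0, hint b hb0, div_one]

omit [NumberField k] in
theorem val_cases' (F : IntermediateField k Ω) [NumberField F] (A : ValuationSubring Ω) :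
    (∀ x : F, x ≠ 0 → A.valuation (x : Ω) = 1) ∨
    ∃ w : HeightOneSpectrum (𝓞 F), w.asIdeal = plc F A ∧ ∀ x : F, x ≠ 0 →
      (A.valuation (x : Ω) ≤ 1 ↔ 0 ≤ ord w x) ∧ (A.valuation (x : Ω) < 1 ↔ 0 < ord w x) ∧
      (A.valuation (x : Ω) = 1 ↔ ord w x = 0) := by
  by_cases h : plc F A = ⊥
  · exact Or.inl fun x hx => ge3_triv A h hx
  · exact Or.inr ⟨⟨plc F A, inferInstance, h⟩, rfl, fun x hx => ge3_iff A _ rfl hx⟩

theorem val_cases (F : IntermediateField k Ω) [NumberField F] (A : ValuationSubring Ω) :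
    (∀ x : F, x ≠ 0 → A.valuation (x : Ω) = 1) ∨
    ∃ w : HeightOneSpectrum (𝓞 F), ∀ x : F, x ≠ 0 →
      (A.valuation (x : Ω) ≤ 1 ↔ 0 ≤ ord w x) ∧ (A.valuation (x : Ω) < 1 ↔ 0 < ord w x) ∧
      (A.valuation (x : Ω) = 1 ↔ ord w x = 0) := by
  rcases val_cases' F A with h | ⟨w, -, h⟩
  · exact Or.inl h
  · exact Or.inr ⟨w, h⟩

theorem exists_above (F : IntermediateField k Ω) [NumberField F] (w : HeightOneSpectrum (𝓞 F)) :
    ∃ A : ValuationSubring Ω, ∀ x : F, x ≠ 0 →
      (A.valuation (x : Ω) ≤ 1 ↔ 0 ≤ ord w x) ∧ (A.valuation (x : Ω) < 1 ↔ 0 < ord w x) ∧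
      (A.valuation (x : Ω) = 1 ↔ ord w x = 0) := by
  let φ : 𝓞 F →+* Ω := (algebraMap F Ω).comp (algebraMap (𝓞 F) F)
  have hφ : Function.Injective φ := (algebraMap F Ω).injective.comp RingOfIntegers.coe_injective
  let e : 𝓞 F ≃+* φ.range := RingEquiv.ofBijective φ.rangeRestrict
    ⟨fun a b h => hφ (congrArg (fun z : φ.range => (z : Ω)) h), φ.rangeRestrict_surjective⟩
  let I : Ideal φ.range := w.asIdeal.comap e.symm.toRingHom
  have hI : I ≠ ⊤ := by
    intro h
    have h1 : (1 : φ.range) ∈ I := by rw [h]; trivial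
    have h2 : (1 : 𝓞 F) ∈ w.asIdeal := by
      have h3 : e.symm.toRingHom 1 ∈ w.asIdeal := h1
      rwa [map_one] at h3
    exact w.isPrime.ne_top ((Ideal.eq_top_iff_one _).2 h2)
  obtain ⟨A, -, hA⟩ := Ideal.image_subset_nonunits_valuationSubring I hI
  have hle : w.asIdeal ≤ plc F A := by
    intro z hz
    rw [mem_plc]
    have h1 : e z ∈ I := by
      change e.symm (e z) ∈ w.asIdeal
      rwa [e.symm_apply_apply]
    have h2 := hA ⟨e z, h1, rfl⟩
    exact (ValuationSubring.mem_nonunits_iff A).1 h2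
  have hmax : w.asIdeal = plc F A :=
    w.isMaximal.eq_of_le (plc_isPrime F A).ne_top hle
  exact ⟨A, fun x hx => ge3_iff A w hmax hx⟩

end H16C
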