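import Mathlib

/-!
# The Tate-Shafarevich group of an elliptic curve over a number field

`W` is a Weierstrass curve over the number field `K`, `Ω` an algebraic closure of `K`.
`Sha W Ω = ker (H¹(K, E) → ∏_v H¹(K_v, E))`, with continuous cocycles of `Gal(Ω/K)` with values in
`E(Ω)`, and `v` running through all the finite and infinite places of `K`.
-/

open NumberField IsDedekindDomain

namespace H16C

section Sha

variable {K : Type*} [Field K] (W : WeierstrassCurve.Affine K)

open Classical in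
/-- the action of an automorphism of `Ω` over `K` on `E(Ω)` (Mathlib's group of points) -/
noncomputable def act (Ω : Type*) [Field Ω] [Algebra K Ω] (g : Ω ≃ₐ[K] Ω) :
    (WeierstrassCurve.Affine.baseChange W Ω).Point →+
      (WeierstrassCurve.Affine.baseChange W Ω).Point :=
  WeierstrassCurve.Affine.Point.map (g : Ω →ₐ[K] Ω)

variable (Ω : Type*) [Field Ω] [Algebra K Ω]

open Classical in
/-- `c` is a continuous cocycle of `Gal(Ω/K)` with values in `E(Ω)` (a cocycle is continuous if and
only if it vanishes on the open subgroup attached to some finite extension of `K`) -/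
def IsCocycle (c : (Ω ≃ₐ[K] Ω) → (WeierstrassCurve.Affine.baseChange W Ω).Point) : Prop :=
  (∀ g h, c (g * h) = c g + act W Ω g (c h)) ∧
    ∃ F : IntermediateField K Ω, FiniteDimensional K F ∧ ∀ g ∈ F.fixingSubgroup, c g = 0

open Classical in
theorem isCocycle_zero : IsCocycle W Ω 0 :=
  ⟨fun g h => by simp, ⊥, inferInstance, fun g _ => rfl⟩

open Classical in
theorem isCocycle_add {c c' : (Ω ≃ₐ[K] Ω) → (WeierstrassCurve.Affine.baseChange W Ω).Point}
    (hc : IsCocycle W Ω c) (hc' : IsCocycle W Ω c') : IsCocycle W Ω (c + c') := by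
  obtain ⟨h1, F, hF, h2⟩ := hc
  obtain ⟨h1', F', hF', h2'⟩ := hc'
  refine ⟨fun g h => ?_, F ⊔ F', inferInstance, fun g hg => ?_⟩
  · simp only [Pi.add_apply, h1, h1', map_add]
    abel
  · rw [IntermediateField.fixingSubgroup_sup] at hg
    simp only [Pi.add_apply, h2 g hg.1, h2' g hg.2, add_zero]

open Classical in
theorem isCocycle_neg {c : (Ω ≃ₐ[K] Ω) → (WeierstrassCurve.Affine.baseChange W Ω).Point}
    (hc : IsCocycle W Ω c) : IsCocycle W Ω (-c) := by
  obtain ⟨h1, F, hF, h2⟩ := hc
  refine ⟨fun g h => ?_, F, hF, fun g hg => ?_⟩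
  · simp only [Pi.neg_apply, h1, map_neg]
    abel
  · simp only [Pi.neg_apply, h2 g hg, neg_zero]

open Classical in
/-- The cocycle `c` is trivial over the extension `L` of `K` (the completion of `K` at a place): for
every embedding `ι` of `Ω` in an algebraic closure of `L`, the cocycle `σ ↦ ι (c (σ|Ω))` of
`Gal(L^alg/L)` is a coboundary.  (For `σ` there is exactly one `g` with `ι ∘ g = σ ∘ ι`, the
restriction of `σ` to `Ω`: see `exists_restrict`.) -/
def LocTriv (L : Type*) [Field L] [Algebra K L]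
    (c : (Ω ≃ₐ[K] Ω) → (WeierstrassCurve.Affine.baseChange W Ω).Point) : Prop :=
  ∀ ι : Ω →ₐ[K] AlgebraicClosure L,
    ∃ Q : (WeierstrassCurve.Affine.baseChange W (AlgebraicClosure L)).Point,
      ∀ (σ : AlgebraicClosure L ≃ₐ[L] AlgebraicClosure L) (g : Ω ≃ₐ[K] Ω),
        (∀ x, ι (g x) = σ (ι x)) →
          WeierstrassCurve.Affine.Point.map ι (c g) =
            act W (AlgebraicClosure L) (σ.restrictScalars K) Q - Q

open Classical in
theorem locTriv_zero (L : Type*) [Field L] [Algebra K L] : LocTriv W Ω L 0 :=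
  fun ι => ⟨0, fun σ g _ => by simp⟩

open Classical in
theorem locTriv_add (L : Type*) [Field L] [Algebra K L]
    {c c' : (Ω ≃ₐ[K] Ω) → (WeierstrassCurve.Affine.baseChange W Ω).Point}
    (h : LocTriv W Ω L c) (h' : LocTriv W Ω L c') : LocTriv W Ω L (c + c') := by
  intro ι
  obtain ⟨Q, hQ⟩ := h ι
  obtain ⟨Q', hQ'⟩ := h' ι
  refine ⟨Q + Q', fun σ g h => ?_⟩
  rw [Pi.add_apply, map_add, hQ σ g h, hQ' σ g h, map_add]
  abel

open Classical in
theorem locTriv_neg (L : Type*) [Field L] [Algebra K L]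
    {c : (Ω ≃ₐ[K] Ω) → (WeierstrassCurve.Affine.baseChange W Ω).Point}
    (h : LocTriv W Ω L c) : LocTriv W Ω L (-c) := by
  intro ι
  obtain ⟨Q, hQ⟩ := h ι
  refine ⟨-Q, fun σ g h => ?_⟩
  rw [Pi.neg_apply, map_neg, hQ σ g h, map_neg]
  abel

variable [NumberField K]

/-- trivial at all the finite and infinite places of `K` -/
def EverywhereTriv (c : (Ω ≃ₐ[K] Ω) → (WeierstrassCurve.Affine.baseChange W Ω).Point) : Prop :=
  (∀ v : HeightOneSpectrum (𝓞 K), LocTriv W Ω (v.adicCompletion K) c) ∧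
    ∀ v : InfinitePlace K, LocTriv W Ω v.Completion c

open Classical in
theorem everywhereTriv_zero : EverywhereTriv W Ω 0 :=
  ⟨fun _ => locTriv_zero W Ω _, fun _ => locTriv_zero W Ω _⟩

open Classical in
theorem everywhereTriv_add {c c' : (Ω ≃ₐ[K] Ω) → (WeierstrassCurve.Affine.baseChange W Ω).Point}
    (h : EverywhereTriv W Ω c) (h' : EverywhereTriv W Ω c') : EverywhereTriv W Ω (c + c') :=
  ⟨fun v => locTriv_add W Ω _ (h.1 v) (h'.1 v), fun v => locTriv_add W Ω _ (h.2 v) (h'.2 v)⟩

open Classical in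
theorem everywhereTriv_neg {c : (Ω ≃ₐ[K] Ω) → (WeierstrassCurve.Affine.baseChange W Ω).Point}
    (h : EverywhereTriv W Ω c) : EverywhereTriv W Ω (-c) :=
  ⟨fun v => locTriv_neg W Ω _ (h.1 v), fun v => locTriv_neg W Ω _ (h.2 v)⟩

open Classical in
/-- the group of the continuous cocycles that are trivial at all the places -/
noncomputable def ZSha : AddSubgroup
    ((Ω ≃ₐ[K] Ω) → (WeierstrassCurve.Affine.baseChange W Ω).Point) where
  carrier := {c | IsCocycle W Ω c ∧ EverywhereTriv W Ω c}
  zero_mem' := ⟨isCocycle_zero W Ω, everywhereTriv_zero W Ω⟩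
  add_mem' := fun h h' => ⟨isCocycle_add W Ω h.1 h'.1, everywhereTriv_add W Ω h.2 h'.2⟩
  neg_mem' := fun h => ⟨isCocycle_neg W Ω h.1, everywhereTriv_neg W Ω h.2⟩

open Classical in
/-- `c` is the coboundary of a point -/
def IsCoboundary (c : (Ω ≃ₐ[K] Ω) → (WeierstrassCurve.Affine.baseChange W Ω).Point) : Prop :=
  ∃ Q : (WeierstrassCurve.Affine.baseChange W Ω).Point, ∀ g : Ω ≃ₐ[K] Ω, c g = act W Ω g Q - Q

omit [NumberField K] in
open Classical in
theorem isCoboundary_zero : IsCoboundary W Ω 0 := ⟨0, fun g => by simp⟩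

omit [NumberField K] in
open Classical in
theorem isCoboundary_add {c c' : (Ω ≃ₐ[K] Ω) → (WeierstrassCurve.Affine.baseChange W Ω).Point}
    (h : IsCoboundary W Ω c) (h' : IsCoboundary W Ω c') : IsCoboundary W Ω (c + c') := by
  obtain ⟨Q, hQ⟩ := h
  obtain ⟨Q', hQ'⟩ := h'
  refine ⟨Q + Q', fun g => ?_⟩
  rw [Pi.add_apply, hQ, hQ', map_add]
  abel

omit [NumberField K] in
open Classical in
theorem isCoboundary_neg {c : (Ω ≃ₐ[K] Ω) → (WeierstrassCurve.Affine.baseChange W Ω).Point}
    (h : IsCoboundary W Ω c) : IsCoboundary W Ω (-c) := by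
  obtain ⟨Q, hQ⟩ := h
  refine ⟨-Q, fun g => ?_⟩
  rw [Pi.neg_apply, hQ, map_neg]
  abel

open Classical in
/-- the group of the coboundaries of points -/
noncomputable def BSha : AddSubgroup
    ((Ω ≃ₐ[K] Ω) → (WeierstrassCurve.Affine.baseChange W Ω).Point) where
  carrier := {c | IsCoboundary W Ω c}
  zero_mem' := isCoboundary_zero W Ω
  add_mem' := isCoboundary_add W Ω
  neg_mem' := isCoboundary_neg W Ω

open Classical in
/-- the Tate-Shafarevich group of `W` over the number field `K`: the group of the locally trivial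
cocycles modulo the coboundaries -/
def Sha : Type _ := ZSha W Ω ⧸ (BSha W Ω).addSubgroupOf (ZSha W Ω)

open Classical in
noncomputable instance Sha.instAddCommGroup : AddCommGroup (Sha W Ω) :=
  QuotientAddGroup.Quotient.addCommGroup _

end Sha

end H16C
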