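import Pool.Agent.Lib.H16C.D6

/-!
# T1 (M): torsion and divisibility of `E(F)`, `F` algebraically closed of characteristic `0`

`tors_finite`: (any field of characteristic 0) if `n • P = 0`, `P ≠ 0`, let `N = addOrderOf P`,
`2 ≤ N ∣ n`: `psi_order` and `psi_sq` give `(W.ΨSq N)(xc P) = 0`, and `ΨSq N ≠ 0` (`ΨSq_ne_zero`).
So `xc P` is in a finite set and for every `x` there are at most 2 points (`xc_eq`).
`no_common_root`: `F` algebraically closed.  Let `y² = f(x)`, `P = (x, y)` (`exists_pt`).  If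
`ΨSq n (x) = 0` then `psi n = 0` (`psi_sq`), so `n • P = 0` (`smul_eq_zero_of_psi`).  If also
`Φ n (x) = 0` then `psi (n+1) psi (n-1) = 0` (`psi_phi`), so `(n+1) • P = 0` or
(`n ≥ 2`) `(n-1) • P = 0`; so `P = 0`, contradiction.  (`n = 1`: `ΨSq 1 = 1`.)
`xc_smul`: if `k • P ≠ 0` for `0 < k ≤ n`: `psi_main` and `psi_phi`.
`divisible`: `n ≥ 1`.  Let `B` be the finite set of the `xc P` with `P ≠ 0` and `k • P = 0` for some
`0 < k ≤ n`.  For `c ∈ F` the polynomial `h_c = Φ n - c ΨSq n` is monic of degree `n²`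
(`natDegree_Φ`, `leadingCoeff_Φ`, `natDegree_ΨSq_le`).  Let `C` be the set of the `c` such that some
element of `B` is a root of `h_c`: finite, because for `x ∈ B` either `ΨSq n (x) ≠ 0` and
`c = Φ n (x)/ΨSq n (x)` or `Φ n (x) ≠ 0` and there is no such `c` (`no_common_root`).
If `R ≠ 0`, `c = xc R ∉ C`: a root `x'` of `h_c`, `P' = (x', y')` (`exists_pt`), `xc_smul`:
`xc (n • P') ΨSq n (x') = Φ n (x') = c ΨSq n (x')`, so `xc (n • P') = c` and `n • P' = ± R`
(`xc_eq`).  Hence only finitely many points are not in `n E(F)`.  `E(F)` is infinite (`exists_pt`),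
so `n E(F)` is infinite; if `R ∉ n E(F)` then the infinite coset `R + n E(F)` is disjoint from
`n E(F)`, contradiction.
-/

open WeierstrassCurve Polynomial

namespace H16C

variable {F : Type*} [Field F] [DecidableEq F] [CharZero F] (W : WeierstrassCurve.Affine F)
  [W.IsShortNF] [W.IsElliptic]

variable {W} in
omit [DecidableEq F] [CharZero F] [W.IsElliptic] in
theorem T1_fiber (x : F) : {P : W.Point | P ≠ 0 ∧ xc P = x}.Finite := by
  by_cases h : ∃ P : W.Point, P ≠ 0 ∧ xc P = x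
  · obtain ⟨P, hP, hx⟩ := h
    apply Set.Finite.subset (Set.toFinite ({P, -P} : Set W.Point))
    rintro Q ⟨hQ, hxQ⟩
    rcases xc_eq hQ hP (hxQ.trans hx.symm) with h1 | h1
    · exact Or.inl h1
    · exact Or.inr h1
  · convert Set.finite_empty
    ext P
    constructor
    · intro hP
      exact absurd ⟨P, hP⟩ h
    · intro hP
      exact absurd hP (Set.notMem_empty _)

variable {W} in
omit [CharZero F] [W.IsElliptic] in
theorem T1_fin {S : Set F} (hS : S.Finite) : {P : W.Point | P ≠ 0 ∧ xc P ∈ S}.Finite := by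
  apply Set.Finite.subset (hS.biUnion (fun x _ => T1_fiber (W := W) x))
  rintro P ⟨hP, hx⟩
  rw [Set.mem_iUnion₂]
  exact ⟨xc P, hx, hP, rfl⟩

omit [W.IsElliptic] in
theorem tors_finite (n : ℕ) (hn : 0 < n) : {P : W.Point | n • P = 0}.Finite := by
  have h2 : (2 : F) ≠ 0 := two_ne_zero
  have hS : (⋃ N ∈ Finset.Icc 1 n, {x : F | (W.ΨSq N).eval x = 0}).Finite := by
    apply Set.Finite.biUnion (Finset.finite_toSet _)
    intro N hN
    rw [Finset.mem_coe, Finset.mem_Icc] at hN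
    have h0 : W.ΨSq N ≠ 0 := W.ΨSq_ne_zero (by
      rw [Int.cast_natCast]
      exact_mod_cast (by omega : N ≠ 0))
    apply Set.Finite.subset (W.ΨSq N).roots.toFinset.finite_toSet
    intro x hx
    rw [Finset.mem_coe, Multiset.mem_toFinset, mem_roots h0]
    exact hx
  apply Set.Finite.subset ((Set.finite_singleton (0 : W.Point)).union (T1_fin (W := W) hS))
  intro P hP
  by_cases h0 : P = 0
  · exact Or.inl h0
  · right
    refine ⟨h0, ?_⟩
    rw [Set.mem_iUnion₂]
    have hN0 : addOrderOf P ≠ 0 := by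
      intro h1
      rw [addOrderOf_eq_zero_iff'] at h1
      exact h1 n hn hP
    have hN1 : addOrderOf P ≠ 1 := by
      intro h1
      exact h0 (AddMonoid.addOrderOf_eq_one_iff.mp h1)
    have hNn : addOrderOf P ≤ n := addOrderOf_le_of_nsmul_eq_zero hn hP
    refine ⟨addOrderOf P, Finset.mem_Icc.mpr ⟨by omega, hNn⟩, ?_⟩
    have h3 := psi_order h2 h0 (addOrderOf P) (by omega) (fun k hk hk2 h3 =>
      absurd (addOrderOf_le_of_nsmul_eq_zero hk h3) (not_le.mpr hk2)) (addOrderOf_nsmul_eq_zero P)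
    show (W.ΨSq (addOrderOf P : ℕ)).eval (xc P) = 0
    rw [← psi_sq W (eqn h0), h3]
    ring

theorem no_common_root [IsAlgClosed F] (n : ℕ) (hn : 0 < n) (x : F) (h : (W.ΨSq n).eval x = 0) :
    (W.Φ n).eval x ≠ 0 := by
  intro hΦ
  obtain ⟨y, hy⟩ := IsAlgClosed.exists_pow_nat_eq (x ^ 3 + W.a₄ * x + W.a₆) (n := 2) (by norm_num)
  obtain ⟨P, hP, rfl, rfl⟩ := exists_pt x y hy
  rw [← psi_sq W hy, sq_eq_zero_iff] at h
  have h1 : n • P = 0 := smul_eq_zero_of_psi hP n hn h
  rw [← psi_phi W hy, h] at hΦ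
  have h3 : psi W (xc P) (yc P) (n + 1) * psi W (xc P) (yc P) (n - 1) = 0 := by
    linear_combination -hΦ
  rcases mul_eq_zero.mp h3 with h4 | h4
  · have h5 : (n + 1) • P = 0 := smul_eq_zero_of_psi hP (n + 1) (by omega) (by
      rw [Nat.cast_add, Nat.cast_one]
      exact h4)
    rw [succ_nsmul, h1, zero_add] at h5
    exact hP h5
  · obtain ⟨m, rfl⟩ : ∃ m, n = m + 1 := ⟨n - 1, by omega⟩
    rw [Nat.cast_add, Nat.cast_one, add_sub_cancel_right] at h4
    rcases Nat.eq_zero_or_pos m with rfl | hm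
    · rw [zero_add, one_nsmul] at h1
      exact hP h1
    · have h5 : m • P = 0 := smul_eq_zero_of_psi hP m hm h4
      rw [succ_nsmul, h5, zero_add] at h1
      exact hP h1

variable {W} in
omit [W.IsElliptic] in
theorem xc_smul (n : ℕ) (hn : 0 < n) {P : W.Point} (hP : ∀ k : ℕ, 0 < k → k ≤ n → k • P ≠ 0) :
    (W.ΨSq n).eval (xc P) ≠ 0 ∧ xc (n • P) * (W.ΨSq n).eval (xc P) = (W.Φ n).eval (xc P) := by
  have h2 : (2 : F) ≠ 0 := two_ne_zero
  have h0 : P ≠ 0 := by
    have := hP 1 (by norm_num) hn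
    rwa [one_nsmul] at this
  have hE := eqn h0
  obtain ⟨h3, h4⟩ := psi_main h2 h0 (n + 1) (fun k h1 h3 => hP k h1 (Nat.lt_succ_iff.mp h3)) n hn
    (Nat.lt_succ_self n)
  rw [← psi_sq W hE, ← psi_phi W hE]
  refine ⟨pow_ne_zero 2 h3, ?_⟩
  linear_combination -h4

variable {W} in
theorem divisible [IsAlgClosed F] (n : ℕ) (hn : 0 < n) (R : W.Point) : ∃ P : W.Point, n • P = R := by
  by_contra hR
  push Not at hR
  -- the points of small order
  have hB : {P : W.Point | ∃ k : ℕ, 0 < k ∧ k ≤ n ∧ k • P = 0}.Finite := by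
    apply Set.Finite.subset (Set.Finite.biUnion (Finset.finite_toSet (Finset.Icc 1 n))
      (fun k (hk : k ∈ ((Finset.Icc 1 n : Finset ℕ) : Set ℕ)) => tors_finite W k (by
        rw [Finset.mem_coe, Finset.mem_Icc] at hk
        omega)))
    rintro P ⟨k, h1, h2, h3⟩
    rw [Set.mem_iUnion₂]
    exact ⟨k, Finset.mem_coe.mpr (Finset.mem_Icc.mpr ⟨h1, h2⟩), h3⟩
  have hBx : (xc '' {P : W.Point | ∃ k : ℕ, 0 < k ∧ k ≤ n ∧ k • P = 0}).Finite := hB.image _
  -- the exceptional values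
  have hC : {c : F | ∃ x ∈ (xc '' {P : W.Point | ∃ k : ℕ, 0 < k ∧ k ≤ n ∧ k • P = 0}),
      (W.Φ n).eval x = c * (W.ΨSq n).eval x}.Finite := by
    apply Set.Finite.subset (hBx.image (fun x => (W.Φ n).eval x / (W.ΨSq n).eval x))
    rintro c ⟨x, hx, hc⟩
    refine ⟨x, hx, ?_⟩
    have h1 : (W.ΨSq n).eval x ≠ 0 := by
      intro h1
      have h2 := no_common_root W n hn x h1
      rw [hc, h1, mul_zero] at h2
      exact h2 rfl
    show (W.Φ n).eval x / (W.ΨSq n).eval x = c
    rw [hc, mul_div_assoc, div_self h1, mul_one]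
  have hsurj : ∀ Q : W.Point, Q ≠ 0 → xc Q ∉ {c : F | ∃ x ∈
      (xc '' {P : W.Point | ∃ k : ℕ, 0 < k ∧ k ≤ n ∧ k • P = 0}),
      (W.Φ n).eval x = c * (W.ΨSq n).eval x} → ∃ P : W.Point, n • P = Q := by
    intro Q hQ hc
    obtain ⟨c, hcQ⟩ : ∃ c, c = xc Q := ⟨_, rfl⟩
    rw [← hcQ] at hc
    have hdeg : (W.Φ n - C c * W.ΨSq n).degree ≠ 0 := by
      have h1 : (W.Φ n - C c * W.ΨSq n).coeff (n ^ 2) = 1 := by
        have h2 := W.coeff_Φ n
        rw [Int.natAbs_natCast] at h2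
        have h3 : (C c * W.ΨSq n).coeff (n ^ 2) = 0 := by
          apply coeff_eq_zero_of_natDegree_lt
          refine (natDegree_C_mul_le _ _).trans_lt ((W.natDegree_ΨSq_le n).trans_lt ?_)
          rw [Int.natAbs_natCast]
          have : 0 < n ^ 2 := by positivity
          omega
        rw [coeff_sub, h2, h3, sub_zero]
      have h2 : n ^ 2 ≤ (W.Φ n - C c * W.ΨSq n).natDegree :=
        le_natDegree_of_ne_zero (by rw [h1]; exact one_ne_zero)
      have h3 : 0 < n ^ 2 := by positivity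
      intro h4
      have h5 : (W.Φ n - C c * W.ΨSq n).natDegree = 0 := natDegree_eq_of_degree_eq_some h4
      rw [h5] at h2
      omega
    obtain ⟨x, hx⟩ := IsAlgClosed.exists_root _ hdeg
    rw [IsRoot.def, eval_sub, eval_mul, eval_C, sub_eq_zero] at hx
    obtain ⟨y, hy⟩ := IsAlgClosed.exists_pow_nat_eq (x ^ 3 + W.a₄ * x + W.a₆) (n := 2)
      (by norm_num)
    obtain ⟨P, hP, rfl, rfl⟩ := exists_pt x y hy
    have hPk : ∀ k : ℕ, 0 < k → k ≤ n → k • P ≠ 0 := by
      intro k h1 h2 h3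
      exact hc ⟨xc P, ⟨P, ⟨k, h1, h2, h3⟩, rfl⟩, hx⟩
    obtain ⟨h1, h2⟩ := xc_smul n hn hPk
    rw [hx] at h2
    have h3 := mul_right_cancel₀ h1 h2
    rcases xc_eq (hPk n hn le_rfl) hQ (h3.trans hcQ) with h4 | h4
    · exact ⟨P, h4⟩
    · exact ⟨-P, by rw [smul_neg, h4, neg_neg]⟩
  have hbad : {Q : W.Point | ∀ P : W.Point, n • P ≠ Q}.Finite := by
    apply Set.Finite.subset ((Set.finite_singleton (0 : W.Point)).union (T1_fin (W := W) hC))
    intro Q hQ
    by_cases h0 : Q = 0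
    · exact Or.inl h0
    · right
      refine ⟨h0, ?_⟩
      by_contra h1
      obtain ⟨P, hP⟩ := hsurj Q h0 h1
      exact hQ P hP
  have hinf : Infinite W.Point := by
    have h1 : ∀ x : F, ∃ P : W.Point, xc P = x := by
      intro x
      obtain ⟨y, hy⟩ := IsAlgClosed.exists_pow_nat_eq (x ^ 3 + W.a₄ * x + W.a₆) (n := 2)
        (by norm_num)
      obtain ⟨P, -, hP, -⟩ := exists_pt x y hy
      exact ⟨P, hP⟩
    exact Infinite.of_surjective xc h1
  have hrange : (Set.range (fun P : W.Point => n • P)).Infinite := by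
    intro hfin
    apply (Set.infinite_univ (α := W.Point))
    apply (hfin.union hbad).subset
    intro Q _
    by_cases h : ∃ P : W.Point, n • P = Q
    · exact Or.inl h
    · push Not at h
      exact Or.inr h
  apply (hrange.image (f := fun Q => R + Q) (add_right_injective R).injOn)
  apply hbad.subset
  rintro _ ⟨_, ⟨P, rfl⟩, rfl⟩ P' hP'
  apply hR (P' - P)
  change n • P' = R + n • P at hP'
  rw [nsmul_sub, hP']
  abel

end H16C
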