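import Pool.Agent.Lib.H16C.Defs

/-!
# D1 (S/M): the coordinates of `P ± Q` and of `2P`, elementary facts on points

Short curve: `negY x y = - y`, the addition formula: for `x₁ ≠ x₂`, `λ = (y₁ - y₂)/(x₁ - x₂)`,
`x(P + Q) = λ² - x₁ - x₂` (Mathlib: `Point.add_some`, `slope_of_X_ne`, `addX`, `addY`).  With
`y_i² = x_i³ + a₄ x_i + a₆`:
`(x₁-x₂)² (x(P+Q) + x(P-Q)) = (y₁-y₂)² + (y₁+y₂)² - 2(x₁+x₂)(x₁-x₂)² = 2((x₁+x₂)(a₄+x₁x₂) + 2a₆)`,
the product and the difference are the same kind of computation (`field_simp`, `linear_combination`).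
Doubling, `y ≠ 0`: `λ = (3x² + a₄)/(2y)`, `x(2P) = λ² - 2x`, `y(2P) = λ (x - x(2P)) - y`.
`xc_eq`: two points with the same `x` satisfy `y₁² = y₂²`, so `y₁ = y₂` or `y₁ = -y₂`.
-/

open WeierstrassCurve

namespace H16C

variable {F : Type*} [Field F] [DecidableEq F] {W : WeierstrassCurve.Affine F} [W.IsShortNF]

omit [DecidableEq F] in
theorem D1_negY (x y : F) : W.negY x y = -y := by
  rw [WeierstrassCurve.Affine.negY, a₁_of_isShortNF, a₃_of_isShortNF]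
  ring

omit [DecidableEq F] in
theorem D1_equation {x y : F} : W.Equation x y ↔ y ^ 2 = x ^ 3 + W.a₄ * x + W.a₆ := by
  rw [WeierstrassCurve.Affine.equation_iff, a₁_of_isShortNF, a₂_of_isShortNF, a₃_of_isShortNF]
  ring_nf

omit [DecidableEq F] in
theorem eqn {P : W.Point} (hP : P ≠ 0) : yc P ^ 2 = xc P ^ 3 + W.a₄ * xc P + W.a₆ := by
  rcases P with _ | ⟨x, y, h⟩
  · exact absurd rfl hP
  · exact D1_equation.mp h.1

omit [DecidableEq F] in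
theorem xc_neg (P : W.Point) : xc (-P) = xc P := by
  rcases P with _ | ⟨x, y, h⟩
  · rfl
  · rfl

omit [DecidableEq F] in
theorem yc_neg (P : W.Point) : yc (-P) = -yc P := by
  rcases P with _ | ⟨x, y, h⟩
  · change (0 : F) = -0
    rw [neg_zero]
  · exact D1_negY x y

omit [DecidableEq F] in
theorem pt_ext {P Q : W.Point} (hP : P ≠ 0) (hQ : Q ≠ 0) (hx : xc P = xc Q) (hy : yc P = yc Q) :
    P = Q := by
  rcases P with _ | ⟨x, y, h⟩
  · exact absurd rfl hP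
  rcases Q with _ | ⟨x', y', h'⟩
  · exact absurd rfl hQ
  change x = x' at hx
  change y = y' at hy
  subst hx hy
  rfl

omit [DecidableEq F] in
theorem xc_eq {P Q : W.Point} (hP : P ≠ 0) (hQ : Q ≠ 0) (h : xc P = xc Q) : P = Q ∨ P = -Q := by
  have hQ' : -Q ≠ 0 := by
    intro h0
    apply hQ
    rw [← neg_neg Q, h0]
    rfl
  have h1 := eqn hP
  have h2 := eqn hQ
  rw [h, ← h2] at h1
  rcases sq_eq_sq_iff_eq_or_eq_neg.mp h1 with h3 | h3
  · exact Or.inl (pt_ext hP hQ h h3)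
  · right
    apply pt_ext hP hQ'
    · rw [xc_neg, h]
    · rw [yc_neg, h3]

/-- the points of a curve over a field where `f(x)` is a square -/
theorem exists_pt [W.IsElliptic] (x y : F) (h : y ^ 2 = x ^ 3 + W.a₄ * x + W.a₆) :
    ∃ P : W.Point, P ≠ 0 ∧ xc P = x ∧ yc P = y :=
  ⟨WeierstrassCurve.Affine.Point.mk (D1_equation.mpr h),
    WeierstrassCurve.Affine.Point.some_ne_zero _, rfl, rfl⟩

theorem xc_ne {P Q : W.Point} (hP : P ≠ 0) (hQ : Q ≠ 0) (h1 : P + Q ≠ 0) (h2 : P - Q ≠ 0) :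
    xc P ≠ xc Q := by
  intro h
  rcases xc_eq hP hQ h with h3 | h3
  · apply h2
    rw [h3, sub_self]
  · apply h1
    rw [h3, neg_add_cancel]

theorem ne_zero_of_xc_ne {P Q : W.Point} (hP : P ≠ 0) (hQ : Q ≠ 0) (h : xc P ≠ xc Q) :
    P + Q ≠ 0 ∧ P - Q ≠ 0 := by
  constructor
  · intro h1
    apply h
    rw [eq_neg_of_add_eq_zero_left h1, xc_neg]
  · intro h1
    apply h
    rw [sub_eq_zero.mp h1]

/-- the addition formula -/
theorem D1_xc_add {P Q : W.Point} (hP : P ≠ 0) (hQ : Q ≠ 0) (h : xc P ≠ xc Q) :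
    xc (P + Q) = ((yc P - yc Q) / (xc P - xc Q)) ^ 2 - xc P - xc Q := by
  rcases P with _ | ⟨x, y, h1⟩
  · exact absurd rfl hP
  rcases Q with _ | ⟨x', y', h2⟩
  · exact absurd rfl hQ
  change x ≠ x' at h
  rw [WeierstrassCurve.Affine.Point.add_of_X_ne h]
  change W.addX x x' (W.slope x x' y y') = ((y - y') / (x - x')) ^ 2 - x - x'
  rw [WeierstrassCurve.Affine.slope_of_X_ne h, WeierstrassCurve.Affine.addX, a₁_of_isShortNF,
    a₂_of_isShortNF]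
  ring

theorem D1_xc_sub {P Q : W.Point} (hP : P ≠ 0) (hQ : Q ≠ 0) (h : xc P ≠ xc Q) :
    xc (P - Q) = ((yc P + yc Q) / (xc P - xc Q)) ^ 2 - xc P - xc Q := by
  have hQ' : -Q ≠ 0 := neg_ne_zero.mpr hQ
  have h' : xc P ≠ xc (-Q) := by rwa [xc_neg]
  rw [sub_eq_add_neg, D1_xc_add hP hQ' h', xc_neg, yc_neg, sub_neg_eq_add]

theorem xc_add_sub {P Q : W.Point} (hP : P ≠ 0) (hQ : Q ≠ 0) (h : xc P ≠ xc Q) :
    (xc P - xc Q) ^ 2 * (xc (P + Q) + xc (P - Q)) =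
      2 * ((xc P + xc Q) * (W.a₄ + xc P * xc Q) + 2 * W.a₆) := by
  rw [D1_xc_add hP hQ h, D1_xc_sub hP hQ h]
  have h1 := eqn hP
  have h2 := eqn hQ
  have h3 : xc P - xc Q ≠ 0 := sub_ne_zero.mpr h
  have e : (xc P - xc Q) ^ 2 * (((yc P - yc Q) / (xc P - xc Q)) ^ 2 - xc P - xc Q +
      (((yc P + yc Q) / (xc P - xc Q)) ^ 2 - xc P - xc Q)) =
      (yc P - yc Q) ^ 2 + (yc P + yc Q) ^ 2 - 2 * (xc P + xc Q) * (xc P - xc Q) ^ 2 := by
    rw [div_pow, div_pow]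
    field_simp
    ring
  rw [e]
  linear_combination 2 * h1 + 2 * h2

theorem xc_add_mul_sub {P Q : W.Point} (hP : P ≠ 0) (hQ : Q ≠ 0) (h : xc P ≠ xc Q) :
    (xc P - xc Q) ^ 2 * (xc (P + Q) * xc (P - Q)) =
      (xc P * xc Q - W.a₄) ^ 2 - 4 * W.a₆ * (xc P + xc Q) := by
  rw [D1_xc_add hP hQ h, D1_xc_sub hP hQ h]
  have h1 := eqn hP
  have h2 := eqn hQ
  have h3 : xc P - xc Q ≠ 0 := sub_ne_zero.mpr h
  apply mul_left_cancel₀ (pow_ne_zero 2 h3)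
  have e : (xc P - xc Q) ^ 2 * ((xc P - xc Q) ^ 2 *
      ((((yc P - yc Q) / (xc P - xc Q)) ^ 2 - xc P - xc Q) *
      (((yc P + yc Q) / (xc P - xc Q)) ^ 2 - xc P - xc Q))) =
      ((yc P - yc Q) ^ 2 - (xc P + xc Q) * (xc P - xc Q) ^ 2) *
      ((yc P + yc Q) ^ 2 - (xc P + xc Q) * (xc P - xc Q) ^ 2) := by
    rw [div_pow, div_pow]
    field_simp
    ring
  rw [e]
  generalize xc P = x at *
  generalize xc Q = x' at *
  generalize yc P = y at *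
  generalize yc Q = y' at *
  have e1 : ((y - y') ^ 2 - (x + x') * (x - x') ^ 2) * ((y + y') ^ 2 - (x + x') * (x - x') ^ 2)
      = (y ^ 2 - y' ^ 2) ^ 2 - 2 * (y ^ 2 + y' ^ 2) * ((x + x') * (x - x') ^ 2) +
        ((x + x') * (x - x') ^ 2) ^ 2 := by ring
  rw [e1, h1, h2]
  ring

theorem xc_sub_sub_add {P Q : W.Point} (hP : P ≠ 0) (hQ : Q ≠ 0) (h : xc P ≠ xc Q) :
    (xc P - xc Q) ^ 2 * (xc (P - Q) - xc (P + Q)) = 4 * yc P * yc Q := by
  rw [D1_xc_add hP hQ h, D1_xc_sub hP hQ h]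
  have h3 : xc P - xc Q ≠ 0 := sub_ne_zero.mpr h
  rw [div_pow, div_pow]
  field_simp
  ring

theorem D1_two_smul_of_yc_eq_zero {P : W.Point} (hP : P ≠ 0) (hy : yc P = 0) : P = -P := by
  apply pt_ext hP (neg_ne_zero.mpr hP)
  · rw [xc_neg]
  · rw [yc_neg, hy, neg_zero]

theorem two_smul_eq_zero_iff (h2 : (2 : F) ≠ 0) {P : W.Point} (hP : P ≠ 0) :
    2 • P = 0 ↔ yc P = 0 := by
  constructor
  · intro h
    rw [two_nsmul] at h
    have h1 : P = -P := eq_neg_of_add_eq_zero_left h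
    have h3 : yc P = -yc P := by
      rw [← yc_neg, ← h1]
    have h4 : 2 * yc P = 0 := by linear_combination h3
    exact (mul_eq_zero.mp h4).resolve_left h2
  · intro h
    rw [two_nsmul]
    nth_rewrite 2 [D1_two_smul_of_yc_eq_zero hP h]
    exact add_neg_cancel P

theorem D1_dbl (h2 : (2 : F) ≠ 0) {P : W.Point} (hP : P ≠ 0) (hy : yc P ≠ 0) :
    xc (2 • P) = ((3 * xc P ^ 2 + W.a₄) / (2 * yc P)) ^ 2 - 2 * xc P ∧
    yc (2 • P) = ((3 * xc P ^ 2 + W.a₄) / (2 * yc P)) * (xc P - xc (2 • P)) - yc P := by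
  rw [two_nsmul]
  rcases P with _ | ⟨x, y, h1⟩
  · exact absurd rfl hP
  change y ≠ 0 at hy
  have hne : y ≠ W.negY x y := by
    rw [D1_negY]
    intro h
    have h4 : 2 * y = 0 := by linear_combination h
    exact hy ((mul_eq_zero.mp h4).resolve_left h2)
  have hs : W.slope x x y y = (3 * x ^ 2 + W.a₄) / (2 * y) := by
    rw [WeierstrassCurve.Affine.slope_of_Y_ne rfl hne, D1_negY, a₁_of_isShortNF,
      a₂_of_isShortNF]
    congr 1 <;> ring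
  rw [WeierstrassCurve.Affine.Point.add_self_of_Y_ne hne]
  have hx : W.addX x x (W.slope x x y y) = ((3 * x ^ 2 + W.a₄) / (2 * y)) ^ 2 - 2 * x := by
    rw [hs, WeierstrassCurve.Affine.addX, a₁_of_isShortNF, a₂_of_isShortNF]
    ring
  constructor
  · exact hx
  · change W.addY x x y (W.slope x x y y) = ((3 * x ^ 2 + W.a₄) / (2 * y)) *
      (x - W.addX x x (W.slope x x y y)) - y
    rw [WeierstrassCurve.Affine.addY, WeierstrassCurve.Affine.negAddY, D1_negY, hs]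
    ring

theorem xc_dbl (h2 : (2 : F) ≠ 0) {P : W.Point} (hP : P ≠ 0) (hy : yc P ≠ 0) :
    4 * yc P ^ 2 * xc (2 • P) = (xc P ^ 2 - W.a₄) ^ 2 - 8 * W.a₆ * xc P := by
  rw [(D1_dbl h2 hP hy).1]
  have h1 := eqn hP
  have e : 4 * yc P ^ 2 * (((3 * xc P ^ 2 + W.a₄) / (2 * yc P)) ^ 2 - 2 * xc P) =
      (3 * xc P ^ 2 + W.a₄) ^ 2 - 8 * xc P * yc P ^ 2 := by
    rw [div_pow]
    field_simp
    ring
  rw [e, h1]
  ring

theorem yc_dbl (h2 : (2 : F) ≠ 0) {P : W.Point} (hP : P ≠ 0) (hy : yc P ≠ 0) :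
    8 * yc P ^ 3 * yc (2 • P) = xc P ^ 6 + 5 * W.a₄ * xc P ^ 4 + 20 * W.a₆ * xc P ^ 3 -
      5 * W.a₄ ^ 2 * xc P ^ 2 - 4 * W.a₄ * W.a₆ * xc P - 8 * W.a₆ ^ 2 - W.a₄ ^ 3 := by
  have h1 := eqn hP
  have e : 8 * yc P ^ 3 * yc (2 • P) =
      (3 * xc P ^ 2 + W.a₄) * (4 * yc P ^ 2 * xc P - 4 * yc P ^ 2 * xc (2 • P)) -
        8 * (yc P ^ 2) ^ 2 := by
    rw [(D1_dbl h2 hP hy).2]
    field_simp
    ring
  rw [e, xc_dbl h2 hP hy, h1]
  ring

end H16C
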