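import Mathlib

/-!
# TR2 (S/M): the decomposition groups of the infinite places

`L = v.Completion` is isomorphic to `ℝ` or `ℂ` (Mathlib `NumberField.InfinitePlace.Completion`:
`ringEquivRealOfIsReal`, `ringEquivComplexOfIsComplex`).  In both cases every element `x` of
`AlgebraicClosure L` has the form `a + b i` with `a, b ∈ L`, `i² = -1`: transport the statement that
`ℂ = ℝ(i)` is algebraically closed: `L(i) ⊆ AlgebraicClosure L` is isomorphic to `ℂ`, so it is
algebraically closed and equal to `AlgebraicClosure L` (algebraic over it).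
Let `i = ι I`: `σ i = σ(ι I) = ι(g I) = ι I = i`, so `σ = 1`, `ι(g x) = ι x`, `g = 1`.
`exists_restrict`: for every `σ` there is `g` with `ι (g x) = σ (ι x)`: `ι(Ω)` is the set of the
elements of `AlgebraicClosure L` algebraic over `K` (`Ω` algebraically closed, `Ω/K` algebraic), stable
under `σ`; e.g. `AlgHom.restrictNormal` for `σ` on `ι(Ω)`, or: `σ ∘ ι` and `ι` are two embeddings of the
normal extension `Ω/K`, they have the same image.
-/

open NumberField

namespace H16C

theorem TR2_real {L : Type*} [Field L] (e : L ≃+* ℝ) (i : AlgebraicClosure L) (hi : i ^ 2 = -1)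
    (σ : AlgebraicClosure L ≃ₐ[L] AlgebraicClosure L) (hσ : σ i = i) (x : AlgebraicClosure L) :
    σ x = x := by
  let algR : Algebra L ℝ := (e : L →+* ℝ).toAlgebra
  let algC : Algebra L ℂ := ((algebraMap ℝ ℂ).comp (e : L →+* ℝ)).toAlgebra
  have hR : ∀ l : L, algebraMap L ℝ l = e l := fun _ => rfl
  have htow : IsScalarTower L ℝ ℂ := IsScalarTower.of_algebraMap_eq fun _ => rfl
  have h1 : Algebra.IsAlgebraic L ℝ := ⟨fun r => by
    have h2 : r = algebraMap L ℝ (e.symm r) := by rw [hR, RingEquiv.apply_symm_apply]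
    rw [h2]
    exact isAlgebraic_algebraMap _⟩
  have h2 : Algebra.IsAlgebraic L ℂ := Algebra.IsAlgebraic.trans L ℝ ℂ
  have h3 : IsAlgClosure L ℂ := ⟨inferInstance, h2⟩
  let φ : AlgebraicClosure L ≃ₐ[L] ℂ := IsAlgClosure.equiv L _ _
  have hφL : ∀ l : L, φ (algebraMap L _ l) = ((e l : ℝ) : ℂ) := fun l => φ.commutes l
  have hsplit : x = algebraMap L _ (e.symm (φ x).re) + algebraMap L _ (e.symm (φ x).im) *
      φ.symm Complex.I := by
    apply φ.injective
    rw [map_add, map_mul, hφL, hφL, AlgEquiv.apply_symm_apply, RingEquiv.apply_symm_apply,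
      RingEquiv.apply_symm_apply]
    exact (Complex.re_add_im (φ x)).symm
  have hI : φ.symm Complex.I = i ∨ φ.symm Complex.I = -i := by
    have h4 : (φ.symm Complex.I) ^ 2 = i ^ 2 := by
      rw [hi, ← map_pow, Complex.I_sq, map_neg, map_one]
    exact sq_eq_sq_iff_eq_or_eq_neg.1 h4
  have hσI : σ (φ.symm Complex.I) = φ.symm Complex.I := by
    rcases hI with h | h
    · rw [h, hσ]
    · rw [h, map_neg, hσ]
  rw [hsplit, map_add, map_mul, σ.commutes, σ.commutes, hσI]

theorem TR2_complex {L : Type*} [Field L] (e : L ≃+* ℂ)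
    (σ : AlgebraicClosure L ≃ₐ[L] AlgebraicClosure L) (x : AlgebraicClosure L) : σ x = x := by
  let algC : Algebra L ℂ := (e : L →+* ℂ).toAlgebra
  have hC : ∀ l : L, algebraMap L ℂ l = e l := fun _ => rfl
  have h1 : Algebra.IsAlgebraic L ℂ := ⟨fun r => by
    have h2 : r = algebraMap L ℂ (e.symm r) := by rw [hC, RingEquiv.apply_symm_apply]
    rw [h2]
    exact isAlgebraic_algebraMap _⟩
  have h3 : IsAlgClosure L ℂ := ⟨inferInstance, h1⟩
  let φ : AlgebraicClosure L ≃ₐ[L] ℂ := IsAlgClosure.equiv L _ _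
  have hφL : ∀ l : L, φ (algebraMap L _ l) = e l := fun l => φ.commutes l
  have hx : x = algebraMap L _ (e.symm (φ x)) := by
    apply φ.injective
    rw [hφL, RingEquiv.apply_symm_apply]
  rw [hx, σ.commutes]

theorem place_inf {K : Type*} [Field K] [NumberField K] {Ω : Type*} [Field Ω] [Algebra K Ω]
    (v : InfinitePlace K) (ι : Ω →ₐ[K] AlgebraicClosure v.Completion) (I : Ω) (hI : I ^ 2 = -1)
    (σ : AlgebraicClosure v.Completion ≃ₐ[v.Completion] AlgebraicClosure v.Completion)
    (g : Ω ≃ₐ[K] Ω) (h : ∀ x, ι (g x) = σ (ι x)) (hg : g I = I) : g = 1 := by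
  have hσ : ∀ x, σ x = x := by
    intro x
    rcases v.isReal_or_isComplex with hv | hv
    · refine TR2_real (InfinitePlace.Completion.ringEquivRealOfIsReal hv) (ι I) ?_ σ ?_ x
      · rw [← map_pow, hI, map_neg, map_one]
      · rw [← h, hg]
    · exact TR2_complex (InfinitePlace.Completion.ringEquivComplexOfIsComplex hv) σ x
  have hinj : Function.Injective ι := (ι : Ω →+* AlgebraicClosure v.Completion).injective
  ext x
  apply hinj
  rw [h, hσ]
  rfl

theorem exists_restrict {K : Type*} [Field K] {Ω : Type*} [Field Ω] [Algebra K Ω] [IsAlgClosed Ω]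
    [Algebra.IsAlgebraic K Ω] {L : Type*} [Field L] [Algebra K L] (ι : Ω →ₐ[K] AlgebraicClosure L)
    (σ : AlgebraicClosure L ≃ₐ[L] AlgebraicClosure L) :
    ∃! g : Ω ≃ₐ[K] Ω, ∀ x, ι (g x) = σ (ι x) := by
  let alg : Algebra Ω (AlgebraicClosure L) := (ι : Ω →+* AlgebraicClosure L).toAlgebra
  have htow : IsScalarTower K Ω (AlgebraicClosure L) :=
    IsScalarTower.of_algebraMap_eq fun x => (ι.commutes x).symm
  have h1 : IsAlgClosure K Ω := ⟨inferInstance, inferInstance⟩
  have h2 : Normal K Ω := IsAlgClosure.normal K Ω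
  let σ' : AlgebraicClosure L ≃ₐ[K] AlgebraicClosure L := σ.restrictScalars K
  refine ⟨σ'.restrictNormal Ω, fun x => AlgEquiv.restrictNormal_commutes σ' Ω x, ?_⟩
  intro g hg
  have hinj : Function.Injective ι := (ι : Ω →+* AlgebraicClosure L).injective
  ext x
  apply hinj
  rw [hg]
  exact (AlgEquiv.restrictNormal_commutes σ' Ω x).symm

end H16C
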