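import Mathlib

/-!
# TR1 (M): the places of `Ω` attached to the finite places of `K`

`K_v = v.adicCompletion K` is a complete field with a nonarchimedean absolute value
(Mathlib: `NumberField.RingOfIntegers.HeightOneSpectrum` / `FinitePlaces`: `NormedField` instance on
`v.adicCompletion K`, `‖x‖ = adicAbv`-type norm; nontrivially normed; `Valued` completeness).  The
spectral norm `spectralNorm K_v (AlgebraicClosure K_v)` (Mathlib:
`Mathlib/Analysis/Normed/Unbundled/SpectralNorm.lean`) is multiplicative (`spectralNorm_mul`,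
complete case), nonarchimedean (`isNonarchimedean_spectralNorm`), extends the norm
(`spectralNorm_extends`), and is invariant under `σ ∈ Gal(K_v^alg/K_v)` (`spectralNorm_eq_of_equiv`).
`A = {x ∈ Ω | spectralNorm (ι x) ≤ 1}` is a valuation subring of `Ω`, with
`x ∈ A ↔ A.valuation x ≤ 1`, and `A.valuation x = A.valuation y` iff `x/y` and `y/x ∈ A` (or both
are zero).  If `ι ∘ g = σ ∘ ι` then `|ι(g x)| = |σ(ι x)| = |ι x|`, so `g x ∈ A ↔ x ∈ A` and
`g x / x` is a unit of `A`.  `q` = the residue characteristic of `v`: `|q|_v < 1`.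
Other proof: the integral closure of the valuation ring of `K_v` in `AlgebraicClosure K_v` is a
valuation ring because `K_v` is henselian.
-/

open NumberField IsDedekindDomain

namespace H16C

open scoped NNReal WithZero

section

variable {F : Type*} [NontriviallyNormedField F] [IsUltrametricDist F] [CompleteSpace F]
  {L : Type*} [Field L] [Algebra F L] [Algebra.IsAlgebraic F L]

variable (F L) in
/-- the valuation of an algebraic extension of a complete field -/
noncomputable def TR1_val : Valuation L ℝ≥0 where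
  toFun x := ⟨spectralNorm F L x, spectralNorm_nonneg _⟩
  map_zero' := NNReal.eq spectralNorm_zero
  map_one' := NNReal.eq spectralNorm_one
  map_mul' x y := NNReal.eq (map_mul (spectralMulAlgNorm F L) x y)
  map_add_le_max' x y := by
    have h := isNonarchimedean_spectralNorm (K := F) (L := L) x y
    rcases le_max_iff.1 h with h1 | h1
    · exact le_max_of_le_left h1
    · exact le_max_of_le_right h1

theorem TR1_gen {Ω : Type*} [Field Ω] (ι : Ω →+* L) : ∃ A : ValuationSubring Ω,
    (∀ x y : Ω, spectralNorm F L (ι x) = spectralNorm F L (ι y) → A.valuation x = A.valuation y) ∧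
    ∀ x : Ω, spectralNorm F L (ι x) < 1 → A.valuation x < 1 := by
  have h := Valuation.isEquiv_valuation_valuationSubring ((TR1_val F L).comap ι)
  refine ⟨((TR1_val F L).comap ι).valuationSubring, fun x y hxy => ?_, fun x hx => ?_⟩
  · refine h.val_eq.1 ?_
    exact NNReal.eq hxy
  · refine (Valuation.isEquiv_iff_val_lt_one.1 h).1 ?_
    exact hx

end

theorem place_fin {K : Type*} [Field K] [NumberField K] {Ω : Type*} [Field Ω] [Algebra K Ω]
    (v : HeightOneSpectrum (𝓞 K)) (ι : Ω →ₐ[K] AlgebraicClosure (v.adicCompletion K)) :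
    ∃ (A : ValuationSubring Ω) (q : ℕ), q.Prime ∧ A.valuation (q : Ω) < 1 ∧
      ∀ (σ : AlgebraicClosure (v.adicCompletion K) ≃ₐ[v.adicCompletion K]
          AlgebraicClosure (v.adicCompletion K)) (g : Ω ≃ₐ[K] Ω),
        (∀ x, ι (g x) = σ (ι x)) → ∀ x, A.valuation (g x) = A.valuation x := by
  -- the residue characteristic
  obtain ⟨q, hq⟩ := CharP.exists (𝓞 K ⧸ v.asIdeal)
  haveI : Finite (𝓞 K ⧸ v.asIdeal) := Ideal.finiteQuotientOfFreeOfNeBot _ v.ne_bot
  haveI : v.asIdeal.IsPrime := v.isPrime
  haveI : IsDomain (𝓞 K ⧸ v.asIdeal) := Ideal.Quotient.isDomain _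
  have hqp : q.Prime := CharP.char_is_prime (𝓞 K ⧸ v.asIdeal) q
  have hqv : (q : 𝓞 K) ∈ v.asIdeal := by
    rw [← Ideal.Quotient.eq_zero_iff_mem, map_natCast]
    exact CharP.cast_eq_zero _ q
  have hval : Valued.v ((q : ℕ) : v.adicCompletion K) < 1 := by
    have h1 := (v.valuation_lt_one_iff_mem (K := K) (q : 𝓞 K)).2 hqv
    have h2 := v.valuedAdicCompletion_eq_valuation (K := K) (q : 𝓞 K)
    rw [← h2] at h1
    have h3 : ((algebraMap (𝓞 K) (v.adicCompletion K)) (q : 𝓞 K)) = (q : v.adicCompletion K) :=
      map_natCast _ q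
    rw [← h3]
    exact h1
  letI : NontriviallyNormedField (v.adicCompletion K) :=
    Valued.toNontriviallyNormedField (v.adicCompletion K) ℤᵐ⁰
  haveI : IsUltrametricDist (v.adicCompletion K) :=
    Valued.instIsUltrametricDist (v.adicCompletion K) ℤᵐ⁰
  obtain ⟨A, hA1, hA2⟩ := TR1_gen (F := v.adicCompletion K)
    (L := AlgebraicClosure (v.adicCompletion K)) ι.toRingHom
  refine ⟨A, q, hqp, hA2 _ ?_, fun σ g h x => hA1 _ _ ?_⟩
  · have h1 : ι.toRingHom (q : Ω) = algebraMap (v.adicCompletion K)
        (AlgebraicClosure (v.adicCompletion K)) (q : v.adicCompletion K) := by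
      rw [map_natCast, map_natCast]
    rw [h1, spectralNorm_extends]
    exact Valued.toNormedField.norm_lt_one_iff.2 hval
  · change spectralNorm _ _ (ι (g x)) = spectralNorm _ _ (ι x)
    rw [h]
    exact (spectralNorm_eq_of_equiv σ (ι x)).symm

end H16C
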