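import Mathlib

/-!
# H16C: working definitions

Points of the short Weierstrass curve `y² = x³ + a₄ x + a₆`, reduction at a valuation, values of the
division polynomials, the action of the Galois group, corestriction of cocycles, Kummer characters,
the set-up (`Setup`, `Bad`, `Fam`) and the cocycles `w`.  See PROOF.md.
-/

open WeierstrassCurve NumberField IsDedekindDomain

namespace H16C

section Pts

variable {F : Type*} [Field F] {W : WeierstrassCurve.Affine F}

/-- the `x`-coordinate of a point (`0` at the point at infinity) -/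
def xc : W.Point → F
  | 0 => 0
  | .some x _ _ => x

/-- the `y`-coordinate of a point (`0` at the point at infinity) -/
def yc : W.Point → F
  | 0 => 0
  | .some _ y _ => y

/-- `E₁(v)`: the points that reduce to `O` -/
def InE1 {Γ : Type*} [LinearOrderedCommGroupWithZero Γ] (v : Valuation F Γ) : W.Point → Prop
  | 0 => True
  | .some x _ _ => 1 < v x

variable (W) in
/-- the value of the `n`-th division polynomial at `(x, y)` (for a short Weierstrass curve) -/
noncomputable def psi (x y : F) (n : ℤ) : F :=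
  normEDS (2 * y) (W.Ψ₃.eval x) (W.preΨ₄.eval x) n

end Pts

section Cor

variable {G : Type*} [Group G] {M : Type*} [AddCommGroup M] (ρ : G →* AddMonoid.End M)
  (N : Subgroup G) [N.FiniteIndex]

/-- the corestriction to `G` of `f : N → M` (with the section `Quotient.out` of `G → G ⧸ N`) -/
noncomputable def cor (f : G → M) (g : G) : M :=
  ∑ᶠ x : G ⧸ N, ρ x.out (f (x.out⁻¹ * g * (g⁻¹ • x).out))

end Cor

section Kummer

variable {Ω : Type*} [Field Ω] {k : Type*} [Field k] [Algebra k Ω] {n : ℕ}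

open Classical in
/-- the Kummer character: `g β = ζ ^ (kap ζ β g) * β` -/
noncomputable def kap (ζ β : Ω) (g : Ω ≃ₐ[k] Ω) : ZMod n :=
  if h : ∃ j : ZMod n, g β = ζ ^ j.val * β then h.choose else 0

end Kummer

section Places

variable {k : Type*} [Field k] {Ω : Type*} [Field Ω] [Algebra k Ω]

/-- `g` acts trivially on the residue ring of `F` at the place `A` -/
def Inert (A : ValuationSubring Ω) (F : IntermediateField k Ω) (g : Ω ≃ₐ[k] Ω) : Prop :=
  ∀ x ∈ F, A.valuation x ≤ 1 → A.valuation (g x - x) < 1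

/-- `g` acts as `x ↦ x ^ q` on the residue ring of `F` at the place `A` -/
def Frob (A : ValuationSubring Ω) (F : IntermediateField k Ω) (q : ℕ) (g : Ω ≃ₐ[k] Ω) : Prop :=
  ∀ x ∈ F, A.valuation x ≤ 1 → A.valuation (g x - x ^ q) < 1

end Places

section Main

variable {k : Type*} [Field k] {Ω : Type*} [Field Ω] [Algebra k Ω] [DecidableEq Ω]
  (W : WeierstrassCurve.Affine k)

/-- the points over the field `Ω` of the curve `W` over `k` (Mathlib's type of points) -/
abbrev Pt (W : WeierstrassCurve.Affine k) (Ω : Type*) [Field Ω] [Algebra k Ω] : Type _ :=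
  (WeierstrassCurve.Affine.baseChange W Ω).Point

instance short_baseChange {k : Type*} [Field k] (W : WeierstrassCurve.Affine k)
    [W.IsShortNF] (Ω : Type*) [Field Ω] [Algebra k Ω] :
    (WeierstrassCurve.Affine.baseChange W Ω).IsShortNF where
  a₁ := by
    change algebraMap k Ω W.a₁ = 0
    rw [a₁_of_isShortNF, map_zero]
  a₂ := by
    change algebraMap k Ω W.a₂ = 0
    rw [a₂_of_isShortNF, map_zero]
  a₃ := by
    change algebraMap k Ω W.a₃ = 0
    rw [a₃_of_isShortNF, map_zero]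

instance elliptic_baseChange {k : Type*} [Field k] (W : WeierstrassCurve.Affine k)
    [W.IsElliptic] (Ω : Type*) [Field Ω] [Algebra k Ω] :
    (WeierstrassCurve.Affine.baseChange W Ω).IsElliptic :=
  inferInstanceAs (WeierstrassCurve.map W (algebraMap k Ω)).IsElliptic

/-- the action of `Gal(Ω/k)` on `E(Ω)` -/
noncomputable def rho : (Ω ≃ₐ[k] Ω) →* AddMonoid.End (Pt W Ω) where
  toFun g := WeierstrassCurve.Affine.Point.map (g : Ω →ₐ[k] Ω)
  map_one' := by
    ext P
    cases P <;> rfl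
  map_mul' g h := by
    ext P
    cases P <;> rfl

/-- the set-up: `L = k(E[2n], μ_n, √-1)` -/
structure Setup (Ω : Type*) [Field Ω] [Algebra k Ω] [DecidableEq Ω] (n : ℕ) where
  /-- the field `L` -/
  L : IntermediateField k Ω
  fin : FiniteDimensional k L
  stab : ∀ (g : Ω ≃ₐ[k] Ω) (x : Ω), x ∈ L → g x ∈ L
  /-- a primitive `n`-th root of unity -/
  ζ : Ω
  hζ : IsPrimitiveRoot ζ n
  /-- a square root of `-1` -/
  I : Ω
  hI : I ^ 2 = -1
  /-- a point of exact order `n` -/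
  P0 : Pt W Ω
  hP0 : addOrderOf P0 = n
  fix : ∀ g ∈ L.fixingSubgroup, g ζ = ζ ∧ g I = I ∧
    ∀ P : Pt W Ω, (2 * n) • P = 0 → rho W g P = P
  gen : ∀ g : Ω ≃ₐ[k] Ω, g ζ = ζ → g I = I →
    (∀ P : Pt W Ω, (2 * n) • P = 0 → rho W g P = P) → g ∈ L.fixingSubgroup

/-- `b` contains all the bad primes -/
structure Bad (Ω : Type*) [Field Ω] [Algebra k Ω] (n b : ℕ) : Prop where
  ne : b ≠ 0
  dvd : 6 * n ∣ b
  good : ∀ A : ValuationSubring Ω, A.valuation (b : Ω) = 1 →
    A.valuation (algebraMap k Ω W.a₄) ≤ 1 ∧ A.valuation (algebraMap k Ω W.a₆) ≤ 1 ∧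
      A.valuation (algebraMap k Ω W.Δ) = 1

variable {W} {n : ℕ}

namespace Setup

variable (S : Setup W Ω n)

/-- the open normal subgroup `Gal(Ω/L)` -/
abbrev N : Subgroup (Ω ≃ₐ[k] Ω) := S.L.fixingSubgroup

/-- the homomorphism `ℤ/n → E(Ω)`, `1 ↦ P0` -/
noncomputable def e : ZMod n →+ Pt W Ω :=
  ZMod.lift n ⟨zmultiplesHom _ S.P0, by
    have h : n • S.P0 = 0 := by
      have := addOrderOf_nsmul_eq_zero S.P0
      rwa [S.hP0] at this
    simpa using h⟩

/-- the places of `Ω` above `ℓ` at which `a` has the valuation of `ℓ`, `L` has the residue field `𝔽_ℓ`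
and is unramified over `ℓ`, and at which the conjugates of `a` are units -/
structure Loc (l : ℕ) (a : Ω) (A : ValuationSubring Ω) : Prop where
  lt : A.valuation (l : Ω) < 1
  eq : A.valuation a = A.valuation (l : Ω)
  res : ∀ z ∈ S.L, A.valuation z ≤ 1 → ∃ m : ℤ, A.valuation (z - m) < 1
  unr : ∀ z ∈ S.L, z ≠ 0 → ∃ j : ℤ, A.valuation z = A.valuation (l : Ω) ^ j
  conj : ∀ g : Ω ≃ₐ[k] Ω, g ∉ S.N → A.valuation (g a) = 1

end Setup

/-- the family of the primes `ℓ ∈ T` and of the elements `a ℓ = (α ℓ) ^ n` of `L` -/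
structure Fam (S : Setup W Ω n) (b : ℕ) where
  /-- the finite set of primes -/
  T : Finset ℕ
  /-- the auxiliary prime -/
  l₁ : ℕ
  /-- the elements of `L` -/
  a : ℕ → Ω
  /-- their `n`-th roots -/
  α : ℕ → Ω
  prime₁ : l₁.Prime
  prime : ∀ l ∈ T, l.Prime
  not_mem : l₁ ∉ T
  good₁ : ¬ l₁ ∣ b
  good : ∀ l ∈ T, ¬ l ∣ b
  mem : ∀ l ∈ T, a l ∈ S.L
  ne : ∀ l ∈ T, a l ≠ 0
  pow : ∀ l ∈ T, α l ^ n = a l
  val : ∀ l ∈ T, ∀ A : ValuationSubring Ω, A.valuation (a l) = 1 ∨
    (A.valuation (l : Ω) < 1 ∧ A.valuation (a l) = A.valuation (l : Ω)) ∨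
    (A.valuation (l₁ : Ω) < 1 ∧ A.valuation (a l) * A.valuation (l₁ : Ω) = 1)
  one : ∀ l ∈ T, ∀ A : ValuationSubring Ω, A.valuation (b : Ω) < 1 →
    A.valuation (a l - 1) ≤ A.valuation (b : Ω) ^ (n + 1)
  loc : ∀ l ∈ T, ∃ A : ValuationSubring Ω, S.Loc l (a l) A

/-- `d` is admissible for the family: it has the valuation of `ℓ` at all the places above
`ℓ ∈ T ∪ {l₁}` -/
def Fam.Adm {S : Setup W Ω n} {b : ℕ} (Φ : Fam S b) (d : ℕ) : Prop :=
  d ≠ 0 ∧ ∀ A : ValuationSubring Ω, ∀ l ∈ insert Φ.l₁ Φ.T,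
    A.valuation (l : Ω) < 1 → A.valuation (d : Ω) = A.valuation (l : Ω)

variable {S : Setup W Ω n} {b : ℕ}

open Classical in
/-- the homomorphism `N → E[n]` attached to `y` -/
noncomputable def Fam.f (Φ : Fam S b) (y : Φ.T → ZMod n) (g : Ω ≃ₐ[k] Ω) : Pt W Ω :=
  S.e (∑ l : Φ.T, y l * kap S.ζ (Φ.α l) g)

/-- the cocycle `w_y : Gal(Ω/k) → E[n]` -/
noncomputable def Fam.w (Φ : Fam S b) [S.N.FiniteIndex] (y : Φ.T → ZMod n) (g : Ω ≃ₐ[k] Ω) :
    Pt W Ω :=
  cor (rho W) S.N (Φ.f y) g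

/-- the restriction of `w_y` to `Gal(Ω/k(δ))` is the coboundary of `Q` -/
def Fam.Triv (Φ : Fam S b) [S.N.FiniteIndex] (y : Φ.T → ZMod n) (δ : Ω) (Q : Pt W Ω) : Prop :=
  ∀ g : Ω ≃ₐ[k] Ω, g δ = δ → Φ.w y g = rho W g Q - Q

end Main

end H16C
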