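import Pool.Agent.Lib.H16C.D5

/-!
# D6 (S/M): `ψ_m(P) = 0` implies `mP = O`

If `P` has infinite order: `psi_main`.  Let `N ≥ 2` be the exact order of `P` (`addOrderOf P`),
`g_k = psi W x y k`: `g_k ≠ 0` for `0 < k < N` (`psi_main`), `g_N = 0` (`psi_order`).
(1) `g_{N+1} ≠ 0`.  `N = 2`: `y = 0` and, with `a₆ = -x³ - a₄ x`, `g_3 = -(3x² + a₄)²`
(`psi_three`); `3x² + a₄ ≠ 0` because `Δ = -16(4a₄³ + 27a₆²) ≠ 0` (if `3x² + a₄ = 0` then
`a₆ = 2x³`, `a₄ = -3x²`, `Δ = 0`).  `N = 3`: `2P = -P`, `y(2P) = -y ≠ 0`, and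
`g_4 = 4y · (...) = 4y · 8y³ y(2P) = -32 y⁵ ≠ 0` (`psi_four`, `yc_dbl`).  `N ≥ 4`: `ell_rel` for
`(N-1, 2)`: `g_{N+1} g_{N-3} = g_N g_{N-2} g_2² - g_3 g_1 g_{N-1}² = - g_3 g_{N-1}² ≠ 0`.
(2) Suppose `g_m = 0`, `m > 0`, `N ∤ m`, `m` minimal.  Then `m > N`.  If `m < 2N`: `ell_rel` for
`(N, m - N)`: `g_m g_{2N-m} = g_{N+1} g_{N-1} g_{m-N}² - g_{m-N+1} g_{m-N-1} g_N² ≠ 0` (as
`g_N = 0`), contradiction.  If `m > 2N`: `ell_rel` for `(m - N, N)`:
`0 = g_m g_{m-2N} = g_{m-N+1} g_{m-N-1} g_N² - g_{N+1} g_{N-1} g_{m-N}²`, so `g_{m-N} = 0`, and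
`N ∣ m - N` by minimality.
-/

open WeierstrassCurve

namespace H16C

variable {F : Type*} [Field F] [DecidableEq F] [CharZero F] {W : WeierstrassCurve.Affine F}
  [W.IsShortNF] [W.IsElliptic]

omit [DecidableEq F] [CharZero F] in
theorem D6_deriv {x y : F} (h : y ^ 2 = x ^ 3 + W.a₄ * x + W.a₆) (hy : y = 0) :
    3 * x ^ 2 + W.a₄ ≠ 0 := by
  intro h0
  apply W.isUnit_Δ.ne_zero
  rw [W.Δ_of_isShortNF]
  rw [hy] at h
  have h1 : W.a₄ = -3 * x ^ 2 := by linear_combination h0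
  have h2 : W.a₆ = 2 * x ^ 3 := by
    rw [h1] at h
    linear_combination -h
  rw [h1, h2]
  ring

/-- the facts on the values at a point of exact order `N ≥ 2` -/
theorem D6_succ {P : W.Point} (hP : P ≠ 0) (N : ℕ) (hN2 : 2 ≤ N)
    (hN : ∀ k : ℕ, 0 < k → k < N → k • P ≠ 0) (hNP : N • P = 0) :
    psi W (xc P) (yc P) (N + 1) ≠ 0 := by
  have h2 : (2 : F) ≠ 0 := two_ne_zero
  have hE := eqn hP
  have hN0 := psi_order h2 hP N hN2 hN hNP
  have hne : ∀ k : ℕ, 0 < k → k < N → psi W (xc P) (yc P) k ≠ 0 := fun k h1 h3 =>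
    (psi_main h2 hP N hN k h1 h3).1
  rcases Nat.lt_or_ge N 4 with h4 | h4
  · interval_cases N
    · have hy : yc P = 0 := (two_smul_eq_zero_iff h2 hP).mp hNP
      have hd := D6_deriv hE hy
      have e : (((2 : ℕ) : ℤ) + 1) = 3 := by norm_num
      rw [e, psi_three]
      rw [hy] at hE
      have h6 : W.a₆ = -xc P ^ 3 - W.a₄ * xc P := by linear_combination -hE
      have e1 : 3 * xc P ^ 4 + 6 * W.a₄ * xc P ^ 2 + 12 * W.a₆ * xc P - W.a₄ ^ 2 =
          -(3 * xc P ^ 2 + W.a₄) ^ 2 := by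
        rw [h6]
        ring
      rw [e1]
      exact neg_ne_zero.mpr (pow_ne_zero 2 hd)
    · have h2P : 2 • P ≠ 0 := hN 2 (by norm_num) (by norm_num)
      have hy : yc P ≠ 0 := fun h => h2P ((two_smul_eq_zero_iff h2 hP).mpr h)
      have e : (((3 : ℕ) : ℤ) + 1) = 4 := by norm_num
      rw [e, psi_four, ← yc_dbl h2 hP hy]
      have h3 : 2 • P = -P := by
        rw [eq_neg_iff_add_eq_zero, ← succ_nsmul]
        exact hNP
      rw [h3, yc_neg]
      have e1 : 4 * yc P * (8 * yc P ^ 3 * -yc P) = -32 * yc P ^ 5 := by ring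
      rw [e1]
      exact mul_ne_zero (by norm_num) (pow_ne_zero 5 hy)
  · obtain ⟨M, rfl⟩ : ∃ M, N = M + 4 := ⟨N - 4, by omega⟩
    have h := ell_rel hE (M + 3) 2 (by norm_num) (by omega)
    have c1 : (((M + 3 : ℕ) : ℤ) + ((2 : ℕ) : ℤ)) = ((M + 4 : ℕ) : ℤ) + 1 := by push_cast; ring
    have c2 : (((M + 3 : ℕ) : ℤ) + 1) = ((M + 4 : ℕ) : ℤ) := by push_cast; ring
    have c3 : (((2 : ℕ) : ℤ) + 1) = ((3 : ℕ) : ℤ) := by norm_num
    have c4 : (((2 : ℕ) : ℤ) - 1) = 1 := by norm_num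
    rw [c1, c2, c3, c4, hN0, psi_one] at h
    intro h0
    rw [h0] at h
    have h5 := hne 3 (by norm_num) (by omega)
    have h6 := hne (M + 3) (by omega) (by omega)
    have h7 : psi W (xc P) (yc P) ((3 : ℕ) : ℤ) * psi W (xc P) (yc P) ((M + 3 : ℕ) : ℤ) ^ 2 = 0 := by
      linear_combination h
    exact mul_ne_zero h5 (pow_ne_zero 2 h6) h7

theorem D6_dvd {P : W.Point} (hP : P ≠ 0) (N : ℕ) (hN2 : 2 ≤ N)
    (hN : ∀ k : ℕ, 0 < k → k < N → k • P ≠ 0) (hNP : N • P = 0) (m : ℕ) :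
    0 < m → psi W (xc P) (yc P) m = 0 → N ∣ m := by
  have h2 : (2 : F) ≠ 0 := two_ne_zero
  have hE := eqn hP
  have hN0 := psi_order h2 hP N hN2 hN hNP
  have hN1 := D6_succ hP N hN2 hN hNP
  have hne : ∀ k : ℕ, 0 < k → k < N → psi W (xc P) (yc P) k ≠ 0 := fun k h1 h3 =>
    (psi_main h2 hP N hN k h1 h3).1
  have hNm : psi W (xc P) (yc P) ((N : ℤ) - 1) ≠ 0 := by
    have := hne (N - 1) (by omega) (by omega)
    rwa [Nat.cast_sub (by omega), Nat.cast_one] at this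
  induction m using Nat.strong_induction_on with
  | _ m ih =>
    intro hm h
    rcases Nat.lt_trichotomy m N with hlt | rfl | hgt
    · exact absurd h (hne m hm hlt)
    · exact dvd_rfl
    · rcases Nat.lt_trichotomy m (2 * N) with h3 | rfl | h3
      · exfalso
        obtain ⟨j, rfl⟩ : ∃ j, m = N + j := ⟨m - N, by omega⟩
        have h4 := ell_rel hE N j (by omega) (by omega)
        rw [Nat.cast_add] at h
        rw [h, hN0, zero_mul] at h4
        have h5 : psi W (xc P) (yc P) (N + 1) * psi W (xc P) (yc P) (N - 1) *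
            psi W (xc P) (yc P) j ^ 2 = 0 := by
          linear_combination -h4
        exact mul_ne_zero (mul_ne_zero hN1 hNm) (pow_ne_zero 2 (hne j (by omega) (by omega))) h5
      · exact Dvd.intro_left 2 rfl
      · obtain ⟨i, rfl⟩ : ∃ i, m = i + N := ⟨m - N, by omega⟩
        have h4 := ell_rel hE i N (by omega) (by omega)
        rw [Nat.cast_add] at h
        rw [h, hN0, zero_mul] at h4
        have h5 : psi W (xc P) (yc P) (N + 1) * psi W (xc P) (yc P) (N - 1) *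
            psi W (xc P) (yc P) i ^ 2 = 0 := by
          linear_combination h4
        have h6 : psi W (xc P) (yc P) i = 0 := by
          by_contra h7
          exact mul_ne_zero (mul_ne_zero hN1 hNm) (pow_ne_zero 2 h7) h5
        exact dvd_add (ih i (by omega) (by omega) h6) dvd_rfl

theorem smul_eq_zero_of_psi {P : W.Point} (hP : P ≠ 0) (m : ℕ) (hm : 0 < m)
    (h : psi W (xc P) (yc P) m = 0) : m • P = 0 := by
  have h2 : (2 : F) ≠ 0 := two_ne_zero
  by_cases h0 : addOrderOf P = 0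
  · exfalso
    have hk : ∀ k : ℕ, 0 < k → k < m + 1 → k • P ≠ 0 := by
      intro k hk _ h1
      rw [addOrderOf_eq_zero_iff'] at h0
      exact h0 k hk h1
    exact (psi_main h2 hP (m + 1) hk m hm (Nat.lt_succ_self m)).1 h
  · have h1 : addOrderOf P ≠ 1 := by
      intro h1
      exact hP (AddMonoid.addOrderOf_eq_one_iff.mp h1)
    rw [← addOrderOf_dvd_iff_nsmul_eq_zero]
    refine D6_dvd hP (addOrderOf P) (by omega) ?_ (addOrderOf_nsmul_eq_zero P) m hm h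
    intro k hk hk2 h3
    exact absurd (addOrderOf_le_of_nsmul_eq_zero hk h3) (not_le.mpr hk2)

end H16C
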