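import Pool.Agent.Lib.H16C.Defs

/-!
# C1 (S/M): the corestriction is a cocycle

`r x = x.out` (`x : G ⧸ N`), `a(g, x) = r(x)⁻¹ g r(g⁻¹ x) ∈ N` (`QuotientGroup.eq`,
`Quotient.out_eq'`), `cor f g = ∑ x, r(x) f(a(g, x))` (all sums are over the finite type `G ⧸ N`:
`finsum_eq_sum_of_fintype`).
`cor_cocycle`: `a(g h, x) = a(g, x) a(h, g⁻¹ x)`, so
`r(x) f(a(gh, x)) = r(x) f(a(g, x)) + r(x) a(g, x) f(a(h, g⁻¹x))` and
`r(x) a(g, x) = g r(g⁻¹ x)`; reindex the second sum by `x ↦ g x` (`MulAction.toPerm`).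
`cor_of_mem`: `N` normal, `g ∈ N`: `g⁻¹ • x = x`.
`cor_add`, `cor_mem`: clear (`finsum_add_distrib`; `H` is a subgroup stable under `ρ`).
-/

namespace H16C

variable {G : Type*} [Group G] {M : Type*} [AddCommGroup M] (ρ : G →* AddMonoid.End M)
  (N : Subgroup G) [N.FiniteIndex] {f f' : G → M}

omit [N.FiniteIndex] in
theorem C1_mem (g : G) (x : G ⧸ N) : x.out⁻¹ * g * (g⁻¹ • x).out ∈ N := by
  have h : ((x.out : G) : G ⧸ N) = ((g * (g⁻¹ • x).out : G) : G ⧸ N) := by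
    have h2 : ((g * (g⁻¹ • x).out : G) : G ⧸ N) = g • (((g⁻¹ • x).out : G) : G ⧸ N) := rfl
    rw [h2, QuotientGroup.out_eq', QuotientGroup.out_eq', smul_inv_smul]
  have h3 := QuotientGroup.eq.1 h
  rwa [← mul_assoc] at h3

theorem cor_cocycle (hf : ∀ a ∈ N, ∀ b ∈ N, f (a * b) = f a + ρ a (f b)) (g h : G) :
    cor ρ N f (g * h) = cor ρ N f g + ρ g (cor ρ N f h) := by
  classical
  haveI : Fintype (G ⧸ N) := Fintype.ofFinite _
  unfold cor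
  rw [finsum_eq_sum_of_fintype, finsum_eq_sum_of_fintype, finsum_eq_sum_of_fintype, map_sum,
    ← Equiv.sum_comp (MulAction.toPerm (g⁻¹ : G) : Equiv.Perm (G ⧸ N))
      (fun x : G ⧸ N => ρ g (ρ x.out (f (x.out⁻¹ * h * (h⁻¹ • x).out)))),
    ← Finset.sum_add_distrib]
  refine Finset.sum_congr rfl fun x _ => ?_
  have e1 : (g * h)⁻¹ • x = h⁻¹ • (g⁻¹ • x) := by
    rw [mul_inv_rev, mul_smul]
  have e2 : x.out⁻¹ * (g * h) * ((g * h)⁻¹ • x).out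
      = (x.out⁻¹ * g * (g⁻¹ • x).out)
        * ((g⁻¹ • x).out⁻¹ * h * (h⁻¹ • (g⁻¹ • x)).out) := by
    rw [e1]
    group
  have e3 : ρ g (ρ (g⁻¹ • x).out (f ((g⁻¹ • x).out⁻¹ * h * (h⁻¹ • (g⁻¹ • x)).out)))
      = ρ x.out (ρ (x.out⁻¹ * g * (g⁻¹ • x).out)
        (f ((g⁻¹ • x).out⁻¹ * h * (h⁻¹ • (g⁻¹ • x)).out))) := by
    have e4 : ∀ (a b : G) (m : M), ρ a (ρ b m) = ρ (a * b) m := fun a b m => by
      rw [map_mul]
      rfl
    rw [e4, e4]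
    congr 2
    group
  rw [e2, hf _ (C1_mem N g x) _ (C1_mem N h (g⁻¹ • x)), map_add]
  change _ = _ + ρ g (ρ (g⁻¹ • x).out (f ((g⁻¹ • x).out⁻¹ * h * (h⁻¹ • (g⁻¹ • x)).out)))
  rw [e3]

theorem cor_of_mem [N.Normal] (g : G) (hg : g ∈ N) :
    cor ρ N f g = ∑ᶠ x : G ⧸ N, ρ x.out (f (x.out⁻¹ * g * x.out)) := by
  unfold cor
  refine finsum_congr fun x => ?_
  have e : g⁻¹ • x = x := by
    conv_lhs => rw [← QuotientGroup.out_eq' x]
    conv_rhs => rw [← QuotientGroup.out_eq' x]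
    have h2 : g⁻¹ • ((x.out : G) : G ⧸ N) = ((g⁻¹ * x.out : G) : G ⧸ N) := rfl
    rw [h2, QuotientGroup.eq]
    have h3 : (g⁻¹ * x.out)⁻¹ * x.out = x.out⁻¹ * g * x.out⁻¹⁻¹ := by group
    rw [h3]
    exact (inferInstance : N.Normal).conj_mem g hg _
  rw [e]

theorem cor_add (g : G) : cor ρ N (fun x => f x + f' x) g = cor ρ N f g + cor ρ N f' g := by
  haveI : Fintype (G ⧸ N) := Fintype.ofFinite _
  unfold cor
  rw [finsum_eq_sum_of_fintype, finsum_eq_sum_of_fintype, finsum_eq_sum_of_fintype,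
    ← Finset.sum_add_distrib]
  exact Finset.sum_congr rfl fun x _ => map_add _ _ _

theorem cor_mem (H : AddSubgroup M) (hH : ∀ g, ∀ m ∈ H, ρ g m ∈ H) (hf : ∀ g, f g ∈ H) (g : G) :
    cor ρ N f g ∈ H := by
  haveI : Fintype (G ⧸ N) := Fintype.ofFinite _
  unfold cor
  rw [finsum_eq_sum_of_fintype]
  exact AddSubgroup.sum_mem _ fun x _ => hH _ _ (hf _)

end H16C
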