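import Pool.Agent.Lib.H16C.Defs

/-!
# C2 (M): the corestriction is a coboundary on `D` if `f` vanishes on `N ∩ x⁻¹ D x` for all `x`

`N` normal of finite index, `f(ab) = f a + ρ a (f b)` on `N`, `D` a subgroup of `G`.
(1) A section `r' : G ⧸ N → G` (`(r' x : G ⧸ N) = x`) with `f(r'(x)⁻¹ g r'(g⁻¹x)) = 0` for all
`g ∈ D` and all `x`: `D` acts on `G ⧸ N`; for every orbit choose `y ∈ G` with `yN` in the orbit, and
for `x` in this orbit choose `d_x ∈ D` with `x = d_x y N`; `r'(x) = d_x y`.  Then, for `g ∈ D`,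
`x' = g⁻¹x`, `a = r'(x)⁻¹ g r'(x') ∈ N` and `y a y⁻¹ = d_x⁻¹ g d_x' ∈ D`, so `f a = 0` by
hypothesis.
(2) Change of the section: `r'(x) = r(x) n_x`, `r x = x.out`, `n_x ∈ N`.  With `x' = g⁻¹x`,
`a = r(x)⁻¹ g r(x')`: `r'(x)⁻¹ g r'(x') = n_x⁻¹ a n_x'` and
`r'(x) f(n_x⁻¹ a n_x') = r(x) n_x f(n_x⁻¹) + r(x) f(a) + r(x) a f(n_x')`
`= - r(x) f(n_x) + r(x) f(a) + g r(x') f(n_x')`
(`0 = f(1) = f(n) + n f(n⁻¹)`).  Sum over `x`: with `S = ∑ r(x) f(n_x)`: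
`0 = ∑ r'(x) f(r'(x)⁻¹ g r'(x')) = cor f g + ρ g S - S`.  So `Q = -S ∈ H`.
-/

namespace H16C

variable {G : Type*} [Group G] {M : Type*} [AddCommGroup M] (ρ : G →* AddMonoid.End M)
  (N : Subgroup G) [N.FiniteIndex] {f : G → M}

omit [N.FiniteIndex] in
/-- a section of `G → G ⧸ N` adapted to the subgroup `D` -/
theorem C2_section (D : Subgroup G) : ∃ r : G ⧸ N → G, (∀ x, (r x : G ⧸ N) = x) ∧
    ∀ g ∈ D, ∀ x, ∃ y : G, y * ((r x)⁻¹ * g * r (g⁻¹ • x)) * y⁻¹ ∈ D := by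
  classical
  have h1 : ∀ x : G ⧸ N, ∃ d : D, d • (Quotient.out
      (Quotient.mk (MulAction.orbitRel D (G ⧸ N)) x)) = x := by
    intro x
    have h2 := Quotient.mk_out (s := MulAction.orbitRel D (G ⧸ N)) x
    have h3 := Setoid.symm' _ h2
    rw [MulAction.orbitRel_apply, MulAction.mem_orbit_iff] at h3
    exact h3
  choose d hd using h1
  let y : G ⧸ N → G := fun x => (Quotient.out (Quotient.mk (MulAction.orbitRel D (G ⧸ N)) x)).out
  have hy : ∀ x, (y x : G ⧸ N) = Quotient.out (Quotient.mk (MulAction.orbitRel D (G ⧸ N)) x) :=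
    fun x => Quotient.out_eq' _
  refine ⟨fun x => (d x : G) * y x, ?_, ?_⟩
  · intro x
    have h2 : (((d x : G) * y x : G) : G ⧸ N) = (d x : G) • (y x : G ⧸ N) := rfl
    rw [h2, hy]
    exact hd x
  · intro g hg x
    refine ⟨y x, ?_⟩
    have h2 : Quotient.mk (MulAction.orbitRel D (G ⧸ N)) (g⁻¹ • x) =
        Quotient.mk (MulAction.orbitRel D (G ⧸ N)) x := by
      apply Quotient.sound
      change (MulAction.orbitRel D (G ⧸ N)) _ _
      rw [MulAction.orbitRel_apply, MulAction.mem_orbit_iff]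
      exact ⟨⟨g⁻¹, D.inv_mem hg⟩, rfl⟩
    have h3 : y (g⁻¹ • x) = y x := by
      change (Quotient.out (Quotient.mk (MulAction.orbitRel D (G ⧸ N)) (g⁻¹ • x))).out =
        (Quotient.out (Quotient.mk (MulAction.orbitRel D (G ⧸ N)) x)).out
      rw [h2]
    have h4 : y x * (((d x : G) * y x)⁻¹ * g * ((d (g⁻¹ • x) : G) * y (g⁻¹ • x))) * (y x)⁻¹ =
        (d x : G)⁻¹ * g * (d (g⁻¹ • x) : G) := by
      rw [h3]
      group
    rw [h4]
    exact D.mul_mem (D.mul_mem (D.inv_mem (d x).2) hg) (d (g⁻¹ • x)).2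

theorem cor_local [N.Normal] (hf : ∀ a ∈ N, ∀ b ∈ N, f (a * b) = f a + ρ a (f b))
    (H : AddSubgroup M) (hH : ∀ g, ∀ m ∈ H, ρ g m ∈ H) (hfH : ∀ g, f g ∈ H) (D : Subgroup G)
    (hD : ∀ x : G, ∀ a ∈ N, x * a * x⁻¹ ∈ D → f a = 0) :
    ∃ Q ∈ H, ∀ g ∈ D, cor ρ N f g = ρ g Q - Q := by
  classical
  let _ : Fintype (G ⧸ N) := Fintype.ofFinite _
  obtain ⟨r', hr', hr'D⟩ := C2_section N D
  have hout : ∀ x : G ⧸ N, (x.out : G ⧸ N) = x := fun x => Quotient.out_eq' _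
  let T : G ⧸ N → M := fun x => ρ x.out (f (x.out⁻¹ * r' x))
  refine ⟨-∑ x, T x, ?_, ?_⟩
  · exact H.neg_mem (H.sum_mem fun x _ => hH _ _ (hfH _))
  · intro g hg
    have key : ∀ x : G ⧸ N, ρ x.out (f (x.out⁻¹ * g * (g⁻¹ • x).out)) =
        T x - ρ g (T (g⁻¹ • x)) := by
      intro x
      have hn : x.out⁻¹ * r' x ∈ N := by
        rw [← QuotientGroup.eq, hout, hr']
      have hn' : (g⁻¹ • x).out⁻¹ * r' (g⁻¹ • x) ∈ N := by
        rw [← QuotientGroup.eq, hout, hr']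
      have hgx : ∀ z : G, (z : G ⧸ N) = g⁻¹ • x → ((g * z : G) : G ⧸ N) = x := by
        intro z hz
        have : ((g * z : G) : G ⧸ N) = g • (z : G ⧸ N) := rfl
        rw [this, hz, smul_inv_smul]
      have ha : x.out⁻¹ * g * (g⁻¹ • x).out ∈ N := by
        rw [mul_assoc, ← QuotientGroup.eq, hout, hgx _ (hout _)]
      have ha' : (r' x)⁻¹ * g * r' (g⁻¹ • x) ∈ N := by
        rw [mul_assoc, ← QuotientGroup.eq, hr', hgx _ (hr' _)]
      obtain ⟨y, hy⟩ := hr'D g hg x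
      have h0 : f ((r' x)⁻¹ * g * r' (g⁻¹ • x)) = 0 := hD y _ ha' hy
      have e1 := hf _ ha _ hn'
      have e2 := hf _ hn _ ha'
      rw [h0, map_zero, add_zero] at e2
      have e3 : x.out⁻¹ * g * (g⁻¹ • x).out * ((g⁻¹ • x).out⁻¹ * r' (g⁻¹ • x)) =
          x.out⁻¹ * r' x * ((r' x)⁻¹ * g * r' (g⁻¹ • x)) := by group
      rw [e3, e2] at e1
      have e4 : f (x.out⁻¹ * g * (g⁻¹ • x).out) = f (x.out⁻¹ * r' x) -
          ρ (x.out⁻¹ * g * (g⁻¹ • x).out) (f ((g⁻¹ • x).out⁻¹ * r' (g⁻¹ • x))) := by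
        rw [e1, add_sub_cancel_right]
      have e5 : ρ x.out (ρ (x.out⁻¹ * g * (g⁻¹ • x).out)
          (f ((g⁻¹ • x).out⁻¹ * r' (g⁻¹ • x)))) =
          ρ g (ρ (g⁻¹ • x).out (f ((g⁻¹ • x).out⁻¹ * r' (g⁻¹ • x)))) := by
        have h6 : x.out * (x.out⁻¹ * g * (g⁻¹ • x).out) = g * (g⁻¹ • x).out := by group
        change (ρ x.out * ρ (x.out⁻¹ * g * (g⁻¹ • x).out)) _ = (ρ g * ρ (g⁻¹ • x).out) _
        rw [← map_mul, ← map_mul, h6]
      rw [e4, map_sub, e5]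
    have e : cor ρ N f g = ∑ x, (T x - ρ g (T (g⁻¹ • x))) := by
      rw [cor, finsum_eq_sum_of_fintype]
      exact Finset.sum_congr rfl fun x _ => key x
    have e' : ∑ x, ρ g (T (g⁻¹ • x)) = ρ g (∑ x, T x) := by
      rw [map_sum]
      exact Fintype.sum_equiv (MulAction.toPerm g⁻¹) _ _ (fun x => rfl)
    rw [e, Finset.sum_sub_distrib, e', map_neg]
    abel

end H16C
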