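import Pool.Agent.Lib.H16C.Defs

/-!
# D0 (S): the values of the division polynomials

`psi W x y n = normEDS (2y) (Ψ₃(x)) (preΨ₄(x)) n`, `W` short, `(x, y)` on the curve.
`psi_sq`: by definition (Mathlib) `normEDS b c d n = preNormEDS (b^4) c d n * (if Even n then b else 1)`
and `W.preΨ n = preNormEDS (Ψ₂Sq ^ 2) Ψ₃ preΨ₄ n`, `W.ΨSq n = preΨ n ^ 2 * (if Even n then Ψ₂Sq else 1)`;
evaluation at `x` is a ring homomorphism (`map_preNormEDS`) and
`Ψ₂Sq(x) = 4 x³ + b₂ x² + 2 b₄ x + b₆ = 4 (x³ + a₄ x + a₆) = (2y)²`.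
`psi_phi`: `W.Φ n = X * ΨSq n - preΨ (n+1) * preΨ (n-1) * (if Even n then 1 else Ψ₂Sq)`; if `n` is even
then `n ± 1` are odd and `psi (n±1) = preΨ (n±1)(x)`; if `n` is odd then
`psi (n+1) psi (n-1) = preΨ(n+1)(x) preΨ(n-1)(x) (2y)²`.
`psi_even`, `psi_odd` are `normEDS_even`, `normEDS_odd`; `psi_three`, `psi_four`: unfold `Ψ₃`,
`preΨ₄` (`b₂ = 0, b₄ = 2 a₄, b₆ = 4 a₆, b₈ = - a₄²`).
-/

open WeierstrassCurve Polynomial

namespace H16C

variable {F : Type*} [Field F] (W : WeierstrassCurve.Affine F) [W.IsShortNF] {x y : F}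

theorem D0_pre (h : y ^ 2 = x ^ 3 + W.a₄ * x + W.a₆) (n : ℤ) :
    preNormEDS ((2 * y) ^ 4) (W.Ψ₃.eval x) (W.preΨ₄.eval x) n = (W.preΨ n).eval x := by
  have h2 : (W.Ψ₂Sq).eval x = (2 * y) ^ 2 := by
    have e : (2 * y) ^ 2 = 4 * y ^ 2 := by ring
    rw [e, h]
    simp only [Ψ₂Sq, b₂, b₄, b₆, IsShortNF.a₁, IsShortNF.a₂, IsShortNF.a₃, eval_add, eval_mul,
      eval_pow, eval_X, eval_C]
    ring
  rw [WeierstrassCurve.preΨ, ← coe_evalRingHom, map_preNormEDS, coe_evalRingHom, eval_pow, h2]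
  congr 1
  ring

theorem D0_two (h : y ^ 2 = x ^ 3 + W.a₄ * x + W.a₆) :
    (W.Ψ₂Sq).eval x = (2 * y) ^ 2 := by
  have e : (2 * y) ^ 2 = 4 * y ^ 2 := by ring
  rw [e, h]
  simp only [Ψ₂Sq, b₂, b₄, b₆, IsShortNF.a₁, IsShortNF.a₂, IsShortNF.a₃, eval_add, eval_mul,
    eval_pow, eval_X, eval_C]
  ring

theorem psi_sq (h : y ^ 2 = x ^ 3 + W.a₄ * x + W.a₆) (n : ℤ) :
    psi W x y n ^ 2 = (W.ΨSq n).eval x := by
  rw [psi, normEDS, D0_pre W h, ΨSq]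
  split_ifs with hn
  · rw [eval_mul, eval_pow, D0_two W h]
    ring
  · rw [eval_mul, eval_pow]
    simp

theorem psi_phi (h : y ^ 2 = x ^ 3 + W.a₄ * x + W.a₆) (n : ℤ) :
    x * psi W x y n ^ 2 - psi W x y (n + 1) * psi W x y (n - 1) = (W.Φ n).eval x := by
  rw [psi_sq W h, WeierstrassCurve.Φ, eval_sub, eval_mul, eval_X, eval_mul, eval_mul]
  congr 1
  rw [psi, psi, normEDS, normEDS, D0_pre W h, D0_pre W h]
  by_cases hn : Even n
  · have h1 : ¬ Even (n + 1) := by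
      rw [Int.even_add_one]
      exact not_not.mpr hn
    have h3 : ¬ Even (n - 1) := by
      rw [Int.even_sub_one]
      exact not_not.mpr hn
    rw [if_neg h1, if_neg h3, if_pos hn]
    simp
  · have h1 : Even (n + 1) := by
      rw [Int.even_add_one]
      exact hn
    have h3 : Even (n - 1) := by
      rw [Int.even_sub_one]
      exact hn
    rw [if_pos h1, if_pos h3, if_neg hn, D0_two W h]
    ring

omit [W.IsShortNF] in
theorem psi_zero : psi W x y 0 = 0 := by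
  simp [psi]

omit [W.IsShortNF] in
theorem psi_one : psi W x y 1 = 1 := by
  simp [psi]

omit [W.IsShortNF] in
theorem psi_two : psi W x y 2 = 2 * y := by
  simp [psi]

theorem psi_three : psi W x y 3 = 3 * x ^ 4 + 6 * W.a₄ * x ^ 2 + 12 * W.a₆ * x - W.a₄ ^ 2 := by
  rw [psi, normEDS_three]
  simp only [WeierstrassCurve.Ψ₃, b₂, b₄, b₆, b₈, IsShortNF.a₁, IsShortNF.a₂, IsShortNF.a₃, eval_add, eval_mul,
    eval_pow, eval_X, eval_C]
  simp
  ring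

theorem psi_four : psi W x y 4 = 4 * y * (x ^ 6 + 5 * W.a₄ * x ^ 4 + 20 * W.a₆ * x ^ 3 -
    5 * W.a₄ ^ 2 * x ^ 2 - 4 * W.a₄ * W.a₆ * x - 8 * W.a₆ ^ 2 - W.a₄ ^ 3) := by
  rw [psi, normEDS_four]
  simp only [WeierstrassCurve.preΨ₄, b₂, b₄, b₆, b₈, IsShortNF.a₁, IsShortNF.a₂, IsShortNF.a₃, eval_add, eval_mul,
    eval_pow, eval_X, eval_C]
  simp
  ring

omit [W.IsShortNF] in
theorem psi_even (m : ℤ) : psi W x y (2 * m) * (2 * y) =
    psi W x y (m - 1) ^ 2 * psi W x y m * psi W x y (m + 2) -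
      psi W x y (m - 2) * psi W x y m * psi W x y (m + 1) ^ 2 :=
  normEDS_even _ _ _ m

omit [W.IsShortNF] in
theorem psi_odd (m : ℤ) : psi W x y (2 * m + 1) =
    psi W x y (m + 2) * psi W x y m ^ 3 - psi W x y (m - 1) * psi W x y (m + 1) ^ 3 :=
  normEDS_odd _ _ _ m

end H16C
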