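import Pool.Agent.Lib.H16C.D3

/-!
# D4 (S/M): the elliptic relation at a point of large order

Notation of D3.  If `k • P ≠ 0` for `0 < k ≤ i + j` then, for `0 < j < i`,
  `D(i, j) : g_{i+j} g_{i-j} = g_i² g_j² (x_j - x_i)`.
Induction on `i`.  `i = j + 1`: (c_j) of D3, i.e. `psi_odd` for `m = j` and (b) (= `psi_main`) for
`j`, `j + 1`.  `i = j + 2`: `psi_even` for `m = j + 1` and (b) for `j`, `j + 2`:
`g_{2m} g_2 = g_m (g_{m+2} g_{m-1}² - g_{m-2} g_{m+1}²) = (g_{m-1} g_{m+1})² (x_{m-1} - x_{m+1})`.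
`i → i + 1` for `i ≥ j + 2`: `xsym` for `(iP, jP, P)`:
`(x_i-x_j)² (x_1-x_{i+j}) (x_1-x_{i-j}) = (x_i-x_1)² (x_j-x_{i+1}) (x_j-x_{i-1})`; insert `D(i, j)`,
`D(i-1, j)` and (b) for `i`, `i + j`, `i - j` and cancel the nonzero factors
(`x_j ≠ x_{i-1}`, `g_k ≠ 0` for `0 < k ≤ i + j`):
`g_{i+j+1} g_{i-j+1} = g_{i+1}² g_j² (x_j - x_{i+1})`.
The statement follows from `D(i, j)` and (b) for `i`, `j`:
`g_i² g_j² (x_j - x_i) = g_j² g_i² (x_1 - x_i) - g_i² g_j² (x_1 - x_j)`.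
-/

open WeierstrassCurve

namespace H16C

variable {F : Type*} [Field F] [DecidableEq F] {W : WeierstrassCurve.Affine F} [W.IsShortNF]

theorem D4_b (h2 : (2 : F) ≠ 0) {P : W.Point} (hP : P ≠ 0) (M : ℕ)
    (hN : ∀ k : ℕ, 0 < k → k ≤ M → k • P ≠ 0) (k : ℕ) (a b c : ℤ) (hk : 0 < k) (hkM : k ≤ M)
    (ha : a = k) (hb : b = k + 1) (hc : c = k - 1) :
    psi W (xc P) (yc P) a ≠ 0 ∧
      psi W (xc P) (yc P) a ^ 2 * (xc P - xc (k • P)) =
        psi W (xc P) (yc P) b * psi W (xc P) (yc P) c := by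
  subst ha hb hc
  exact psi_main h2 hP (M + 1) (fun k h1 h3 => hN k h1 (Nat.lt_succ_iff.1 h3)) k hk
    (Nat.lt_succ_iff.2 hkM)

theorem D4_D (h2 : (2 : F) ≠ 0) {P : W.Point} (hP : P ≠ 0) (j : ℕ) (hj : 0 < j) (d : ℕ) :
    (∀ k : ℕ, 0 < k → k ≤ 2 * j + d + 1 → k • P ≠ 0) →
    psi W (xc P) (yc P) (2 * j + d + 1) * psi W (xc P) (yc P) (d + 1) =
      psi W (xc P) (yc P) (j + d + 1) ^ 2 * psi W (xc P) (yc P) j ^ 2 *
        (xc (j • P) - xc ((j + d + 1) • P)) := by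
  induction d using Nat.twoStepInduction with
  | zero =>
    intro hN
    obtain ⟨_, b1⟩ := D4_b h2 hP _ hN j j (j + 1) (j - 1) hj (by omega) rfl rfl rfl
    obtain ⟨_, b2⟩ := D4_b h2 hP _ hN (j + 1) (j + 1) (j + 2) j (by omega) (by omega)
      (by push_cast; ring) (by push_cast; ring) (by push_cast; ring)
    have h3 := psi_odd W (x := xc P) (y := yc P) (j : ℤ)
    simp only [Nat.cast_zero, add_zero, zero_add]
    rw [psi_one, h3]
    linear_combination (-psi W (xc P) (yc P) j ^ 2) * b2 + psi W (xc P) (yc P) (j + 1) ^ 2 * b1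
  | one =>
    intro hN
    obtain ⟨_, b1⟩ := D4_b h2 hP _ hN j j (j + 1) (j - 1) hj (by omega) rfl rfl rfl
    obtain ⟨_, b2⟩ := D4_b h2 hP _ hN (j + 1 + 1) (j + 1 + 1) (j + 3) (j + 1) (by omega) (by omega)
      (by push_cast; ring) (by push_cast; ring) (by push_cast; ring)
    have h3 := psi_even W (x := xc P) (y := yc P) ((j : ℤ) + 1)
    have e1 : 2 * ((j : ℤ) + 1) = 2 * (j : ℤ) + 1 + 1 := by ring
    have e2 : (j : ℤ) + 1 - 1 = j := by ring
    have e3 : (j : ℤ) + 1 + 2 = j + 3 := by ring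
    have e4 : (j : ℤ) + 1 - 2 = j - 1 := by ring
    rw [e1, e2, e3, e4] at h3
    simp only [Nat.cast_one]
    have e5 : (1 : ℤ) + 1 = 2 := by norm_num
    rw [e5, psi_two]
    linear_combination h3 + (-psi W (xc P) (yc P) j ^ 2) * b2 +
      psi W (xc P) (yc P) (j + 1 + 1) ^ 2 * b1
  | more d ih1 ih2 =>
    intro hN
    have hD1 := ih1 (fun k h1 h3 => hN k h1 (by omega))
    have hD2 := ih2 (fun k h1 h3 => hN k h1 (by omega))
    have z : ∀ k : ℕ, 0 < k → k ≤ 2 * j + (d + 2) + 1 → k • P ≠ 0 := hN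
    -- the points
    have p1 : (j + d + 2) • P + j • P = (2 * j + d + 2) • P := by
      rw [← add_nsmul]
      congr 1
      ring
    have p2 : (j + d + 2) • P - j • P = (d + 2) • P := by
      rw [sub_eq_iff_eq_add, ← add_nsmul]
      congr 1
      ring
    have p3 : (j + d + 2) • P + P = (j + d + 3) • P := by
      rw [← succ_nsmul]
    have p4 : (j + d + 2) • P - P = (j + d + 1) • P := by
      rw [sub_eq_iff_eq_add, ← succ_nsmul]
    have z1 := z (j + d + 2) (by omega) (by omega)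
    have z2 := z j hj (by omega)
    have x1 : xc ((j + d + 2) • P) ≠ xc (j • P) := xc_ne z1 z2
      (by rw [p1]; exact z _ (by omega) (by omega)) (by rw [p2]; exact z _ (by omega) (by omega))
    have x2 : xc ((j + d + 2) • P) ≠ xc P := xc_ne z1 hP
      (by rw [p3]; exact z _ (by omega) (by omega)) (by rw [p4]; exact z _ (by omega) (by omega))
    have hx := xsym z1 z2 hP x1 x2
    rw [p1, p2, p3, p4] at hx
    obtain ⟨_, b3⟩ := D4_b h2 hP _ hN (j + d + 2) (j + d + 2) (j + d + 3) (j + d + 1) (by omega)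
      (by omega) (by push_cast; ring) (by push_cast; ring) (by push_cast; ring)
    obtain ⟨_, b4⟩ := D4_b h2 hP _ hN (2 * j + d + 2) (2 * j + d + 2) (2 * j + d + 3)
      (2 * j + d + 1) (by omega) (by omega) (by push_cast; ring) (by push_cast; ring)
      (by push_cast; ring)
    obtain ⟨_, b5⟩ := D4_b h2 hP _ hN (d + 2) (d + 2) (d + 3) (d + 1) (by omega) (by omega)
      (by push_cast; ring) (by push_cast; ring) (by push_cast; ring)
    obtain ⟨n1, _⟩ := D4_b h2 hP _ hN (2 * j + d + 1) (2 * j + d + 1) (2 * j + d + 2)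
      (2 * j + d) (by omega) (by omega) (by push_cast; ring) (by push_cast; ring)
      (by push_cast; ring)
    obtain ⟨n2, _⟩ := D4_b h2 hP _ hN (d + 1) (d + 1) (d + 2) d (by omega) (by omega)
      (by push_cast; ring) (by push_cast; ring) (by push_cast; ring)
    -- normal forms of the indices
    have c1 : (2 * (j : ℤ) + ((d + 1 : ℕ) : ℤ) + 1) = 2 * j + d + 2 := by push_cast; ring
    have c2 : (((d + 1 : ℕ) : ℤ) + 1) = d + 2 := by push_cast; ring
    have c3 : ((j : ℤ) + ((d + 1 : ℕ) : ℤ) + 1) = j + d + 2 := by push_cast; ring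
    have c4 : (2 * (j : ℤ) + ((d + 2 : ℕ) : ℤ) + 1) = 2 * j + d + 3 := by push_cast; ring
    have c5 : (((d + 2 : ℕ) : ℤ) + 1) = d + 3 := by push_cast; ring
    have c6 : ((j : ℤ) + ((d + 2 : ℕ) : ℤ) + 1) = j + d + 3 := by push_cast; ring
    have c7 : j + (d + 1) + 1 = j + d + 2 := by ring
    have c8 : j + (d + 2) + 1 = j + d + 3 := by ring
    rw [c1, c2, c3, c7] at hD2
    rw [c4, c5, c6, c8]
    generalize psi W (xc P) (yc P) (2 * j + d + 1) = A1 at *
    generalize psi W (xc P) (yc P) (2 * j + d + 2) = A2 at *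
    generalize psi W (xc P) (yc P) (2 * j + d + 3) = A3 at *
    generalize psi W (xc P) (yc P) (d + 1) = B1 at *
    generalize psi W (xc P) (yc P) (d + 2) = B2 at *
    generalize psi W (xc P) (yc P) (d + 3) = B3 at *
    generalize psi W (xc P) (yc P) (j + d + 1) = C1 at *
    generalize psi W (xc P) (yc P) (j + d + 2) = C2 at *
    generalize psi W (xc P) (yc P) (j + d + 3) = C3 at *
    generalize psi W (xc P) (yc P) j = G at *
    generalize xc P = X at *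
    generalize xc (j • P) = Xj at *
    generalize xc ((j + d + 1) • P) = X1 at *
    generalize xc ((j + d + 2) • P) = X2 at *
    generalize xc ((j + d + 3) • P) = X3 at *
    generalize xc ((2 * j + d + 2) • P) = Y2 at *
    generalize xc ((d + 2) • P) = Z2 at *
    have hn : X2 - Xj ≠ 0 := sub_ne_zero.mpr x1
    -- hD1 : A1 * B1 = C1 ^ 2 * G ^ 2 * (Xj - X1)
    -- hD2 : A2 * B2 = C2 ^ 2 * G ^ 2 * (Xj - X2)
    have k1 : (X2 - Xj) ^ 2 * (A1 * B1) * (A3 * B3 - C3 ^ 2 * G ^ 2 * (Xj - X3)) = 0 := by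
      have e1 : (X2 - Xj) ^ 2 * (A3 * A1 * (B3 * B1)) =
          (A2 * B2) ^ 2 * ((X2 - Xj) ^ 2 * ((X - Y2) * (X - Z2))) := by
        rw [← b4, ← b5]
        ring
      rw [hx, hD2] at e1
      have e2 : (C2 ^ 2 * G ^ 2 * (Xj - X2)) ^ 2 * ((X2 - X) ^ 2 * ((Xj - X3) * (Xj - X1))) =
          (X2 - Xj) ^ 2 * (C2 ^ 2 * (X - X2)) ^ 2 * G ^ 4 * ((Xj - X3) * (Xj - X1)) := by ring
      rw [e2, b3] at e1
      have e3 : (X2 - Xj) ^ 2 * (A1 * B1) * (A3 * B3 - C3 ^ 2 * G ^ 2 * (Xj - X3)) =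
          (X2 - Xj) ^ 2 * (A3 * A1 * (B3 * B1)) -
            (X2 - Xj) ^ 2 * (A1 * B1) * (C3 ^ 2 * G ^ 2 * (Xj - X3)) := by ring
      rw [e3, e1, hD1]
      ring
    rcases mul_eq_zero.mp k1 with h | h
    · exact absurd h (mul_ne_zero (pow_ne_zero 2 hn) (mul_ne_zero n1 n2))
    · exact sub_eq_zero.mp h

theorem ell_generic (h2 : (2 : F) ≠ 0) {P : W.Point} (hP : P ≠ 0) (i j : ℕ) (hj : 0 < j)
    (hij : j < i) (hN : ∀ k : ℕ, 0 < k → k ≤ i + j → k • P ≠ 0) :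
    psi W (xc P) (yc P) (i + j) * psi W (xc P) (yc P) (i - j) =
      psi W (xc P) (yc P) (i + 1) * psi W (xc P) (yc P) (i - 1) * psi W (xc P) (yc P) j ^ 2 -
        psi W (xc P) (yc P) (j + 1) * psi W (xc P) (yc P) (j - 1) * psi W (xc P) (yc P) i ^ 2 := by
  obtain ⟨d, rfl⟩ : ∃ d, i = j + d + 1 := ⟨i - j - 1, by omega⟩
  have hD := D4_D h2 hP j hj d (fun k h1 h3 => hN k h1 (by omega))
  obtain ⟨_, b1⟩ := D4_b h2 hP _ hN j j (j + 1) (j - 1) hj (by omega) rfl rfl rfl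
  obtain ⟨_, b2⟩ := D4_b h2 hP _ hN (j + d + 1) (j + d + 1) (j + d + 1 + 1) (j + d + 1 - 1)
    (by omega) (by omega) (by push_cast; ring) (by push_cast; ring) (by push_cast; ring)
  have c1 : (((j + d + 1 : ℕ) : ℤ) + j) = 2 * j + d + 1 := by push_cast; ring
  have c2 : (((j + d + 1 : ℕ) : ℤ) - j) = d + 1 := by push_cast; ring
  have c3 : (((j + d + 1 : ℕ) : ℤ)) = j + d + 1 := by push_cast; ring
  rw [c1, c2, c3, hD]
  linear_combination (-psi W (xc P) (yc P) (j + d + 1) ^ 2) * b1 +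
    psi W (xc P) (yc P) j ^ 2 * b2

end H16C
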