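import Pool.Agent.Lib.H16C.D4

/-!
# D5 (M): the elliptic relation at every point (universal point)

Characteristic `0`, `W` elliptic.  `R = W.CoordinateRing = F[X, Y]/(Y² - f(X))` is a domain with
fraction field `K = W.FunctionField`.  The curve over `K` (`WeierstrassCurve.Affine.baseChange W K`,
short and elliptic) has the universal point `U = (X, Y)` (`exists_pt`).
`U` has infinite order: otherwise let `N ≥ 2` be its exact order; `psi_order` gives
`psi (X) (Y) N = 0`, so `(W.ΨSq N)(X) = 0` in `K` (`psi_sq`, `map_ΨSq`); but `F[X] → R` is injective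
(Mathlib: `CoordinateRing` has basis `1, Y` over `F[X]`, `CoordinateRing.basis`, `XYIdeal` file;
e.g. `AdjoinRoot.of` is injective since `polynomial` is monic of degree `2 > 0`) and
`W.ΨSq N ≠ 0` (`ΨSq_ne_zero`, characteristic `0`).
So `ell_generic` holds for `U` and all `i > j > 0`: an identity in `K` between elements of `R`
(`psi` of the images of `X, Y ∈ R` is the image of `normEDS (2Y) (Ψ₃(X)) (preΨ₄(X)) n ∈ R`,
`map_normEDS`), so an identity in `R` (`R → K` injective).  Apply the ring homomorphism `R → F`,
`X ↦ x`, `Y ↦ y` (`AdjoinRoot.lift`, `AdjoinRoot.evalEval` or `CoordinateRing.map`; `(x, y)` on the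
curve) and `map_normEDS` again.
-/

open WeierstrassCurve

namespace H16C

variable {F : Type*} [Field F] [CharZero F] {W : WeierstrassCurve.Affine F} [W.IsShortNF]
  [W.IsElliptic] {x y : F}

section D5aux

open Polynomial

omit [CharZero F] [W.IsShortNF] [W.IsElliptic] in
theorem D5_aeval (p : F[X]) :
    aeval (algebraMap F[X] W.CoordinateRing X) p = algebraMap F[X] W.CoordinateRing p := by
  rw [aeval_algebraMap_apply, aeval_X_left_apply]

/-- the value of the division polynomial at the universal point -/
noncomputable def D5psi (W : WeierstrassCurve.Affine F) (n : ℤ) : W.CoordinateRing :=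
  normEDS (2 * AdjoinRoot.root W.polynomial) (algebraMap F[X] W.CoordinateRing W.Ψ₃)
    (algebraMap F[X] W.CoordinateRing W.preΨ₄) n

omit [CharZero F] [W.IsElliptic] in
theorem D5_poly : W.polynomial = X ^ 2 - C (X ^ 3 + C W.a₄ * X + C W.a₆) := by
  rw [WeierstrassCurve.Affine.polynomial]
  simp

omit [CharZero F] [W.IsElliptic] in
theorem D5_eqn : (AdjoinRoot.root W.polynomial : W.CoordinateRing) ^ 2 =
    algebraMap F[X] W.CoordinateRing X ^ 3 +
      algebraMap F W.CoordinateRing W.a₄ * algebraMap F[X] W.CoordinateRing X +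
      algebraMap F W.CoordinateRing W.a₆ := by
  have h := AdjoinRoot.eval₂_root W.polynomial
  have h2 : eval₂ (AdjoinRoot.of W.polynomial) (AdjoinRoot.root W.polynomial)
      (X ^ 2 - C (X ^ 3 + C W.a₄ * X + C W.a₆) : F[X][X]) = 0 := by
    rw [← D5_poly]
    exact h
  simp only [eval₂_add, eval₂_sub, eval₂_mul, eval₂_pow, eval₂_X, eval₂_C, map_add, map_mul,
    map_pow] at h2
  have e1 : ∀ a : F, algebraMap F W.CoordinateRing a = AdjoinRoot.of W.polynomial (C a) := by
    intro a
    rfl
  have e2 : ∀ p : F[X], algebraMap F[X] W.CoordinateRing p = AdjoinRoot.of W.polynomial p := by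
    intro p
    rfl
  rw [e1, e1, e2]
  linear_combination h2

omit [CharZero F] [W.IsElliptic] in
/-- the evaluation at a point of the curve -/
theorem D5_ev (h : y ^ 2 = x ^ 3 + W.a₄ * x + W.a₆) :
    ∃ f : W.CoordinateRing →+* F, ∀ n : ℤ, f (D5psi W n) = psi W x y n := by
  have h0 : eval₂ (evalRingHom x) y W.polynomial = 0 := by
    rw [D5_poly]
    simp only [eval₂_add, eval₂_sub, eval₂_mul, eval₂_pow, eval₂_X, eval₂_C, coe_evalRingHom,
      eval_add, eval_mul, eval_pow, eval_X, eval_C]
    linear_combination h
  refine ⟨AdjoinRoot.lift (evalRingHom x) y h0, fun n => ?_⟩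
  have e2 : ∀ p : F[X], AdjoinRoot.lift (evalRingHom x) y h0
      (algebraMap F[X] W.CoordinateRing p) = p.eval x := by
    intro p
    change AdjoinRoot.lift (evalRingHom x) y h0 (AdjoinRoot.of W.polynomial p) = p.eval x
    rw [AdjoinRoot.lift_of]
    rfl
  have e3 : AdjoinRoot.lift (evalRingHom x) y h0 (AdjoinRoot.root W.polynomial) = y :=
    AdjoinRoot.lift_root h0
  rw [D5psi, psi, map_normEDS, e2, e2, map_mul, e3, map_ofNat]

open Classical in
/-- the relation at the universal point -/
theorem D5_univ (i j : ℕ) (hj : 0 < j) (hij : j < i) :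
    D5psi W (i + j) * D5psi W (i - j) =
      D5psi W (i + 1) * D5psi W (i - 1) * D5psi W j ^ 2 -
        D5psi W (j + 1) * D5psi W (j - 1) * D5psi W i ^ 2 := by
  have hinj : Function.Injective (algebraMap W.CoordinateRing W.FunctionField) :=
    IsFractionRing.injective _ _
  haveI : CharZero W.FunctionField := charZero_of_injective_algebraMap
    (FaithfulSMul.algebraMap_injective F W.FunctionField)
  set W' : WeierstrassCurve.Affine W.FunctionField :=
    WeierstrassCurve.Affine.baseChange W W.FunctionField with hW'
  set X' : W.FunctionField := algebraMap W.CoordinateRing W.FunctionField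
    (algebraMap F[X] W.CoordinateRing X) with hX'
  set Y' : W.FunctionField := algebraMap W.CoordinateRing W.FunctionField
    (AdjoinRoot.root W.polynomial) with hY'
  have hW4 : W'.a₄ = algebraMap W.CoordinateRing W.FunctionField
      (algebraMap F W.CoordinateRing W.a₄) := by
    rw [← IsScalarTower.algebraMap_apply]
    rfl
  have hW6 : W'.a₆ = algebraMap W.CoordinateRing W.FunctionField
      (algebraMap F W.CoordinateRing W.a₆) := by
    rw [← IsScalarTower.algebraMap_apply]
    rfl
  have hXY : Y' ^ 2 = X' ^ 3 + W'.a₄ * X' + W'.a₆ := by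
    rw [hW4, hW6, hX', hY', ← map_pow, ← map_pow, ← map_mul, ← map_add, ← map_add, D5_eqn]
  have hpe : ∀ p : F[X], (p.map (algebraMap F W.FunctionField)).eval X' =
      algebraMap W.CoordinateRing W.FunctionField (algebraMap F[X] W.CoordinateRing p) := by
    intro p
    rw [eval_map, ← aeval_def, hX', aeval_algebraMap_apply, D5_aeval]
  have hpsi : ∀ n : ℤ, psi W' X' Y' n =
      algebraMap W.CoordinateRing W.FunctionField (D5psi W n) := by
    intro n
    rw [D5psi, psi, map_normEDS, map_mul, map_ofNat]
    have e3 : W'.Ψ₃.eval X' = algebraMap W.CoordinateRing W.FunctionField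
        (algebraMap F[X] W.CoordinateRing W.Ψ₃) := by
      rw [← hpe]
      exact congrArg (fun p => eval X' p) (map_Ψ₃ W (algebraMap F W.FunctionField))
    have e4 : W'.preΨ₄.eval X' = algebraMap W.CoordinateRing W.FunctionField
        (algebraMap F[X] W.CoordinateRing W.preΨ₄) := by
      rw [← hpe]
      exact congrArg (fun p => eval X' p) (map_preΨ₄ W (algebraMap F W.FunctionField))
    rw [e3, e4]
  obtain ⟨U, hU0, hUx, hUy⟩ := exists_pt (W := W') X' Y' hXY
  have hinf : ∀ N : ℕ, 0 < N → N • U ≠ 0 := by
    intro N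
    induction N using Nat.strong_induction_on with
    | _ N ih =>
      intro hN hNU
      have hN2 : 2 ≤ N := by
        rcases Nat.lt_or_ge N 2 with h | h
        · have : N = 1 := by omega
          subst this
          rw [one_smul] at hNU
          exact absurd hNU hU0
        · exact h
      have h1 := psi_order (W := W') (two_ne_zero) hU0 N hN2
        (fun k hk hkN => ih k hkN hk) hNU
      rw [hUx, hUy] at h1
      have h2 := psi_sq W' hXY (N : ℤ)
      rw [h1] at h2
      have h3 : W'.ΨSq N = (W.ΨSq N).map (algebraMap F W.FunctionField) :=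
        map_ΨSq W (algebraMap F W.FunctionField) N
      rw [h3, hpe, zero_pow two_ne_zero] at h2
      have h4 : algebraMap F[X] W.CoordinateRing (W.ΨSq N) = 0 := by
        apply hinj
        rw [← h2, map_zero]
      have h5 : W.ΨSq (N : ℤ) = 0 := by
        apply FaithfulSMul.algebraMap_injective F[X] W.CoordinateRing
        rw [h4, map_zero]
      exact W.ΨSq_ne_zero (n := (N : ℤ)) (by exact_mod_cast (by omega : N ≠ 0)) h5
  have key := ell_generic (W := W') two_ne_zero hU0 i j hj hij (fun k hk _ => hinf k hk)
  rw [hUx, hUy] at key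
  simp only [hpsi, ← map_mul, ← map_pow, ← map_sub] at key
  exact hinj key

end D5aux

theorem ell_rel (h : y ^ 2 = x ^ 3 + W.a₄ * x + W.a₆) (i j : ℕ) (hj : 0 < j) (hij : j < i) :
    psi W x y (i + j) * psi W x y (i - j) =
      psi W x y (i + 1) * psi W x y (i - 1) * psi W x y j ^ 2 -
        psi W x y (j + 1) * psi W x y (j - 1) * psi W x y i ^ 2 := by
  obtain ⟨f, hf⟩ := D5_ev (W := W) h
  have key := congrArg f (D5_univ (W := W) i j hj hij)
  simp only [map_mul, map_pow, map_sub, hf] at key
  exact key

end H16C
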