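import Mathlib

/-!
# FN1 (M): the counting lemma (finite combinatorics)

`V = {y : ι → ℤ/n | every y i is a multiple of n/p}`, `t = #ι`.
For `y ∈ V` and `j : Fin h` the set `A(y, j) = {s | y ∈ Z s, c s y = j}` has at most
`n^t / p^(#supp y)` elements: two elements agree modulo `p` at all `i ∈ supp y`, so `A(y, j)` injects,
after fixing one element, into `∏_{i ∈ supp} (fibre of ℤ/n → ℤ/p, n/p elements) × ∏_{i ∉ supp} ℤ/n`.
Interchange the sums: `∑_s #{y ∈ V | y ∈ Z s} = ∑_{y ∈ V} ∑_j #A(y, j) ≤ h n^t ∑_{y ∈ V} p^(-#supp y)`,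
and `∑_{y ∈ V} ∏_i p^(-[y i ≠ 0]) = (∑_{z ∈ (n/p)ℤ/n} p^(-[z ≠ 0]))^t = (1 + (p-1)/p)^t = (2 - 1/p)^t`
(`Finset.prod_univ_sum`/`Fintype.piFinset`; the multiples of `n/p` in `ℤ/n` are `p` in number).
-/

namespace H16C

open Finset in
theorem FN1_fiber {n p : ℕ} [NeZero n] (hp : p.Prime) (hpn : p ∣ n) (z0 : ZMod n) :
    (((univ.filter (fun z : ZMod n => ZMod.castHom hpn (ZMod p) z =
      ZMod.castHom hpn (ZMod p) z0)).card : ℕ) : ℝ) = n / p := by
  have hpz : NeZero p := ⟨hp.ne_zero⟩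
  have hsurj : Function.Surjective (ZMod.castHom hpn (ZMod p)) := ZMod.castHom_surjective hpn
  have h1 : (univ : Finset (ZMod n)).card =
      ∑ a : ZMod p, (univ.filter (fun z : ZMod n => ZMod.castHom hpn (ZMod p) z = a)).card :=
    card_eq_sum_card_fiberwise (fun _ _ => mem_coe.2 (mem_univ _))
  have h2 : ∀ a : ZMod p, (univ.filter (fun z : ZMod n => ZMod.castHom hpn (ZMod p) z = a)).card =
      (univ.filter (fun z : ZMod n => ZMod.castHom hpn (ZMod p) z =
        ZMod.castHom hpn (ZMod p) z0)).card := by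
    intro a
    obtain ⟨z1, rfl⟩ := hsurj a
    refine card_bij (fun z _ => z - z1 + z0) ?_ ?_ ?_
    · intro z hz
      rw [mem_filter] at hz ⊢
      refine ⟨mem_univ _, ?_⟩
      rw [map_add, map_sub, hz.2, sub_self, zero_add]
    · intro z _ z' _ h
      simpa using h
    · intro z hz
      rw [mem_filter] at hz
      refine ⟨z - z0 + z1, ?_, by ring⟩
      rw [mem_filter]
      refine ⟨mem_univ _, ?_⟩
      rw [map_add, map_sub, hz.2, sub_self, zero_add]
  rw [sum_congr rfl (fun a _ => h2 a), sum_const, card_univ, card_univ, ZMod.card, ZMod.card,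
    smul_eq_mul] at h1
  have hp0 : (p : ℝ) ≠ 0 := by exact_mod_cast hp.ne_zero
  rw [eq_div_iff hp0]
  rw [mul_comm]
  exact_mod_cast h1.symm

open Finset in
open scoped Classical in
theorem FN1_mult {n p : ℕ} [NeZero n] (hp : p.Prime) (hpn : p ∣ n) :
    (univ.filter (fun z : ZMod n => ∃ u : ZMod n, z = ((n / p : ℕ) : ZMod n) * u)).card ≤ p := by
  have hsub : univ.filter (fun z : ZMod n => ∃ u : ZMod n, z = ((n / p : ℕ) : ZMod n) * u) ⊆
      (range p).image (fun k : ℕ => ((n / p : ℕ) : ZMod n) * (k : ZMod n)) := by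
    intro z hz
    rw [mem_filter] at hz
    obtain ⟨-, u, rfl⟩ := hz
    rw [mem_image]
    refine ⟨u.val % p, mem_range.2 (Nat.mod_lt _ hp.pos), ?_⟩
    have h1 : u = ((p * (u.val / p) + u.val % p : ℕ) : ZMod n) := by
      rw [Nat.div_add_mod, ZMod.natCast_zmod_val]
    have h2 : ((n / p : ℕ) : ZMod n) * (p : ZMod n) = 0 := by
      rw [← Nat.cast_mul, Nat.div_mul_cancel hpn, ZMod.natCast_self]
    conv_rhs => rw [h1]
    rw [Nat.cast_add, Nat.cast_mul, mul_add, ← mul_assoc, h2, zero_mul, zero_add]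
  refine (card_le_card hsub).trans (card_image_le.trans ?_)
  rw [card_range]

open Finset in
open scoped Classical in
theorem FN1_A {n p : ℕ} [NeZero n] (hp : p.Prime) (hpn : p ∣ n) {ι : Type*} [Fintype ι]
    [DecidableEq ι] (A : Finset (ι → ZMod n)) (y : ι → ZMod n)
    (H : ∀ s ∈ A, ∀ s' ∈ A, ∀ i, y i ≠ 0 →
        ZMod.castHom hpn (ZMod p) (s i) = ZMod.castHom hpn (ZMod p) (s' i)) :
    (A.card : ℝ) ≤ (n : ℝ) ^ (Fintype.card ι) * ∏ i, (if y i = 0 then (1 : ℝ) else 1 / p) := by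
  have hp0 : (0 : ℝ) < p := by exact_mod_cast hp.pos
  rcases A.eq_empty_or_nonempty with rfl | ⟨s0, hs0⟩
  · rw [card_empty, Nat.cast_zero]
    apply mul_nonneg (by positivity)
    apply prod_nonneg
    intro i _
    split_ifs <;> positivity
  have hsub : A ⊆ Fintype.piFinset (fun i => if y i = 0 then (univ : Finset (ZMod n)) else
      univ.filter (fun z : ZMod n => ZMod.castHom hpn (ZMod p) z =
        ZMod.castHom hpn (ZMod p) (s0 i))) := by
    intro s hs
    rw [Fintype.mem_piFinset]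
    intro i
    split_ifs with h
    · exact mem_univ _
    · rw [mem_filter]
      exact ⟨mem_univ _, H s hs s0 hs0 i h⟩
  have h1 : (A.card : ℝ) ≤ ((∏ i, (if y i = 0 then (univ : Finset (ZMod n)) else
      univ.filter (fun z : ZMod n => ZMod.castHom hpn (ZMod p) z =
        ZMod.castHom hpn (ZMod p) (s0 i))).card : ℕ) : ℝ) := by
    exact_mod_cast (card_le_card hsub).trans_eq (Fintype.card_piFinset _)
  refine h1.trans (le_of_eq ?_)
  rw [Nat.cast_prod, ← card_univ, ← prod_const, ← prod_mul_distrib]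
  apply prod_congr rfl
  intro i _
  split_ifs with h
  · rw [card_univ, ZMod.card, mul_one]
  · rw [FN1_fiber hp hpn]
    ring

open Finset in
theorem count_bound {n p : ℕ} [NeZero n] (hp : p.Prime) (hpn : p ∣ n) {ι : Type*} [Fintype ι]
    [DecidableEq ι] (h : ℕ) (Z : (ι → ZMod n) → Set (ι → ZMod n))
    (c : (ι → ZMod n) → (ι → ZMod n) → Fin h)
    (H : ∀ y s s' : ι → ZMod n, (∀ i, ∃ u : ZMod n, y i = ((n / p : ℕ) : ZMod n) * u) →
      y ∈ Z s → y ∈ Z s' → c s y = c s' y → ∀ i, y i ≠ 0 →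
        ZMod.castHom hpn (ZMod p) (s i) = ZMod.castHom hpn (ZMod p) (s' i)) :
    (∑ s : ι → ZMod n, (Nat.card {y : ι → ZMod n // y ∈ Z s ∧
      ∀ i, ∃ u : ZMod n, y i = ((n / p : ℕ) : ZMod n) * u} : ℝ)) ≤
      h * (n : ℝ) ^ (Fintype.card ι) * (2 - 1 / (p : ℝ)) ^ (Fintype.card ι) := by
  classical
  have hp0 : (0 : ℝ) < p := by exact_mod_cast hp.pos
  obtain ⟨M, hM⟩ : ∃ M, M = univ.filter (fun z : ZMod n => ∃ u : ZMod n,
    z = ((n / p : ℕ) : ZMod n) * u) := ⟨_, rfl⟩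
  obtain ⟨V, hV⟩ : ∃ V, V = Fintype.piFinset (fun _ : ι => M) := ⟨_, rfl⟩
  have hVm : ∀ y, y ∈ V ↔ ∀ i, ∃ u : ZMod n, y i = ((n / p : ℕ) : ZMod n) * u := by
    intro y
    rw [hV, Fintype.mem_piFinset]
    simp only [hM, mem_filter, mem_univ, true_and]
  have e1 : ∀ s, (Nat.card {y : ι → ZMod n // y ∈ Z s ∧
      ∀ i, ∃ u : ZMod n, y i = ((n / p : ℕ) : ZMod n) * u} : ℝ) =
      ∑ y ∈ V, (if y ∈ Z s then (1 : ℝ) else 0) := by
    intro s
    rw [Nat.card_eq_fintype_card, Fintype.card_subtype, ← sum_filter, sum_const, nsmul_eq_mul,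
      mul_one]
    congr 2
    ext y
    rw [mem_filter, mem_filter, hVm]
    simp only [mem_univ, true_and]
    tauto
  rw [sum_congr rfl (fun s _ => e1 s), sum_comm]
  have e2 : ∀ y ∈ V, ∑ s : ι → ZMod n, (if y ∈ Z s then (1 : ℝ) else 0) ≤
      h * ((n : ℝ) ^ (Fintype.card ι) * ∏ i, (if y i = 0 then (1 : ℝ) else 1 / p)) := by
    intro y hy
    have e3 : ∑ s : ι → ZMod n, (if y ∈ Z s then (1 : ℝ) else 0) =
        ∑ j : Fin h, ((univ.filter (fun s => y ∈ Z s ∧ c s y = j)).card : ℝ) := by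
      rw [← sum_filter, sum_const, nsmul_eq_mul, mul_one,
        card_eq_sum_card_fiberwise (f := fun s => c s y) (t := (univ : Finset (Fin h)))
        (fun _ _ => mem_coe.2 (mem_univ _)), Nat.cast_sum]
      apply sum_congr rfl
      intro j _
      rw [filter_filter]
    rw [e3]
    have e4 : ∀ j ∈ (univ : Finset (Fin h)),
        ((univ.filter (fun s => y ∈ Z s ∧ c s y = j)).card : ℝ) ≤
        (n : ℝ) ^ (Fintype.card ι) * ∏ i, (if y i = 0 then (1 : ℝ) else 1 / p) := by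
      intro j _
      apply FN1_A hp hpn
      intro s hs s' hs' i hi
      rw [mem_filter] at hs hs'
      exact H y s s' ((hVm y).1 hy) hs.2.1 hs'.2.1 (hs.2.2.trans hs'.2.2.symm) i hi
    refine (sum_le_sum e4).trans (le_of_eq ?_)
    rw [sum_const, card_univ, Fintype.card_fin, nsmul_eq_mul]
  refine (sum_le_sum e2).trans ?_
  rw [← mul_sum, ← mul_sum, hV, ← prod_univ_sum (fun _ : ι => M)
    (fun _ z => if z = 0 then (1 : ℝ) else 1 / p), prod_const, card_univ, mul_assoc]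
  have e5 : ∑ z ∈ M, (if z = 0 then (1 : ℝ) else 1 / p) ≤ 2 - 1 / p := by
    have h0 : (0 : ZMod n) ∈ M := by
      rw [hM, mem_filter]
      exact ⟨mem_univ _, 0, by rw [mul_zero]⟩
    have e6 : ∀ z ∈ M, (if z = 0 then (1 : ℝ) else 1 / p) =
        1 / p + (if z = 0 then (1 - 1 / (p : ℝ)) else 0) := by
      intro z _
      split_ifs <;> ring
    rw [sum_congr rfl e6, sum_add_distrib, sum_const, nsmul_eq_mul, sum_ite_eq', if_pos h0]
    have h1 : (M.card : ℝ) ≤ p := by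
      rw [hM]
      exact_mod_cast FN1_mult hp hpn
    have h2 : (M.card : ℝ) * (1 / p) ≤ 1 := by
      rw [mul_one_div, div_le_one hp0]
      exact h1
    linarith
  have e7 : 0 ≤ ∑ z ∈ M, (if z = 0 then (1 : ℝ) else 1 / p) := by
    apply sum_nonneg
    intro z _
    split_ifs <;> positivity
  gcongr

end H16C
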