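import Pool.Agent.Lib.H16C.FN1

/-!
# FN2 (S): choice of `s`, good for all the primes `p ∣ n`

By `count_bound`, for `p ∣ n`: `∑_s N_p(s) ≤ h n^t (2 - 1/p)^t`, `N_p(s)` = the cardinal.  So
`∑_s ∑_{p ∣ n} N_p(s)/(2 - 1/p)^t ≤ h ω(n) n^t`, and (`n^t` terms) some `s` has
`∑_{p ∣ n} N_p(s)/(2-1/p)^t ≤ h ω(n) ≤ n h` (`Finset.exists_le_of_sum_le`).  (`n.primeFactors`.)
-/

namespace H16C

theorem exists_s {n : ℕ} [NeZero n] {ι : Type*} [Fintype ι] [DecidableEq ι] (h : ℕ)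
    (Z : (ι → ZMod n) → Set (ι → ZMod n)) (c : (ι → ZMod n) → (ι → ZMod n) → Fin h)
    (H : ∀ p : ℕ, ∀ hpn : p ∣ n, p.Prime → ∀ y s s' : ι → ZMod n,
      (∀ i, ∃ u : ZMod n, y i = ((n / p : ℕ) : ZMod n) * u) →
      y ∈ Z s → y ∈ Z s' → c s y = c s' y → ∀ i, y i ≠ 0 →
        ZMod.castHom hpn (ZMod p) (s i) = ZMod.castHom hpn (ZMod p) (s' i)) :
    ∃ s : ι → ZMod n, ∀ p : ℕ, p.Prime → p ∣ n →
      (Nat.card {y : ι → ZMod n // y ∈ Z s ∧
        ∀ i, ∃ u : ZMod n, y i = ((n / p : ℕ) : ZMod n) * u} : ℝ) ≤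
      n * h * (2 - 1 / (p : ℝ)) ^ (Fintype.card ι) := by
  classical
  by_contra hcon
  push Not at hcon
  obtain ⟨N, hN⟩ : ∃ N : ℕ → (ι → ZMod n) → ℝ, N = fun p s =>
      (Nat.card {y : ι → ZMod n // y ∈ Z s ∧
        ∀ i, ∃ u : ZMod n, y i = ((n / p : ℕ) : ZMod n) * u} : ℝ) := ⟨_, rfl⟩
  obtain ⟨b, hb⟩ : ∃ b : ℕ → ℝ, b = fun p : ℕ => (2 - 1 / (p : ℝ)) ^ (Fintype.card ι) := ⟨_, rfl⟩
  have hb0 : ∀ p : ℕ, p.Prime → 0 < b p := by
    intro p hp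
    have h1 : (1 : ℝ) ≤ p := by exact_mod_cast hp.one_lt.le
    have h2 : 1 / (p : ℝ) ≤ 1 := by
      rw [div_le_one (by linarith)]
      exact h1
    rw [hb]
    exact pow_pos (by linarith) _
  have hN0 : ∀ p s, 0 ≤ N p s := by
    intro p s
    rw [hN]
    positivity
  have h1 : ∀ p ∈ n.primeFactors, ∑ s, N p s / b p ≤ h * (n : ℝ) ^ (Fintype.card ι) := by
    intro p hp
    have hpp := Nat.prime_of_mem_primeFactors hp
    have hpn := Nat.dvd_of_mem_primeFactors hp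
    rw [← Finset.sum_div, div_le_iff₀ (hb0 p hpp), hb, hN]
    exact count_bound hpp hpn h Z c (H p hpn hpp)
  have h2 : ∀ s : ι → ZMod n, (n : ℝ) * h < ∑ p ∈ n.primeFactors, N p s / b p := by
    intro s
    obtain ⟨p, hpp, hpn, hlt⟩ := hcon s
    have hmem : p ∈ n.primeFactors := Nat.mem_primeFactors.2 ⟨hpp, hpn, NeZero.ne n⟩
    have h3 : (n : ℝ) * h < N p s / b p := by
      rw [lt_div_iff₀ (hb0 p hpp), hb, hN]
      exact hlt
    exact h3.trans_le (Finset.single_le_sum (f := fun p => N p s / b p)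
      (fun q hq => div_nonneg (hN0 q s) (hb0 q (Nat.prime_of_mem_primeFactors hq)).le) hmem)
  have h3 : ∑ s : ι → ZMod n, (n : ℝ) * h < ∑ s : ι → ZMod n,
      ∑ p ∈ n.primeFactors, N p s / b p :=
    Finset.sum_lt_sum_of_nonempty ⟨0, Finset.mem_univ _⟩ (fun s _ => h2 s)
  rw [Finset.sum_comm] at h3
  have h4 := h3.trans_le (Finset.sum_le_sum h1)
  rw [Finset.sum_const, Finset.sum_const, Finset.card_univ, Fintype.card_fun, ZMod.card,
    nsmul_eq_mul, nsmul_eq_mul] at h4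
  have h5 : ((n.primeFactors.card : ℕ) : ℝ) ≤ n := by
    have h6 : n.primeFactors ⊆ Finset.Icc 1 n := by
      intro p hp
      rw [Finset.mem_Icc]
      exact ⟨(Nat.prime_of_mem_primeFactors hp).one_lt.le,
        Nat.le_of_dvd (Nat.pos_of_ne_zero (NeZero.ne n)) (Nat.dvd_of_mem_primeFactors hp)⟩
    have h7 := Finset.card_le_card h6
    rw [Nat.card_Icc, Nat.add_sub_cancel] at h7
    exact_mod_cast h7
  have h8 : (n.primeFactors.card : ℝ) * (h * (n : ℝ) ^ (Fintype.card ι)) ≤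
      n * (h * (n : ℝ) ^ (Fintype.card ι)) :=
    mul_le_mul_of_nonneg_right h5 (by positivity)
  push_cast at h4
  nlinarith

end H16C
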