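import Mathlib

/-!
# FN3 (M): embedding `(ℤ/n)^r` in a quotient of `(ℤ/n)^t`

`F : (ℤ/n)^ι → H`, `t = #ι`.  For a prime `p ∣ n` let
`U_p = {a ∈ 𝔽_p^ι | F((n/p) ã) = 0}` (`ã` any lift of `a`, `(n/p) ã` depends only on `a`); `a ↦ (n/p) ã`
is a bijection of `𝔽_p^ι` with the multiples of `n/p`, so by hypothesis `#U_p · p^r ≤ p^t`:
`dim U_p ≤ t - r`.  Choose `e^(p)_1, ..., e^(p)_r ∈ 𝔽_p^ι` linearly independent modulo `U_p`
(a complement of `U_p` has dimension `≥ r`).  By the Chinese remainder theorem (for the different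
primes `p ∣ n`) there are `e_1, ..., e_r ∈ (ℤ/n)^ι` with `e_j ≡ e^(p)_j` modulo `p` for all `p ∣ n`
(e.g. `e_j = ∑_p u_p ẽ^(p)_j`, `u_p ∈ ℤ`, `u_p ≡ 1 mod p`, `u_p ≡ 0` modulo the other primes).
`f(c) = F(∑ c_j e_j)`.  Injective: let `f(c) = 0`, `c ≠ 0`; a multiple of `c` has prime order `p`
(`p` divides the additive order of `c`), replace `c` by it: `p c = 0`, so `c = (n/p) u` with
`u ∈ (ℤ/n)^r`, `u mod p ≠ 0`.  `0 = F(∑ c_j e_j) = F((n/p) ∑ u_j e_j)`, so `∑ ū_j e^(p)_j ∈ U_p` and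
`ū = 0`, contradiction.
-/

namespace H16C

/-- multiplication by `n/p`, as a map `ℤ/p → ℤ/n` -/
theorem FN3_mult {n p : ℕ} [NeZero n] (hp : p.Prime) (hpn : p ∣ n) :
    ∃ m : ZMod p →+ ZMod n, Function.Injective m ∧
      (∀ (a : ZMod p) (z : ZMod n), m a * z = m (a * ZMod.castHom hpn (ZMod p) z)) ∧
      (∀ u : ZMod n, m (ZMod.castHom hpn (ZMod p) u) = ((n / p : ℕ) : ZMod n) * u) := by
  obtain ⟨f, hf⟩ : ∃ f : ℤ →+ ZMod n, f = (AddMonoidHom.mulLeft ((n / p : ℕ) : ZMod n)).comp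
    (Int.castAddHom (ZMod n)) := ⟨_, rfl⟩
  have hfk : ∀ k : ℤ, f k = ((n / p : ℕ) : ZMod n) * (k : ZMod n) := by
    intro k
    rw [hf]
    rfl
  have hfp : f (p : ℤ) = 0 := by
    rw [hfk, Int.cast_natCast, ← Nat.cast_mul, Nat.div_mul_cancel hpn, ZMod.natCast_self]
  have hlift : ∀ k : ℤ, ZMod.lift p ⟨f, hfp⟩ (k : ZMod p) = ((n / p : ℕ) : ZMod n) * (k : ZMod n) := by
    intro k
    rw [ZMod.lift_coe]
    exact hfk k
  refine ⟨ZMod.lift p ⟨f, hfp⟩, ?_, ?_, ?_⟩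
  · rw [ZMod.lift_injective]
    intro k hk
    have hk' : ((n / p : ℕ) : ZMod n) * (k : ZMod n) = 0 := by
      rw [← hfk]
      exact hk
    have h1 : (((n / p : ℕ) * k : ℤ) : ZMod n) = 0 := by
      rw [Int.cast_mul, Int.cast_natCast]
      exact hk'
    rw [ZMod.intCast_zmod_eq_zero_iff_dvd] at h1 ⊢
    have h2 : ((n : ℕ) : ℤ) = (n / p : ℕ) * (p : ℤ) := by
      rw [← Nat.cast_mul, Nat.div_mul_cancel hpn]
    have h3 : ((n / p : ℕ) : ℤ) ≠ 0 := by
      have : 0 < n / p := Nat.div_pos (Nat.le_of_dvd (Nat.pos_of_ne_zero (NeZero.ne n)) hpn) hp.pos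
      exact_mod_cast this.ne'
    rw [h2] at h1
    exact Int.dvd_of_mul_dvd_mul_left h3 h1
  · intro a z
    obtain ⟨k, rfl⟩ := ZMod.intCast_surjective a
    obtain ⟨l, rfl⟩ := ZMod.intCast_surjective z
    rw [map_intCast (ZMod.castHom hpn (ZMod p)), ← Int.cast_mul, hlift, hlift, Int.cast_mul, mul_assoc]
  · intro u
    obtain ⟨k, rfl⟩ := ZMod.intCast_surjective u
    rw [map_intCast, hlift]

theorem FN3_prime {n p : ℕ} [NeZero n] (hp : p.Prime) (hpn : p ∣ n) {ι : Type*} [Fintype ι]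
    {H : Type*} [AddCommGroup H] (F : (ι → ZMod n) →+ H) (r : ℕ)
    (hr : Nat.card {y : ι → ZMod n // F y = 0 ∧ ∀ i, ∃ u : ZMod n, y i = ((n / p : ℕ) : ZMod n) * u} *
        p ^ r ≤ p ^ (Fintype.card ι)) (m : ZMod p →+ ZMod n) (hm : Function.Injective m)
    (hmu : ∀ u : ZMod n, m (ZMod.castHom hpn (ZMod p) u) = ((n / p : ℕ) : ZMod n) * u) :
    ∃ e : Fin r → ι → ZMod p, ∀ v : Fin r → ZMod p,
      F (fun i => m (∑ j, v j * e j i)) = 0 → v = 0 := by
  classical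
  have hfact : Fact p.Prime := ⟨hp⟩
  obtain ⟨U, hU⟩ : ∃ U : Submodule (ZMod p) (ι → ZMod p), ∀ a, a ∈ U ↔ F (fun i => m (a i)) = 0 := by
    refine ⟨AddSubgroup.toZModSubmodule p (F.comp (m.compLeft ι)).ker, ?_⟩
    intro a
    rw [AddSubgroup.mem_toZModSubmodule, AddMonoidHom.mem_ker]
    rfl
  have hcard : Nat.card U ≤ Nat.card {y : ι → ZMod n // F y = 0 ∧
      ∀ i, ∃ u : ZMod n, y i = ((n / p : ℕ) : ZMod n) * u} := by
    refine Nat.card_le_card_of_injective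
      (fun a : U => (⟨fun i => m (a.1 i), (hU a.1).1 a.2, ?_⟩ : {y : ι → ZMod n // F y = 0 ∧
      ∀ i, ∃ u : ZMod n, y i = ((n / p : ℕ) : ZMod n) * u})) ?_
    · intro i
      obtain ⟨u, hu⟩ := ZMod.castHom_surjective hpn (a.1 i)
      exact ⟨u, by rw [← hmu, hu]⟩
    · intro a b hab
      have h1 := congrArg Subtype.val hab
      apply Subtype.ext
      funext i
      exact hm (congrFun h1 i)
  rw [Module.natCard_eq_pow_finrank (K := ZMod p), Nat.card_zmod] at hcard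
  have h1 : p ^ (Module.finrank (ZMod p) U + r) ≤ p ^ (Fintype.card ι) := by
    rw [pow_add]
    exact (Nat.mul_le_mul_right _ hcard).trans hr
  have h2 : Module.finrank (ZMod p) U + r ≤ Fintype.card ι :=
    (Nat.pow_le_pow_iff_right hp.one_lt).1 h1
  have h3 := Submodule.finrank_quotient_add_finrank U
  rw [Module.finrank_fintype_fun_eq_card] at h3
  have h4 : r ≤ Module.finrank (ZMod p) ((ι → ZMod p) ⧸ U) := by omega
  obtain ⟨f, hf⟩ := exists_linearIndependent_of_le_finrank h4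
  choose e he using fun j => Submodule.Quotient.mk_surjective U (f j)
  refine ⟨e, ?_⟩
  intro v hv
  have h5 : (∑ j, v j • e j) ∈ U := by
    rw [hU, ← hv]
    congr 1
    funext i
    rw [Finset.sum_apply]
    rfl
  rw [← Submodule.Quotient.mk_eq_zero, ← Submodule.mkQ_apply, map_sum] at h5
  rw [Fintype.linearIndependent_iff] at hf
  funext j
  refine hf v ?_ j
  rw [← h5]
  apply Finset.sum_congr rfl
  intro j _
  rw [map_smul, Submodule.mkQ_apply, he]

theorem FN3_crt {n : ℕ} (e : ∀ p : ℕ, p.Prime → p ∣ n → ZMod p) :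
    ∃ E : ZMod n, ∀ (p : ℕ) (hp : p.Prime) (hpn : p ∣ n), n ≠ 0 →
      ZMod.castHom hpn (ZMod p) E = e p hp hpn := by
  classical
  obtain ⟨a, ha⟩ : ∃ a : ℕ → ℕ, a = fun p => if h : p.Prime ∧ p ∣ n then (e p h.1 h.2).val else 0 :=
    ⟨_, rfl⟩
  obtain ⟨k, hk⟩ := Nat.chineseRemainderOfFinset a (fun p => p) n.primeFactors
    (fun p hp => (Nat.prime_of_mem_primeFactors hp).ne_zero)
    (fun p hp q hq hpq => (Nat.coprime_primes (Nat.prime_of_mem_primeFactors hp)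
      (Nat.prime_of_mem_primeFactors hq)).2 hpq)
  refine ⟨(k : ZMod n), ?_⟩
  intro p hp hpn hn
  have hz : NeZero p := ⟨hp.ne_zero⟩
  have h1 := hk p (Nat.mem_primeFactors.2 ⟨hp, hpn, hn⟩)
  rw [map_natCast, (ZMod.natCast_eq_natCast_iff _ _ _).2 h1, ha]
  dsimp only
  rw [dif_pos ⟨hp, hpn⟩, ZMod.natCast_zmod_val]

theorem embed {n : ℕ} [NeZero n] {ι : Type*} [Fintype ι] {H : Type*} [AddCommGroup H]
    (F : (ι → ZMod n) →+ H) (r : ℕ)
    (hr : ∀ p : ℕ, p.Prime → p ∣ n →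
      Nat.card {y : ι → ZMod n // F y = 0 ∧ ∀ i, ∃ u : ZMod n, y i = ((n / p : ℕ) : ZMod n) * u} *
        p ^ r ≤ p ^ (Fintype.card ι)) :
    ∃ f : (Fin r → ZMod n) →+ H, Function.Injective f := by
  classical
  choose m hm hmz hmu using fun (p : ℕ) (hp : p.Prime) (hpn : p ∣ n) => FN3_mult (n := n) hp hpn
  choose e he using fun (p : ℕ) (hp : p.Prime) (hpn : p ∣ n) =>
    FN3_prime hp hpn F r (hr p hp hpn) (m p hp hpn) (hm p hp hpn) (hmu p hp hpn)
  choose E hE using fun (j : Fin r) (i : ι) => FN3_crt (n := n) (fun p hp hpn => e p hp hpn j i)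
  obtain ⟨L, hL⟩ : ∃ L : (Fin r → ZMod n) →+ (ι → ZMod n), ∀ c i, L c i = ∑ j, c j * E j i :=
    ⟨AddMonoidHom.mk' (fun c i => ∑ j, c j * E j i) (by
      intro a b
      funext i
      simp only [Pi.add_apply]
      rw [← Finset.sum_add_distrib]
      apply Finset.sum_congr rfl
      intro j _
      rw [add_mul]), fun _ _ => rfl⟩
  refine ⟨F.comp L, (injective_iff_map_eq_zero _).2 ?_⟩
  intro c hc
  by_contra hc0
  have hn0 : n ≠ 0 := NeZero.ne n
  have hnc : n • c = 0 := by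
    funext j
    rw [Pi.smul_apply, nsmul_eq_mul, ZMod.natCast_self, zero_mul]
    rfl
  have hone : addOrderOf c ≠ 1 := fun h => hc0 (AddMonoid.addOrderOf_eq_one_iff.1 h)
  obtain ⟨p, hp, hpo⟩ := Nat.exists_prime_and_dvd hone
  have hon : addOrderOf c ∣ n := addOrderOf_dvd_of_nsmul_eq_zero hnc
  have hopos : 0 < addOrderOf c := Nat.pos_of_dvd_of_pos hon (Nat.pos_of_ne_zero hn0)
  have hpn : p ∣ n := hpo.trans hon
  obtain ⟨c', hc'⟩ : ∃ c', c' = (addOrderOf c / p) • c := ⟨_, rfl⟩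
  have hc'0 : c' ≠ 0 := by
    intro h
    rw [hc'] at h
    have h1 := addOrderOf_dvd_of_nsmul_eq_zero h
    have h2 := Nat.le_of_dvd (Nat.div_pos (Nat.le_of_dvd hopos hpo) hp.pos) h1
    exact absurd h2 (not_le.2 (Nat.div_lt_self hopos hp.one_lt))
  have hpc' : p • c' = 0 := by
    rw [hc', ← mul_nsmul, Nat.div_mul_cancel hpo, addOrderOf_nsmul_eq_zero]
  have hex : ∀ j, ∃ a : ZMod p, c' j = m p hp hpn a := by
    intro j
    obtain ⟨k, hk⟩ := ZMod.intCast_surjective (c' j)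
    have h1 : (p : ZMod n) * c' j = 0 := by
      have := congrFun hpc' j
      rw [Pi.smul_apply, nsmul_eq_mul] at this
      exact this
    rw [← hk] at h1
    have h2 : (((p : ℤ) * k : ℤ) : ZMod n) = 0 := by
      rw [Int.cast_mul, Int.cast_natCast]
      exact h1
    rw [ZMod.intCast_zmod_eq_zero_iff_dvd] at h2
    have h3 : ((n : ℕ) : ℤ) = (p : ℤ) * (n / p : ℕ) := by
      rw [← Nat.cast_mul, Nat.mul_div_cancel' hpn]
    rw [h3] at h2
    obtain ⟨l, hl⟩ := Int.dvd_of_mul_dvd_mul_left (by exact_mod_cast hp.ne_zero) h2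
    refine ⟨ZMod.castHom hpn (ZMod p) (l : ZMod n), ?_⟩
    rw [hmu, ← hk, hl, Int.cast_mul, Int.cast_natCast]
  choose a ha using hex
  have hF : F (L c') = 0 := by
    rw [hc', map_nsmul, map_nsmul]
    have : F (L c) = 0 := hc
    rw [this, smul_zero]
  have ha0 : a = 0 := by
    apply he p hp hpn
    rw [← hF]
    congr 1
    funext i
    rw [hL, map_sum]
    apply Finset.sum_congr rfl
    intro j _
    rw [ha, hmz, hE j i p hp hpn hn0]
  apply hc'0
  funext j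
  rw [ha, ha0, Pi.zero_apply, map_zero]
  rfl

end H16C
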