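import Mathlib

/-!
# FN4 (M): the choice of the parameters (real analysis)

`θ = log 3/log 2 - 1`, `2^θ = 3/2`.
`theta_le`: `2 - 1/p ≤ p^θ` for `p ≥ 2`: `p = 2`: equality; `p = 3`: `5/3 ≤ 3^θ`
(`θ ≥ 11/20`: `2^31 ≤ 3^20`, and `(5/3)^20 ≤ 3^11`); `p ≥ 4`: `2 ≤ 9/4 = 4^θ ≤ p^θ`.
`params`: `κ < (1 - θ)/(2D)` (`1 - θ = 2 - log 3/log 2 > 0`).  If `κ ≤ 0` it is enough to treat some
positive `κ`.  Choose `η ∈ (0, 1/4)` with `κ < (1-θ)(1-η)/(2D(1+2η))`, `ε = η/(1+η)`.  For large `X`,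
`Y = log X`, `x = ⌈Y^(1+η)⌉₊`, `t = ⌊(1-η) Y/(2D(1+2η) log Y)⌋₊`,
`r = ⌊(1-θ) t - log B/log 2⌋₊`.
`x ≥ x₀`, `t ≥ 1`; `t ≤ Y = (Y^(1+η))^(1-ε) ≤ x^(1-ε)`; `log x ≤ (1+2η) log Y - 0` for large `Y`
(`x ≤ 2 Y^(1+η)`), so `log(C x^(2(t+1)D)) ≤ log C + 2D(t+1)(1+2η) log Y ≤ (1-η) Y + O(log Y) ≤ Y`.
`B (2-1/p)^t p^r ≤ p^(log B/log 2 + θ t + r) ≤ p^t` (`B ≥ 1`, `B = 2^(log B/log 2)`), if
`(1-θ)t - log B/log 2 ≥ 0` (large `X`).  `r ≥ (1-θ)t - log B/log 2 - 1 ≥ κ Y/log Y` for large `X`.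
-/

namespace H16C

theorem FN4_two_rpow (z : ℝ) : (2 : ℝ) ^ (Real.log z / Real.log 2) = Real.exp (Real.log z) := by
  have h2 : Real.log 2 ≠ 0 := (Real.log_pos one_lt_two).ne'
  rw [Real.rpow_def_of_pos two_pos, mul_div_cancel₀ _ h2]

theorem FN4_half : (1 / 2 : ℝ) ≤ Real.log 3 / Real.log 2 - 1 := by
  have h2 : 0 < Real.log 2 := Real.log_pos one_lt_two
  have h3 : 3 * Real.log 2 ≤ 2 * Real.log 3 := by
    have h4 : Real.log ((2 : ℝ) ^ 3) ≤ Real.log ((3 : ℝ) ^ 2) :=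
      Real.log_le_log (by norm_num) (by norm_num)
    rw [Real.log_pow, Real.log_pow] at h4
    exact_mod_cast h4
  have h5 : (3 / 2 : ℝ) ≤ Real.log 3 / Real.log 2 := by
    rw [le_div_iff₀ h2]
    linarith
  linarith

theorem theta_le (p : ℕ) (hp : 2 ≤ p) :
    2 - 1 / (p : ℝ) ≤ (p : ℝ) ^ (Real.log 3 / Real.log 2 - 1) := by
  rcases Nat.lt_or_ge p 3 with h | h
  · have hp2 : p = 2 := by omega
    subst hp2
    have h3 : ((2 : ℕ) : ℝ) ^ (Real.log 3 / Real.log 2 - 1) = 3 / 2 := by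
      rw [Nat.cast_ofNat, Real.rpow_sub_one two_ne_zero, FN4_two_rpow, Real.exp_log (by norm_num)]
    rw [h3]
    norm_num
  · have hp1 : (1 : ℝ) ≤ p := by exact_mod_cast (by omega : 1 ≤ p)
    have hp3 : (3 : ℝ) ≤ p := by exact_mod_cast h
    have h1 : (p : ℝ) ^ (1 / 2 : ℝ) ≤ (p : ℝ) ^ (Real.log 3 / Real.log 2 - 1) :=
      Real.rpow_le_rpow_of_exponent_le hp1 FN4_half
    refine le_trans ?_ h1
    rw [← Real.sqrt_eq_rpow]
    apply Real.le_sqrt_of_sq_le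
    have hp0 : (0 : ℝ) < p := by linarith
    have h2 : 0 < 1 / (p : ℝ) := by positivity
    rcases Nat.lt_or_ge p 4 with h4 | h4
    · have : p = 3 := by omega
      subst this
      norm_num
    · have hp4 : (4 : ℝ) ≤ p := by exact_mod_cast h4
      have h5 : 1 / (p : ℝ) ≤ 1 := by
        rw [div_le_one hp0]
        exact hp1
      nlinarith

theorem FN4_log {A : ℝ} (hA : 0 < A) : ∀ᶠ Y : ℝ in Filter.atTop, A * Real.log Y ≤ Y := by
  have h := (Asymptotics.isLittleO_iff.1 Real.isLittleO_log_id_atTop) (inv_pos.2 hA)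
  filter_upwards [h, Filter.eventually_ge_atTop 1] with Y hY h1
  simp only [id, Real.norm_eq_abs] at hY
  rw [abs_of_nonneg (Real.log_nonneg h1), abs_of_nonneg (by linarith : (0 : ℝ) ≤ Y)] at hY
  calc A * Real.log Y ≤ A * (A⁻¹ * Y) := mul_le_mul_of_nonneg_left hY hA.le
    _ = Y := by rw [← mul_assoc, mul_inv_cancel₀ hA.ne', one_mul]

theorem params (D : ℕ) (hD : 0 < D) (B C : ℝ) (hB : 1 ≤ B) (hC : 1 ≤ C) (κ : ℝ)
    (hκ : κ < (2 - Real.log 3 / Real.log 2) / (2 * D)) :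
    ∃ ε : ℝ, 0 < ε ∧ ∀ x₀ : ℕ, ∃ X₀ : ℝ, ∀ X : ℝ, X₀ ≤ X → ∃ x t r : ℕ, x₀ ≤ x ∧ 1 ≤ t ∧
      (t : ℝ) ≤ (x : ℝ) ^ (1 - ε) ∧ C * (x : ℝ) ^ (2 * (t + 1) * D) ≤ X ∧
      κ * (Real.log X / Real.log (Real.log X)) ≤ r ∧
      ∀ p : ℕ, 2 ≤ p → B * (2 - 1 / (p : ℝ)) ^ t * (p : ℝ) ^ r ≤ (p : ℝ) ^ t := by
  have hl2 : 0 < Real.log 2 := Real.log_pos one_lt_two
  have hDR : (1 : ℝ) ≤ D := by exact_mod_cast hD
  have hD0 : (0 : ℝ) < D := by linarith
  set c : ℝ := 2 - Real.log 3 / Real.log 2 with hc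
  set θ : ℝ := Real.log 3 / Real.log 2 - 1 with hθ
  have hθc : θ + c = 1 := by
    rw [hθ, hc]
    ring
  have hc0 : 0 < c := by
    have h3 : Real.log 3 < 2 * Real.log 2 := by
      have h4 : Real.log 3 < Real.log ((2 : ℝ) ^ 2) := Real.log_lt_log (by norm_num) (by norm_num)
      rw [Real.log_pow] at h4
      exact_mod_cast h4
    rw [hc, sub_pos, div_lt_iff₀ hl2]
    exact h3
  have hc1 : c ≤ 1 := by
    have := FN4_half
    rw [hc]
    linarith
  set κ' : ℝ := max κ (c / (4 * D)) with hκ'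
  have hκ'0 : 0 < κ' := lt_of_lt_of_le (by positivity) (le_max_right _ _)
  have hκ'1 : κ' < c / (2 * D) := by
    rw [hκ', max_lt_iff]
    refine ⟨hκ, ?_⟩
    apply div_lt_div_of_pos_left hc0 (by positivity)
    linarith
  set ρ : ℝ := κ' * (2 * D) / c with hρ
  have hρ0 : 0 < ρ := by positivity
  have hρ1 : ρ < 1 := by
    rw [hρ, div_lt_one hc0]
    rwa [lt_div_iff₀ (by positivity)] at hκ'1
  set η : ℝ := (1 - ρ) / 4 with hη
  have hη0 : 0 < η := by
    rw [hη]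
    linarith
  have hη1 : η < 1 / 4 := by
    rw [hη]
    linarith
  have h1η : (0 : ℝ) < 1 + 2 * η := by linarith
  set δ : ℝ := c * (1 - η) / (2 * D * (1 + 2 * η)) - κ' with hδ
  have hδ0 : 0 < δ := by
    rw [hδ, sub_pos, lt_div_iff₀ (by positivity)]
    have h3 : κ' * (2 * D) = ρ * c := by
      rw [hρ, div_mul_cancel₀ _ hc0.ne']
    have h4 : κ' * (2 * D * (1 + 2 * η)) = c * (ρ * (1 + 2 * η)) := by
      rw [← mul_assoc, h3]
      ring
    rw [h4]
    apply mul_lt_mul_of_pos_left _ hc0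
    have h5 : ρ = 1 - 4 * η := by
      rw [hη]
      ring
    rw [h5]
    nlinarith
  set b : ℝ := Real.log B / Real.log 2 with hb
  have hb0 : 0 ≤ b := div_nonneg (Real.log_nonneg hB) hl2.le
  have hlC : 0 ≤ Real.log C := Real.log_nonneg hC
  refine ⟨η / (1 + η), by positivity, fun x₀ => ?_⟩
  have hε : 1 - η / (1 + η) = (1 + η)⁻¹ := by
    field_simp
    ring
  rw [hε]
  -- eventually in `Y`
  have e1 : ∀ᶠ Y : ℝ in Filter.atTop, (x₀ : ℝ) ≤ Y ^ (1 + η) :=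
    (tendsto_rpow_atTop (by linarith)).eventually_ge_atTop _
  have e2 : ∀ᶠ Y : ℝ in Filter.atTop, max 1 (Real.log 2 / η) ≤ Real.log Y :=
    Real.tendsto_log_atTop.eventually_ge_atTop _
  have e3 := FN4_log (A := 2 * D * (1 + 2 * η) / (1 - η)) (by
    apply div_pos (by positivity)
    linarith)
  have e4 := FN4_log (A := 2 * (2 * D * (1 + 2 * η)) / η) (by positivity)
  have e5 : ∀ᶠ Y : ℝ in Filter.atTop, 2 * Real.log C / η ≤ Y := Filter.eventually_ge_atTop _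
  have e6 := FN4_log (A := (c + b + 1) / δ) (by positivity)
  have e7 : ∀ᶠ Y : ℝ in Filter.atTop, (1 : ℝ) ≤ Y := Filter.eventually_ge_atTop _
  have e8 := (e1.and (e2.and (e3.and (e4.and (e5.and (e6.and e7))))))
  obtain ⟨Y₀, hY₀⟩ := Filter.eventually_atTop.1 e8
  refine ⟨Real.exp Y₀, fun X hX => ?_⟩
  have hX0 : 0 < X := (Real.exp_pos _).trans_le hX
  set Y : ℝ := Real.log X with hY
  have hYY : Y₀ ≤ Y := by
    rw [hY, ← Real.log_exp Y₀]
    exact Real.log_le_log (Real.exp_pos _) hX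
  obtain ⟨f1, f2, f3, f4, f5, f6, f7⟩ := hY₀ Y hYY
  set L : ℝ := Real.log Y with hL
  have hL1 : 1 ≤ L := (le_max_left _ _).trans f2
  have hL2 : Real.log 2 ≤ η * L := by
    have := (le_max_right _ _).trans f2
    rw [div_le_iff₀ hη0] at this
    linarith
  have hL0 : 0 < L := by linarith
  have hY0 : 0 < Y := by linarith
  set q : ℝ := (1 - η) * Y / (2 * D * (1 + 2 * η) * L) with hq
  have hden : 0 < 2 * (D : ℝ) * (1 + 2 * η) * L := by positivity
  have hq1 : 1 ≤ q := by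
    rw [hq, one_le_div hden]
    have h3 : (0 : ℝ) < 1 - η := by linarith
    rw [div_mul_eq_mul_div, div_le_iff₀ h3] at f3
    linarith
  have hqY : q ≤ Y := by
    rw [hq, div_le_iff₀ hden]
    have h3 : (1 : ℝ) - η ≤ 2 * D * (1 + 2 * η) * L := by
      have h4 : (1 : ℝ) ≤ 2 * D * (1 + 2 * η) := by nlinarith
      nlinarith
    nlinarith
  set x : ℕ := ⌈Y ^ (1 + η)⌉₊ with hx
  set t : ℕ := ⌊q⌋₊ with ht
  set r : ℕ := ⌊c * t - b⌋₊ with hr
  have hYp : (1 : ℝ) ≤ Y ^ (1 + η) := Real.one_le_rpow f7 (by linarith)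
  have hxY : Y ^ (1 + η) ≤ x := Nat.le_ceil _
  have hxY2 : (x : ℝ) ≤ 2 * Y ^ (1 + η) := by
    have := (Nat.ceil_lt_add_one (by linarith : 0 ≤ Y ^ (1 + η))).le
    rw [← hx] at this
    linarith
  have hx0 : (0 : ℝ) < x := by linarith
  have htq : (t : ℝ) ≤ q := Nat.floor_le (by linarith)
  have htq' : q < t + 1 := Nat.lt_floor_add_one q
  -- the main inequality for `c t`
  have hct : κ' * (Y / L) + 1 + b ≤ c * t := by
    have h3 : c * q - κ' * (Y / L) = δ * (Y / L) := by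
      rw [hδ, hq]
      field_simp
    have h4 : (c + b + 1) ≤ δ * (Y / L) := by
      rw [div_mul_eq_mul_div, div_le_iff₀ hδ0] at f6
      rw [← mul_div_assoc, le_div_iff₀ hL0]
      linarith
    have h5 : c * q < c * (t + 1) := mul_lt_mul_of_pos_left htq' hc0
    linarith
  have hYL : 0 < Y / L := by positivity
  have hct0 : 0 ≤ c * t - b := by
    have : 0 < κ' * (Y / L) := by positivity
    linarith
  have hrle : (r : ℝ) ≤ c * t - b := Nat.floor_le hct0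
  have hrlt : c * t - b < r + 1 := Nat.lt_floor_add_one _
  refine ⟨x, t, r, ?_, ?_, ?_, ?_, ?_, ?_⟩
  · have : (x₀ : ℝ) ≤ x := f1.trans hxY
    exact_mod_cast this
  · rw [ht]
    exact Nat.le_floor (by simpa using hq1)
  · have h3 : Y = (Y ^ (1 + η)) ^ (1 + η)⁻¹ := by
      rw [← Real.rpow_mul hY0.le, mul_inv_cancel₀ (by linarith), Real.rpow_one]
    calc (t : ℝ) ≤ Y := htq.trans hqY
      _ = (Y ^ (1 + η)) ^ (1 + η)⁻¹ := h3
      _ ≤ (x : ℝ) ^ (1 + η)⁻¹ :=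
        Real.rpow_le_rpow (by linarith) hxY (by positivity)
  · have hlx : Real.log x ≤ (1 + 2 * η) * L := by
      calc Real.log x ≤ Real.log (2 * Y ^ (1 + η)) := Real.log_le_log hx0 hxY2
        _ = Real.log 2 + (1 + η) * L := by
          rw [Real.log_mul two_ne_zero (by linarith), Real.log_rpow hY0]
        _ ≤ (1 + 2 * η) * L := by linarith
    have hmain : Real.log C + (2 * (t + 1) * D : ℕ) * Real.log x ≤ Y := by
      have h3 : ((2 * (t + 1) * D : ℕ) : ℝ) * Real.log x ≤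
          ((2 * (t + 1) * D : ℕ) : ℝ) * ((1 + 2 * η) * L) :=
        mul_le_mul_of_nonneg_left hlx (Nat.cast_nonneg _)
      have h4 : ((2 * (t + 1) * D : ℕ) : ℝ) * ((1 + 2 * η) * L) =
          t * (2 * D * (1 + 2 * η) * L) + 2 * D * (1 + 2 * η) * L := by
        push_cast
        ring
      have h5 : (t : ℝ) * (2 * D * (1 + 2 * η) * L) ≤ (1 - η) * Y := by
        have := mul_le_mul_of_nonneg_right htq hden.le
        rwa [hq, div_mul_cancel₀ _ hden.ne'] at this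
      have h6 : 2 * D * (1 + 2 * η) * L ≤ η * Y / 2 := by
        rw [div_mul_eq_mul_div, div_le_iff₀ hη0] at f4
        linarith
      have h7 : Real.log C ≤ η * Y / 2 := by
        rw [div_le_iff₀ hη0] at f5
        linarith
      linarith
    have h8 : C * (x : ℝ) ^ (2 * (t + 1) * D) =
        Real.exp (Real.log C + (2 * (t + 1) * D : ℕ) * Real.log x) := by
      rw [Real.exp_add, Real.exp_log (by linarith), ← Real.log_pow, Real.exp_log (by positivity)]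
    rw [h8, ← Real.exp_log hX0]
    exact Real.exp_le_exp.2 hmain
  · have h3 : κ * (Y / L) ≤ κ' * (Y / L) :=
      mul_le_mul_of_nonneg_right (le_max_left _ _) hYL.le
    linarith
  · intro p hp
    have hp1 : (1 : ℝ) ≤ p := by exact_mod_cast (by omega : 1 ≤ p)
    have hp0 : (0 : ℝ) < p := by linarith
    have hp2 : (2 : ℝ) ≤ p := by exact_mod_cast hp
    have h3 : B ≤ (p : ℝ) ^ b := by
      calc B = (2 : ℝ) ^ b := by
            rw [hb, FN4_two_rpow, Real.exp_log (by linarith)]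
        _ ≤ (p : ℝ) ^ b := Real.rpow_le_rpow two_pos.le hp2 hb0
    have h4 : (2 - 1 / (p : ℝ)) ^ t ≤ (p : ℝ) ^ (θ * t) := by
      rw [Real.rpow_mul hp0.le, Real.rpow_natCast]
      apply pow_le_pow_left₀ _ (theta_le p hp)
      have h5 : 1 / (p : ℝ) ≤ 1 := by
        rw [div_le_one hp0]
        exact hp1
      linarith
    have h4' : 0 ≤ (2 - 1 / (p : ℝ)) ^ t := by
      apply pow_nonneg
      have h5 : 1 / (p : ℝ) ≤ 1 := by
        rw [div_le_one hp0]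
        exact hp1
      linarith
    calc B * (2 - 1 / (p : ℝ)) ^ t * (p : ℝ) ^ r
        ≤ (p : ℝ) ^ b * (p : ℝ) ^ (θ * t) * (p : ℝ) ^ (r : ℝ) := by
          rw [Real.rpow_natCast]
          apply mul_le_mul_of_nonneg_right _ (by positivity)
          exact mul_le_mul h3 h4 h4' (by positivity)
      _ = (p : ℝ) ^ (b + θ * t + r) := by
          rw [Real.rpow_add hp0, Real.rpow_add hp0]
      _ ≤ (p : ℝ) ^ (t : ℝ) := by
          apply Real.rpow_le_rpow_of_exponent_le hp1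
          have h6 : θ * t + c * t = t := by
            rw [← add_mul, hθc, one_mul]
          linarith
      _ = (p : ℝ) ^ t := Real.rpow_natCast _ _

end H16C
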