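import Mathlib

/-!
# FN5 (M): the discriminant of `k(δ)`, `δ^n = d`

`m = [k : ℚ]`, `K = k⟮δ⟯`, `[K : k] = n`, so `[K : ℚ] = n m`.  `ω_1, ..., ω_m` an integral basis of `k`
(`NumberField.integralBasis`), fixed.  The `n m` elements `ω_i δ^j` (`0 ≤ j < n`) of `K` are integral
and form a `ℚ`-basis of `K` (`Basis.smulTower` of the power basis `1, δ, ..., δ^(n-1)` of `K/k`).
(1) `discr K` divides the discriminant `Δ'` of this family in `ℤ` (`Δ' = discr K · (index)²`, the family
is the image of an integral basis under an integer matrix: `Algebra.discr_of_matrix_vecMul`), and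
`Δ' ≠ 0`: `|discr K| ≤ |Δ'|`.
(2) `Δ' = det(σ(ω_i δ^j))²` over the `n m` embeddings `σ : K → ℂ`
(`Algebra.discr_eq_det_embeddingsMatrixReindex_pow_two`), `|σ(ω_i)| ≤ c`, `|σ(δ)|^n = d`, `d ≥ 1`.
Expand the determinant: each of the `(nm)!` terms is in absolute value
`≤ ∏_{i,j} c |σ_{(i,j)}(δ)|^j = c^{nm} d^{(1/n) m (0 + 1 + ... + (n-1))} = c^{nm} d^{m(n-1)/2}`
(as `|σ(δ)| = d^(1/n)` for all `σ`).  So `|Δ'| ≤ ((nm)! c^{nm})² d^{m(n-1)}`, `C = ((nm)! c^{nm})²`.
(`NumberField k⟮δ⟯` is an instance argument here.)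
-/

/-!
Proof used here: the different ideal of `K/k` contains `n δ^(n-1)` (derivative of the minimal
polynomial `X^n - d`), so its norm divides `n^(nm) d^(m(n-1))`, and
`|discr K| = N(different) |discr k|^n`.
-/

open NumberField IntermediateField

namespace H16C

theorem FN5_main (k L : Type*) [Field k] [NumberField k] [Field L] [NumberField L] [Algebra k L]
    (n : ℕ) (hn : 0 < n) (d : ℕ) (hd : 1 ≤ d) (δ : L) (hδ : δ ^ n = (d : L))
    (htop : Algebra.adjoin k {δ} = ⊤) (hfin : Module.finrank k L = n)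
    (hdeg : (minpoly k δ).natDegree = n) :
    (discr L).natAbs ≤ n ^ (n * Module.finrank ℚ k) * (discr k).natAbs ^ n *
      d ^ ((n - 1) * Module.finrank ℚ k) := by
  have hint : IsIntegral ℤ δ := IsIntegral.of_pow hn (by
    rw [hδ]
    have h1 := isIntegral_algebraMap (R := ℤ) (A := L) (x := (d : ℤ))
    rwa [map_natCast] at h1)
  obtain ⟨x, hx⟩ : ∃ x : 𝓞 L, algebraMap (𝓞 L) L x = δ := ⟨⟨δ, hint⟩, rfl⟩
  have hxn : x ^ n = (d : 𝓞 L) := by
    apply RingOfIntegers.coe_injective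
    rw [map_pow, map_natCast, hx, hδ]
  have hintA : IsIntegral (𝓞 k) x := Algebra.IsIntegral.isIntegral x
  -- the minimal polynomial
  have hmk : minpoly k δ = Polynomial.X ^ n - Polynomial.C (d : k) := by
    refine (Polynomial.eq_of_monic_of_dvd_of_natDegree_le (minpoly.monic
      (Algebra.IsIntegral.isIntegral δ)) (Polynomial.monic_X_pow_sub_C _ hn.ne') ?_ ?_).symm
    · apply minpoly.dvd
      simp [hδ]
    · rw [hdeg, Polynomial.natDegree_X_pow_sub_C]
  have hmA : minpoly (𝓞 k) x = Polynomial.X ^ n - Polynomial.C (d : 𝓞 k) := by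
    have h1 := minpoly.isIntegrallyClosed_eq_field_fractions k L hintA
    rw [hx, hmk] at h1
    apply Polynomial.map_injective (algebraMap (𝓞 k) k) RingOfIntegers.coe_injective
    rw [← h1]
    simp
  have hmem := aeval_derivative_mem_differentIdeal (𝓞 k) k L x (by rw [hx]; exact htop)
  rw [hmA] at hmem
  have hder : Polynomial.aeval x (Polynomial.derivative
      (Polynomial.X ^ n - Polynomial.C (d : 𝓞 k))) = (n : 𝓞 L) * x ^ (n - 1) := by
    rw [Polynomial.derivative_sub, Polynomial.derivative_C, sub_zero,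
      Polynomial.derivative_X_pow, map_mul, map_pow, Polynomial.aeval_X]
    congr 1
    rw [Polynomial.aeval_C, map_natCast]
  rw [hder] at hmem
  -- the norm
  have hrank : Module.finrank ℤ (𝓞 L) = n * Module.finrank ℚ k := by
    rw [RingOfIntegers.rank, ← Module.finrank_mul_finrank ℚ k L, hfin, mul_comm]
  have hnormx : (Algebra.norm ℤ x).natAbs = d ^ Module.finrank ℚ k := by
    have h1 : (Algebra.norm ℤ x).natAbs ^ n = (d ^ Module.finrank ℚ k) ^ n := by
      rw [← Int.natAbs_pow, ← map_pow, hxn]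
      have h2 : Algebra.norm ℤ (d : 𝓞 L) = (d : ℤ) ^ Module.finrank ℤ (𝓞 L) := by
        have h3 := Algebra.norm_algebraMap (R := ℤ) (S := 𝓞 L) (d : ℤ)
        rwa [map_natCast] at h3
      rw [h2, hrank, Int.natAbs_pow, Int.natAbs_natCast, ← pow_mul, mul_comm]
    exact Nat.pow_left_injective hn.ne' h1
  have hnorm : (Algebra.norm ℤ ((n : 𝓞 L) * x ^ (n - 1))).natAbs =
      n ^ (n * Module.finrank ℚ k) * d ^ ((n - 1) * Module.finrank ℚ k) := by
    have h2 : Algebra.norm ℤ (n : 𝓞 L) = (n : ℤ) ^ Module.finrank ℤ (𝓞 L) := by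
      have h3 := Algebra.norm_algebraMap (R := ℤ) (S := 𝓞 L) (n : ℤ)
      rwa [map_natCast] at h3
    rw [map_mul, map_pow, Int.natAbs_mul, Int.natAbs_pow, hnormx, h2, hrank, Int.natAbs_pow,
      Int.natAbs_natCast, ← pow_mul, mul_comm (Module.finrank ℚ k)]
  have hdvd := Ideal.absNorm_dvd_absNorm_of_le
    ((Ideal.span_singleton_le_iff_mem _).2 hmem)
  rw [Ideal.absNorm_span_singleton, hnorm] at hdvd
  have hle : Ideal.absNorm (differentIdeal (𝓞 k) (𝓞 L)) ≤
      n ^ (n * Module.finrank ℚ k) * d ^ ((n - 1) * Module.finrank ℚ k) :=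
    Nat.le_of_dvd (by positivity) hdvd
  rw [natAbs_discr_eq_absNorm_differentIdeal_mul_natAbs_discr_pow k (𝓞 k) L (𝓞 L), hfin]
  calc Ideal.absNorm (differentIdeal (𝓞 k) (𝓞 L)) * (discr k).natAbs ^ n
      ≤ n ^ (n * Module.finrank ℚ k) * d ^ ((n - 1) * Module.finrank ℚ k) *
        (discr k).natAbs ^ n := Nat.mul_le_mul_right _ hle
    _ = _ := by ring

theorem discr_bound (k : Type*) [Field k] [NumberField k] (Ω : Type*) [Field Ω] [Algebra k Ω]
    (n : ℕ) (hn : 0 < n) : ∃ C : ℝ, 1 ≤ C ∧ ∀ d : ℕ, 1 ≤ d → ∀ δ : Ω, δ ^ n = (d : Ω) →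
      ∀ [NumberField k⟮δ⟯], Module.finrank k k⟮δ⟯ = n →
        |(discr k⟮δ⟯ : ℝ)| ≤ C * (d : ℝ) ^ ((n - 1) * Module.finrank ℚ k) := by
  have hdk : (discr k).natAbs ≠ 0 := by
    rw [Int.natAbs_ne_zero]
    exact discr_ne_zero k
  refine ⟨((n ^ (n * Module.finrank ℚ k) * (discr k).natAbs ^ n : ℕ) : ℝ), ?_, ?_⟩
  · have h1 : 1 ≤ n ^ (n * Module.finrank ℚ k) * (discr k).natAbs ^ n :=
      Nat.one_le_iff_ne_zero.2 (by positivity)
    exact_mod_cast h1
  · intro d hd δ hδ _ hfin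
    have hfd : FiniteDimensional k k⟮δ⟯ := Module.finite_of_finrank_pos (by rw [hfin]; exact hn)
    have hint : IsIntegral k δ := by
      have h1 : IsIntegral k (AdjoinSimple.gen k δ) := Algebra.IsIntegral.isIntegral _
      have h2 := h1.map (IntermediateField.val k⟮δ⟯)
      exact h2
    have hδ' : (AdjoinSimple.gen k δ) ^ n = (d : k⟮δ⟯) := by
      apply Subtype.ext
      exact hδ
    have htop : Algebra.adjoin k {AdjoinSimple.gen k δ} = ⊤ := by
      have h1 := (adjoin.powerBasis hint).adjoin_gen_eq_top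
      rwa [adjoin.powerBasis_gen] at h1
    have hdeg : (minpoly k (AdjoinSimple.gen k δ)).natDegree = n := by
      rw [minpoly_gen, ← adjoin.finrank hint, hfin]
    have h1 := FN5_main k k⟮δ⟯ n hn d hd (AdjoinSimple.gen k δ) hδ' htop hfin hdeg
    have h2 : |(discr k⟮δ⟯ : ℝ)| = ((discr k⟮δ⟯).natAbs : ℝ) := by
      rw [Nat.cast_natAbs, Int.cast_abs]
    rw [h2]
    exact_mod_cast h1

end H16C
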