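import Pool.Agent.Lib.H16A.PI1

/-!
# GE1 (S/M): at least `x^(1-ε)` primes `p ≤ x` have a prime of degree one

`H16A.degOne_sum F` (file H16A/PI1.lean): for every `ε > 0` and `x ≥ x₀(ε)`,
`(1-ε) log x ≤ ∑_{p ≤ x} degOne(p) log p / p ≤ (1+ε) log x`; `degOne F p ≤ [F:ℚ] = D`
(`degOne_le`, H59/PrimeIdealSums).  Let `0 < ε < 1` (w.l.o.g.), `η = ε/4`, `z = x^(1-ε/2)` (integer
part): for large `x` the primes `z < p ≤ x` contribute at least
`(1-η) log x - (1+η) log z ≥ ((1-η) - (1+η)(1-ε/2)) log x ≥ (ε/8)... log x > 0`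
(`(1-η) - (1+η)(1-ε/2) = ε/2 - 2η + ηε/2 = ηε/2 > 0`), and every term is at most
`D log x / z`.  So there are at least `(ηε/2) z / D ≥ x^(1-ε)` primes `p ≤ x` with `degOne F p ≥ 1`
for large `x`.
-/

open NumberField Pool.Agent.Lib.H59

namespace H16C

theorem GE1_core (F : Type*) [Field F] [NumberField F] {ε : ℝ} (hε : 0 < ε) (hε1 : ε ≤ 1 / 2) :
    ∀ᶠ x : ℕ in Filter.atTop, (x : ℝ) ^ (1 - ε) ≤
      (((Finset.range (x + 1)).filter fun p => p.Prime ∧ 1 ≤ degOne F p).card : ℝ) := by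
  classical
  obtain ⟨x₁, hx₁⟩ := H16A.degOne_sum F (ε := ε / 4) (by linarith)
  have hD0 : (0 : ℝ) < (Module.finrank ℚ F : ℝ) := by
    exact_mod_cast Module.finrank_pos
  have hDle : ∀ p : ℕ, p.Prime → (degOne F p : ℝ) ≤ (Module.finrank ℚ F : ℝ) := fun p hp => by
    exact_mod_cast degOne_le hp
  generalize (Module.finrank ℚ F : ℝ) = D at hD0 hDle
  have t1 : Filter.Tendsto (fun x : ℕ => (x : ℝ) ^ (1 - ε / 2)) Filter.atTop Filter.atTop :=
    (tendsto_rpow_atTop (by linarith)).comp tendsto_natCast_atTop_atTop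
  have t2 : Filter.Tendsto (fun x : ℕ => (x : ℝ) ^ (ε / 2)) Filter.atTop Filter.atTop :=
    (tendsto_rpow_atTop (by linarith)).comp tendsto_natCast_atTop_atTop
  filter_upwards [t1.eventually_ge_atTop (x₁ : ℝ), t2.eventually_ge_atTop (8 * D / ε ^ 2),
    Filter.eventually_ge_atTop x₁, Filter.eventually_ge_atTop 2] with x h1 h2 h3 h4
  have hx2 : (2 : ℝ) ≤ x := by exact_mod_cast h4
  have hx0 : (0 : ℝ) < x := by linarith
  have hlogx : 0 < Real.log x := Real.log_pos (by linarith)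
  have hy0 : (0 : ℝ) < (x : ℝ) ^ (1 - ε / 2) := Real.rpow_pos_of_pos hx0 _
  have hyy : (x : ℝ) ^ (1 - ε / 2) = (x : ℝ) ^ (1 - ε) * (x : ℝ) ^ (ε / 2) := by
    rw [← Real.rpow_add hx0]
    congr 1
    ring
  have hy1 : (1 : ℝ) ≤ (x : ℝ) ^ (1 - ε / 2) := Real.one_le_rpow (by linarith) (by linarith)
  have hyx : (x : ℝ) ^ (1 - ε / 2) ≤ x := by
    have h5 := Real.rpow_le_rpow_of_exponent_le (x := (x : ℝ)) (by linarith)
      (show 1 - ε / 2 ≤ 1 by linarith)
    rwa [Real.rpow_one] at h5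
  have hlogy : Real.log ((x : ℝ) ^ (1 - ε / 2)) = (1 - ε / 2) * Real.log x :=
    Real.log_rpow hx0 _
  set y : ℝ := (x : ℝ) ^ (1 - ε / 2) with hy
  have hz1 : x₁ ≤ ⌊y⌋₊ := Nat.le_floor h1
  have hz2 : (⌊y⌋₊ : ℝ) ≤ y := Nat.floor_le hy0.le
  have hz3 : y < ⌊y⌋₊ + 1 := Nat.lt_floor_add_one _
  have hz4 : 1 ≤ ⌊y⌋₊ := Nat.le_floor (by simpa using hy1)
  generalize ⌊y⌋₊ = z at hz1 hz2 hz3 hz4
  have hz5 : (1 : ℝ) ≤ z := by exact_mod_cast hz4
  have hzx : z ≤ x := by
    have h5 : (z : ℝ) ≤ x := hz2.trans hyx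
    exact_mod_cast h5
  have hlogz : Real.log z ≤ (1 - ε / 2) * Real.log x := by
    rw [← hlogy]
    exact Real.log_le_log (by linarith) hz2
  have hlow := (hx₁ x h3).1
  have hupp := (hx₁ z hz1).2
  have hsub : (Finset.range (z + 1)).filter Nat.Prime ⊆ (Finset.range (x + 1)).filter Nat.Prime :=
    Finset.filter_subset_filter _ (Finset.range_subset_range.2 (by omega))
  have hsplit := Finset.sum_sdiff (f := fun p : ℕ => (degOne F p : ℝ) * (Real.log p / p)) hsub
  have hbd : ∑ p ∈ (Finset.range (x + 1)).filter Nat.Prime \ (Finset.range (z + 1)).filter Nat.Prime,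
      (degOne F p : ℝ) * (Real.log p / p) ≤
      (((Finset.range (x + 1)).filter fun p => p.Prime ∧ 1 ≤ degOne F p).card : ℝ) *
        (D * (Real.log x / y)) := by
    calc ∑ p ∈ (Finset.range (x + 1)).filter Nat.Prime \ (Finset.range (z + 1)).filter Nat.Prime,
          (degOne F p : ℝ) * (Real.log p / p)
        ≤ ∑ p ∈ (Finset.range (x + 1)).filter Nat.Prime \ (Finset.range (z + 1)).filter Nat.Prime,
          (if 1 ≤ degOne F p then D * (Real.log x / y) else 0) := by
          refine Finset.sum_le_sum fun p hp => ?_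
          rw [Finset.mem_sdiff, Finset.mem_filter, Finset.mem_filter, Finset.mem_range,
            Finset.mem_range] at hp
          obtain ⟨⟨hp1, hp2⟩, hp3⟩ := hp
          have hp4 : z + 1 ≤ p := by
            by_contra hcon
            exact hp3 ⟨by omega, hp2⟩
          have hp5 : (p : ℝ) ≤ x := by exact_mod_cast Nat.lt_succ_iff.1 hp1
          have hp6 : y ≤ p := by
            have : ((z + 1 : ℕ) : ℝ) ≤ p := by exact_mod_cast hp4
            push_cast at this
            linarith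
          have hp7 : (0 : ℝ) < p := by linarith
          split_ifs with hdeg
          · refine mul_le_mul (hDle p hp2) ?_ ?_ hD0.le
            · exact div_le_div₀ hlogx.le (Real.log_le_log hp7 hp5) hy0 hp6
            · exact div_nonneg (Real.log_nonneg (by linarith)) hp7.le
          · have h0 : degOne F p = 0 := by omega
            rw [h0]
            simp
      _ = ∑ p ∈ ((Finset.range (x + 1)).filter Nat.Prime \
            (Finset.range (z + 1)).filter Nat.Prime).filter (fun p => 1 ≤ degOne F p),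
          D * (Real.log x / y) := by
          rw [Finset.sum_filter]
      _ = ((((Finset.range (x + 1)).filter Nat.Prime \
            (Finset.range (z + 1)).filter Nat.Prime).filter (fun p => 1 ≤ degOne F p)).card : ℝ) *
          (D * (Real.log x / y)) := by
          rw [Finset.sum_const, nsmul_eq_mul]
      _ ≤ _ := by
          refine mul_le_mul_of_nonneg_right ?_ (by positivity)
          refine Nat.cast_le.2 (Finset.card_le_card fun p hp => ?_)
          rw [Finset.mem_filter, Finset.mem_sdiff, Finset.mem_filter] at hp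
          rw [Finset.mem_filter]
          exact ⟨hp.1.1.1, hp.1.1.2, hp.2⟩
  generalize (((Finset.range (x + 1)).filter fun p => p.Prime ∧ 1 ≤ degOne F p).card : ℝ) = N at hbd ⊢
  generalize (∑ p ∈ (Finset.range (x + 1)).filter Nat.Prime \ (Finset.range (z + 1)).filter Nat.Prime,
      (degOne F p : ℝ) * (Real.log p / p)) = T at hbd hsplit
  have h5 : (1 + ε / 4) * Real.log z ≤ (1 + ε / 4) * ((1 - ε / 2) * Real.log x) :=
    mul_le_mul_of_nonneg_left hlogz (by linarith)
  have h6 : ε ^ 2 / 8 * Real.log x ≤ T := by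
    have h7 : T = (∑ p ∈ (Finset.range (x + 1)).filter Nat.Prime,
      (degOne F p : ℝ) * (Real.log p / p)) - ∑ p ∈ (Finset.range (z + 1)).filter Nat.Prime,
      (degOne F p : ℝ) * (Real.log p / p) := by
      linarith
    have h8 : ε ^ 2 / 8 * Real.log x = (1 - ε / 4) * Real.log x -
      (1 + ε / 4) * ((1 - ε / 2) * Real.log x) := by ring
    rw [h7, h8]
    linarith
  have h7 : ε ^ 2 / 8 * Real.log x ≤ N * (D * (Real.log x / y)) := h6.trans hbd
  have h8 : ε ^ 2 / 8 * y ≤ N * D := by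
    have h9 : N * (D * (Real.log x / y)) = N * D * Real.log x / y := by ring
    rw [h9, le_div_iff₀ hy0] at h7
    have h10 : ε ^ 2 / 8 * y * Real.log x ≤ N * D * Real.log x := by linarith
    exact le_of_mul_le_mul_right h10 hlogx
  have h9 : 8 * D ≤ (x : ℝ) ^ (ε / 2) * ε ^ 2 := by
    rwa [div_le_iff₀ (by positivity)] at h2
  have h10 : 0 < (x : ℝ) ^ (1 - ε) := Real.rpow_pos_of_pos hx0 _
  have h11 : (x : ℝ) ^ (1 - ε) * D ≤ N * D := by
    rw [hyy] at h8
    calc (x : ℝ) ^ (1 - ε) * D = (x : ℝ) ^ (1 - ε) * (8 * D) / 8 := by ring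
      _ ≤ (x : ℝ) ^ (1 - ε) * ((x : ℝ) ^ (ε / 2) * ε ^ 2) / 8 := by
          have := mul_le_mul_of_nonneg_left h9 h10.le
          linarith
      _ = ε ^ 2 / 8 * ((x : ℝ) ^ (1 - ε) * (x : ℝ) ^ (ε / 2)) := by ring
      _ ≤ N * D := h8
  exact le_of_mul_le_mul_right h11 hD0

theorem many_degOne (F : Type*) [Field F] [NumberField F] {ε : ℝ} (hε : 0 < ε) :
    ∃ x₀ : ℕ, ∀ x : ℕ, x₀ ≤ x → (x : ℝ) ^ (1 - ε) ≤
      (((Finset.range (x + 1)).filter fun p => p.Prime ∧ 1 ≤ degOne F p).card : ℝ) := by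
  have h1 : 0 < min ε (1 / 2) := lt_min hε (by norm_num)
  obtain ⟨x₀, hx₀⟩ := Filter.eventually_atTop.1 (GE1_core F h1 (min_le_right _ _))
  refine ⟨max x₀ 1, fun x hx => le_trans ?_ (hx₀ x (le_trans (le_max_left _ _) hx))⟩
  have h2 : (1 : ℝ) ≤ x := by exact_mod_cast le_trans (le_max_right _ _) hx
  exact Real.rpow_le_rpow_of_exponent_le h2 (by linarith [min_le_left ε (1 / 2)])

end H16C
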