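import Pool.Agent.Lib.H16A.N3

/-!
# GE2 (S/M): pigeonhole on ideal classes and residues (variant of H16A/N3)

`F` a number field, `M > 0`, `K₃ = #Cl(F) · #(𝓞 F / M) `.  `W` a nonempty finite set of primes of `F`
not dividing `M`.  Pigeonhole on the ideal class: at least `#W/#Cl` of the `w ∈ W` have the same class
as some fixed `w₀ ∈ W`; let `J` be a nonzero ideal prime to `M` (integral) in the inverse class of
`w₀` (every class contains an ideal prime to `M`; or take `J = ∏ ...` as in the proof of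
`H16A.exists_alpha`, where `J = w₀^(h-1)`, `h = #Cl(F)`, is prime to `M`): `w J = (a w)` is principal
with `a w ∈ 𝓞 F` prime to `M`.  Pigeonhole on the residue class of `a w` modulo `M`: a subset `Φ` of
`W` with `#W ≤ K₃ #Φ` on which it is constant; `w₁ ∈ Φ` arbitrary.  `(a w)/(a w₁) = w/w₁`.
(Copy the proof of `H16A.exists_alpha`, file H16A/N3.lean, with single primes instead of sets of
primes: `n3_pigeon`, `n3_ord`, `n3_count`.)
-/

open NumberField IsDedekindDomain H16A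

namespace H16C

open Classical in
theorem exists_a (F : Type*) [Field F] [NumberField F] (M : ℕ) (hM : 0 < M) :
    ∃ K₃ : ℕ, 0 < K₃ ∧ ∀ W : Finset (HeightOneSpectrum (𝓞 F)), W.Nonempty →
      (∀ w ∈ W, IsCoprime w.asIdeal (Ideal.span {(M : 𝓞 F)})) →
      ∃ (Φ : Finset (HeightOneSpectrum (𝓞 F))) (a : HeightOneSpectrum (𝓞 F) → 𝓞 F)
        (w₁ : HeightOneSpectrum (𝓞 F)),
        Φ ⊆ W ∧ w₁ ∈ Φ ∧ W.card ≤ K₃ * Φ.card ∧
        ∀ w ∈ Φ, a w ≠ 0 ∧ (∃ c : 𝓞 F, (M : 𝓞 F) ∣ a w * c - 1) ∧ (M : 𝓞 F) ∣ a w - a w₁ ∧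
          ∀ u, ord u ((a w : F) / (a w₁ : F)) = (if u = w then 1 else 0) - (if u = w₁ then 1 else 0) := by
  have hM0 : (M : 𝓞 F) ≠ 0 := Nat.cast_ne_zero.2 hM.ne'
  have hMb : (Ideal.span {(M : 𝓞 F)}) ≠ ⊥ := by
    rw [Ne, Ideal.span_singleton_eq_bot]
    exact hM0
  have hfin : Finite (𝓞 F ⧸ Ideal.span {(M : 𝓞 F)}) := Ideal.finiteQuotientOfFreeOfNeBot _ hMb
  have hft : Fintype (𝓞 F ⧸ Ideal.span {(M : 𝓞 F)}) := Fintype.ofFinite _
  set h : ℕ := Fintype.card (ClassGroup (𝓞 F)) with hh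
  set q : ℕ := Fintype.card (𝓞 F ⧸ Ideal.span {(M : 𝓞 F)}) with hq
  have hh0 : 0 < h := Fintype.card_pos
  have hq0 : 0 < q := Fintype.card_pos
  refine ⟨h * q, Nat.mul_pos hh0 hq0, fun W hWne hW => ?_⟩
  set I : HeightOneSpectrum (𝓞 F) → Ideal (𝓞 F) := fun w => w.asIdeal with hI
  have hI0 : ∀ t, I t ≠ 0 := fun t => t.ne_bot
  set I' : HeightOneSpectrum (𝓞 F) → nonZeroDivisors (Ideal (𝓞 F)) := fun t =>
    ⟨I t, mem_nonZeroDivisors_iff_ne_zero.2 (hI0 t)⟩ with hI'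
  set cl : HeightOneSpectrum (𝓞 F) → ClassGroup (𝓞 F) := fun t =>
    ClassGroup.mk0 (I' t) with hcl
  -- first pigeonhole
  obtain ⟨C, -, hC⟩ := n3_pigeon W Finset.univ cl (fun _ _ => Finset.mem_univ _)
    ⟨1, Finset.mem_univ 1⟩
  set Φ₀ := W.filter (fun t => cl t = C) with hΦ₀
  rw [Finset.card_univ, ← hh] at hC
  have hΦ₀ne : Φ₀.Nonempty := by
    rw [← Finset.card_pos]
    by_contra h1
    have h2 : Φ₀.card = 0 := by omega
    rw [h2, mul_zero] at hC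
    have h3 : 0 < W.card := Finset.card_pos.2 hWne
    omega
  obtain ⟨t₀, ht₀⟩ := hΦ₀ne
  have hmem : ∀ t ∈ Φ₀, t ∈ W ∧ cl t = C := by
    intro t ht
    rw [hΦ₀, Finset.mem_filter] at ht
    exact ht
  set J : Ideal (𝓞 F) := I t₀ ^ (h - 1) with hJ
  have hJ0 : J ≠ 0 := pow_ne_zero _ (hI0 t₀)
  have hprin : ∀ t, ∃ a : 𝓞 F, t ∈ Φ₀ → Ideal.span {a} = I t * J := by
    intro t
    by_cases ht : t ∈ Φ₀
    · have h1 : ClassGroup.mk0 (I' t * I' t₀ ^ (h - 1)) = 1 := by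
        rw [map_mul, map_pow]
        have h2 : ClassGroup.mk0 (I' t) = C := (hmem t ht).2
        have h3 : ClassGroup.mk0 (I' t₀) = C := (hmem t₀ ht₀).2
        rw [h2, h3, ← pow_succ', Nat.sub_add_cancel hh0, hh, pow_card_eq_one]
      have h2 : (I t * J).IsPrincipal := by
        have h3 : I' t * I' t₀ ^ (h - 1) =
            ⟨I t * J, mem_nonZeroDivisors_iff_ne_zero.2 (mul_ne_zero (hI0 t) hJ0)⟩ := by
          apply Subtype.ext
          rfl
        rw [h3] at h1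
        exact (ClassGroup.mk0_eq_one_iff _).1 h1
      obtain ⟨a, ha⟩ := h2
      exact ⟨a, fun _ => ha.symm⟩
    · exact ⟨0, fun h1 => absurd h1 ht⟩
  choose a ha using hprin
  have ha0 : ∀ t ∈ Φ₀, a t ≠ 0 := by
    intro t ht h1
    have h2 := ha t ht
    rw [h1] at h2
    have h3 : I t * J = 0 := by
      rw [← h2, Ideal.zero_eq_bot, Ideal.span_singleton_eq_bot]
    exact mul_ne_zero (hI0 t) hJ0 h3
  have hcop : ∀ t ∈ Φ₀, ∃ b : 𝓞 F, (M : 𝓞 F) ∣ a t * b - 1 := by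
    intro t ht
    have h2 : IsCoprime (Ideal.span {a t}) (Ideal.span {(M : 𝓞 F)}) := by
      rw [ha t ht]
      exact (hW t (hmem t ht).1).mul_left ((hW t₀ (hmem t₀ ht₀).1).pow_left)
    rw [Ideal.isCoprime_span_singleton_iff] at h2
    obtain ⟨b, c, hbc⟩ := h2
    exact ⟨b, -c, by linear_combination hbc⟩
  -- second pigeonhole
  obtain ⟨y, -, hy⟩ := n3_pigeon Φ₀ Finset.univ
    (fun t => Ideal.Quotient.mk (Ideal.span {(M : 𝓞 F)}) (a t)) (fun _ _ => Finset.mem_univ _)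
    ⟨0, Finset.mem_univ 0⟩
  set Φ := Φ₀.filter (fun t => Ideal.Quotient.mk (Ideal.span {(M : 𝓞 F)}) (a t) = y) with hΦ
  rw [Finset.card_univ, ← hq] at hy
  have hΦne : Φ.Nonempty := by
    rw [← Finset.card_pos]
    by_contra h1
    have h2 : Φ.card = 0 := by omega
    rw [h2, mul_zero] at hy
    have h3 : 0 < Φ₀.card := Finset.card_pos.2 ⟨t₀, ht₀⟩
    omega
  obtain ⟨t₁, ht₁⟩ := hΦne
  have hmemΦ : ∀ t ∈ Φ, t ∈ Φ₀ ∧ Ideal.Quotient.mk (Ideal.span {(M : 𝓞 F)}) (a t) = y := by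
    intro t ht
    rw [hΦ, Finset.mem_filter] at ht
    exact ht
  refine ⟨Φ, a, t₁, fun t ht => (hmem t (hmemΦ t ht).1).1, ht₁, ?_, fun t ht => ?_⟩
  · calc W.card ≤ h * Φ₀.card := hC
      _ ≤ h * (q * Φ.card) := Nat.mul_le_mul_left _ hy
      _ = h * q * Φ.card := by ring
  · obtain ⟨h1, h2⟩ := hmemΦ t ht
    obtain ⟨h3, h4⟩ := hmemΦ t₁ ht₁
    refine ⟨ha0 t h1, hcop t h1, ?_, fun u => ?_⟩
    · rw [← Ideal.mem_span_singleton, ← Ideal.Quotient.eq, h2, h4]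
    · have h5 : ∀ t ∈ Φ₀, ord u (a t : F) = (if u = t then 1 else 0) +
          FractionalIdeal.count F u (J : FractionalIdeal (nonZeroDivisors (𝓞 F)) F) := by
        intro t ht
        rw [n3_ord u (ha0 t ht), ha t ht, FractionalIdeal.coeIdeal_mul,
          FractionalIdeal.count_mul F u (FractionalIdeal.coeIdeal_ne_zero.2 (hI0 t))
            (FractionalIdeal.coeIdeal_ne_zero.2 hJ0), hI, FractionalIdeal.count_maximal]
        by_cases h8 : t = u
        · rw [if_pos h8, if_pos h8.symm]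
        · rw [if_neg h8, if_neg fun h9 => h8 h9.symm]
      have h6 : (a t : F) ≠ 0 := fun h => ha0 t h1 (RingOfIntegers.ext h)
      have h7 : (a t₁ : F) ≠ 0 := fun h => ha0 t₁ h3 (RingOfIntegers.ext h)
      rw [ord_div u h6 h7, h5 t h1, h5 t₁ h3]
      ring

end H16C
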