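import Pool.Agent.Lib.H16C.Defs

/-!
# VC (S): the properties of the family for the conjugates `h (a l)`

`exists_comap`: `A' = A.comap h` (`ValuationSubring.comap`): `x ∈ A' ↔ h x ∈ A`, and
`A.valuation x ≤ A.valuation y ↔ y = 0 ∧ x = 0 ∨ x / y ∈ A` (`ValuationSubring.valuation_le_one_iff`,
`map_div₀`).
`Fam.val'`, `Fam.one'`: apply `Φ.val`, `Φ.one` to `A'`: `≤`, hence `=` and `<`, transfer
(`h` fixes the rational numbers; `A'.valuation x * A'.valuation y = 1` is
`A'.valuation (x * y) = A'.valuation 1`; powers: `map_pow`).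
`int_le`: `v(z) ≤ 1` for `z ∈ ℤ`; `v(l) < 1` and `v(m) < 1` for integers `l, m` implies that `l`, `m`
are not coprime (`Int.gcd_eq_gcd_ab`, Bezout); if `l` is a prime number, `v l < 1` and `v z < 1` then
`l ∣ z`.
-/

namespace H16C

section

variable {k : Type*} [Field k] {Ω : Type*} [Field Ω] [Algebra k Ω]

theorem exists_comap (A : ValuationSubring Ω) (h : Ω ≃ₐ[k] Ω) : ∃ A' : ValuationSubring Ω,
    ∀ x y : Ω, A'.valuation x ≤ A'.valuation y ↔ A.valuation (h x) ≤ A.valuation (h y) := by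
  have key : ∀ (B : ValuationSubring Ω) (x y : Ω), y ≠ 0 →
      (B.valuation x ≤ B.valuation y ↔ x / y ∈ B) := by
    intro B x y hy
    rw [← B.valuation_le_one_iff, map_div₀, div_le_one₀ (zero_lt_iff.mpr
      ((Valuation.ne_zero_iff _).mpr hy))]
  refine ⟨A.comap ((h : Ω ≃+* Ω) : Ω →+* Ω), fun x y => ?_⟩
  by_cases hy : y = 0
  · subst hy
    rw [map_zero, map_zero, map_zero, le_zero_iff, le_zero_iff, Valuation.zero_iff,
      Valuation.zero_iff, map_eq_zero]
  · have hy' : h y ≠ 0 := (map_ne_zero h).mpr hy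
    rw [key _ x y hy, key A _ _ hy', ValuationSubring.mem_comap, ← map_div₀]
    rfl

omit [Algebra k Ω] in
theorem VC_lt {A' A : ValuationSubring Ω} {h : Ω → Ω}
    (H : ∀ x y : Ω, A'.valuation x ≤ A'.valuation y ↔ A.valuation (h x) ≤ A.valuation (h y))
    (x y : Ω) : A'.valuation x < A'.valuation y ↔ A.valuation (h x) < A.valuation (h y) := by
  rw [← not_le, ← not_le, H]

theorem VC_eq {A' A : ValuationSubring Ω} {h : Ω → Ω}
    (H : ∀ x y : Ω, A'.valuation x ≤ A'.valuation y ↔ A.valuation (h x) ≤ A.valuation (h y))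
    (x y : Ω) : A'.valuation x = A'.valuation y ↔ A.valuation (h x) = A.valuation (h y) := by
  rw [le_antisymm_iff, le_antisymm_iff, H, H]

theorem int_le (A : ValuationSubring Ω) (z : ℤ) : A.valuation (z : Ω) ≤ 1 := by
  rw [A.valuation_le_one_iff]
  exact intCast_mem A z

theorem dvd_of_val {A : ValuationSubring Ω} {l : ℕ} (hl : l.Prime) (h : A.valuation (l : Ω) < 1)
    {z : ℤ} (hz : A.valuation (z : Ω) < 1) : (l : ℤ) ∣ z := by
  by_contra hd
  have hc : IsCoprime (l : ℤ) z := (Nat.prime_iff_prime_int.mp hl).coprime_iff_not_dvd.mpr hd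
  obtain ⟨u, w, huw⟩ := hc
  have h1 : A.valuation ((u : Ω) * (l : Ω) + (w : Ω) * (z : Ω)) = 1 := by
    have : (u : Ω) * (l : Ω) + (w : Ω) * (z : Ω) = 1 := by exact_mod_cast congrArg (Int.cast (R := Ω)) huw
    rw [this, map_one]
  have h2 : A.valuation ((u : Ω) * (l : Ω)) < 1 := by
    rw [map_mul]
    exact (mul_le_of_le_one_left' (int_le A u)).trans_lt h
  have h3 : A.valuation ((w : Ω) * (z : Ω)) < 1 := by
    rw [map_mul]
    exact (mul_le_of_le_one_left' (int_le A w)).trans_lt hz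
  have h4 := A.valuation.map_add_lt h2 h3
  rw [h1] at h4
  exact lt_irrefl _ h4

end

variable {k : Type*} [Field k] {Ω : Type*} [Field Ω] [Algebra k Ω] [DecidableEq Ω]
  {W : WeierstrassCurve.Affine k} {n b : ℕ} {S : Setup W Ω n} (Φ : Fam S b)

theorem Fam.val' (A : ValuationSubring Ω) (h : Ω ≃ₐ[k] Ω) {l : ℕ} (hl : l ∈ Φ.T) :
    A.valuation (h (Φ.a l)) = 1 ∨
    (A.valuation (l : Ω) < 1 ∧ A.valuation (h (Φ.a l)) = A.valuation (l : Ω)) ∨
    (A.valuation (Φ.l₁ : Ω) < 1 ∧ A.valuation (h (Φ.a l)) * A.valuation (Φ.l₁ : Ω) = 1) := by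
  obtain ⟨A', H⟩ := exists_comap A h
  have Heq := VC_eq H
  have Hlt := VC_lt H
  have h1 : h 1 = 1 := map_one h
  have hnat : ∀ m : ℕ, h (m : Ω) = m := fun m => map_natCast h m
  have hlt : ∀ m : ℕ, A'.valuation (m : Ω) < 1 → A.valuation (m : Ω) < 1 := by
    intro m hm
    have h2 := (Hlt (m : Ω) 1).mp (by rwa [map_one])
    rwa [h1, map_one, hnat] at h2
  rcases Φ.val l hl A' with h2 | ⟨h2, h3⟩ | ⟨h2, h3⟩
  · left
    have h4 := (Heq (Φ.a l) 1).mp (by rwa [map_one])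
    rwa [h1, map_one] at h4
  · right
    left
    refine ⟨hlt _ h2, ?_⟩
    have h4 := (Heq _ _).mp h3
    rwa [hnat] at h4
  · right
    right
    refine ⟨hlt _ h2, ?_⟩
    have h4 := (Heq (Φ.a l * (Φ.l₁ : Ω)) 1).mp (by rw [map_mul, map_one]; exact h3)
    rw [map_mul h, hnat, map_mul, h1, map_one] at h4
    exact h4

theorem Fam.one' (A : ValuationSubring Ω) (h : Ω ≃ₐ[k] Ω) {l : ℕ} (hl : l ∈ Φ.T)
    (hb : A.valuation (b : Ω) < 1) :
    A.valuation (h (Φ.a l) - 1) ≤ A.valuation (b : Ω) ^ (n + 1) := by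
  obtain ⟨A', H⟩ := exists_comap A h
  have Hlt := VC_lt H
  have h1 : h 1 = 1 := map_one h
  have hnat : ∀ m : ℕ, h (m : Ω) = m := fun m => map_natCast h m
  have h2 : A'.valuation (b : Ω) < 1 := by
    have h3 := (Hlt (b : Ω) 1).mpr (by rw [h1, map_one, hnat]; exact hb)
    rwa [map_one] at h3
  have h3 := Φ.one l hl A' h2
  rw [← map_pow, H, map_sub h, h1, map_pow h, hnat, map_pow] at h3
  exact h3

end H16C
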