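import Pool.Agent.Lib.H16C.GE3
import Pool.Agent.Lib.H16C.SE3
import Pool.Agent.Lib.H16C.VC

/-!
# GE4 (M): the properties `val`, `one`, `loc` of the family, for one prime `l`

`L = S.L` (a number field), `l ≠ l₁` primes not dividing `b`, `w`, `w₁` primes of `L` of norm `l`, `l₁`,
with `ord_w l = 1`, `ord_w₁ l₁ = 1` (unramified), `a = α₁/α₂`, `α₁, α₂ ∈ 𝓞 L`, `≠ 0`,
`b^(n+1) ∣ α₁ c₁ - 1`, `b^(n+1) ∣ α₂ c₂ - 1`, `b^(n+1) ∣ α₁ - α₂`,
`ord_u a = (1 if u = w) - (1 if u = w₁)`.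
`fam_val`: `A` a valuation subring of `Ω`, `v = A.valuation`: `val_cases`: if `v` is trivial on `L`:
`v a = 1`.  Otherwise let `u` be the prime: `u ≠ w, w₁`: `ord_u a = 0`, `v a = 1`.  `u = w` (`w ≠ w₁` as
`l ≠ l₁`): `l ∈ w` so `v l < 1`, and `ord_w (a/l) = 0`, so `v a = v l`.  `u = w₁`: `v l₁ < 1`,
`ord_w₁ (a l₁) = 0`, `v a v l₁ = 1`.
`fam_one`: `v b < 1`: `v(α₂) = 1` (`α₂ c₂ ≡ 1` modulo an element of valuation `< 1`, integral elements
have `v ≤ 1`), `v(a - 1) = v(α₁ - α₂)/v(α₂) ≤ v(b)^(n+1)`.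
`fam_loc`: `A` from `exists_above` for `w`.  `lt`: `ord_w l = 1 > 0`.  `eq`: `ord_w(a/l) = 0`.
`unr`: `z ∈ L`, `z ≠ 0`, `j = ord_w z`: `ord_w(z l^(-j)) = 0`.
`res`: `#(𝓞 L/w) = l` (`absNorm`), so every class of `𝓞 L/w` is the class of an integer; `z ∈ L`,
`v z ≤ 1`: `z = α/β`, `α, β ∈ 𝓞 L`, `v β = 1` (`frac_rep`, integral elements of `L` are in `𝓞 L`),
`α ≡ i`, `β ≡ j`, `l ∤ j`, `z ≡ i j'` with `j j' ≡ 1` modulo `l`.
`conj`: let `v(g a) ≠ 1`; by `fam_val` for `A' = A.comap g` (`exists_comap`) and `v l < 1`,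
`v l₁ = 1`: `v(g a) = v l < 1`.  `val_cases` for `A'`: the prime `u` of `A'` has `ord_u a > 0`, so
`u = w`: for `x ∈ L`: `v(g x) < 1 ↔ v x < 1`.  So for `x ∈ L`, `v x ≤ 1`: `x ≡ m ∈ ℤ` (`res`),
`v(g x - m) = v(g (x - m)) < 1`, `v(g x - x) < 1`: `g` is inert on `L`, so `g ∈ N`
(`Setup.mem_of_inert`; `v b = 1` because `l ∤ b`).
-/

open NumberField IsDedekindDomain H16A Ideal

namespace H16C

variable {k : Type*} [Field k] [NumberField k] {Ω : Type*} [Field Ω] [Algebra k Ω] [IsAlgClosed Ω]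
  [Algebra.IsAlgebraic k Ω] [CharZero Ω] [DecidableEq Ω] {W : WeierstrassCurve.Affine k}
  [W.IsShortNF] [W.IsElliptic] {n b : ℕ} [NeZero n] {S : Setup W Ω n}

open Classical in
/-- the hypotheses of this file -/
structure GHyp (S : Setup W Ω n) (b l l₁ : ℕ) [NumberField S.L] (w w₁ : HeightOneSpectrum (𝓞 S.L))
    (a : S.L) (α₁ α₂ : 𝓞 S.L) : Prop where
  hl : l.Prime
  hl₁ : l₁.Prime
  hne : l ≠ l₁
  hlb : ¬ l ∣ b
  hl₁b : ¬ l₁ ∣ b
  norm : absNorm w.asIdeal = l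
  norm₁ : absNorm w₁.asIdeal = l₁
  ram : ord w (l : S.L) = 1
  ram₁ : ord w₁ (l₁ : S.L) = 1
  ha : a * (α₂ : S.L) = (α₁ : S.L)
  h1 : α₁ ≠ 0
  h2 : α₂ ≠ 0
  c1 : ∃ c : 𝓞 S.L, ((b ^ (n + 1) : ℕ) : 𝓞 S.L) ∣ α₁ * c - 1
  c2 : ∃ c : 𝓞 S.L, ((b ^ (n + 1) : ℕ) : 𝓞 S.L) ∣ α₂ * c - 1
  c12 : ((b ^ (n + 1) : ℕ) : 𝓞 S.L) ∣ α₁ - α₂
  hord : ∀ u, ord u a = (if u = w then 1 else 0) - (if u = w₁ then 1 else 0)

variable {l l₁ : ℕ} [NumberField S.L] {w w₁ : HeightOneSpectrum (𝓞 S.L)} {a : S.L}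
  {α₁ α₂ : 𝓞 S.L}

section aux

variable {F : Type*} [Field F] [NumberField F]

theorem GE4_ord_zpow (w : HeightOneSpectrum (𝓞 F)) (x : F) (j : ℤ) : ord w (x ^ j) = j * ord w x := by
  unfold ord
  rw [map_zpow₀, WithZero.log_zpow]
  simp

/-- the residue classes of a prime of degree one -/
theorem GE4_res {l : ℕ} (hl : l.Prime) {w : HeightOneSpectrum (𝓞 F)} (hw : absNorm w.asIdeal = l)
    (α : 𝓞 F) : ∃ m : ℕ, α - (m : 𝓞 F) ∈ w.asIdeal := by
  have hfin : Finite (𝓞 F ⧸ w.asIdeal) := by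
    apply Nat.finite_of_card_ne_zero
    have h1 : Nat.card (𝓞 F ⧸ w.asIdeal) = l := by
      rw [← hw, absNorm_apply]
      rfl
    rw [h1]
    exact hl.ne_zero
  have hft : Fintype (𝓞 F ⧸ w.asIdeal) := Fintype.ofFinite _
  have hcard : Fintype.card (𝓞 F ⧸ w.asIdeal) = l := by
    rw [← Nat.card_eq_fintype_card, ← hw, absNorm_apply]
    rfl
  obtain ⟨z, hz⟩ := (ZMod.ringEquivOfPrime (𝓞 F ⧸ w.asIdeal) hl hcard).surjective
    (Ideal.Quotient.mk w.asIdeal α)
  have _ : NeZero l := ⟨hl.ne_zero⟩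
  refine ⟨z.val, ?_⟩
  rw [← Ideal.Quotient.eq, map_natCast, ← hz]
  conv_lhs => rw [← ZMod.natCast_zmod_val z]
  rw [map_natCast]

end aux

theorem GE4_a_ne (h : GHyp S b l l₁ w w₁ a α₁ α₂) : a ≠ 0 := by
  intro h0
  have h1 := h.ha
  rw [h0, zero_mul] at h1
  apply h.h1
  apply RingOfIntegers.ext
  rw [← h1]
  simp

theorem GE4_w_ne (h : GHyp S b l l₁ w w₁ a α₁ α₂) : w ≠ w₁ := by
  intro h0
  apply h.hne
  rw [← h.norm, h0, h.norm₁]

theorem fam_val (h : GHyp S b l l₁ w w₁ a α₁ α₂) (A : ValuationSubring Ω) :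
    A.valuation (a : Ω) = 1 ∨
    (A.valuation (l : Ω) < 1 ∧ A.valuation (a : Ω) = A.valuation (l : Ω)) ∨
    (A.valuation (l₁ : Ω) < 1 ∧ A.valuation (a : Ω) * A.valuation (l₁ : Ω) = 1) := by
  have ha := GE4_a_ne h
  have hl0 : (l : S.L) ≠ 0 := Nat.cast_ne_zero.mpr h.hl.ne_zero
  have hl10 : (l₁ : S.L) ≠ 0 := Nat.cast_ne_zero.mpr h.hl₁.ne_zero
  have hcl : ((l : S.L) : Ω) = (l : Ω) := by simp
  have hcl1 : ((l₁ : S.L) : Ω) = (l₁ : Ω) := by simp
  have hww := GE4_w_ne h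
  rcases val_cases S.L A with h1 | ⟨u, hu⟩
  · exact Or.inl (h1 a ha)
  · by_cases huw : u = w
    · right
      left
      have hoa : ord u a = 1 := by
        rw [h.hord, if_pos huw, if_neg (by rw [huw]; exact hww)]
        norm_num
      have hol : ord u (l : S.L) = 1 := by rw [huw]; exact h.ram
      have hvl : A.valuation (l : Ω) < 1 := by
        rw [← hcl]
        exact (hu _ hl0).2.1.mpr (by rw [hol]; norm_num)
      refine ⟨hvl, ?_⟩
      have h3 : A.valuation ((a / (l : S.L) : S.L) : Ω) = 1 := by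
        apply (hu _ (div_ne_zero ha hl0)).2.2.mpr
        rw [ord_div _ ha hl0, hoa, hol, sub_self]
      have h4 : ((a / (l : S.L) : S.L) : Ω) = (a : Ω) / (l : Ω) := by
        rw [← hcl]
        simp
      rw [h4, map_div₀] at h3
      have h5 : A.valuation (l : Ω) ≠ 0 := by
        rw [Ne, map_eq_zero]
        exact Nat.cast_ne_zero.mpr h.hl.ne_zero
      rwa [div_eq_one_iff_eq h5] at h3
    · by_cases huw1 : u = w₁
      · right
        right
        have hoa : ord u a = -1 := by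
          rw [h.hord, if_neg huw, if_pos huw1]
          norm_num
        have hol : ord u (l₁ : S.L) = 1 := by rw [huw1]; exact h.ram₁
        have hvl : A.valuation (l₁ : Ω) < 1 := by
          rw [← hcl1]
          exact (hu _ hl10).2.1.mpr (by rw [hol]; norm_num)
        refine ⟨hvl, ?_⟩
        have h3 : A.valuation ((a * (l₁ : S.L) : S.L) : Ω) = 1 := by
          apply (hu _ (mul_ne_zero ha hl10)).2.2.mpr
          rw [ord_mul _ ha hl10, hoa, hol]
          norm_num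
        have h4 : ((a * (l₁ : S.L) : S.L) : Ω) = (a : Ω) * (l₁ : Ω) := by
          rw [← hcl1]
          simp
        rwa [h4, map_mul] at h3
      · left
        apply (hu _ ha).2.2.mpr
        rw [h.hord, if_neg huw, if_neg huw1]
        norm_num

theorem fam_one (h : GHyp S b l l₁ w w₁ a α₁ α₂) (A : ValuationSubring Ω)
    (hA : A.valuation (b : Ω) < 1) : A.valuation ((a : Ω) - 1) ≤ A.valuation (b : Ω) ^ (n + 1) := by
  have hint : ∀ z : 𝓞 S.L, A.valuation (((z : S.L) : Ω)) ≤ 1 := fun z =>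
    FR_le_one A (FR_isIntegral S.L z)
  obtain ⟨c, hc⟩ := h.c2
  obtain ⟨t, ht⟩ := hc
  obtain ⟨s, hs⟩ := h.c12
  have e1 : (((α₂ : S.L) : Ω)) * ((c : S.L) : Ω) - 1 = (b : Ω) ^ (n + 1) * ((t : S.L) : Ω) := by
    have := congrArg (fun z : 𝓞 S.L => ((z : S.L) : Ω)) ht
    simpa using this
  have e2 : ((α₁ : S.L) : Ω) - ((α₂ : S.L) : Ω) = (b : Ω) ^ (n + 1) * ((s : S.L) : Ω) := by
    have := congrArg (fun z : 𝓞 S.L => ((z : S.L) : Ω)) hs
    simpa using this
  have e3 : (a : Ω) * ((α₂ : S.L) : Ω) = ((α₁ : S.L) : Ω) := by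
    have := congrArg (fun z : S.L => (z : Ω)) h.ha
    simpa using this
  have hbn : A.valuation (b : Ω) ^ (n + 1) < 1 := pow_lt_one₀ zero_le hA (Nat.succ_ne_zero n)
  have hbt : A.valuation ((b : Ω) ^ (n + 1) * ((t : S.L) : Ω)) < 1 := by
    rw [map_mul, map_pow]
    exact lt_of_le_of_lt (mul_le_of_le_one_right' (hint t)) hbn
  have hv2 : A.valuation ((α₂ : S.L) : Ω) = 1 := by
    refine le_antisymm (hint α₂) ?_
    by_contra hcon
    push Not at hcon
    have h3 : A.valuation (((α₂ : S.L) : Ω) * ((c : S.L) : Ω)) < 1 := by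
      rw [map_mul]
      exact lt_of_le_of_lt (mul_le_of_le_one_right' (hint c)) hcon
    have h4 : (1 : Ω) = ((α₂ : S.L) : Ω) * ((c : S.L) : Ω) - (b : Ω) ^ (n + 1) * ((t : S.L) : Ω) := by
      rw [← e1]
      ring
    have h5 : A.valuation (1 : Ω) < 1 := by
      rw [h4]
      exact A.valuation.map_sub_lt h3 hbt
    rw [map_one] at h5
    exact lt_irrefl _ h5
  have h6 : A.valuation (((a : Ω) - 1) * ((α₂ : S.L) : Ω)) ≤ A.valuation (b : Ω) ^ (n + 1) := by
    have h7 : ((a : Ω) - 1) * ((α₂ : S.L) : Ω) = (b : Ω) ^ (n + 1) * ((s : S.L) : Ω) := by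
      rw [← e2, ← e3]
      ring
    rw [h7, map_mul, map_pow]
    exact mul_le_of_le_one_right' (hint s)
  rwa [map_mul, hv2, mul_one] at h6

theorem fam_loc (hb : Bad W Ω n b) (h : GHyp S b l l₁ w w₁ a α₁ α₂) :
    ∃ A : ValuationSubring Ω, S.Loc l (a : Ω) A := by
  obtain ⟨A, hA⟩ := exists_above S.L w
  have ha := GE4_a_ne h
  have hl0 : (l : S.L) ≠ 0 := Nat.cast_ne_zero.mpr h.hl.ne_zero
  have hcl : ((l : S.L) : Ω) = (l : Ω) := by simp
  have hww := GE4_w_ne h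
  have hvl0 : A.valuation (l : Ω) ≠ 0 := by
    rw [Ne, map_eq_zero]
    exact Nat.cast_ne_zero.mpr h.hl.ne_zero
  have hlt : A.valuation (l : Ω) < 1 := by
    rw [← hcl]
    exact (hA _ hl0).2.1.mpr (by rw [h.ram]; norm_num)
  have heq : A.valuation (a : Ω) = A.valuation (l : Ω) := by
    have h3 : A.valuation ((a / (l : S.L) : S.L) : Ω) = 1 := by
      apply (hA _ (div_ne_zero ha hl0)).2.2.mpr
      rw [ord_div _ ha hl0, h.ram, h.hord, if_pos rfl, if_neg hww]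
      norm_num
    have h4 : ((a / (l : S.L) : S.L) : Ω) = (a : Ω) / (l : Ω) := by
      rw [← hcl]
      simp
    rw [h4, map_div₀] at h3
    rwa [div_eq_one_iff_eq hvl0] at h3
  have hunr : ∀ z ∈ S.L, z ≠ 0 → ∃ j : ℤ, A.valuation z = A.valuation (l : Ω) ^ j := by
    intro z hz hz0
    refine ⟨ord w (⟨z, hz⟩ : S.L), ?_⟩
    have hz0' : (⟨z, hz⟩ : S.L) ≠ 0 := by
      intro h0
      exact hz0 (congrArg Subtype.val h0)
    have hlz : (l : S.L) ^ (ord w (⟨z, hz⟩ : S.L)) ≠ 0 := zpow_ne_zero _ hl0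
    have h3 : A.valuation (((⟨z, hz⟩ : S.L) / (l : S.L) ^ (ord w (⟨z, hz⟩ : S.L)) : S.L) : Ω) = 1 := by
      apply (hA _ (div_ne_zero hz0' hlz)).2.2.mpr
      rw [ord_div _ hz0' hlz, GE4_ord_zpow, h.ram, mul_one, sub_self]
    have h4 : (((⟨z, hz⟩ : S.L) / (l : S.L) ^ (ord w (⟨z, hz⟩ : S.L)) : S.L) : Ω) =
        z / (l : Ω) ^ (ord w (⟨z, hz⟩ : S.L)) := by
      rw [← hcl]
      exact (map_div₀ S.L.val _ _).trans (by rw [map_zpow₀]; rfl)
    rw [h4, map_div₀, map_zpow₀] at h3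
    rwa [div_eq_one_iff_eq (zpow_ne_zero _ hvl0)] at h3
  have hmem : ∀ x : 𝓞 S.L, x ∈ w.asIdeal → A.valuation ((x : S.L) : Ω) < 1 := by
    intro x hx
    by_cases hx0 : x = 0
    · rw [hx0]
      simp
    · have hx0' : (x : S.L) ≠ 0 := by
        intro h0
        exact hx0 (RingOfIntegers.ext (by rw [h0]; simp))
      exact (hA _ hx0').2.1.mpr ((ord_int_pos_iff w hx0).mpr hx)
  have hnat : ∀ z : ℤ, A.valuation (z : Ω) ≤ 1 := fun z => int_le A z
  have hres : ∀ z ∈ S.L, A.valuation z ≤ 1 → ∃ m : ℤ, A.valuation (z - m) < 1 := by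
    intro z hz hvz
    obtain ⟨α, β, hβ, hαβ⟩ := frac_rep_int S.L A l h.hl hlt (x := ⟨z, hz⟩) hvz
    have hβ1 : A.valuation ((β : S.L) : Ω) = 1 := not_mem_plc.1 hβ
    obtain ⟨i, hi⟩ := GE4_res h.hl h.norm α
    obtain ⟨j, hj⟩ := GE4_res h.hl h.norm β
    have hi' := hmem _ hi
    have hj' := hmem _ hj
    have hi'' : A.valuation (((α : S.L) : Ω) - (i : Ω)) < 1 := by simpa using hi'
    have hj'' : A.valuation (((β : S.L) : Ω) - (j : Ω)) < 1 := by simpa using hj'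
    have hlj : ¬ l ∣ j := by
      rintro ⟨r, rfl⟩
      have h5 : A.valuation ((β : S.L) : Ω) < 1 := by
        have h6 : ((β : S.L) : Ω) = (((β : S.L) : Ω) - ((l * r : ℕ) : Ω)) + (l : Ω) * ((r : ℤ) : Ω) := by
          push_cast
          ring
        rw [h6]
        refine A.valuation.map_add_lt hj'' ?_
        rw [map_mul]
        exact lt_of_le_of_lt (mul_le_of_le_one_right' (hnat _)) hlt
      rw [hβ1] at h5
      exact lt_irrefl _ h5
    have hcop : IsCoprime (j : ℤ) (l : ℤ) := by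
      rw [Nat.isCoprime_iff_coprime]
      exact ((Nat.Prime.coprime_iff_not_dvd h.hl).mpr hlj).symm
    obtain ⟨j', r, hjr⟩ := hcop
    have hjr' : ((j' : ℤ) : Ω) * (j : Ω) + ((r : ℤ) : Ω) * (l : Ω) = 1 := by
      have := congrArg (fun z : ℤ => (z : Ω)) hjr
      simpa using this
    refine ⟨i * j', ?_⟩
    have hz' : z * ((β : S.L) : Ω) = ((α : S.L) : Ω) := by
      have := congrArg (fun z : S.L => (z : Ω)) hαβ
      simpa using this
    have h7 : (z - ((i * j' : ℤ) : Ω)) * ((β : S.L) : Ω) =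
        (((α : S.L) : Ω) - (i : Ω)) + (((i * r : ℤ) : Ω) * (l : Ω) -
          ((i * j' : ℤ) : Ω) * (((β : S.L) : Ω) - (j : Ω))) := by
      rw [sub_mul, hz']
      push_cast
      linear_combination (-(i : Ω)) * hjr'
    have h8 : A.valuation ((z - ((i * j' : ℤ) : Ω)) * ((β : S.L) : Ω)) < 1 := by
      rw [h7]
      refine A.valuation.map_add_lt hi'' (A.valuation.map_sub_lt ?_ ?_)
      · rw [map_mul]
        exact lt_of_le_of_lt (mul_le_of_le_one_left' (hnat _)) hlt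
      · rw [map_mul]
        exact lt_of_le_of_lt (mul_le_of_le_one_left' (hnat _)) hj''
    rwa [map_mul, hβ1, mul_one] at h8
  refine ⟨A, hlt, heq, hres, hunr, ?_⟩
  intro g hgN
  by_contra hga
  obtain ⟨A', hA'⟩ := exists_comap A g
  have hle1 : ∀ x : Ω, A'.valuation x ≤ 1 ↔ A.valuation (g x) ≤ 1 := by
    intro x
    have h3 := hA' x 1
    rwa [map_one, map_one, map_one] at h3
  have h1le : ∀ x : Ω, 1 ≤ A'.valuation x ↔ 1 ≤ A.valuation (g x) := by
    intro x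
    have h3 := hA' 1 x
    rwa [map_one, map_one, map_one] at h3
  have hlt1 : ∀ x : Ω, A'.valuation x < 1 ↔ A.valuation (g x) < 1 := by
    intro x
    rw [← not_le, ← not_le, h1le]
  have hAb : A.valuation (b : Ω) = 1 := by
    refine le_antisymm (by exact_mod_cast hnat (b : ℤ)) ?_
    by_contra hcon
    push Not at hcon
    apply h.hlb
    have := dvd_of_val h.hl hlt (z := (b : ℤ)) (by exact_mod_cast hcon)
    exact_mod_cast this
  apply hgN
  apply S.mem_of_inert hb hAb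
  -- `A' = A` on `L`
  rcases fam_val h A' with h3 | ⟨h3, h4⟩ | ⟨h3, h4⟩
  · exact absurd (le_antisymm ((hle1 _).mp h3.le) ((h1le _).mp h3.ge)) hga
  · have hAx : ∀ x ∈ S.L, A.valuation x < 1 → A.valuation (g x) < 1 := by
      intro x hx hvx
      by_cases hx0 : x = 0
      · rw [hx0, map_zero, map_zero]
        exact zero_lt_one
      have hx0' : (⟨x, hx⟩ : S.L) ≠ 0 := by
        intro h0
        exact hx0 (congrArg Subtype.val h0)
      rcases val_cases S.L A' with h5 | ⟨u, hu⟩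
      · have h6 := h5 _ hl0
        rw [hcl] at h6
        rw [h6] at h3
        exact absurd h3 (lt_irrefl _)
      · have h6 : 0 < ord u a := by
          apply (hu a ha).2.1.mp
          rw [h4]
          exact h3
        have huw : u = w := by
          by_contra hne
          rw [h.hord, if_neg hne] at h6
          split_ifs at h6 <;> norm_num at h6
        rw [← hlt1]
        apply (hu _ hx0').2.1.mpr
        rw [huw]
        exact (hA _ hx0').2.1.mp hvx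
    intro x hx hvx
    obtain ⟨m, hm⟩ := hres x hx hvx
    have h5 : A.valuation (g (x - m)) < 1 :=
      hAx _ (S.L.sub_mem hx (S.L.intCast_mem m)) hm
    rw [map_sub, map_intCast] at h5
    have h6 : g x - x = (g x - m) - (x - m) := by ring
    rw [h6]
    exact A.valuation.map_sub_lt h5 hm
  · exfalso
    have h5 : A.valuation (l₁ : Ω) < 1 := by
      have := (hlt1 _).mp h3
      rwa [map_natCast] at this
    have h6 := dvd_of_val h.hl hlt (z := (l₁ : ℤ)) (by exact_mod_cast h5)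
    have h7 : l ∣ l₁ := by exact_mod_cast h6
    exact h.hne ((Nat.prime_dvd_prime_iff_eq h.hl h.hl₁).mp h7)

end H16C
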