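import Pool.Agent.Lib.H16A.V2
import Pool.Agent.Lib.H16C.GE1
import Pool.Agent.Lib.H16C.GE2
import Pool.Agent.Lib.H16C.GE4

/-!
# GE5 (M): existence of large families

`L = S.L` is a number field (`S.fin`).  For `x` large: the primes `l ≤ x` with `degOne L l ≥ 1` are
at least `x^(1-ε/2)` (`many_degOne`); remove the finitely many ones that divide `b` or `discr L`.  For
each choose a prime `w_l` of `L` of norm `l` (`degOne`, H59/PrimeIdealSums: `mem_degOneSet`); different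
`l` have different `w_l`.  `ord_{w_l} l = 1`: `NumberField.not_dvd_discr_iff_forall_mem` (unramified);
`ord ≥ 1` since `l ∈ w_l` (the norm `l` is in `w_l`), and `ord = ` ramification index `= 1`.
`w_l` is coprime to `M = b^(n+1)` (`l ∈ w_l`, `l ∤ b`).  `exists_a L M`: `Φ`, `a`, `w₁`, with
`#W ≤ K₃ #Φ`.  `l₁` = the prime below `w₁`, `T₀` = the primes below the other elements of `Φ`:
`#T₀ ≥ x^(1-ε)` for large `x`; `T ⊆ T₀` with exactly `t` elements.  For `l ∈ T`: `a l = a(w_l)/a(w₁)`,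
`α l` an `n`-th root of it (`Ω` algebraically closed).  `GHyp` holds (`α₁ = a(w_l)`, `α₂ = a(w₁)`):
`fam_val`, `fam_one`, `fam_loc`.
-/

open NumberField IsDedekindDomain H16A

namespace H16C

variable {k : Type*} [Field k] [NumberField k] {Ω : Type*} [Field Ω] [Algebra k Ω] [IsAlgClosed Ω]
  [Algebra.IsAlgebraic k Ω] [CharZero Ω] [DecidableEq Ω] {W : WeierstrassCurve.Affine k}
  [W.IsShortNF] [W.IsElliptic] {n b : ℕ} [NeZero n] {S : Setup W Ω n}

section GE5aux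

variable {F : Type*} [Field F] [NumberField F]

theorem GE5_mem (w : HeightOneSpectrum (𝓞 F)) {p : ℕ} (h : Ideal.absNorm w.asIdeal = p) :
    (p : 𝓞 F) ∈ w.asIdeal := by
  rw [← h]
  exact Ideal.absNorm_mem w.asIdeal

theorem GE5_ord (w : HeightOneSpectrum (𝓞 F)) {p : ℕ} (hp : p.Prime)
    (h : Ideal.absNorm w.asIdeal = p) (hd : ¬ (p : ℤ) ∣ discr F) : ord w (p : F) = 1 := by
  have hmem := GE5_mem w h
  have hpos := ord_natCast_pos w hp hmem
  have hunr := (NumberField.not_dvd_discr_iff_forall_mem F (𝓞 F)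
    (Nat.prime_iff_prime_int.1 hp)).1 hd w.asIdeal w.isPrime (by exact_mod_cast hmem)
  haveI := w.isPrime
  have hle : (Ideal.span {(p : ℤ)}).map (algebraMap ℤ (𝓞 F)) ≤ w.asIdeal := by
    rw [Ideal.map_span, Set.image_singleton, Ideal.span_singleton_le_iff_mem]
    exact_mod_cast hmem
  have hover : w.asIdeal.under ℤ = Ideal.span {(p : ℤ)} :=
    ((Ideal.liesOver_span_iff w.isPrime.ne_top (Nat.prime_iff_prime_int.1 hp)).2
      (by exact_mod_cast hmem)).1.symm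
  have h1 : Ideal.ramificationIdx' (Ideal.span {(p : ℤ)}) w.asIdeal = 1 := by
    rw [Ideal.IsDedekindDomain.ramificationIdx'_eq_one_iff w.ne_bot hle]
    haveI : (w.asIdeal.under ℤ).IsPrime := Ideal.IsPrime.under ℤ w.asIdeal
    let _ : Algebra (Localization.AtPrime (w.asIdeal.under ℤ)) (Localization.AtPrime w.asIdeal) :=
      Localization.AtPrime.algebraOfLiesOver (w.asIdeal.under ℤ) w.asIdeal
    have h2 := ((Algebra.isUnramifiedAt_iff_map_eq ℤ (w.asIdeal.under ℤ) w.asIdeal).1 hunr).2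
    rw [hover] at h2
    exact h2
  have h3 : ¬ (Ideal.span {(p : ℤ)}).map (algebraMap ℤ (𝓞 F)) ≤ w.asIdeal ^ 2 := by
    intro h4
    exact (Ideal.ramificationIdx'_ne_one_iff hle).2 h4 h1
  have h5 : (p : 𝓞 F) ∉ w.asIdeal ^ 2 := by
    intro h6
    apply h3
    rw [Ideal.map_span, Set.image_singleton, Ideal.span_singleton_le_iff_mem]
    exact_mod_cast h6
  by_contra hne
  apply h5
  have h7 : 2 ≤ ord w (p : F) := by omega
  rw [← HeightOneSpectrum.intValuation_le_pow_iff_mem]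
  have h8 : w.valuation F (p : F) = w.intValuation (p : 𝓞 F) := by
    have := w.valuation_of_algebraMap (K := F) (p : 𝓞 F)
    rw [← this]
    congr 1
  rw [← h8]
  have h9 : w.valuation F (p : F) ≠ 0 := by
    rw [Ne, Valuation.zero_iff]
    exact_mod_cast hp.ne_zero
  rw [← WithZero.exp_log h9, WithZero.exp_le_exp]
  unfold ord at h7
  push_cast
  omega

theorem GE5_coprime (w : HeightOneSpectrum (𝓞 F)) {p M : ℕ} (hp : p.Prime)
    (h : Ideal.absNorm w.asIdeal = p) (hM : ¬ p ∣ M) :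
    IsCoprime w.asIdeal (Ideal.span {(M : 𝓞 F)}) := by
  have h1 := v2_notMem w hp (GE5_mem w h) hM
  have hmax : w.asIdeal.IsMaximal := w.isMaximal
  rw [Ideal.isCoprime_iff_sup_eq]
  by_contra hne
  have h2 : w.asIdeal = w.asIdeal ⊔ Ideal.span {(M : 𝓞 F)} :=
    hmax.eq_of_le hne le_sup_left
  apply h1
  rw [h2]
  exact Ideal.mem_sup_right (Ideal.mem_span_singleton_self _)

theorem GE5_large (K B : ℕ) {ε : ℝ} (hε : 0 < ε) (hε1 : ε ≤ 1) :
    ∃ x₀ : ℕ, ∀ x : ℕ, x₀ ≤ x →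
      (K : ℝ) * ((x : ℝ) ^ (1 - ε) + 1) + B ≤ (x : ℝ) ^ (1 - ε / 2) := by
  have h1 := (tendsto_rpow_atTop (half_pos hε)).comp (tendsto_natCast_atTop_atTop (R := ℝ))
  obtain ⟨x₁, hx₁⟩ := Filter.eventually_atTop.1 (h1.eventually_ge_atTop ((2 * K + B : ℕ) : ℝ))
  refine ⟨max x₁ 1, fun x hx => ?_⟩
  have hx1 : (1 : ℝ) ≤ x := by exact_mod_cast (le_max_right _ _).trans hx
  have h2 := hx₁ x ((le_max_left _ _).trans hx)
  simp only [Function.comp_apply] at h2
  have h3 : (1 : ℝ) ≤ (x : ℝ) ^ (1 - ε) := Real.one_le_rpow hx1 (by linarith)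
  have h4 : (x : ℝ) ^ (1 - ε / 2) = (x : ℝ) ^ (1 - ε) * (x : ℝ) ^ (ε / 2) := by
    rw [← Real.rpow_add (by linarith)]
    congr 1
    ring
  rw [h4]
  push_cast at h2
  have hK : (0 : ℝ) ≤ K := Nat.cast_nonneg _
  have hB : (0 : ℝ) ≤ B := Nat.cast_nonneg _
  calc (K : ℝ) * ((x : ℝ) ^ (1 - ε) + 1) + B
      ≤ (K : ℝ) * ((x : ℝ) ^ (1 - ε) + (x : ℝ) ^ (1 - ε)) + B * (x : ℝ) ^ (1 - ε) := by
        nlinarith
    _ = (x : ℝ) ^ (1 - ε) * (2 * K + B) := by ring
    _ ≤ (x : ℝ) ^ (1 - ε) * (x : ℝ) ^ (ε / 2) := by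
        apply mul_le_mul_of_nonneg_left h2 (by linarith)

end GE5aux

theorem exists_fam (S : Setup W Ω n) (hb : Bad W Ω n b) {ε : ℝ} (hε : 0 < ε) :
    ∃ x₀ : ℕ, ∀ x : ℕ, x₀ ≤ x → ∀ t : ℕ, (t : ℝ) ≤ (x : ℝ) ^ (1 - ε) →
      ∃ Φ : Fam S b, Φ.T.card = t ∧ ∀ l ∈ insert Φ.l₁ Φ.T, l ≤ x := by
  classical
  haveI := S.fin
  haveI : NumberField S.L := NumberField.of_module_finite k S.L
  set ε' : ℝ := min ε 1 with hε'
  have hε'0 : 0 < ε' := lt_min hε one_pos
  have hε'1 : ε' ≤ 1 := min_le_right _ _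
  set M : ℕ := b ^ (n + 1) with hM
  have hM0 : 0 < M := Nat.pow_pos (Nat.pos_of_ne_zero hb.ne)
  obtain ⟨K₃, hK₃, hexa⟩ := exists_a S.L M hM0
  obtain ⟨x₁, hx₁⟩ := many_degOne S.L (half_pos hε'0)
  set Bs : Finset ℕ := b.primeFactors ∪ (discr S.L).natAbs.primeFactors with hBs
  obtain ⟨x₂, hx₂⟩ := GE5_large K₃ Bs.card hε'0 hε'1
  refine ⟨max (max x₁ x₂) 1, fun x hx t ht => ?_⟩
  have hxa : x₁ ≤ x := (le_max_left _ _).trans ((le_max_left _ _).trans hx)
  have hxb : x₂ ≤ x := (le_max_right _ _).trans ((le_max_left _ _).trans hx)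
  have hx1 : (1 : ℝ) ≤ x := by exact_mod_cast (le_max_right _ _).trans hx
  have h1 := hx₁ x hxa
  have h2 := hx₂ x hxb
  -- the primes
  set P₀ : Finset ℕ := (Finset.range (x + 1)).filter
    fun p => p.Prime ∧ 1 ≤ Pool.Agent.Lib.H59.degOne S.L p with hP₀
  set P₁ : Finset ℕ := P₀ \ Bs with hP₁
  have hP₁card : P₀.card ≤ P₁.card + Bs.card := by
    rw [hP₁]
    have := Finset.le_card_sdiff Bs P₀
    omega
  have hP₁mem : ∀ p ∈ P₁, p.Prime ∧ p ≤ x ∧ ¬ p ∣ b ∧ ¬ (p : ℤ) ∣ discr S.L ∧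
      ∃ w : HeightOneSpectrum (𝓞 S.L), Ideal.absNorm w.asIdeal = p := by
    intro p hp
    rw [hP₁, Finset.mem_sdiff, hP₀, Finset.mem_filter, Finset.mem_range, hBs,
      Finset.mem_union] at hp
    obtain ⟨⟨hpx, hpp, hdeg⟩, hnb⟩ := hp
    refine ⟨hpp, by omega, fun h => hnb (Or.inl ?_), fun h => hnb (Or.inr ?_), ?_⟩
    · exact Nat.mem_primeFactors.2 ⟨hpp, h, hb.ne⟩
    · exact Nat.mem_primeFactors.2 ⟨hpp, Int.natCast_dvd.1 h,
        Int.natAbs_ne_zero.2 (discr_ne_zero S.L)⟩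
    · rw [← Pool.Agent.Lib.H59.card_degOneSet] at hdeg
      obtain ⟨w, hw⟩ := Finset.card_pos.1 hdeg
      exact ⟨w, Pool.Agent.Lib.H59.mem_degOneSet.1 hw⟩
  have hexw : ∀ p : ℕ, ∃ w : HeightOneSpectrum (𝓞 S.L), p ∈ P₁ → Ideal.absNorm w.asIdeal = p := by
    intro p
    by_cases hp : p ∈ P₁
    · obtain ⟨-, -, -, -, w, hw⟩ := hP₁mem p hp
      exact ⟨w, fun _ => hw⟩
    · have hne : P₁.Nonempty := by
        rw [Finset.nonempty_iff_ne_empty]
        intro h0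
        have h3 : (P₀.card : ℝ) ≤ Bs.card := by
          have := hP₁card
          rw [h0, Finset.card_empty, zero_add] at this
          exact_mod_cast this
        have h4 : (1 : ℝ) ≤ K₃ := by exact_mod_cast hK₃
        have h5 : (0 : ℝ) ≤ (x : ℝ) ^ (1 - ε') := by positivity
        nlinarith
      obtain ⟨q, hq⟩ := hne
      obtain ⟨-, -, -, -, w, -⟩ := hP₁mem q hq
      exact ⟨w, fun h => absurd h hp⟩
  choose wp hwp using hexw
  have hwinj : Set.InjOn wp P₁ := by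
    intro p hp q hq hpq
    rw [← hwp p hp, ← hwp q hq, hpq]
  set Ws : Finset (HeightOneSpectrum (𝓞 S.L)) := P₁.image wp with hWs
  have hWcard : Ws.card = P₁.card := Finset.card_image_of_injOn hwinj
  have hcard2 : (K₃ : ℝ) * ((x : ℝ) ^ (1 - ε') + 1) ≤ Ws.card := by
    have h3 : (P₀.card : ℝ) ≤ P₁.card + Bs.card := by exact_mod_cast hP₁card
    rw [hWcard]
    linarith
  have hWne : Ws.Nonempty := by
    rw [← Finset.card_pos]
    have h4 : (1 : ℝ) ≤ K₃ := by exact_mod_cast hK₃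
    have h5 : (0 : ℝ) ≤ (x : ℝ) ^ (1 - ε') := by positivity
    have h6 : (0 : ℝ) < Ws.card := by nlinarith
    exact_mod_cast h6
  obtain ⟨Φ', aa, w₁, hΦ'W, hw₁, hΦ'card, haa⟩ := hexa Ws hWne (by
    intro w hw
    obtain ⟨p, hp, rfl⟩ := Finset.mem_image.1 hw
    obtain ⟨hpp, -, hpb, -⟩ := hP₁mem p hp
    exact GE5_coprime _ hpp (hwp p hp) (fun h => hpb (hpp.dvd_of_dvd_pow h)))
  obtain ⟨l₁, hl₁P, hl₁w⟩ := Finset.mem_image.1 (hΦ'W hw₁)
  set T₀ : Finset ℕ := P₁.filter (fun p => wp p ∈ Φ' ∧ p ≠ l₁) with hT₀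
  have hT₀card : Φ'.card ≤ T₀.card + 1 := by
    have h3 : Φ' ⊆ (insert l₁ T₀).image wp := by
      intro w hw
      obtain ⟨p, hp, hpw⟩ := Finset.mem_image.1 (hΦ'W hw)
      rw [Finset.mem_image]
      by_cases hpl : p = l₁
      · exact ⟨p, by rw [hpl]; exact Finset.mem_insert_self _ _, hpw⟩
      · refine ⟨p, Finset.mem_insert_of_mem ?_, hpw⟩
        rw [hT₀, Finset.mem_filter]
        exact ⟨hp, by rw [hpw]; exact hw, hpl⟩
    exact ((Finset.card_le_card h3).trans Finset.card_image_le).trans (Finset.card_insert_le _ _)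
  have htT : t ≤ T₀.card := by
    have h3 : (Ws.card : ℝ) ≤ K₃ * Φ'.card := by exact_mod_cast hΦ'card
    have h4 : (Φ'.card : ℝ) ≤ T₀.card + 1 := by exact_mod_cast hT₀card
    have hK0 : (0 : ℝ) < K₃ := by exact_mod_cast hK₃
    have h5 : (x : ℝ) ^ (1 - ε') + 1 ≤ Φ'.card := by
      have := hcard2.trans h3
      exact le_of_mul_le_mul_left this hK0
    have h6 : (x : ℝ) ^ (1 - ε) ≤ (x : ℝ) ^ (1 - ε') :=
      Real.rpow_le_rpow_of_exponent_le hx1 (by linarith [min_le_left ε 1])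
    have h7 : (t : ℝ) ≤ T₀.card := by linarith
    exact_mod_cast h7
  obtain ⟨T, hTT₀, hTcard⟩ := Finset.exists_subset_card_eq htT
  have hroot : ∀ l : ℕ, ∃ z : Ω, z ^ n = ((((aa (wp l) : S.L) / (aa w₁ : S.L) : S.L)) : Ω) :=
    fun l => IsAlgClosed.exists_pow_nat_eq _ (Nat.pos_of_ne_zero (NeZero.ne n))
  choose αr hαr using hroot
  have hTmem : ∀ l ∈ T, l ∈ P₁ ∧ wp l ∈ Φ' ∧ l ≠ l₁ := by
    intro l hl
    have := hTT₀ hl
    rw [hT₀, Finset.mem_filter] at this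
    exact this
  obtain ⟨hl₁p, hl₁x, hl₁b, hl₁d, -⟩ := hP₁mem l₁ hl₁P
  have hG : ∀ l ∈ T, GHyp S b l l₁ (wp l) w₁ ((aa (wp l) : S.L) / (aa w₁ : S.L)) (aa (wp l))
      (aa w₁) := by
    intro l hl
    obtain ⟨hlP, hlΦ, hll⟩ := hTmem l hl
    obtain ⟨hlp, hlx, hlb, hld, -⟩ := hP₁mem l hlP
    obtain ⟨g1, g2, g3, g4⟩ := haa (wp l) hlΦ
    obtain ⟨k1, k2, k3, k4⟩ := haa w₁ hw₁
    have hnorm₁ : Ideal.absNorm w₁.asIdeal = l₁ := by
      rw [← hl₁w]
      exact hwp l₁ hl₁P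
    have hk0 : (aa w₁ : S.L) ≠ 0 := by
      intro h
      exact k1 (RingOfIntegers.coe_eq_zero_iff.1 h)
    exact
      { hl := hlp
        hl₁ := hl₁p
        hne := hll
        hlb := hlb
        hl₁b := hl₁b
        norm := hwp l hlP
        norm₁ := hnorm₁
        ram := GE5_ord _ hlp (hwp l hlP) hld
        ram₁ := GE5_ord _ hl₁p hnorm₁ hl₁d
        ha := div_mul_cancel₀ _ hk0
        h1 := g1
        h2 := k1
        c1 := g2
        c2 := k2
        c12 := g3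
        hord := g4 }
  refine ⟨{ T := T
            l₁ := l₁
            a := fun l => ((((aa (wp l) : S.L) / (aa w₁ : S.L) : S.L)) : Ω)
            α := αr
            prime₁ := hl₁p
            prime := fun l hl => (hG l hl).hl
            not_mem := fun h => (hTmem l₁ h).2.2 rfl
            good₁ := hl₁b
            good := fun l hl => (hG l hl).hlb
            mem := fun l _ => SetLike.coe_mem _
            ne := ?_
            pow := fun l _ => hαr l
            val := fun l hl A => fam_val (hG l hl) A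
            one := fun l hl A hA => fam_one (hG l hl) A hA
            loc := fun l hl => fam_loc hb (hG l hl) }, hTcard, ?_⟩
  · intro l hl h
    have h3 : ((aa (wp l) : S.L) / (aa w₁ : S.L) : S.L) = 0 := by
      exact_mod_cast h
    rw [div_eq_zero_iff] at h3
    rcases h3 with h3 | h3
    · exact (hG l hl).h1 (RingOfIntegers.coe_eq_zero_iff.1 h3)
    · exact (hG l hl).h2 (RingOfIntegers.coe_eq_zero_iff.1 h3)
  · intro l hl
    rcases Finset.mem_insert.1 hl with h | h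
    · rw [h]
      exact hl₁x
    · exact (hP₁mem l (hTmem l h).1).2.1

end H16C
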