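import Pool.Agent.Lib.H16C.PT5
import Pool.Agent.Lib.H16C.MW3
import Pool.Agent.Lib.H16C.FN2

/-!
# IM (M): few of the classes die over `k(δ)`, for a suitable `d`

`dvd_sub_one`: `n ∣ l - 1` for `l ∈ T`: `A` from `Φ.loc`, `v b = v n = 1` (`val_b_eq_one`),
`ζ ∈ L` (`Setup.mem_L`), `ζ ≡ m ∈ ℤ` (`Loc.res`), `ζ^(l-1) ≡ m^(l-1) ≡ 1`, `ζ^(l-1) = 1` (`root_unit`).
`exists_m`: for every `s : T → ℤ/n` there is `m ∈ ℕ`, `0 < m ≤ l₁ ∏_{l ∈ T} l`,
`m ≡ g_l^(s l).val` modulo `l` for `l ∈ T` (`g_l` a fixed primitive root modulo `l`), `m ≡ 1` modulo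
`l₁` (`Nat.chineseRemainderOfFinset` or `ZMod.prodEquivPi`/`Ideal` CRT).  Property: if
`l ∣ m_s^((l-1)/p) - m_s'^((l-1)/p)`, `p ∣ n` prime, then `(s l)`, `(s' l)` agree modulo `p`
(`g_l^((s - s')(l-1)/p) = 1`, `g_l` has order `l - 1`).
`few`: `c = l₁ ∏_{l ∈ T} l`, `d_s = c m_s`, `d_s` is admissible: if `v l < 1`, `l ∈ T ∪ {l₁}`, then the
other primes of `c` and `m_s` have valuation `1` (`dvd_of_val`: they are prime to `l`).
`δ_s^n = d_s` (`Ω` algebraically closed).  `Z s = {y | ∃ Q, Φ.Triv y δ_s Q}`; for `y ∈ Z s` choose `Q`,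
and `P` by `exists_trace`; `c s y = cl P` (`mw_class`; any value if `y ∉ Z s`: `h > 0` since
`cl 0 : Fin h`).  The hypothesis `H` of `exists_s`: `y ∈ Z s`, `y ∈ Z s'`, `cl P = cl P'`: `mw_class` gives
`P₂`, and `pts_final` gives `l ∣ m_s^((l-1)/p) - m_s'^((l-1)/p)` for `y l ≠ 0`.
`#T = Fintype.card Φ.T`; `d_s ≤ (l₁ ∏ l)²`.
-/

namespace H16C

variable {k : Type*} [Field k] [NumberField k] {Ω : Type*} [Field Ω] [Algebra k Ω] [IsAlgClosed Ω]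
  [Algebra.IsAlgebraic k Ω] [CharZero Ω] [DecidableEq Ω] {W : WeierstrassCurve.Affine k}
  [W.IsShortNF] [W.IsElliptic] {n b : ℕ} [NeZero n] {S : Setup W Ω n}

omit [IsAlgClosed Ω] [CharZero Ω] [DecidableEq Ω] [Algebra.IsAlgebraic k Ω] [NumberField k] in
theorem IM_pow {A : ValuationSubring Ω} {x y : Ω} (hx : A.valuation x ≤ 1) (hy : A.valuation y ≤ 1)
    (h : A.valuation (x - y) < 1) (N : ℕ) : A.valuation (x ^ N - y ^ N) < 1 := by
  induction N with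
  | zero => simp
  | succ N ih =>
    have h1 : x ^ (N + 1) - y ^ (N + 1) = x ^ N * (x - y) + (x ^ N - y ^ N) * y := by ring
    rw [h1]
    refine Valuation.map_add_lt _ ?_ ?_
    · rw [map_mul, map_pow]
      exact lt_of_le_of_lt (mul_le_of_le_one_left' (pow_le_one₀ zero_le hx)) h
    · rw [map_mul]
      exact lt_of_le_of_lt (mul_le_of_le_one_right' hy) ih

theorem IM_prim (l : ℕ) (hl : l.Prime) : ∃ g : ℕ, ¬ l ∣ g ∧
    ∀ j : ℕ, (l : ℤ) ∣ (g : ℤ) ^ j - 1 → (l - 1) ∣ j := by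
  haveI : Fact l.Prime := ⟨hl⟩
  obtain ⟨u, hu⟩ := IsCyclic.exists_generator (α := (ZMod l)ˣ)
  have h1 : (((u : ZMod l).val : ℕ) : ZMod l) = (u : ZMod l) := ZMod.natCast_zmod_val _
  refine ⟨(u : ZMod l).val, fun h => ?_, fun j hj => ?_⟩
  · rw [← ZMod.natCast_eq_zero_iff, h1] at h
    exact u.ne_zero h
  · rw [← ZMod.intCast_zmod_eq_zero_iff_dvd] at hj
    push_cast at hj
    rw [h1, sub_eq_zero] at hj
    have h2 : u ^ j = 1 := by
      apply Units.ext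
      rw [Units.val_pow_eq_pow_val, hj, Units.val_one]
    have h3 : orderOf u = l - 1 := by
      rw [orderOf_eq_card_of_forall_mem_zpowers hu, Nat.card_eq_fintype_card, ZMod.card_units]
    rw [← h3]
    exact orderOf_dvd_of_pow_eq_one h2

/-- the exponents of a primitive root are determined modulo `p` -/
theorem IM_exp {l g p : ℕ} (hl : l.Prime) (hp : p.Prime) (hpl : p ∣ l - 1)
    (hg : ¬ l ∣ g) (hg' : ∀ j : ℕ, (l : ℤ) ∣ (g : ℤ) ^ j - 1 → (l - 1) ∣ j) {m m' a a' : ℕ}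
    (hm : m ≡ g ^ a [MOD l]) (hm' : m' ≡ g ^ a' [MOD l])
    (h : (l : ℤ) ∣ (m : ℤ) ^ ((l - 1) / p) - (m' : ℤ) ^ ((l - 1) / p)) (haa : a ≤ a') :
    (a : ZMod p) = (a' : ZMod p) := by
  obtain ⟨r, hr⟩ := hpl
  have hl1 : 0 < l - 1 := by
    have := hl.two_le
    omega
  have hr0 : r ≠ 0 := by
    rintro rfl
    omega
  have hr' : (l - 1) / p = r := by
    rw [hr]
    exact Nat.mul_div_cancel_left r hp.pos
  rw [hr'] at h
  rw [← ZMod.natCast_eq_natCast_iff] at hm hm'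
  rw [← ZMod.intCast_zmod_eq_zero_iff_dvd] at h
  push_cast at h
  rw [hm, hm'] at h
  push_cast at h
  obtain ⟨e, rfl⟩ := Nat.exists_eq_add_of_le haa
  have h1 : (((g : ℤ) ^ (a * r) * ((g : ℤ) ^ (e * r) - 1) : ℤ) : ZMod l) = 0 := by
    push_cast
    have h2 : ((g : ZMod l) ^ a) ^ r - ((g : ZMod l) ^ (a + e)) ^ r = 0 := h
    have h3 : (g : ZMod l) ^ (a * r) * ((g : ZMod l) ^ (e * r) - 1) =
        -(((g : ZMod l) ^ a) ^ r - ((g : ZMod l) ^ (a + e)) ^ r) := by ring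
    rw [h3, h2, neg_zero]
  rw [ZMod.intCast_zmod_eq_zero_iff_dvd] at h1
  have h4 : (l : ℤ) ∣ (g : ℤ) ^ (e * r) - 1 := by
    rcases (Nat.prime_iff_prime_int.1 hl).dvd_or_dvd h1 with h5 | h5
    · exfalso
      exact hg (Int.natCast_dvd_natCast.1 ((Nat.prime_iff_prime_int.1 hl).dvd_of_dvd_pow h5))
    · exact h5
  have h5 := hg' _ h4
  rw [hr] at h5
  have h6 : p ∣ e := Nat.dvd_of_mul_dvd_mul_right (Nat.pos_of_ne_zero hr0) h5
  rw [Nat.cast_add, (ZMod.natCast_eq_zero_iff e p).2 h6, add_zero]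

theorem IM_exp' {l g p : ℕ} (hl : l.Prime) (hp : p.Prime) (hpl : p ∣ l - 1)
    (hg : ¬ l ∣ g) (hg' : ∀ j : ℕ, (l : ℤ) ∣ (g : ℤ) ^ j - 1 → (l - 1) ∣ j) {m m' a a' : ℕ}
    (hm : m ≡ g ^ a [MOD l]) (hm' : m' ≡ g ^ a' [MOD l])
    (h : (l : ℤ) ∣ (m : ℤ) ^ ((l - 1) / p) - (m' : ℤ) ^ ((l - 1) / p)) :
    (a : ZMod p) = (a' : ZMod p) := by
  rcases le_total a a' with haa | haa
  · exact IM_exp hl hp hpl hg hg' hm hm' h haa
  · refine (IM_exp hl hp hpl hg hg' hm' hm ?_ haa).symm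
    rw [← dvd_neg, neg_sub]
    exact h

theorem dvd_sub_one (hb : Bad W Ω n b) (Φ : Fam S b) {l : ℕ} (hl : l ∈ Φ.T) : n ∣ l - 1 := by
  have hn : n ≠ 0 := NeZero.ne n
  have hlp := Φ.prime l hl
  obtain ⟨A, hA⟩ := Φ.loc l hl
  have hvl : A.valuation (l : Ω) < 1 := hA.lt
  have hvb : A.valuation (b : Ω) = 1 := val_b_eq_one Φ hl hvl
  have hnat : ∀ z : ℕ, A.valuation (z : Ω) ≤ 1 := by
    intro z
    have := int_le A (z : ℤ)
    simpa using this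
  have hvn : A.valuation (n : Ω) = 1 := by
    obtain ⟨r, hr⟩ := hb.dvd
    have h1 : (b : Ω) = (n : Ω) * ((6 * r : ℕ) : Ω) := by
      rw [hr]
      push_cast
      ring
    refine le_antisymm (hnat n) ?_
    rw [← hvb, h1, map_mul]
    exact mul_le_of_le_one_right' (hnat _)
  have hζL : S.ζ ∈ S.L := S.mem_L (fun g hg => (S.fix g hg).1)
  have hvζ : A.valuation S.ζ = 1 := by
    apply PT5_val_one hn
    rw [← map_pow, S.hζ.pow_eq_one, map_one]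
  obtain ⟨m, hm⟩ := hA.res S.ζ hζL hvζ.le
  have hm1 : ¬ (l : ℤ) ∣ m := by
    rintro ⟨t, rfl⟩
    have h2 : A.valuation (((l : ℤ) * t : ℤ) : Ω) < 1 := by
      push_cast
      rw [map_mul]
      exact lt_of_le_of_lt (mul_le_of_le_one_right' (int_le A t)) hvl
    have h3 := Valuation.map_add_lt A.valuation hm h2
    rw [sub_add_cancel, hvζ] at h3
    exact lt_irrefl _ h3
  have hf : (l : ℤ) ∣ m ^ (l - 1) - 1 := by
    haveI : Fact l.Prime := ⟨hlp⟩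
    rw [← ZMod.intCast_zmod_eq_zero_iff_dvd]
    push_cast
    rw [ZMod.pow_card_sub_one_eq_one, sub_self]
    rw [Ne, ZMod.intCast_zmod_eq_zero_iff_dvd]
    exact hm1
  have h3 : A.valuation ((m : Ω) ^ (l - 1) - 1) < 1 := by
    obtain ⟨t, ht⟩ := hf
    have h4 : (m : Ω) ^ (l - 1) - 1 = (l : Ω) * (t : Ω) := by
      have := congrArg (fun z : ℤ => (z : Ω)) ht
      push_cast at this
      exact this
    rw [h4, map_mul]
    exact lt_of_le_of_lt (mul_le_of_le_one_right' (int_le A t)) hvl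
  have h4 := IM_pow hvζ.le (int_le A m) hm (l - 1)
  have h5 : A.valuation (S.ζ ^ (l - 1) - 1) < 1 := by
    have h6 := Valuation.map_add_lt A.valuation h4 h3
    rwa [sub_add_sub_cancel] at h6
  have hζl : S.ζ ^ (l - 1) = 1 := by
    refine root_unit A.valuation hvn ?_ h5
    rw [← pow_mul, mul_comm, pow_mul, S.hζ.pow_eq_one, one_pow]
  exact S.hζ.dvd_of_pow_eq_one _ hζl

/-- the residues -/
theorem IM_crt (Φ : Fam S b) (g : ℕ → ℕ) (s : Φ.T → ZMod n) :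
    ∃ m : ℕ, m ≤ (∏ l ∈ insert Φ.l₁ Φ.T, l) ∧ m ≡ 1 [MOD Φ.l₁] ∧
      ∀ l : Φ.T, m ≡ g l ^ (s l).val [MOD l] := by
  classical
  have hpr : ∀ l ∈ insert Φ.l₁ Φ.T, l.Prime := by
    intro l hl
    rcases Finset.mem_insert.1 hl with h | h
    · rw [h]
      exact Φ.prime₁
    · exact Φ.prime l h
  have hs : ∀ i ∈ insert Φ.l₁ Φ.T, (fun l : ℕ => l) i ≠ 0 := fun i hi => (hpr i hi).ne_zero
  have pp : Set.Pairwise (insert Φ.l₁ Φ.T : Finset ℕ) (Function.onFun Nat.Coprime (fun l : ℕ => l)) := by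
    intro i hi j hj hij
    exact (Nat.coprime_primes (hpr i hi) (hpr j hj)).2 hij
  have h1 := (Nat.chineseRemainderOfFinset
    (fun l : ℕ => if h : l ∈ Φ.T then g l ^ (s ⟨l, h⟩).val else 1) (fun l => l)
    (insert Φ.l₁ Φ.T) hs pp).2
  have h2 := Nat.chineseRemainderOfFinset_lt_prod
    (fun l : ℕ => if h : l ∈ Φ.T then g l ^ (s ⟨l, h⟩).val else 1) (fun l => l)
    (t := insert Φ.l₁ Φ.T) hs pp
  refine ⟨_, h2.le, ?_, fun l => ?_⟩
  · have h3 := h1 Φ.l₁ (Finset.mem_insert_self _ _)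
    rwa [dif_neg Φ.not_mem] at h3
  · have h3 := h1 l (Finset.mem_insert_of_mem l.2)
    rwa [dif_pos l.2] at h3

theorem IM_adm (Φ : Fam S b) {m : ℕ} (hm : ∀ l ∈ insert Φ.l₁ Φ.T, ¬ l ∣ m) :
    Φ.Adm ((∏ l ∈ insert Φ.l₁ Φ.T, l) * m) := by
  classical
  have hpr : ∀ l ∈ insert Φ.l₁ Φ.T, l.Prime := by
    intro l hl
    rcases Finset.mem_insert.1 hl with h | h
    · rw [h]
      exact Φ.prime₁
    · exact Φ.prime l h
  have hm0 : m ≠ 0 := by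
    rintro rfl
    exact hm _ (Finset.mem_insert_self _ _) (dvd_zero _)
  refine ⟨mul_ne_zero (Finset.prod_ne_zero_iff.2 fun l hl => (hpr l hl).ne_zero) hm0,
    fun A l hl hv => ?_⟩
  rw [← Finset.mul_prod_erase _ (fun l => l) hl, mul_assoc, Nat.cast_mul, map_mul]
  have h1 : A.valuation ((((∏ l' ∈ (insert Φ.l₁ Φ.T).erase l, l') * m : ℕ)) : Ω) = 1 := by
    refine le_antisymm ?_ (not_lt.1 fun h2 => ?_)
    · have := int_le A ((((∏ l' ∈ (insert Φ.l₁ Φ.T).erase l, l') * m : ℕ)) : ℤ)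
      simpa using this
    · have h3 : (l : ℤ) ∣ ((((∏ l' ∈ (insert Φ.l₁ Φ.T).erase l, l') * m : ℕ)) : ℤ) :=
        dvd_of_val (hpr l hl) hv (by rw [Int.cast_natCast]; exact h2)
      rw [Int.natCast_dvd_natCast] at h3
      rcases (hpr l hl).dvd_mul.1 h3 with h4 | h4
      · rw [(hpr l hl).prime.dvd_finset_prod_iff] at h4
        obtain ⟨l', hl', h5⟩ := h4
        rw [Finset.mem_erase] at hl'
        exact hl'.1 ((Nat.prime_dvd_prime_iff_eq (hpr l hl) (hpr l' hl'.2)).1 h5).symm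
      · exact hm l hl h4
  rw [h1, mul_one]

theorem few (S : Setup W Ω n) (hb : Bad W Ω n b) : ∃ h : ℕ, ∀ Φ : Fam S b, Φ.T.Nonempty →
    ∃ (d : ℕ) (δ : Ω), Φ.Adm d ∧ δ ^ n = (d : Ω) ∧ d ≤ (∏ l ∈ insert Φ.l₁ Φ.T, l) ^ 2 ∧
      ∀ p : ℕ, p.Prime → p ∣ n →
        (Nat.card {y : Φ.T → ZMod n // (∃ Q, Φ.Triv y δ Q) ∧
          ∀ i, ∃ u : ZMod n, y i = ((n / p : ℕ) : ZMod n) * u} : ℝ) ≤
        n * h * (2 - 1 / (p : ℝ)) ^ Φ.T.card := by
  classical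
  have hn : n ≠ 0 := NeZero.ne n
  obtain ⟨h, cl, hcl⟩ := mw_class S
  refine ⟨h, fun Φ hT => ?_⟩
  have hprim : ∀ l : ℕ, ∃ g : ℕ, l.Prime → (¬ l ∣ g ∧
      ∀ j : ℕ, (l : ℤ) ∣ (g : ℤ) ^ j - 1 → (l - 1) ∣ j) := by
    intro l
    by_cases hl : l.Prime
    · obtain ⟨g, hg⟩ := IM_prim l hl
      exact ⟨g, fun _ => hg⟩
    · exact ⟨0, fun h => absurd h hl⟩
  choose g hg using hprim
  have hcrt := fun s : Φ.T → ZMod n => IM_crt Φ g s
  choose m hm1 hm2 hm3 using hcrt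
  have hmT : ∀ (s : Φ.T → ZMod n) (l : Φ.T), ¬ (l : ℕ) ∣ m s := by
    intro s l hd
    have hlp := Φ.prime l l.2
    have h1 : (l : ℕ) ∣ g l ^ (s l).val := (Nat.ModEq.dvd_iff (hm3 s l) dvd_rfl).1 hd
    exact (hg l hlp).1 (hlp.dvd_of_dvd_pow h1)
  have hml : ∀ s : Φ.T → ZMod n, ∀ l ∈ insert Φ.l₁ Φ.T, ¬ l ∣ m s := by
    intro s l hl
    rcases Finset.mem_insert.1 hl with h1 | h1
    · rw [h1]
      intro hd
      have h2 : Φ.l₁ ∣ 1 := (Nat.ModEq.dvd_iff (hm2 s) dvd_rfl).1 hd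
      exact Φ.prime₁.one_lt.ne' (Nat.dvd_one.1 h2)
    · exact hmT s ⟨l, h1⟩
  have hadm := fun s => IM_adm Φ (hml s)
  have hδ : ∀ s : Φ.T → ZMod n, ∃ δ : Ω,
      δ ^ n = (((∏ l ∈ insert Φ.l₁ Φ.T, l) * m s : ℕ) : Ω) := fun s =>
    IsAlgClosed.exists_pow_nat_eq _ (Nat.pos_of_ne_zero hn)
  choose δ hδ using hδ
  have hex : ∀ s y : Φ.T → ZMod n, ∃ Q P : Pt W Ω, (∃ Q, Φ.Triv y (δ s) Q) →
      Φ.Triv y (δ s) Q ∧ Φ.IsTrace y Q P := by
    intro s y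
    by_cases h1 : ∃ Q, Φ.Triv y (δ s) Q
    · obtain ⟨Q, hQ⟩ := h1
      obtain ⟨P, hP⟩ := exists_trace Φ y hb hT (hadm s) (hδ s) hQ
      exact ⟨Q, P, fun _ => ⟨hQ, hP⟩⟩
    · exact ⟨0, 0, fun h2 => absurd h2 h1⟩
  choose Q P hQP using hex
  obtain ⟨s, hs⟩ := exists_s (n := n) (ι := Φ.T) h (fun s => {y | ∃ Q, Φ.Triv y (δ s) Q})
    (fun s y => cl (P s y)) (fun p hpn hp y s s' hyp hy hy' hc l hyl => by
      have h1 := hQP s y hy
      have h2 := hQP s' y hy'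
      obtain ⟨P₂, hP₂, hPP⟩ := hcl _ _ h1.2.1 h2.2.1 hc
      have h3 := pts_final Φ y hb (hadm s) (hadm s') (hδ s) (hδ s') h1.1 h2.1 h1.2 h2.2 hPP hP₂ l
        (hmT s l) (hmT s' l) hp hpn hyl (hyp l)
      have hlp := Φ.prime l l.2
      have h4 := IM_exp' hlp hp (hpn.trans (dvd_sub_one hb Φ l.2)) (hg l hlp).1 (hg l hlp).2
        (hm3 s l) (hm3 s' l) h3
      rw [ZMod.castHom_apply, ZMod.castHom_apply, ZMod.cast_eq_val, ZMod.cast_eq_val]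
      exact h4)
  refine ⟨_, δ s, hadm s, hδ s, ?_, fun p hp hpn => ?_⟩
  · rw [sq]
    exact Nat.mul_le_mul_left _ (hm1 s)
  · have h1 := hs p hp hpn
    rw [Fintype.card_coe] at h1
    exact h1

end H16C
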