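import Pool.Agent.Lib.H16C.Defs

/-!
# K1 (S): Kummer characters

`ζ` a primitive `n`-th root of unity of `Ω`, `n > 0`, `β ^ n = a`, `β ≠ 0`, `g ζ = ζ`, `g a = a`.
`(g β)^n = a = β^n`, so `g β / β` is an `n`-th root of unity, `= ζ^j` for a unique `j < n`
(`IsPrimitiveRoot.eq_pow_of_pow_eq_one`, `IsPrimitiveRoot.pow_inj`); `kap` is its class
(`ZMod.val`, `ZMod.natCast_zmod_val`, `ZMod.val_lt`).  `kap_mul`: `g h β = g (ζ^j β) = ζ^(i+j) β`.
-/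

namespace H16C

variable {Ω : Type*} [Field Ω] {k : Type*} [Field k] [Algebra k Ω] {n : ℕ} [NeZero n]
  {ζ β : Ω} (hζ : IsPrimitiveRoot ζ n) (hβ : β ≠ 0)

include hζ hβ

theorem kap_spec {g : Ω ≃ₐ[k] Ω} (hg : g (β ^ n) = β ^ n) :
    g β = ζ ^ (kap ζ β g : ZMod n).val * β := by
  have hex : ∃ j : ZMod n, g β = ζ ^ j.val * β := by
    have h1 : (g β / β) ^ n = 1 := by
      rw [div_pow, ← map_pow, hg, div_self (pow_ne_zero n hβ)]
    obtain ⟨i, hi, hi'⟩ := hζ.eq_pow_of_pow_eq_one h1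
    refine ⟨(i : ZMod n), ?_⟩
    rw [ZMod.val_natCast, Nat.mod_eq_of_lt hi, hi', div_mul_cancel₀ _ hβ]
  unfold kap
  rw [dif_pos hex]
  exact hex.choose_spec

theorem kap_eq {g : Ω ≃ₐ[k] Ω} {j : ℕ} (hg : g β = ζ ^ j * β) : (kap ζ β g : ZMod n) = j := by
  have h1 : g (β ^ n) = β ^ n := by
    rw [map_pow, hg, mul_pow, ← pow_mul, mul_comm j n, pow_mul, hζ.pow_eq_one, one_pow, one_mul]
  have h2 := kap_spec hζ hβ h1
  rw [hg] at h2
  have h3 : ζ ^ j = ζ ^ (kap ζ β g : ZMod n).val := mul_right_cancel₀ hβ h2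
  have h4 : ζ ^ (j % n) = ζ ^ j := by
    have h5 := pow_mod_orderOf ζ j
    rwa [← hζ.eq_orderOf] at h5
  have h6 := hζ.pow_inj (Nat.mod_lt j (NeZero.pos n)) (ZMod.val_lt _) (h4.trans h3)
  rw [← ZMod.natCast_zmod_val (kap ζ β g : ZMod n), ← h6, ZMod.natCast_mod]

theorem kap_mul {g h : Ω ≃ₐ[k] Ω} (hgζ : g ζ = ζ) (hg : g (β ^ n) = β ^ n)
    (hh : h (β ^ n) = β ^ n) : (kap ζ β (g * h) : ZMod n) = kap ζ β g + kap ζ β h := by
  have h1 : (g * h) β = ζ ^ ((kap ζ β g : ZMod n).val + (kap ζ β h : ZMod n).val) * β := by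
    show g (h β) = _
    rw [kap_spec hζ hβ hh, map_mul, map_pow, hgζ, kap_spec hζ hβ hg, pow_add]
    ring
  rw [kap_eq hζ hβ h1, Nat.cast_add, ZMod.natCast_zmod_val, ZMod.natCast_zmod_val]

theorem kap_eq_zero_iff {g : Ω ≃ₐ[k] Ω} (hg : g (β ^ n) = β ^ n) :
    (kap ζ β g : ZMod n) = 0 ↔ g β = β := by
  constructor
  · intro h
    have h1 := kap_spec hζ hβ hg
    rw [h, ZMod.val_zero, pow_zero, one_mul] at h1
    exact h1
  · intro h
    have h1 : g β = ζ ^ 0 * β := by rw [h, pow_zero, one_mul]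
    rw [kap_eq hζ hβ h1, Nat.cast_zero]

end H16C
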