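import Mathlib

/-!
# LA1 (S/M): cokernel of `φ - 1` on a finite group

`H` finite subgroup of `M`, `φ H ⊆ H`.  `ψ = φ - 1 : H → H`, `#coker ψ = #ker ψ ≤ 2^s`.  The class of
`m ∈ H` in the cokernel has an order `o` that divides `n^j` and is `≤ 2^s`; so `o ∣ n^s`: for every
prime `p ∣ o`: `p ∣ n` and `p^(v_p(o)) ≤ o ≤ 2^s` gives `v_p(o) ≤ s ≤ v_p(n^s)`.  Hence `n^s • m` is
in the image of `ψ`.
-/

namespace H16C

theorem LA1_dvd {n s j o : ℕ} (hn : 0 < n) (ho : o ∣ n ^ j) (h2 : o ≤ 2 ^ s) (ho0 : o ≠ 0) :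
    o ∣ n ^ s := by
  have hns : n ^ s ≠ 0 := (pow_pos hn s).ne'
  rw [← Nat.factorization_le_iff_dvd ho0 hns]
  intro p
  by_cases hp : p.Prime
  · by_cases hpo : p ∣ o
    · have hpn : p ∣ n := hp.dvd_of_dvd_pow (hpo.trans ho)
      have h1 : 1 ≤ n.factorization p := (hp.dvd_iff_one_le_factorization hn.ne').1 hpn
      have h3 : p ^ o.factorization p ≤ 2 ^ s := (Nat.ordProj_le p ho0).trans h2
      have h4 : 2 ^ o.factorization p ≤ 2 ^ s :=
        (Nat.pow_le_pow_left hp.two_le _).trans h3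
      have h5 : o.factorization p ≤ s := (Nat.pow_le_pow_iff_right (by norm_num)).1 h4
      rw [Nat.factorization_pow, Finsupp.smul_apply, smul_eq_mul]
      nlinarith
    · rw [Nat.factorization_eq_zero_of_not_dvd hpo]
      exact Nat.zero_le _
  · rw [Nat.factorization_eq_zero_of_not_prime _ hp]
    exact Nat.zero_le _

theorem coker_bound {M : Type*} [AddCommGroup M] (H : AddSubgroup M) [Finite H] (φ : M →+ M)
    (hφ : ∀ m ∈ H, φ m ∈ H) (n s j : ℕ) (hn : 0 < n) (hkill : ∀ m ∈ H, n ^ j • m = 0)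
    (hfix : Nat.card {m : M // m ∈ H ∧ φ m = m} ≤ 2 ^ s) :
    ∀ m ∈ H, ∃ m' ∈ H, n ^ s • m = φ m' - m' := by
  intro m hm
  let ψ : H →+ H :=
    { toFun := fun x => ⟨φ x - x, H.sub_mem (hφ x x.2) x.2⟩
      map_zero' := by
        ext
        simp
      map_add' := fun x y => by
        ext
        simp only [AddSubgroup.coe_add, map_add]
        abel }
  have hψ : ∀ x : H, ((ψ x : H) : M) = φ x - x := fun _ => rfl
  have hker : Nat.card ψ.ker ≤ 2 ^ s := by
    refine le_trans (le_of_eq ?_) hfix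
    refine Nat.card_congr
      { toFun := fun x => ⟨((x : H) : M), (x : H).2, ?_⟩
        invFun := fun x => ⟨⟨x.1, x.2.1⟩, ?_⟩
        left_inv := fun x => by ext; rfl
        right_inv := fun x => by ext; rfl }
    · have h := x.2
      rw [AddMonoidHom.mem_ker] at h
      have h2 := congrArg (fun y : H => (y : M)) h
      simp only [hψ] at h2
      exact sub_eq_zero.1 h2
    · rw [AddMonoidHom.mem_ker]
      ext
      rw [hψ]
      exact sub_eq_zero.2 x.2.2
  have hidx : ψ.range.index ≤ 2 ^ s := by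
    have h1 := AddSubgroup.card_mul_index ψ.range
    have h2 := AddSubgroup.card_mul_index ψ.ker
    rw [AddSubgroup.index_ker] at h2
    have hpos : 0 < Nat.card ψ.range := Nat.card_pos
    have h3 : Nat.card ψ.range * ψ.range.index = Nat.card ψ.range * Nat.card ψ.ker := by
      rw [h1, ← h2, mul_comm]
    have h4 := Nat.eq_of_mul_eq_mul_left hpos h3
    rw [h4]
    exact hker
  let c : H ⧸ ψ.range := QuotientAddGroup.mk ⟨m, hm⟩
  have hfin : Finite (H ⧸ ψ.range) := inferInstance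
  have ho1 : addOrderOf c ∣ n ^ j := by
    rw [addOrderOf_dvd_iff_nsmul_eq_zero]
    have h0 : n ^ j • (⟨m, hm⟩ : H) = 0 := by
      ext
      simpa using hkill m hm
    change n ^ j • (QuotientAddGroup.mk' ψ.range ⟨m, hm⟩) = 0
    rw [← map_nsmul, h0, map_zero]
  have ho2 : addOrderOf c ≤ 2 ^ s := by
    refine le_trans ?_ hidx
    have h1 : addOrderOf c ≤ Nat.card (H ⧸ ψ.range) :=
      Nat.le_of_dvd Nat.card_pos (addOrderOf_dvd_natCard c)
    exact h1
  have ho0 : addOrderOf c ≠ 0 := (addOrderOf_pos c).ne'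
  have hd := LA1_dvd hn ho1 ho2 ho0
  have hz : n ^ s • c = 0 := addOrderOf_dvd_iff_nsmul_eq_zero.1 hd
  have hz2 : (QuotientAddGroup.mk (n ^ s • (⟨m, hm⟩ : H)) : H ⧸ ψ.range) = 0 := by
    change QuotientAddGroup.mk' ψ.range (n ^ s • (⟨m, hm⟩ : H)) = 0
    rw [map_nsmul]
    exact hz
  rw [QuotientAddGroup.eq_zero_iff] at hz2
  obtain ⟨x, hx⟩ := hz2
  refine ⟨x, x.2, ?_⟩
  have h5 := congrArg (fun y : H => (y : M)) hx
  simp only [hψ] at h5
  rw [h5]
  simp

end H16C
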