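import Pool.Agent.Lib.H16C.R1

/-!
# LA2 (S/M): few points are fixed by Frobenius modulo `v`

`T` a set of points, all `≠ O` ones with `v(x) ≤ 1`, `x ≡ x^Q`, `y ≡ y^Q` modulo the maximal ideal,
two different points of `T` being incongruent modulo `E₁(v)`.  `κ` = residue field of the valuation
ring of `v`.  The map `P ↦ (x̄, ȳ)` from `T - {O}` to the pairs of roots of `X^Q - X` in `κ` is
injective: `congr_mem`.  The polynomial `X^Q - X` has at most `Q` roots (`Q ≥ 2`).  (`v(y) ≤ 1` since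
`y² = x³ + a₄ x + a₆`.)
-/

open WeierstrassCurve

namespace H16C

/-- The ideal of the elements of value less than 1. -/
def LA2_I {F : Type*} [Field F] {Γ : Type*} [LinearOrderedCommGroupWithZero Γ]
    (v : Valuation F Γ) : Ideal v.integer where
  carrier := {x | v x < 1}
  zero_mem' := by
    show v ((0 : v.integer) : F) < 1
    rw [ZeroMemClass.coe_zero, map_zero]
    exact zero_lt_one
  add_mem' {a b} ha hb := by
    show v ((a + b : v.integer) : F) < 1
    exact Valuation.map_add_lt v ha hb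
  smul_mem' c x hx := by
    show v ((c * x : v.integer) : F) < 1
    have h1 : ((c * x : v.integer) : F) = (c : F) * (x : F) := rfl
    rw [h1, map_mul]
    exact lt_of_le_of_lt (mul_le_of_le_one_left' c.2) hx

theorem LA2_prime {F : Type*} [Field F] {Γ : Type*} [LinearOrderedCommGroupWithZero Γ]
    (v : Valuation F Γ) : (LA2_I v).IsPrime := by
  constructor
  · intro h
    have h1 : (1 : v.integer) ∈ LA2_I v := by rw [h]; trivial
    have h2 : v ((1 : v.integer) : F) < 1 := h1
    rw [OneMemClass.coe_one, map_one] at h2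
    exact lt_irrefl _ h2
  · intro x y hxy
    by_contra hcon
    rw [not_or] at hcon
    have hx : v (x : F) = 1 := le_antisymm x.2 (not_lt.1 hcon.1)
    have hy : v (y : F) = 1 := le_antisymm y.2 (not_lt.1 hcon.2)
    have h2 : v ((x : F) * (y : F)) < 1 := hxy
    rw [map_mul, hx, hy, one_mul] at h2
    exact lt_irrefl _ h2

theorem LA2_roots {κ : Type*} [CommRing κ] [IsDomain κ] (Q : ℕ) (hQ : 2 ≤ Q) :
    {x : κ | x ^ Q = x}.Finite ∧ {x : κ | x ^ Q = x}.ncard ≤ Q := by
  classical
  set p : Polynomial κ := Polynomial.X ^ Q - Polynomial.X with hp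
  have hdeg : p.natDegree = Q := by
    rw [hp]
    rw [Polynomial.natDegree_sub_eq_left_of_natDegree_lt]
    · exact Polynomial.natDegree_X_pow Q
    · rw [Polynomial.natDegree_X_pow, Polynomial.natDegree_X]
      omega
  have hp0 : p ≠ 0 := by
    intro h
    rw [h, Polynomial.natDegree_zero] at hdeg
    omega
  have hset : {x : κ | x ^ Q = x} = (p.roots.toFinset : Set κ) := by
    ext x
    rw [Finset.mem_coe, Multiset.mem_toFinset, Polynomial.mem_roots hp0, Polynomial.IsRoot.def, hp]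
    simp [sub_eq_zero]
  rw [hset]
  refine ⟨Finset.finite_toSet _, ?_⟩
  rw [Set.ncard_coe_finset]
  refine (Multiset.toFinset_card_le _).trans ?_
  rw [← hdeg]
  exact Polynomial.card_roots' p

theorem card_fixed {F : Type*} [Field F] [DecidableEq F] {W : WeierstrassCurve.Affine F}
    [W.IsShortNF] {Γ : Type*} [LinearOrderedCommGroupWithZero Γ] {v : Valuation F Γ}
    (h4 : v W.a₄ ≤ 1) (h6 : v W.a₆ ≤ 1) (hΔ : v W.Δ = 1) (Q : ℕ) (hQ : 2 ≤ Q) (T : Set W.Point)
    (hT : ∀ P ∈ T, ∀ P' ∈ T, InE1 v (P - P') → P = P')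
    (hx : ∀ P ∈ T, P ≠ 0 → v (xc P) ≤ 1 ∧ v (xc P - xc P ^ Q) < 1 ∧ v (yc P - yc P ^ Q) < 1) :
    T.Finite ∧ T.ncard ≤ Q ^ 2 + 1 := by
  classical
  have hprime := LA2_prime v
  obtain ⟨hfin, hcard⟩ := LA2_roots (κ := v.integer ⧸ LA2_I v) Q hQ
  -- the ordinates are integral
  have hy : ∀ P ∈ T, P ≠ 0 → v (yc P) ≤ 1 := by
    intro P hP h0
    obtain ⟨h1, -, -⟩ := hx P hP h0
    cases P with
    | zero => exact absurd rfl h0
    | some x y h =>
      have h2 : y ^ 2 = x ^ 3 + W.a₄ * x + W.a₆ := by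
        have h3 := (WeierstrassCurve.Affine.equation_iff _ _).1 h.1
        rw [a₁_of_isShortNF, a₂_of_isShortNF, a₃_of_isShortNF] at h3
        linear_combination h3
      have h1' : v x ≤ 1 := h1
      have h4 : v (y ^ 2) ≤ 1 := by
        rw [h2]
        refine Valuation.map_add_le v (Valuation.map_add_le v ?_ ?_) h6
        · rw [map_pow]
          exact pow_le_one₀ zero_le h1'
        · rw [map_mul]
          exact mul_le_one' h4 h1'
      show v y ≤ 1
      rw [map_pow] at h4
      by_contra hcon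
      exact absurd h4 (not_le.2 (one_lt_pow₀ (not_le.1 hcon) two_ne_zero))
  let red : F → v.integer ⧸ LA2_I v := fun x =>
    if hx : v x ≤ 1 then Ideal.Quotient.mk _ ⟨x, hx⟩ else 0
  have hred : ∀ x (hx : v x ≤ 1), red x = Ideal.Quotient.mk _ ⟨x, hx⟩ := fun x hx => dif_pos hx
  have hredQ : ∀ x, v x ≤ 1 → v (x - x ^ Q) < 1 → red x ^ Q = red x := by
    intro x h1 h2
    rw [hred x h1, ← map_pow, eq_comm, Ideal.Quotient.eq]
    exact h2
  have hredeq : ∀ x x', v x ≤ 1 → v x' ≤ 1 → red x = red x' → v (x - x') < 1 := by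
    intro x x' h1 h2 h3
    rw [hred x h1, hred x' h2, Ideal.Quotient.eq] at h3
    exact h3
  set T' : Set W.Point := {P | P ∈ T ∧ P ≠ 0} with hT'
  set R : Set ((v.integer ⧸ LA2_I v) × (v.integer ⧸ LA2_I v)) :=
    {x | x ^ Q = x} ×ˢ {x | x ^ Q = x} with hR
  have hRfin : R.Finite := hfin.prod hfin
  have hmaps : Set.MapsTo (fun P : W.Point => (red (xc P), red (yc P))) T' R := by
    rintro P ⟨hP, h0⟩
    obtain ⟨h1, h2, h3⟩ := hx P hP h0
    exact ⟨hredQ _ h1 h2, hredQ _ (hy P hP h0) h3⟩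
  have hinj : Set.InjOn (fun P : W.Point => (red (xc P), red (yc P))) T' := by
    rintro P ⟨hP, h0⟩ P' ⟨hP', h0'⟩ heq
    have h1 : red (xc P) = red (xc P') := congrArg Prod.fst heq
    have h2 : red (yc P) = red (yc P') := congrArg Prod.snd heq
    exact hT P hP P' hP' (congr_mem h4 h6 hΔ h0 h0' (hx P hP h0).1 (hx P' hP' h0').1
      (hredeq _ _ (hx P hP h0).1 (hx P' hP' h0').1 h1)
      (hredeq _ _ (hy P hP h0) (hy P' hP' h0') h2))
  have hT'fin : T'.Finite := Set.Finite.of_injOn hmaps hinj hRfin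
  have hT'card : T'.ncard ≤ Q ^ 2 := by
    refine (Set.ncard_le_ncard_of_injOn _ hmaps hinj hRfin).trans ?_
    rw [hR, Set.ncard_prod, sq]
    exact Nat.mul_le_mul hcard hcard
  have hsub : T ⊆ insert 0 T' := by
    intro P hP
    by_cases h0 : P = 0
    · rw [h0]
      exact Set.mem_insert _ _
    · exact Set.mem_insert_of_mem _ ⟨hP, h0⟩
  refine ⟨(hT'fin.insert 0).subset hsub, ?_⟩
  refine (Set.ncard_le_ncard hsub (hT'fin.insert 0)).trans ?_
  refine (Set.ncard_insert_le _ _).trans ?_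
  omega

end H16C
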