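import Pool.Agent.Lib.H16C.T3
import Pool.Agent.Lib.H16C.FR2
import Pool.Agent.Lib.H16C.LA1
import Pool.Agent.Lib.H16C.LA2

/-!
# LA3 (M/L): Lang's theorem for torsion cocycles

`v = A.valuation`, `v(q) < 1`, `v(b) = 1` (so `v(n) = 1` and `v(a₄), v(a₆) ≤ 1`, `v(Δ) = 1` over `Ω`:
`Bad`).  `c : Gal(Ω/K) → E(Ω)` a cocycle, `n c = 0`, `c = 0` on the `g` with `Inert A F g`.
`E` over `Ω` = `WeierstrassCurve.Affine.baseChange W Ω`, short and elliptic (instances), with
coefficients `algebraMap k Ω W.a₄`, ... (definitional).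
`Q` from `exists_frob` for `K`, `A`; `s` with `Q² + 1 ≤ 2^s`; `H = {P | n^(s+1) • P = 0}`, a finite
subgroup (`tors_finite`).  `F₂ ⊇ F` a finite extension of `k`, stable under `Gal(Ω/k)`, which contains
the coordinates of the points of `H` (e.g. the normal closure of `F(coordinates)`); `φ` from
`exists_frob` for `F₂`.
(1) `φ` maps `H` to `H`.  Fixed points of `φ` in `H`: `tors_inj` (`v(n^(s+1)) = 1`) shows that
different points of `H` are incongruent modulo `E₁`, and `v(xc P) ≤ 1` for `O ≠ P ∈ H`; if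
`φ P = P` then `x = φ x ≡ x^Q`, `y ≡ y^Q`; `card_fixed`: at most `Q² + 1 ≤ 2^s`.
(2) `c φ` is killed by `n`; by `divisible` there is `R` with `n^s • R = c φ`, `R ∈ H`;
`coker_bound`: `c φ = n^s • R = φ Q' - Q'`, `Q' ∈ H`.
(3) `g ∈ Gal(Ω/K)` with `Inert A F₂ g`: for `P ∈ H`: `P ≠ O`: coordinates in `F₂`, `v ≤ 1`, so
`g P - P ∈ E₁` (`congr_mem`), and it is killed by `n^(s+1)`: `g P = P` (`tors_inj`).  So
`c g = 0 = g Q' - Q'`.
(4) `c'(g) = c g - (g Q' - Q')` is a cocycle on `Gal(Ω/K)`, with `c' φ = 0`, `c' = 0` on the inert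
elements.  If `v ∘ g = v`: `g⁻¹ φ^j` is inert for some `j`: `0 = c'(φ^j) = c'(g) + g c'(g⁻¹ φ^j) = c' g`.
-/

open WeierstrassCurve NumberField

namespace H16C

variable {k : Type*} [Field k] [NumberField k] {Ω : Type*} [Field Ω] [Algebra k Ω] [IsAlgClosed Ω]
  [Algebra.IsAlgebraic k Ω] [CharZero Ω] [DecidableEq Ω] {W : WeierstrassCurve.Affine k}
  [W.IsShortNF] [W.IsElliptic] {n b : ℕ} {Γ : Type*} [LinearOrderedCommGroupWithZero Γ]

omit [NumberField k] [IsAlgClosed Ω] [Algebra.IsAlgebraic k Ω] [CharZero Ω] [W.IsElliptic]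
  [DecidableEq Ω] in
theorem LA3_yle {v : Valuation Ω Γ} (h4 : v (WeierstrassCurve.Affine.baseChange W Ω).a₄ ≤ 1)
    (h6 : v (WeierstrassCurve.Affine.baseChange W Ω).a₆ ≤ 1) (P : Pt W Ω) (hx : v (xc P) ≤ 1) :
    v (yc P) ≤ 1 := by
  rcases P with _ | ⟨x, y, h⟩
  · change v (0 : Ω) ≤ 1
    rw [map_zero]
    exact zero_le_one
  · have he := (WeierstrassCurve.Affine.equation_iff _ _).1 h.1
    rw [a₁_of_isShortNF, a₂_of_isShortNF, a₃_of_isShortNF] at he
    have hx' : v x ≤ 1 := hx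
    change v y ≤ 1
    have h2 : v (y ^ 2) ≤ 1 := by
      have : y ^ 2 = x ^ 3 + (WeierstrassCurve.Affine.baseChange W Ω).a₄ * x +
          (WeierstrassCurve.Affine.baseChange W Ω).a₆ := by linear_combination he
      rw [this]
      refine v.map_add_le (v.map_add_le ?_ ?_) h6
      · rw [map_pow]
        exact pow_le_one' hx' 3
      · rw [map_mul]
        exact mul_le_one' h4 hx'
    rw [map_pow] at h2
    exact (pow_le_one_iff (two_ne_zero)).1 h2

omit [NumberField k] [IsAlgClosed Ω] [Algebra.IsAlgebraic k Ω] [CharZero Ω] [W.IsElliptic]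
  [W.IsShortNF] in
theorem LA3_rho_zero_iff (g : Ω ≃ₐ[k] Ω) (P : Pt W Ω) : rho W g P = 0 ↔ P = 0 := by
  constructor
  · intro h
    rcases P with _ | ⟨x, y, hh⟩
    · rfl
    · exact absurd h (WeierstrassCurve.Affine.Point.some_ne_zero _)
  · intro h
    rw [h, map_zero]

omit [NumberField k] [IsAlgClosed Ω] [Algebra.IsAlgebraic k Ω] [CharZero Ω] [W.IsElliptic]
  [W.IsShortNF] in
theorem LA3_xc_rho (g : Ω ≃ₐ[k] Ω) (P : Pt W Ω) : xc (rho W g P) = g (xc P) := by
  rcases P with _ | ⟨x, y, hh⟩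
  · exact (map_zero g).symm
  · rfl

omit [NumberField k] [IsAlgClosed Ω] [Algebra.IsAlgebraic k Ω] [CharZero Ω] [W.IsElliptic]
  [W.IsShortNF] in
theorem LA3_yc_rho (g : Ω ≃ₐ[k] Ω) (P : Pt W Ω) : yc (rho W g P) = g (yc P) := by
  rcases P with _ | ⟨x, y, hh⟩
  · exact (map_zero g).symm
  · rfl

theorem lang (hb : Bad W Ω n b) (K F : IntermediateField k Ω) (hKF : K ≤ F) [FiniteDimensional k F]
    (A : ValuationSubring Ω) (q : ℕ) (hq : q.Prime) (hA : A.valuation (q : Ω) < 1)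
    (hAb : A.valuation (b : Ω) = 1) (c : (Ω ≃ₐ[k] Ω) → Pt W Ω)
    (hc : ∀ g ∈ K.fixingSubgroup, ∀ h ∈ K.fixingSubgroup, c (g * h) = c g + rho W g (c h))
    (hn : ∀ g ∈ K.fixingSubgroup, n • c g = 0)
    (hF : ∀ g ∈ K.fixingSubgroup, Inert A F g → c g = 0) :
    ∃ Q : Pt W Ω, ∀ g ∈ K.fixingSubgroup, (∀ x, A.valuation (g x) = A.valuation x) →
      c g = rho W g Q - Q := by
  classical
  -- basic facts
  have hn0 : 0 < n := by
    rcases Nat.eq_zero_or_pos n with h | h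
    · exact absurd (by have := hb.dvd; rw [h] at this; simpa using this) hb.ne
    · exact h
  have hnat : ∀ m : ℕ, A.valuation ((m : ℕ) : Ω) ≤ 1 := fun m =>
    (ValuationSubring.valuation_le_one_iff A _).2 (natCast_mem A m)
  obtain ⟨h4, h6, hΔ⟩ := hb.good A hAb
  have hvn : A.valuation ((n : ℕ) : Ω) = 1 := by
    obtain ⟨m, hm⟩ := hb.dvd
    have h1 : A.valuation ((n : ℕ) : Ω) * A.valuation (((6 * m : ℕ)) : Ω) = 1 := by
      rw [← map_mul, ← Nat.cast_mul, ← hAb, hm]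
      congr 2
      ring
    refine le_antisymm (hnat n) ?_
    rw [← h1]
    exact mul_le_of_le_one_right' (hnat _)
  have h4' : A.valuation (WeierstrassCurve.Affine.baseChange W Ω).a₄ ≤ 1 := h4
  have h6' : A.valuation (WeierstrassCurve.Affine.baseChange W Ω).a₆ ≤ 1 := h6
  have hΔ' : A.valuation (WeierstrassCurve.Affine.baseChange W Ω).Δ = 1 := by
    have : (WeierstrassCurve.Affine.baseChange W Ω).Δ = algebraMap k Ω W.Δ :=
      WeierstrassCurve.map_Δ W (algebraMap k Ω)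
    rw [this]
    exact hΔ
  have : FiniteDimensional k K := by
    have h : Subalgebra.toSubmodule K.toSubalgebra ≤ Subalgebra.toSubmodule F.toSubalgebra := hKF
    have : FiniteDimensional k (Subalgebra.toSubmodule F.toSubalgebra) :=
      inferInstanceAs (FiniteDimensional k F)
    exact Submodule.finiteDimensional_of_le h
  obtain ⟨Q, hQ2, -, hfrob⟩ := exists_frob K A q hq hA
  set s : ℕ := Q ^ 2 + 1 with hs
  have hs2 : Q ^ 2 + 1 ≤ 2 ^ s := (Nat.lt_two_pow_self (n := Q ^ 2 + 1)).le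
  have hNpos : 0 < n ^ (s + 1) := pow_pos hn0 _
  have hvN : A.valuation ((n ^ (s + 1) : ℕ) : Ω) = 1 := by
    rw [Nat.cast_pow, map_pow, hvn, one_pow]
  have hinj : ∀ P : Pt W Ω, n ^ (s + 1) • P = 0 → InE1 A.valuation P → P = 0 :=
    fun P hP h1 => tors_inj h4' h6' _ hvN hP h1
  -- the finite group
  let H : AddSubgroup (Pt W Ω) := (nsmulAddMonoidHom (n ^ (s + 1)) : Pt W Ω →+ Pt W Ω).ker
  have hHmem : ∀ P : Pt W Ω, P ∈ H ↔ n ^ (s + 1) • P = 0 := fun P => Iff.rfl
  have hHfin : {P : Pt W Ω | n ^ (s + 1) • P = 0}.Finite := tors_finite _ _ hNpos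
  have : Finite H := hHfin.to_subtype
  have hxle : ∀ P : Pt W Ω, n ^ (s + 1) • P = 0 → A.valuation (xc P) ≤ 1 := by
    intro P hP
    by_contra hcon
    have h1 : InE1 A.valuation P := by
      rcases P with _ | ⟨x, y, h⟩
      · trivial
      · exact not_le.1 hcon
    have h0 := hinj P hP h1
    apply hcon
    rw [h0]
    change A.valuation (0 : Ω) ≤ 1
    rw [map_zero]
    exact zero_le_one
  have hyle : ∀ P : Pt W Ω, n ^ (s + 1) • P = 0 → A.valuation (yc P) ≤ 1 :=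
    fun P hP => LA3_yle h4' h6' P (hxle P hP)
  -- the field
  let X : Set Ω := (xc '' {P : Pt W Ω | n ^ (s + 1) • P = 0}) ∪
    (yc '' {P : Pt W Ω | n ^ (s + 1) • P = 0})
  have hXfin : X.Finite := (hHfin.image _).union (hHfin.image _)
  have : Finite X := hXfin.to_subtype
  have : FiniteDimensional k (IntermediateField.adjoin k X) :=
    IntermediateField.finiteDimensional_adjoin fun x _ =>
      (Algebra.IsAlgebraic.isAlgebraic (R := k) x).isIntegral
  let F₁ : IntermediateField k Ω := F ⊔ IntermediateField.adjoin k X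
  have : FiniteDimensional k F₁ := IntermediateField.finiteDimensional_sup _ _
  have : IsAlgClosure k Ω := ⟨inferInstance, inferInstance⟩
  have : Normal k Ω := IsAlgClosure.normal k Ω
  let F₂ : IntermediateField k Ω := IntermediateField.normalClosure k F₁ Ω
  have : FiniteDimensional k F₂ := inferInstance
  have hF₁₂ : F₁ ≤ F₂ := IntermediateField.le_normalClosure F₁
  have hFF₂ : F ≤ F₂ := le_sup_left.trans hF₁₂
  have hXF₂ : ∀ x ∈ X, x ∈ F₂ := fun x hx =>
    hF₁₂ ((le_sup_right : IntermediateField.adjoin k X ≤ F₁)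
      (IntermediateField.subset_adjoin k X hx))
  have hstab : ∀ (g : Ω ≃ₐ[k] Ω), ∀ x ∈ F₂, g x ∈ F₂ := by
    intro g x hx
    have : Normal k F₂ := inferInstance
    have h := (IntermediateField.normal_iff_forall_map_le'.1 this) g
    exact h ⟨x, hx, rfl⟩
  obtain ⟨φ, hφK, hφF, hdec⟩ := hfrob F₂ (hKF.trans hFF₂) inferInstance
    (fun g _ x hx => hstab g x hx)
  have hxmem : ∀ P : Pt W Ω, n ^ (s + 1) • P = 0 → xc P ∈ F₂ := fun P hP =>
    hXF₂ _ (Or.inl ⟨P, hP, rfl⟩)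
  have hymem : ∀ P : Pt W Ω, n ^ (s + 1) • P = 0 → yc P ∈ F₂ := fun P hP =>
    hXF₂ _ (Or.inr ⟨P, hP, rfl⟩)
  -- fixed points
  have hfix : Nat.card {m : Pt W Ω // m ∈ H ∧ rho W φ m = m} ≤ 2 ^ s := by
    have hc := card_fixed (v := A.valuation) h4' h6' hΔ' Q hQ2
      {m : Pt W Ω | m ∈ H ∧ rho W φ m = m} (by
        intro P hP P' hP' h1
        have h2 : n ^ (s + 1) • (P - P') = 0 := by
          rw [smul_sub, (hHmem P).1 hP.1, (hHmem P').1 hP'.1, sub_zero]
        exact sub_eq_zero.1 (hinj _ h2 h1)) (by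
        intro P hP hP0
        have hP1 := (hHmem P).1 hP.1
        refine ⟨hxle P hP1, ?_, ?_⟩
        · have h3 := hφF _ (hxmem P hP1) (hxle P hP1)
          rwa [← LA3_xc_rho, hP.2] at h3
        · have h3 := hφF _ (hymem P hP1) (hyle P hP1)
          rwa [← LA3_yc_rho, hP.2] at h3)
    exact (le_of_eq (Nat.card_coe_set_eq _)).trans (hc.2.trans hs2)
  -- the value at φ
  have hcφ : n • c φ = 0 := hn φ hφK
  obtain ⟨R, hR⟩ := divisible (W := WeierstrassCurve.Affine.baseChange W Ω) (n ^ s)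
    (pow_pos hn0 _) (c φ)
  have hRH : R ∈ H := by
    rw [hHmem, pow_succ, mul_comm, mul_smul, hR, hcφ]
  have hφH : ∀ m ∈ H, rho W φ m ∈ H := by
    intro m hm
    rw [hHmem] at hm ⊢
    rw [← map_nsmul, hm, map_zero]
  obtain ⟨Q', hQ'H, hQ'⟩ := coker_bound H (rho W φ) hφH n s (s + 1) hn0
    (fun m hm => (hHmem m).1 hm) hfix R hRH
  rw [hR] at hQ'
  -- inert elements fix H
  have hinert : ∀ g : Ω ≃ₐ[k] Ω, Inert A F₂ g → ∀ P ∈ H, rho W g P = P := by
    intro g hg P hP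
    have hP1 := (hHmem P).1 hP
    by_cases hP0 : P = 0
    · rw [hP0, map_zero]
    have hgP0 : rho W g P ≠ 0 := fun h => hP0 ((LA3_rho_zero_iff g P).1 h)
    have hx1 := hg _ (hxmem P hP1) (hxle P hP1)
    have hy1 := hg _ (hymem P hP1) (hyle P hP1)
    rw [← LA3_xc_rho] at hx1
    rw [← LA3_yc_rho] at hy1
    have hgP1 : n ^ (s + 1) • rho W g P = 0 := by rw [← map_nsmul, hP1, map_zero]
    have h1 := congr_mem h4' h6' hΔ' hgP0 hP0 (hxle _ hgP1) (hxle P hP1) hx1 hy1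
    have h2 : n ^ (s + 1) • (rho W g P - P) = 0 := by rw [smul_sub, hgP1, hP1, sub_zero]
    exact sub_eq_zero.1 (hinj _ h2 h1)
  -- the corrected cocycle
  set c' : (Ω ≃ₐ[k] Ω) → Pt W Ω := fun g => c g - (rho W g Q' - Q') with hc'
  have hc'mul : ∀ g ∈ K.fixingSubgroup, ∀ h ∈ K.fixingSubgroup,
      c' (g * h) = c' g + rho W g (c' h) := by
    intro g hg h hh
    have h1 : rho W (g * h) Q' = rho W g (rho W h Q') := by
      rw [map_mul]
      rfl
    simp only [hc', hc g hg h hh, h1, map_sub]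
    abel
  have hc'in : ∀ g ∈ K.fixingSubgroup, Inert A F₂ g → c' g = 0 := by
    intro g hg hin
    have h1 : c g = 0 := hF g hg (fun x hx hvx => hin x (hFF₂ hx) hvx)
    simp only [hc', h1, hinert g hin Q' hQ'H, sub_self]
  have hc'φ : c' φ = 0 := by
    exact sub_eq_zero.2 hQ'
  have hc'1 : c' 1 = 0 := by
    have h := hc'mul 1 (one_mem _) 1 (one_mem _)
    rw [mul_one, map_one] at h
    have h' : c' 1 = c' 1 + c' 1 := h
    exact left_eq_add.1 h'
  have hc'pow : ∀ j : ℕ, c' (φ ^ j) = 0 := by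
    intro j
    induction j with
    | zero => rw [pow_zero]; exact hc'1
    | succ j ih =>
      rw [pow_succ, hc'mul _ (pow_mem hφK j) _ hφK, ih, hc'φ, map_zero, add_zero]
  refine ⟨Q', fun g hg hgv => ?_⟩
  obtain ⟨j, hj⟩ := hdec g hg hgv
  have hmem : g⁻¹ * φ ^ j ∈ K.fixingSubgroup := mul_mem (inv_mem hg) (pow_mem hφK j)
  have h1 := hc'mul g hg _ hmem
  rw [mul_inv_cancel_left, hc'pow, hc'in _ hmem hj, map_zero, add_zero] at h1
  exact sub_eq_zero.1 h1.symm

end H16C
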