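import Pool.Agent.Lib.H16C.D1
import Pool.Agent.Lib.H16A.U3

/-!
# MW1 (M): weak Mordell-Weil theorem for the multiplication by 2, full 2-torsion

`L` a number field, `W` short and elliptic, `x³ + a₄ x + a₆ = (x - e₁)(x - e₂)(x - e₃)` with
`e_i ∈ L` (`e` injective since `Δ ≠ 0`; `e₁ + e₂ + e₃ = 0`).
(1) Halving: `P ≠ O`, `x - e_i = s_i²`, after a change of the sign of `s₁`: `y = s₁ s₂ s₃`
(`y² = ∏ (x - e_i)`; if `y = 0` any sign).  Put `D = (s₁+s₂)(s₁+s₃)(s₂+s₃)`, `D ≠ 0`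
(`s_i² ≠ s_j²`), `x_Q = x + s₁s₂ + s₁s₃ + s₂s₃`, `y_Q = D`: `x_Q - e₁ = (s₁+s₂)(s₁+s₃)`, ..., so
`Q ∈ E(L)`, `f'(x_Q) = 2 (s₁+s₂+s₃) D`, the tangent has the slope `s₁+s₂+s₃`, and `2 Q = P`.
(`xc_dbl`, `yc_dbl` or `Point.add_self`; a direct computation with `linear_combination`.)
(2) `P, P' ≠ O`, `x(P) - e_i`, `x(P') - e_i ≠ 0`, and `(x(P) - e_i)(x(P') - e_i)` is a square for
`i = 1, 2, 3`.  Then `P - P' ∈ 2 E(L)`: if `R = P - P' ≠ O` and `x(P) ≠ x(P')`: the three points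
`P, -P', -R` lie on a line `Y = λ X + μ`, `f(X) - (λX + μ)² = (X - x(P))(X - x(P'))(X - x(R))`, at
`X = e_i`: `(x(P) - e_i)(x(P') - e_i)(x(R) - e_i) = (λ e_i + μ)²`; so `x(R) - e_i` is a square for all
`i` and (1) applies.  If `x(P) = x(P')`: `P' = P`, `R = O`, or `P' = -P`, `R = 2P`.
(3) For `P ≠ O` with `y(P) ≠ 0` let `β_i(P)` = the class of `x(P) - e_i` in `H16A.SqC L`.  Let `B` be
the set of the primes `w` at which some `e_i` or some `(e_i - e_j)⁻¹` has a negative order: finite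
(`HeightOneSpectrum.Support.finite`, cf. `H16A.finite_above`).  For `w ∉ B`: `ord_w(x - e_i)` is even:
if `ord x < 0` then `ord(x - e_i) = ord x` for the three `i` and the sum is `2 ord y`; if `ord x ≥ 0`
at most one of the three orders is `> 0` (their differences are units), the others are `0`, the sum
is even (the same proof as `H16A.u1_par`).  So `β(P)` takes finitely many values
(`H16A.finite_unramified`, `H16A.par`), and by (2) the number of the classes of `E(L)/2E(L)` is at most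
that number plus 4 (the points `O`, `(e_i, 0)`).
-/

open WeierstrassCurve NumberField IsDedekindDomain

namespace H16C

section Alg

variable {L : Type*} [Field L] [DecidableEq L] {W : WeierstrassCurve.Affine L} [W.IsShortNF]
  {e : Fin 3 → L}

theorem MW1_coef [CharZero L]
    (he : ∀ x : L, x ^ 3 + W.a₄ * x + W.a₆ = (x - e 0) * (x - e 1) * (x - e 2)) :
    e 0 + e 1 + e 2 = 0 ∧ W.a₄ = e 0 * e 1 + e 0 * e 2 + e 1 * e 2 ∧ W.a₆ = -(e 0 * e 1 * e 2) := by
  have h0 := he 0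
  have h1 := he 1
  have h2 := he (-1)
  have a6 : W.a₆ = -(e 0 * e 1 * e 2) := by linear_combination h0
  have s1 : e 0 + e 1 + e 2 = 0 := by
    have h3 : (2 : L) * (e 0 + e 1 + e 2) = 0 := by linear_combination h1 + h2 - 2 * a6
    exact (mul_eq_zero.1 h3).resolve_left two_ne_zero
  have a4 : W.a₄ = e 0 * e 1 + e 0 * e 2 + e 1 * e 2 := by
    have h4 : (2 : L) * (W.a₄ - (e 0 * e 1 + e 0 * e 2 + e 1 * e 2)) = 0 := by
      linear_combination h1 - h2
    exact sub_eq_zero.1 ((mul_eq_zero.1 h4).resolve_left two_ne_zero)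
  exact ⟨s1, a4, a6⟩

theorem MW1_disc [CharZero L]
    (he : ∀ x : L, x ^ 3 + W.a₄ * x + W.a₆ = (x - e 0) * (x - e 1) * (x - e 2)) :
    W.Δ = 16 * ((e 0 - e 1) * (e 0 - e 2) * (e 1 - e 2)) ^ 2 := by
  obtain ⟨s1, a4, a6⟩ := MW1_coef he
  have h2 : e 2 = -e 0 - e 1 := by linear_combination s1
  rw [Δ_of_isShortNF, a4, a6, h2]
  ring

theorem MW1_inj [CharZero L] [W.IsElliptic]
    (he : ∀ x : L, x ^ 3 + W.a₄ * x + W.a₆ = (x - e 0) * (x - e 1) * (x - e 2)) :
    e 0 ≠ e 1 ∧ e 0 ≠ e 2 ∧ e 1 ≠ e 2 := by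
  have hΔ : W.Δ ≠ 0 := W.isUnit_Δ.ne_zero
  rw [MW1_disc he] at hΔ
  refine ⟨fun h => hΔ ?_, fun h => hΔ ?_, fun h => hΔ ?_⟩
  · rw [h]; ring
  · rw [h]; ring
  · rw [h]; ring

/-- halving -/
theorem MW1_halve [CharZero L] [W.IsElliptic]
    (he : ∀ x : L, x ^ 3 + W.a₄ * x + W.a₆ = (x - e 0) * (x - e 1) * (x - e 2))
    {P : W.Point} (hP : P ≠ 0) {a b c : L} (h0 : xc P - e 0 = a ^ 2) (h1 : xc P - e 1 = b ^ 2)
    (h2 : xc P - e 2 = c ^ 2) : P ∈ H16A.twoG W.Point := by
  obtain ⟨n01, n02, n12⟩ := MW1_inj he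
  obtain ⟨s1, a4, a6⟩ := MW1_coef he
  have e0 : e 0 = xc P - a ^ 2 := by linear_combination -h0
  have e1 : e 1 = xc P - b ^ 2 := by linear_combination -h1
  have e2 : e 2 = xc P - c ^ 2 := by linear_combination -h2
  have hx : 3 * xc P = a ^ 2 + b ^ 2 + c ^ 2 := by linear_combination h0 + h1 + h2 + s1
  have hab : a + b ≠ 0 := by
    intro h
    apply n01
    have : a = -b := by linear_combination h
    rw [e0, e1, this]
    ring
  have hac : a + c ≠ 0 := by
    intro h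
    apply n02
    have : a = -c := by linear_combination h
    rw [e0, e2, this]
    ring
  have hbc : b + c ≠ 0 := by
    intro h
    apply n12
    have : b = -c := by linear_combination h
    rw [e1, e2, this]
    ring
  have hD : (a + b) * (a + c) * (b + c) ≠ 0 := mul_ne_zero (mul_ne_zero hab hac) hbc
  obtain ⟨Q, hQ, hxQ, hyQ⟩ := exists_pt (W := W) (xc P + a * b + a * c + b * c)
    ((a + b) * (a + c) * (b + c)) (by
      rw [he, e0, e1, e2]
      ring)
  have h20 : (2 : L) ≠ 0 := two_ne_zero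
  have hy0 : yc Q ≠ 0 := by rwa [hyQ]
  have h2Q : 2 • Q ≠ 0 := by
    intro h
    exact hy0 ((two_smul_eq_zero_iff h20 hQ).1 h)
  have hd := xc_dbl h20 hQ hy0
  have hxx : xc (2 • Q) = xc P := by
    have h4 : (4 * yc Q ^ 2) ≠ 0 := mul_ne_zero (by norm_num) (pow_ne_zero 2 hy0)
    apply mul_left_cancel₀ h4
    rw [hd, hxQ, hyQ, a4, a6, e0, e1, e2]
    have hxP : xc P = (a ^ 2 + b ^ 2 + c ^ 2) / 3 := by
      rw [← hx]
      field_simp
    rw [hxP]
    ring
  rcases xc_eq h2Q hP hxx with h | h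
  · exact ⟨Q, h⟩
  · refine ⟨-Q, ?_⟩
    change 2 • (-Q) = P
    rw [smul_neg, h, neg_neg]

theorem MW1_sub {P Q : W.Point} (hP : P ≠ 0) (hQ : Q ≠ 0) (h : xc P ≠ xc Q) :
    (xc P - xc Q) ^ 2 * xc (P - Q) = (yc P + yc Q) ^ 2 - (xc P + xc Q) * (xc P - xc Q) ^ 2 := by
  cases P with
  | zero => exact absurd rfl hP
  | some x₁ y₁ h₁ =>
    cases Q with
    | zero => exact absurd rfl hQ
    | some x₂ y₂ h₂ =>
      have hx : x₁ ≠ x₂ := h
      have hx' : x₁ - x₂ ≠ 0 := sub_ne_zero.2 hx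
      rw [sub_eq_add_neg (WeierstrassCurve.Affine.Point.some x₁ y₁ h₁),
        WeierstrassCurve.Affine.Point.neg_some,
        WeierstrassCurve.Affine.Point.add_of_X_ne hx]
      change (x₁ - x₂) ^ 2 * (W.addX x₁ x₂ (W.slope x₁ x₂ y₁ (W.negY x₂ y₂))) =
        (y₁ + y₂) ^ 2 - (x₁ + x₂) * (x₁ - x₂) ^ 2
      rw [WeierstrassCurve.Affine.slope_of_X_ne hx, WeierstrassCurve.Affine.addX,
        WeierstrassCurve.Affine.negY, a₁_of_isShortNF, a₂_of_isShortNF, a₃_of_isShortNF]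
      field_simp
      ring

theorem MW1_line {P Q : W.Point} (hP : P ≠ 0) (hQ : Q ≠ 0) (h : xc P ≠ xc Q) {r : L}
    (hr : r ^ 3 + W.a₄ * r + W.a₆ = 0) :
    (xc P - r) * (xc Q - r) * (xc (P - Q) - r) * (xc P - xc Q) ^ 2 =
      (yc P * (xc Q - r) + yc Q * (xc P - r)) ^ 2 := by
  have h1 := MW1_sub hP hQ h
  have h2 := eqn hP
  have h3 := eqn hQ
  have h4 : (xc P - r) * (xc Q - r) * (xc (P - Q) - r) * (xc P - xc Q) ^ 2 =
      (xc P - r) * (xc Q - r) * ((yc P + yc Q) ^ 2 - (xc P + xc Q + r) * (xc P - xc Q) ^ 2) := by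
    linear_combination (xc P - r) * (xc Q - r) * h1
  rw [h4]
  have h5 : yc P ^ 2 = (xc P - r) * (xc P ^ 2 + xc P * r + r ^ 2 + W.a₄) := by
    linear_combination h2 + hr
  have h6 : yc Q ^ 2 = (xc Q - r) * (xc Q ^ 2 + xc Q * r + r ^ 2 + W.a₄) := by
    linear_combination h3 + hr
  linear_combination ((xc P - r) * (xc Q - r) - (xc Q - r) ^ 2) * h5 +
    ((xc P - r) * (xc Q - r) - (xc P - r) ^ 2) * h6

theorem MW1_diff [CharZero L] [W.IsElliptic]
    (he : ∀ x : L, x ^ 3 + W.a₄ * x + W.a₆ = (x - e 0) * (x - e 1) * (x - e 2))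
    {P Q : W.Point} (hP : P ≠ 0) (hQ : Q ≠ 0) (hPe : ∀ i, xc P ≠ e i) (hQe : ∀ i, xc Q ≠ e i)
    (hs : ∀ i, IsSquare ((xc P - e i) * (xc Q - e i))) : P - Q ∈ H16A.twoG W.Point := by
  by_cases h : xc P = xc Q
  · rcases xc_eq hP hQ h with h1 | h1
    · rw [h1, sub_self]
      exact zero_mem _
    · have h2 : P - Q = 2 • P := by
        have : Q = -P := by rw [h1, neg_neg]
        rw [this, sub_neg_eq_add, two_smul]
      rw [h2]
      exact ⟨P, rfl⟩
  · have hne := (ne_zero_of_xc_ne hP hQ h).2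
    have hroot : ∀ i, e i ^ 3 + W.a₄ * e i + W.a₆ = 0 := by
      intro i
      rw [he]
      fin_cases i <;> simp
    have hsq : ∀ i, ∃ s, xc (P - Q) - e i = s ^ 2 := by
      intro i
      obtain ⟨r, hr⟩ := hs i
      have h1 := MW1_line hP hQ h (hroot i)
      have hr0 : r ≠ 0 := by
        rintro rfl
        rw [mul_zero] at hr
        exact mul_ne_zero (sub_ne_zero.2 (hPe i)) (sub_ne_zero.2 (hQe i)) hr
      have hx0 : xc P - xc Q ≠ 0 := sub_ne_zero.2 h
      refine ⟨(yc P * (xc Q - e i) + yc Q * (xc P - e i)) / (r * (xc P - xc Q)), ?_⟩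
      rw [div_pow, eq_div_iff (pow_ne_zero 2 (mul_ne_zero hr0 hx0)), ← h1, hr]
      ring
    obtain ⟨a, ha⟩ := hsq 0
    obtain ⟨b, hb⟩ := hsq 1
    obtain ⟨c, hc⟩ := hsq 2
    exact MW1_halve he hne ha hb hc

end Alg

section Ord

open H16A

variable {F : Type*} [Field F] [NumberField F] (w : HeightOneSpectrum (𝓞 F))

theorem MW1_sub_nonneg {x y : F} (hx : 0 ≤ ord w x) (hy : 0 ≤ ord w y) : 0 ≤ ord w (x - y) := by
  by_cases h : x - y = 0
  · rw [h, v1_ord_zero]
  by_cases hx0 : x = 0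
  · rw [hx0, zero_sub, ord_neg]
    exact hy
  by_cases hy0 : y = 0
  · rw [hy0, sub_zero]
    exact hx
  · rw [sub_eq_add_neg] at h ⊢
    have h1 := le_ord_add w h hx0 (neg_ne_zero.2 hy0)
    rw [ord_neg] at h1
    exact le_trans (le_min hx hy) h1

theorem MW1_sub_of_neg {x y : F} (hx : ord w x < 0) (hy : 0 ≤ ord w y) :
    ord w (x - y) = ord w x := by
  have hx0 : x ≠ 0 := by
    rintro rfl
    rw [v1_ord_zero] at hx
    exact lt_irrefl _ hx
  by_cases hy0 : y = 0
  · rw [hy0, sub_zero]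
  · rw [sub_eq_add_neg]
    exact (ord_add_of_lt w hx0 (neg_ne_zero.2 hy0) (by rw [ord_neg]; omega)).2

theorem MW1_even {r : Fin 3 → F} (h0 : ∀ i, 0 ≤ ord w (r i))
    (hne : ∀ i j, i ≠ j → r i - r j ≠ 0) (h1 : ∀ i j, i ≠ j → ord w (r i - r j) = 0)
    {x y : F} (hprod : y ^ 2 = (x - r 0) * (x - r 1) * (x - r 2)) (hj : ∀ j, x ≠ r j)
    (i : Fin 3) : Even (ord w (x - r i)) := by
  have n0 := sub_ne_zero.2 (hj 0)
  have n1 := sub_ne_zero.2 (hj 1)
  have n2 := sub_ne_zero.2 (hj 2)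
  have hsum : 2 * ord w y = ord w (x - r 0) + ord w (x - r 1) + ord w (x - r 2) := by
    have h2 := congrArg (ord w) hprod
    rw [ord_pow, ord_mul w (mul_ne_zero n0 n1) n2, ord_mul w n0 n1] at h2
    exact_mod_cast h2
  by_cases hxn : ord w x < 0
  · rw [MW1_sub_of_neg w hxn (h0 i)]
    rw [MW1_sub_of_neg w hxn (h0 0), MW1_sub_of_neg w hxn (h0 1),
      MW1_sub_of_neg w hxn (h0 2)] at hsum
    exact ⟨ord w y - ord w x, by omega⟩
  · push Not at hxn
    have hnn : ∀ j, 0 ≤ ord w (x - r j) := fun j => MW1_sub_nonneg w hxn (h0 j)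
    have hone : ∀ j k : Fin 3, j ≠ k → 0 < ord w (x - r j) → ord w (x - r k) = 0 := by
      intro j k hjk hpos
      by_contra hk
      have hk' : 0 < ord w (x - r k) := lt_of_le_of_ne (hnn k) (Ne.symm hk)
      have h3 : r j - r k = (x - r k) + -(x - r j) := by ring
      have h4 : (x - r k) + -(x - r j) ≠ 0 := h3 ▸ hne j k hjk
      have h5 := le_ord_add w h4 (sub_ne_zero.2 (hj k)) (neg_ne_zero.2 (sub_ne_zero.2 (hj j)))
      rw [← h3, h1 j k hjk, ord_neg] at h5
      rcases min_le_iff.1 h5 with h6 | h6 <;> omega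
    have a0 := hnn 0
    have a1 := hnn 1
    have a2 := hnn 2
    have b01 := hone 0 1 (by decide)
    have b02 := hone 0 2 (by decide)
    have b10 := hone 1 0 (by decide)
    have b12 := hone 1 2 (by decide)
    have b20 := hone 2 0 (by decide)
    have b21 := hone 2 1 (by decide)
    fin_cases i
    · change Even (ord w (x - r 0))
      rcases eq_or_lt_of_le a0 with h6 | h6
      · rw [← h6]; exact Even.zero
      · exact ⟨ord w y, by have := b01 h6; have := b02 h6; omega⟩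
    · change Even (ord w (x - r 1))
      rcases eq_or_lt_of_le a1 with h6 | h6
      · rw [← h6]; exact Even.zero
      · exact ⟨ord w y, by have := b10 h6; have := b12 h6; omega⟩
    · change Even (ord w (x - r 2))
      rcases eq_or_lt_of_le a2 with h6 | h6
      · rw [← h6]; exact Even.zero
      · exact ⟨ord w y, by have := b20 h6; have := b21 h6; omega⟩

variable (F) in
theorem MW1_fin (z : F) : {w : HeightOneSpectrum (𝓞 F) | ord w z < 0}.Finite := by
  by_cases hz : z = 0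
  · refine Set.Finite.subset Set.finite_empty ?_
    intro w hw
    rw [hz] at hw
    exact absurd hw (by
      change ¬ ord w 0 < 0
      rw [v1_ord_zero]
      exact lt_irrefl _)
  · obtain ⟨a, b, hb, hab⟩ := IsFractionRing.div_surjective (A := 𝓞 F) z
    have hb0 : b ≠ 0 := nonZeroDivisors.ne_zero hb
    have hI : Ideal.span {b} ≠ 0 := by
      rw [Ideal.zero_eq_bot, Ne, Ideal.span_singleton_eq_bot]
      exact hb0
    refine (Ideal.finite_factors hI).subset ?_
    intro w hw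
    rw [Set.mem_ofPred_eq, Ideal.dvd_span_singleton]
    by_contra hcon
    have hb1 : (b : F) ≠ 0 := fun h => hb0 (RingOfIntegers.ext h)
    have hab' : (a : F) / (b : F) = z := hab
    have ha1 : (a : F) ≠ 0 := by
      intro h
      rw [h, zero_div] at hab'
      exact hz hab'.symm
    have h1 : ord w (b : F) = 0 := by
      have h2 := ord_int_nonneg w b
      have h3 : ¬ 0 < ord w (b : F) := fun h => hcon ((ord_int_pos_iff w hb0).1 h)
      omega
    have h4 : 0 ≤ ord w z := by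
      rw [← hab', ord_div w ha1 hb1, h1, sub_zero]
      exact ord_int_nonneg w a
    exact absurd hw (not_lt.2 h4)

end Ord

theorem weak_mw {L : Type*} [Field L] [NumberField L] [DecidableEq L] (W : WeierstrassCurve.Affine L)
    [W.IsShortNF] [W.IsElliptic] (e : Fin 3 → L)
    (he : ∀ x : L, x ^ 3 + W.a₄ * x + W.a₆ = (x - e 0) * (x - e 1) * (x - e 2)) :
    (H16A.twoG W.Point).index ≠ 0 := by
  classical
  obtain ⟨n01, n02, n12⟩ := MW1_inj he
  have hne : ∀ i j : Fin 3, i ≠ j → e i - e j ≠ 0 := by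
    intro i j hij
    fin_cases i <;> fin_cases j
    · exact absurd rfl hij
    · exact sub_ne_zero.2 n01
    · exact sub_ne_zero.2 n02
    · exact sub_ne_zero.2 n01.symm
    · exact absurd rfl hij
    · exact sub_ne_zero.2 n12
    · exact sub_ne_zero.2 n02.symm
    · exact sub_ne_zero.2 n12.symm
    · exact absurd rfl hij
  set B : Set (HeightOneSpectrum (𝓞 L)) :=
    (⋃ i : Fin 3, {w | H16A.ord w (e i) < 0}) ∪
      ⋃ p : Fin 3 × Fin 3, {w | H16A.ord w ((e p.1 - e p.2)⁻¹) < 0} with hB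
  have hBfin : B.Finite :=
    (Set.finite_iUnion fun i => MW1_fin L (e i)).union (Set.finite_iUnion fun p => MW1_fin L _)
  set S : Set (H16A.SqC L) := {x | ∀ w, w ∉ B → H16A.par w x = 1} with hS
  have hSfin : S.Finite := H16A.finite_unramified L B hBfin
  have hpi : (Set.pi Set.univ fun _ : Fin 3 => S).Finite := Set.Finite.pi fun _ => hSfin
  -- the generic points
  set A : Set W.Point := {P | P ≠ 0 ∧ ∀ i, xc P ≠ e i} with hA
  set beta : W.Point → Fin 3 → H16A.SqC L := fun P i => H16A.cls (xc P - e i) with hbeta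
  have hβ : ∀ P ∈ A, beta P ∈ Set.pi Set.univ fun _ : Fin 3 => S := by
    rintro P ⟨hP, hPe⟩ i -
    intro w hw
    have h0 : ∀ i, 0 ≤ H16A.ord w (e i) := by
      intro i
      by_contra hcon
      exact hw (Or.inl (Set.mem_iUnion.2 ⟨i, not_le.1 hcon⟩))
    have h1 : ∀ i j, i ≠ j → H16A.ord w (e i - e j) = 0 := by
      intro i j hij
      have h2 : 0 ≤ H16A.ord w (e i - e j) := MW1_sub_nonneg w (h0 i) (h0 j)
      have h3 : 0 ≤ H16A.ord w ((e i - e j)⁻¹) := by
        by_contra hcon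
        exact hw (Or.inr (Set.mem_iUnion.2 ⟨(i, j), not_le.1 hcon⟩))
      rw [H16A.ord_inv] at h3
      omega
    change H16A.par w (H16A.cls (xc P - e i)) = 1
    rw [H16A.par_cls_eq_one_iff w (sub_ne_zero.2 (hPe i))]
    refine MW1_even w h0 hne h1 (y := yc P) ?_ hPe i
    rw [eqn hP, he]
  set q : W.Point → W.Point ⧸ H16A.twoG W.Point := QuotientAddGroup.mk with hq
  have hgen : (q '' A).Finite := by
    have hfac : ∀ P ∈ A, ∀ P' ∈ A, beta P = beta P' → q P = q P' := by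
      rintro P ⟨hP, hPe⟩ P' ⟨hP', hPe'⟩ h
      have h1 : P' - P ∈ H16A.twoG W.Point := by
        refine MW1_diff he hP' hP hPe' hPe fun i => ?_
        have h2 := congrFun h i
        rw [eq_comm] at h2
        exact (H16A.cls_eq_cls_iff (sub_ne_zero.2 (hPe' i)) (sub_ne_zero.2 (hPe i))).1 h2
      rw [hq, QuotientAddGroup.eq]
      rwa [neg_add_eq_sub]
    have hex : ∀ b : Fin 3 → H16A.SqC L, ∃ c : W.Point ⧸ H16A.twoG W.Point,
        ∀ P ∈ A, beta P = b → q P = c := by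
      intro b
      by_cases h : ∃ P ∈ A, beta P = b
      · obtain ⟨P, hP, hb⟩ := h
        exact ⟨q P, fun P' hP' hb' => hfac P' hP' P hP (hb'.trans hb.symm)⟩
      · exact ⟨0, fun P hP hb => absurd ⟨P, hP, hb⟩ h⟩
    choose k hk using hex
    refine (hpi.image k).subset ?_
    rintro c ⟨P, hP, rfl⟩
    exact ⟨beta P, hβ P hP, (hk (beta P) P hP rfl).symm⟩
  have hroot : ∀ i, {P : W.Point | P ≠ 0 ∧ xc P = e i}.Finite := by
    intro i
    refine Set.Subsingleton.finite ?_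
    rintro P ⟨hP, hPe⟩ P' ⟨hP', hPe'⟩
    have hy : ∀ R : W.Point, R ≠ 0 → xc R = e i → yc R = 0 := by
      intro R hR hx
      have h1 := eqn hR
      rw [he, hx] at h1
      have h2 : (e i - e 0) * (e i - e 1) * (e i - e 2) = 0 := by
        fin_cases i <;> simp
      rw [h2] at h1
      exact pow_eq_zero_iff (two_ne_zero) |>.1 h1
    exact pt_ext hP hP' (hPe.trans hPe'.symm) ((hy P hP hPe).trans (hy P' hP' hPe').symm)
  have hall : (Set.univ : Set (W.Point ⧸ H16A.twoG W.Point)) ⊆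
      (q '' A) ∪ ({q 0} ∪ ⋃ i : Fin 3, q '' {P : W.Point | P ≠ 0 ∧ xc P = e i}) := by
    intro c _
    obtain ⟨P, rfl⟩ := QuotientAddGroup.mk_surjective c
    by_cases h0 : P = 0
    · right; left
      rw [h0]
      rfl
    · by_cases hi : ∀ i, xc P ≠ e i
      · left
        exact ⟨P, ⟨h0, hi⟩, rfl⟩
      · push Not at hi
        obtain ⟨i, hi⟩ := hi
        right; right
        exact Set.mem_iUnion.2 ⟨i, P, ⟨h0, hi⟩, rfl⟩
  have hfin : (Set.univ : Set (W.Point ⧸ H16A.twoG W.Point)).Finite :=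
    (hgen.union ((Set.finite_singleton _).union
      (Set.finite_iUnion fun i => (hroot i).image q))).subset hall
  have : Finite (W.Point ⧸ H16A.twoG W.Point) := Set.finite_univ_iff.1 hfin
  exact AddSubgroup.index_ne_zero_of_finite

end H16C
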