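import Pool.Agent.Lib.H16C.Defs

/-!
# SE2 (S/M): existence of the bad number `b`

`k` a number field.  For `z ∈ k` there is an integer `c > 0` with `c z` integral over `ℤ`
(`IsIntegral.exists_multiple_integral_of_isLocalization`, `exists_integral_multiple`, ...).  Take
`c > 0` so that `c a₄`, `c a₆`, `c Δ⁻¹` are integral and `b = 6 n c`.
If `A` is a valuation subring of `Ω` with `v(b) = 1`: all the integers and all the elements integral
over `ℤ` have `v ≤ 1` (valuation rings are integrally closed: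
`Valuation.mem_of_integral`/`ValuationSubring.mem_of_integral`), so `v(c) = 1`, and
`v(a₄) = v(c a₄) ≤ 1`, `v(a₆) ≤ 1`, `v(Δ⁻¹) ≤ 1`; `Δ = -16 (4 a₄³ + 27 a₆²)` (short curve; unfold `Δ`,
`b₂, b₄, b₆, b₈`) has `v(Δ) ≤ 1`; hence `v(Δ) = 1`.
-/

open WeierstrassCurve

namespace H16C

theorem se2_int {k : Type*} [Field k] [NumberField k] (z : k) :
    ∃ c : ℕ, c ≠ 0 ∧ IsIntegral ℤ ((c : k) * z) := by
  have hz : IsAlgebraic ℤ z :=
    (IsFractionRing.isAlgebraic_iff ℤ ℚ k).mpr (Algebra.IsAlgebraic.isAlgebraic z)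
  obtain ⟨y, hy, h⟩ := hz.exists_integral_multiple
  refine ⟨y.natAbs, by simpa using hy, ?_⟩
  rw [zsmul_eq_mul] at h
  rcases Int.natAbs_eq y with h1 | h1
  · have h2 : ((y.natAbs : ℕ) : k) = (y : k) := by
      conv_rhs => rw [h1]
      rw [Int.cast_natCast]
    rw [h2]
    exact h
  · have h2 : ((y.natAbs : ℕ) : k) = -(y : k) := by
      conv_rhs => rw [h1]
      rw [Int.cast_neg, Int.cast_natCast, neg_neg]
    rw [h2, neg_mul]
    exact h.neg

theorem se2_le {Ω : Type*} [Field Ω] (A : ValuationSubring Ω) {x : Ω} (hx : IsIntegral ℤ x) :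
    A.valuation x ≤ 1 := by
  rw [ValuationSubring.valuation_le_one_iff]
  have h1 : IsIntegral A x := hx.tower_top
  obtain ⟨y, hy⟩ := (IsIntegrallyClosed.isIntegral_iff (K := Ω)).mp h1
  rw [← hy]
  exact y.2

theorem se2_nat {Ω : Type*} [Field Ω] (A : ValuationSubring Ω) (m : ℕ) :
    A.valuation (m : Ω) ≤ 1 := by
  rw [ValuationSubring.valuation_le_one_iff]
  exact natCast_mem A m

theorem se2_intc {Ω : Type*} [Field Ω] (A : ValuationSubring Ω) (m : ℤ) :
    A.valuation (m : Ω) ≤ 1 := by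
  rw [ValuationSubring.valuation_le_one_iff]
  exact intCast_mem A m

theorem exists_bad {k : Type*} [Field k] [NumberField k] (Ω : Type*) [Field Ω] [Algebra k Ω]
    (W : WeierstrassCurve.Affine k) [W.IsShortNF] [W.IsElliptic] (n : ℕ) (hn : 0 < n) :
    ∃ b : ℕ, Bad W Ω n b := by
  obtain ⟨c₁, hc₁, h₁⟩ := se2_int W.a₄
  obtain ⟨c₂, hc₂, h₂⟩ := se2_int W.a₆
  obtain ⟨c₃, hc₃, h₃⟩ := se2_int W.Δ⁻¹
  have hΔ : W.Δ ≠ 0 := by
    rw [← WeierstrassCurve.coe_Δ' (W := W)]
    exact W.Δ'.ne_zero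
  refine ⟨6 * n * (c₁ * c₂ * c₃), by positivity, dvd_mul_right _ _, ?_⟩
  intro A hA
  -- all the factors have valuation one
  have hprod : ∀ a b : ℕ, A.valuation ((a * b : ℕ) : Ω) = 1 →
      A.valuation (a : Ω) = 1 ∧ A.valuation (b : Ω) = 1 := by
    intro a b h
    rw [Nat.cast_mul, map_mul] at h
    have ha := se2_nat A a
    have hb := se2_nat A b
    constructor
    · refine le_antisymm ha ?_
      rw [← h]
      exact mul_le_of_le_one_right' hb
    · refine le_antisymm hb ?_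
      rw [← h]
      exact mul_le_of_le_one_left' ha
  obtain ⟨-, hc⟩ := hprod _ _ hA
  obtain ⟨h12, hv3⟩ := hprod _ _ hc
  obtain ⟨hv1, hv2⟩ := hprod _ _ h12
  have hmain : ∀ (c : ℕ) (z : k), A.valuation (c : Ω) = 1 → IsIntegral ℤ ((c : k) * z) →
      A.valuation (algebraMap k Ω z) ≤ 1 := by
    intro c z hc hz
    have h := se2_le A (hz.map (algebraMap k Ω).toIntAlgHom)
    simp only [RingHom.toIntAlgHom_coe, map_mul, map_natCast, hc, one_mul] at h
    exact h
  have ha4 := hmain c₁ _ hv1 h₁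
  have ha6 := hmain c₂ _ hv2 h₂
  have hd := hmain c₃ _ hv3 h₃
  refine ⟨ha4, ha6, ?_⟩
  have hDe : W.Δ = -16 * (4 * W.a₄ ^ 3 + 27 * W.a₆ ^ 2) := by
    rw [WeierstrassCurve.Δ_of_isShortNF]
  have hle : A.valuation (algebraMap k Ω W.Δ) ≤ 1 := by
    rw [ValuationSubring.valuation_le_one_iff] at ha4 ha6 ⊢
    rw [hDe]
    simp only [map_mul, map_neg, map_add, map_pow, map_ofNat]
    have h16 : (-16 : Ω) ∈ A := by simp
    have h4 : (4 : Ω) ∈ A := by simp
    have h27 : (27 : Ω) ∈ A := by simp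
    exact A.mul_mem _ _ h16 (A.add_mem _ _ (A.mul_mem _ _ h4 (pow_mem ha4 3))
      (A.mul_mem _ _ h27 (pow_mem ha6 2)))
  refine le_antisymm hle ?_
  rw [map_inv₀, map_inv₀] at hd
  have hne : A.valuation (algebraMap k Ω W.Δ) ≠ 0 := by
    rw [Valuation.ne_zero_iff]
    exact fun h => hΔ ((map_eq_zero _).mp h)
  exact (inv_le_one₀ (zero_lt_iff.mpr hne)).mp hd

end H16C
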