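import Pool.Agent.Lib.H16C.SH3
import Pool.Agent.Lib.H16C.TR1
import Pool.Agent.Lib.H16C.TR2
import Pool.Agent.Lib.H16C.Stm

/-!
# TR3 (M): the homomorphism `(ℤ/n)^T → Sha(E/k(δ))`

`K = k⟮δ⟯`, `W_K = WeierstrassCurve.Affine.baseChange W K`.  The curves
`baseChange W_K Ω` and `baseChange W Ω` are definitionally equal (`rfl`), and
`act W_K Ω g P = rho W (g.restrictScalars k) P` (`cases P <;> rfl`).
For `y` let `c_y : (Ω ≃ₐ[K] Ω) → E(Ω)`, `c_y g = Φ.w y (g.restrictScalars k)`.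
It is in `Z1 W_K Ω`: `w_mul`; `w_cont` gives a finite extension `F` of `k`; the compositum `F' = KF`
(as an intermediate field of `Ω/K`: `IntermediateField.adjoin K F`, or the extendScalars of
`K ⊔ F`) is finite over `K`, and `c_y = 0` on its fixing group.
Finite place `v`, `ι`: `place_fin` gives `A`, `q`; `local_fin` gives `Q`; the point
`Q' = Point.map ι Q` satisfies, for `ι ∘ g = σ ∘ ι` (so `v_A ∘ g = v_A`, `g δ = δ`):
`map ι (c_y g) = map ι (g Q) - map ι Q = σ (map ι Q) - map ι Q` (`Point.map_map`; or `cases Q`).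
Infinite place: `D` = the subgroup of the `g ∈ Gal(Ω/k)` fixing `δ` such that `ι ∘ g = σ ∘ ι` for some
`σ`: closed under multiplication and inverses; `place_inf` with `I = S.I` (`S.hI`); `local_inf`.
So `c_y ∈ ZSha`; `y ↦` class of `c_y` is additive (`w_add`).  Its kernel: `c_y` is a coboundary iff
`∃ Q, Φ.Triv y δ Q`: an automorphism of `Ω` over `k` that fixes `δ` is an automorphism over `K = k⟮δ⟯`
(`IntermediateField.fixingSubgroupEquiv`, `mem_fixingSubgroup_iff`).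
(`open Classical` for the decidable equality; the given instance on `Ω` is `Classical`, see the
statement.)
-/

open NumberField IsDedekindDomain IntermediateField

namespace H16C

section TR3

variable {k : Type*} [Field k] {Ω : Type*} [Field Ω] [Algebra k Ω]

/-- restriction of scalars from `K` to `k` -/
def TR3_res (K : IntermediateField k Ω) : (Ω ≃ₐ[K] Ω) →* (Ω ≃ₐ[k] Ω) where
  toFun g := g.restrictScalars k
  map_one' := rfl
  map_mul' _ _ := rfl

theorem TR3_res_apply (K : IntermediateField k Ω) (g : Ω ≃ₐ[K] Ω) (x : Ω) :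
    TR3_res K g x = g x := rfl

theorem TR3_fix {δ : Ω} (g : Ω ≃ₐ[k] Ω) (hg : g δ = δ) (x : Ω) (hx : x ∈ k⟮δ⟯) : g x = x := by
  have h1 : k⟮δ⟯ ≤ IntermediateField.fixedField (Subgroup.zpowers g) := by
    rw [IntermediateField.adjoin_simple_le_iff, IntermediateField.mem_fixedField_iff]
    intro f hf
    obtain ⟨j, rfl⟩ := Subgroup.mem_zpowers_iff.1 hf
    have h2 : g ∈ MulAction.stabilizer (Ω ≃ₐ[k] Ω) δ := hg
    exact (MulAction.stabilizer (Ω ≃ₐ[k] Ω) δ).zpow_mem h2 j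
  exact (IntermediateField.mem_fixedField_iff _ _).1 (h1 hx) g (Subgroup.mem_zpowers g)

theorem TR3_lift {δ : Ω} (g : Ω ≃ₐ[k] Ω) (hg : g δ = δ) :
    ∃ g' : Ω ≃ₐ[k⟮δ⟯] Ω, TR3_res k⟮δ⟯ g' = g := by
  refine ⟨AlgEquiv.ofRingEquiv (f := (g : Ω ≃+* Ω)) fun r => TR3_fix g hg _ r.2, ?_⟩
  ext x
  rfl

theorem TR3_field (K F : IntermediateField k Ω) [Algebra.IsAlgebraic k Ω] [FiniteDimensional k F] :
    ∃ F' : IntermediateField K Ω, FiniteDimensional K F' ∧
      ∀ g ∈ F'.fixingSubgroup, TR3_res K g ∈ F.fixingSubgroup := by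
  let b := Module.finBasis k F
  refine ⟨IntermediateField.adjoin K (Set.range fun i => ((b i : F) : Ω)), ?_, ?_⟩
  · exact IntermediateField.finiteDimensional_adjoin fun x _ =>
      IsIntegral.tower_top (R := k) (Algebra.IsIntegral.isIntegral x)
  · intro g hg
    rw [IntermediateField.mem_fixingSubgroup_iff] at hg ⊢
    intro x hx
    have h1 := congrArg (algebraMap F Ω) (b.sum_repr ⟨x, hx⟩)
    rw [map_sum] at h1
    have h2 : x = ∑ i, b.repr ⟨x, hx⟩ i • ((b i : F) : Ω) := by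
      refine Eq.trans ?_ (h1.symm.trans ?_)
      · rfl
      · rfl
    rw [h2, map_sum]
    refine Finset.sum_congr rfl fun i _ => ?_
    rw [map_smul]
    congr 1
    exact hg _ (IntermediateField.subset_adjoin K _ ⟨i, rfl⟩)

end TR3

section TR3b

open Classical

variable {k : Type*} [Field k] {Ω : Type*} [Field Ω] [Algebra k Ω] (W : WeierstrassCurve.Affine k)
  (K : IntermediateField k Ω)

/-- the curve over `K` -/
abbrev TR3_W : WeierstrassCurve.Affine K := WeierstrassCurve.Affine.baseChange W K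

theorem TR3_act (g : Ω ≃ₐ[K] Ω) (P : (WeierstrassCurve.Affine.baseChange (TR3_W W K) Ω).Point) :
    act (TR3_W W K) Ω g P = (rho W (TR3_res K g) (P : Pt W Ω) : Pt W Ω) := by
  cases P <;> rfl

theorem TR3_loc {L : Type*} [Field L] [Algebra K L] (ι : Ω →ₐ[K] AlgebraicClosure L)
    (c : (Ω ≃ₐ[K] Ω) → (WeierstrassCurve.Affine.baseChange (TR3_W W K) Ω).Point)
    (Q : (WeierstrassCurve.Affine.baseChange (TR3_W W K) Ω).Point)
    (σ : AlgebraicClosure L ≃ₐ[L] AlgebraicClosure L) (g : Ω ≃ₐ[K] Ω)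
    (h : ∀ x, ι (g x) = σ (ι x)) (hc : c g = act (TR3_W W K) Ω g Q - Q) :
    WeierstrassCurve.Affine.Point.map ι (c g) =
      act (TR3_W W K) (AlgebraicClosure L) (σ.restrictScalars K)
        (WeierstrassCurve.Affine.Point.map ι Q) - WeierstrassCurve.Affine.Point.map ι Q := by
  rw [hc, map_sub]
  congr 1
  unfold act
  rw [WeierstrassCurve.Affine.Point.map_map, WeierstrassCurve.Affine.Point.map_map]
  have h1 : ι.comp (g : Ω →ₐ[K] Ω) =
      ((σ.restrictScalars K : AlgebraicClosure L ≃ₐ[K] AlgebraicClosure L) :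
        AlgebraicClosure L →ₐ[K] AlgebraicClosure L).comp ι := AlgHom.ext h
  rw [h1]

end TR3b

open Classical in
theorem sha_hom {k : Type*} [Field k] [NumberField k] {Ω : Type*} [Field Ω] [Algebra k Ω]
    [IsAlgClosed Ω] [Algebra.IsAlgebraic k Ω] [CharZero Ω] {W : WeierstrassCurve.Affine k}
    [W.IsShortNF] [W.IsElliptic] {n b : ℕ} [NeZero n] {S : Setup W Ω n} (hb : Bad W Ω n b)
    (Φ : Fam S b) {d : ℕ} (hd : Φ.Adm d) {δ : Ω} (hδ : δ ^ n = (d : Ω)) [NumberField k⟮δ⟯] :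
    ∃ F : (Φ.T → ZMod n) →+ Sha (WeierstrassCurve.Affine.baseChange W k⟮δ⟯) Ω,
      ∀ y, F y = 0 ↔ ∃ Q, Φ.Triv y δ Q := by
  let K : IntermediateField k Ω := k⟮δ⟯
  have hδK : δ ∈ K := IntermediateField.mem_adjoin_simple_self k δ
  let c : (Φ.T → ZMod n) → (Ω ≃ₐ[K] Ω) →
      (WeierstrassCurve.Affine.baseChange (TR3_W W K) Ω).Point :=
    fun y g => (Φ.w y (TR3_res K g) : Pt W Ω)
  have hresδ : ∀ g : Ω ≃ₐ[K] Ω, TR3_res K g δ = δ := fun g => g.commutes ⟨δ, hδK⟩
  have hZ : ∀ y, IsCocycle (TR3_W W K) Ω (c y) := by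
    intro y
    refine ⟨fun g h => ?_, ?_⟩
    · have h1 := Φ.w_mul y (TR3_res K g) (TR3_res K h)
      rw [← map_mul] at h1
      rw [TR3_act]
      exact h1
    · obtain ⟨F, hF, hFw⟩ := Φ.w_cont
      obtain ⟨F', hF', hg⟩ := TR3_field K F
      exact ⟨F', hF', fun g hgF => hFw y _ (hg g hgF)⟩
  have hS : ∀ y, EverywhereTriv (TR3_W W K) Ω (c y) := by
    intro y
    refine ⟨fun v ι => ?_, fun v ι => ?_⟩
    · obtain ⟨A, q, hq, hAq, hinv⟩ := place_fin v ι
      obtain ⟨Q, hQ⟩ := local_fin Φ y hb hd hδ A q hq hAq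
      refine ⟨WeierstrassCurve.Affine.Point.map ι
        (Q : (WeierstrassCurve.Affine.baseChange (TR3_W W K) Ω).Point), fun σ g h => ?_⟩
      refine TR3_loc W K ι (c y) Q σ g h ?_
      rw [TR3_act]
      exact hQ (TR3_res K g) (hresδ g) (hinv σ g h)
    · let DK : Subgroup (Ω ≃ₐ[K] Ω) :=
        { carrier := {g | ∃ σ : AlgebraicClosure v.Completion ≃ₐ[v.Completion]
            AlgebraicClosure v.Completion, ∀ x, ι (g x) = σ (ι x)}
          mul_mem' := by
            rintro g h ⟨σ, hσ⟩ ⟨τ, hτ⟩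
            exact ⟨σ * τ, fun x => by
              change ι (g (h x)) = σ (τ (ι x))
              rw [hσ, hτ]⟩
          one_mem' := ⟨1, fun x => rfl⟩
          inv_mem' := by
            rintro g ⟨σ, hσ⟩
            refine ⟨σ⁻¹, fun x => ?_⟩
            apply σ.injective
            have h1 := hσ (g⁻¹ x)
            have h2 : g (g⁻¹ x) = x := g.apply_symm_apply x
            have h3 : σ (σ⁻¹ (ι x)) = ι x := σ.apply_symm_apply _
            rw [h3, ← h1, h2] }
      obtain ⟨Q, hQ⟩ := local_inf Φ y (DK.map (TR3_res K)) (by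
        rintro g ⟨g', ⟨σ, hσ⟩, rfl⟩ hgI
        have h1 : g' = 1 := place_inf v ι S.I S.hI σ g' hσ hgI
        rw [h1, map_one])
      refine ⟨WeierstrassCurve.Affine.Point.map ι
        (Q : (WeierstrassCurve.Affine.baseChange (TR3_W W K) Ω).Point), fun σ g h => ?_⟩
      refine TR3_loc W K ι (c y) Q σ g h ?_
      rw [TR3_act]
      exact hQ (TR3_res K g) ⟨g, ⟨σ, h⟩, rfl⟩
  let F₁ : (Φ.T → ZMod n) →+ ZSha (TR3_W W K) Ω := AddMonoidHom.mk'
    (fun y => ⟨c y, hZ y, hS y⟩) (by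
      intro y y'
      apply Subtype.ext
      funext g
      exact Φ.w_add y y' (TR3_res K g))
  let π : ZSha (TR3_W W K) Ω →+ Sha (TR3_W W K) Ω :=
    QuotientAddGroup.mk' ((BSha (TR3_W W K) Ω).addSubgroupOf (ZSha (TR3_W W K) Ω))
  refine ⟨π.comp F₁, fun y => ?_⟩
  have h1 : π.comp F₁ y = 0 ↔ (F₁ y : (Ω ≃ₐ[K] Ω) →
      (WeierstrassCurve.Affine.baseChange (TR3_W W K) Ω).Point) ∈ BSha (TR3_W W K) Ω := by
    rw [AddMonoidHom.comp_apply]
    refine (QuotientAddGroup.eq_zero_iff (N := (BSha (TR3_W W K) Ω).addSubgroupOf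
      (ZSha (TR3_W W K) Ω)) (F₁ y)).trans ?_
    exact AddSubgroup.mem_addSubgroupOf
  rw [h1]
  constructor
  · rintro ⟨Q, hQ⟩
    refine ⟨Q, fun g hg => ?_⟩
    obtain ⟨g', rfl⟩ := TR3_lift g hg
    have h2 := hQ g'
    rw [TR3_act] at h2
    exact h2
  · rintro ⟨Q, hQ⟩
    refine ⟨Q, fun g => ?_⟩
    rw [TR3_act]
    exact hQ (TR3_res K g) (hresδ g)

end H16C
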