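import Pool.Agent.Lib.H16C.SE1
import Pool.Agent.Lib.H16C.SE2
import Pool.Agent.Lib.H16C.GE5
import Pool.Agent.Lib.H16C.IM
import Pool.Agent.Lib.H16C.FN3
import Pool.Agent.Lib.H16C.FN4
import Pool.Agent.Lib.H16C.FN5
import Pool.Agent.Lib.H16C.TR3

/-!
# Main: large Tate-Shafarevich groups over `k(d^(1/n))`
-/

open NumberField IntermediateField

namespace H16C

open Classical in
theorem main {k : Type*} [Field k] [NumberField k] (W : WeierstrassCurve.Affine k) [W.IsShortNF]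
    [W.IsElliptic] (n : ℕ) (hn : 2 ≤ n) (κ : ℝ)
    (hκ : κ < (2 - Real.log 3 / Real.log 2) / (2 * (((n - 1) * Module.finrank ℚ k : ℕ) : ℝ))) :
    ∃ X₀ : ℝ, ∀ X : ℝ, X₀ ≤ X → ∃ (d : ℕ) (δ : AlgebraicClosure k) (_ : NumberField k⟮δ⟯) (r : ℕ),
      0 < d ∧ δ ^ n = (d : AlgebraicClosure k) ∧ Module.finrank k k⟮δ⟯ = n ∧
      |(discr k⟮δ⟯ : ℝ)| ≤ X ∧ κ * (Real.log X / Real.log (Real.log X)) ≤ r ∧
      ∃ f : (Fin r → ZMod n) →+
        Sha (WeierstrassCurve.Affine.baseChange W k⟮δ⟯) (AlgebraicClosure k),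
        Function.Injective f := by
  have hn0 : 0 < n := by omega
  have : NeZero n := ⟨hn0.ne'⟩
  set D : ℕ := (n - 1) * Module.finrank ℚ k with hD
  have hD0 : 0 < D := Nat.mul_pos (by omega) Module.finrank_pos
  obtain ⟨S⟩ := exists_setup (AlgebraicClosure k) W n hn0
  obtain ⟨b, hb⟩ := exists_bad (AlgebraicClosure k) W n hn0
  obtain ⟨h, hfew⟩ := few S hb
  obtain ⟨C, hC, hdisc⟩ := discr_bound k (AlgebraicClosure k) n hn0
  obtain ⟨ε, hε, hpar⟩ := params D hD0 (max 1 ((n : ℝ) * h)) C (le_max_left _ _) hC κ hκ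
  obtain ⟨x₀, hfam⟩ := exists_fam S hb hε
  obtain ⟨X₀, hX₀⟩ := hpar x₀
  refine ⟨X₀, fun X hX => ?_⟩
  obtain ⟨x, t, r, hx, ht, htx, hCX, hr, hp⟩ := hX₀ X hX
  obtain ⟨Φ, hΦt, hΦx⟩ := hfam x hx t htx
  have hne : Φ.T.Nonempty := by
    rw [← Finset.card_pos]
    omega
  obtain ⟨d, δ, hd, hδ, hdle, hcard⟩ := hfew Φ hne
  have hfin : FiniteDimensional k k⟮δ⟯ :=
    adjoin.finiteDimensional (Algebra.IsAlgebraic.isAlgebraic (R := k) δ).isIntegral
  have hNF : NumberField k⟮δ⟯ := by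
    have := Module.Finite.trans (R := ℚ) k k⟮δ⟯
    exact ⟨⟩
  have hdeg := finrank_adjoin Φ hne hd hδ
  have hd0 : 0 < d := Nat.pos_of_ne_zero hd.1
  obtain ⟨F, hF⟩ := sha_hom hb Φ hd hδ
  refine ⟨d, δ, hNF, r, hd0, hδ, hdeg, ?_, hr, ?_⟩
  · refine (hdisc d hd0 δ hδ hdeg).trans (le_trans ?_ hCX)
    refine mul_le_mul_of_nonneg_left ?_ (by linarith)
    have h1 : (∏ l ∈ insert Φ.l₁ Φ.T, l) ≤ x ^ (t + 1) := by
      have h2 : (insert Φ.l₁ Φ.T).card = t + 1 := by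
        rw [Finset.card_insert_of_notMem Φ.not_mem, hΦt]
      rw [← h2]
      exact Finset.prod_le_pow_card _ _ _ hΦx
    have h3 : d ^ D ≤ x ^ (2 * (t + 1) * D) := by
      calc d ^ D ≤ ((x ^ (t + 1)) ^ 2) ^ D :=
            Nat.pow_le_pow_left (hdle.trans (Nat.pow_le_pow_left h1 2)) D
        _ = x ^ (2 * (t + 1) * D) := by
            rw [← pow_mul, ← pow_mul]
            congr 1
            ring
    exact_mod_cast h3
  · refine embed F r fun p hpp hpn => ?_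
    have h1 := hcard p hpp hpn
    have h2 := hp p hpp.two_le
    have hpos : (0 : ℝ) ≤ (2 - 1 / (p : ℝ)) ^ t := by
      have : (1 : ℝ) / p ≤ 1 := by
        rw [div_le_one (by exact_mod_cast hpp.pos)]
        exact_mod_cast hpp.one_le
      exact pow_nonneg (by linarith) _
    have h3 : (Nat.card {y : Φ.T → ZMod n // (∃ Q, Φ.Triv y δ Q) ∧
          ∀ i, ∃ u : ZMod n, y i = ((n / p : ℕ) : ZMod n) * u} : ℝ) * (p : ℝ) ^ r ≤ (p : ℝ) ^ t := by
      refine le_trans ?_ h2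
      refine mul_le_mul_of_nonneg_right ?_ (by positivity)
      rw [hΦt] at h1
      refine h1.trans ?_
      exact mul_le_mul_of_nonneg_right (le_max_right _ _) hpos
    have h4 : Nat.card {y : Φ.T → ZMod n // F y = 0 ∧
        ∀ i, ∃ u : ZMod n, y i = ((n / p : ℕ) : ZMod n) * u} =
        Nat.card {y : Φ.T → ZMod n // (∃ Q, Φ.Triv y δ Q) ∧
          ∀ i, ∃ u : ZMod n, y i = ((n / p : ℕ) : ZMod n) * u} := by
      refine Nat.card_congr (Equiv.subtypeEquivRight fun y => ?_)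
      rw [hF y]
    rw [h4, Fintype.card_coe, hΦt]
    exact_mod_cast h3

end H16C
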