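import Pool.Agent.Lib.H16C.W1

/-!
# W2 (M): the cocycles `w_y` on `N`

By `cor_of_mem`, for `g ∈ N`: `w y g = ∑ x : G ⧸ N, rho x.out (f y (x.out⁻¹ g x.out))`,
`f y g = e (∑ l, y l * kap S.ζ (α l) g)`.
`w_zero`: every `kap S.ζ (α l) (x.out⁻¹ g x.out)` is `0` (`kap_eq_zero_iff`).
`w_loc`: the terms of the sum with `x.out ∉ N` vanish, and in the term `x = N` (`x.out ∈ N`) only
`l = l₀` remains: `kap (c⁻¹ g c) = kap g` for `c ∈ N` (`kap_mul`, commutativity of `ℤ/n`) and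
`rho W c` fixes `e` (`fix_tors`, `nsmul_e`).
`exists_field`: `F` = the field generated by `L` and all the `h (α l)`, `h ∈ G`, `l ∈ T`: these are
roots of the polynomials `X^n - c`, `c` among the finitely many conjugates of `a l` (roots of the
minimal polynomial over `k`); so a finite set of algebraic elements and `F` is finite over `k`; `F` is
stable because `L` (`Setup.stab`) and the set are.
`w_cont`: `exists_field` and `w_zero` (`F.fixingSubgroup ≤ N` since `L ≤ F`).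
-/

open WeierstrassCurve

namespace H16C

variable {k : Type*} [Field k] {Ω : Type*} [Field Ω] [Algebra k Ω] [IsAlgClosed Ω]
  [Algebra.IsAlgebraic k Ω] [CharZero Ω] [DecidableEq Ω] {W : WeierstrassCurve.Affine k}
  {n b : ℕ} [NeZero n]

variable {S : Setup W Ω n} (Φ : Fam S b) (y : Φ.T → ZMod n)

theorem W2_alpha_ne (Φ : Fam S b) {l : ℕ} (hl : l ∈ Φ.T) : Φ.α l ≠ 0 := by
  intro h0
  apply Φ.ne l hl
  rw [← Φ.pow l hl, h0, zero_pow (NeZero.ne n)]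

theorem W2_pow (Φ : Fam S b) {l : ℕ} (hl : l ∈ Φ.T) {g : Ω ≃ₐ[k] Ω} (hg : g ∈ S.N) :
    g (Φ.α l ^ n) = Φ.α l ^ n := by
  rw [Φ.pow l hl]
  exact (IntermediateField.mem_fixingSubgroup_iff _ _).1 hg _ (Φ.mem l hl)

theorem W2_conj {g : Ω ≃ₐ[k] Ω} (hg : g ∈ S.N) (c : Ω ≃ₐ[k] Ω) : c⁻¹ * g * c ∈ S.N := by
  have h1 := (S.normal_N).conj_mem g hg c⁻¹
  rwa [inv_inv] at h1

theorem W2_kap_zero (Φ : Fam S b) {l : ℕ} (hl : l ∈ Φ.T) {g : Ω ≃ₐ[k] Ω} (hg : g ∈ S.N)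
    (c : Ω ≃ₐ[k] Ω) (h : g (c (Φ.α l)) = c (Φ.α l)) :
    (kap S.ζ (Φ.α l) (c⁻¹ * g * c) : ZMod n) = 0 := by
  rw [kap_eq_zero_iff S.hζ (W2_alpha_ne Φ hl) (W2_pow Φ hl (W2_conj hg c))]
  show c⁻¹ (g (c (Φ.α l))) = Φ.α l
  rw [h]
  exact c.symm_apply_apply _

theorem Fam.w_zero {g : Ω ≃ₐ[k] Ω} (hg : g ∈ S.N)
    (h : ∀ h : Ω ≃ₐ[k] Ω, ∀ l ∈ Φ.T, g (h (Φ.α l)) = h (Φ.α l)) : Φ.w y g = 0 := by
  unfold Fam.w
  rw [cor_of_mem (rho W) S.N g hg]
  have h1 : ∀ x : (Ω ≃ₐ[k] Ω) ⧸ S.N, rho W x.out (Φ.f y (x.out⁻¹ * g * x.out)) = 0 := by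
    intro x
    have h2 : Φ.f y (x.out⁻¹ * g * x.out) = 0 := by
      unfold Fam.f
      have h3 : ∑ l : Φ.T, y l * (kap S.ζ (Φ.α l) (x.out⁻¹ * g * x.out) : ZMod n) = 0 := by
        refine Finset.sum_eq_zero fun l _ => ?_
        rw [W2_kap_zero Φ l.2 hg _ (h _ l l.2), mul_zero]
      rw [h3, map_zero]
    rw [h2, map_zero]
  rw [finsum_congr h1, finsum_zero]

theorem W2_kap_conj (Φ : Fam S b) {l : ℕ} (hl : l ∈ Φ.T) {g : Ω ≃ₐ[k] Ω} (hg : g ∈ S.N)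
    {c : Ω ≃ₐ[k] Ω} (hc : c ∈ S.N) :
    (kap S.ζ (Φ.α l) (c⁻¹ * g * c) : ZMod n) = kap S.ζ (Φ.α l) g := by
  have hβ := W2_alpha_ne Φ hl
  have hc' : c⁻¹ ∈ S.N := S.N.inv_mem hc
  have hfix : ∀ g ∈ S.N, g S.ζ = S.ζ := fun g hg => (S.fix g hg).1
  have hcg : c⁻¹ * g ∈ S.N := S.N.mul_mem hc' hg
  rw [kap_mul S.hζ hβ (hfix _ hcg) (W2_pow Φ hl hcg) (W2_pow Φ hl hc),
    kap_mul S.hζ hβ (hfix _ hc') (W2_pow Φ hl hc') (W2_pow Φ hl hg)]
  have h1 : (kap S.ζ (Φ.α l) (c⁻¹ * c) : ZMod n) = 0 := by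
    rw [inv_mul_cancel, kap_eq_zero_iff S.hζ hβ (W2_pow Φ hl S.N.one_mem)]
    rfl
  rw [kap_mul S.hζ hβ (hfix _ hc') (W2_pow Φ hl hc') (W2_pow Φ hl hc)] at h1
  linear_combination h1

theorem Fam.w_loc {g : Ω ≃ₐ[k] Ω} (hg : g ∈ S.N) (l₀ : Φ.T)
    (h : ∀ h : Ω ≃ₐ[k] Ω, ∀ l ∈ Φ.T, (h ∉ S.N ∨ l ≠ l₀) → g (h (Φ.α l)) = h (Φ.α l)) :
    Φ.w y g = S.e (y l₀ * kap S.ζ (Φ.α l₀) g) := by
  unfold Fam.w
  rw [cor_of_mem (rho W) S.N g hg, finsum_eq_single _ (QuotientGroup.mk 1)]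
  · set c : Ω ≃ₐ[k] Ω := (QuotientGroup.mk 1 : (Ω ≃ₐ[k] Ω) ⧸ S.N).out with hc
    have hcN : c ∈ S.N := by
      have h1 : (QuotientGroup.mk c : (Ω ≃ₐ[k] Ω) ⧸ S.N) = QuotientGroup.mk 1 :=
        QuotientGroup.out_eq' _
      rw [eq_comm, QuotientGroup.eq, inv_one, one_mul] at h1
      exact h1
    have h1 : Φ.f y (c⁻¹ * g * c) = S.e (y l₀ * kap S.ζ (Φ.α l₀) g) := by
      unfold Fam.f
      congr 1
      rw [Finset.sum_eq_single l₀]
      · rw [W2_kap_conj Φ l₀.2 hg hcN]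
      · intro l _ hl
        rw [W2_kap_zero Φ l.2 hg _ (h _ l l.2 (Or.inr fun h' => hl (Subtype.ext h'))), mul_zero]
      · intro hl
        exact absurd (Finset.mem_univ _) hl
    rw [h1]
    exact S.fix_tors hcN (S.nsmul_e _)
  · intro x hx
    have hxN : x.out ∉ S.N := by
      intro hxN
      apply hx
      have h1 : (QuotientGroup.mk x.out : (Ω ≃ₐ[k] Ω) ⧸ S.N) = x := QuotientGroup.out_eq' x
      rw [← h1, eq_comm, QuotientGroup.eq, inv_one, one_mul]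
      exact hxN
    have h2 : Φ.f y (x.out⁻¹ * g * x.out) = 0 := by
      unfold Fam.f
      have h3 : ∑ l : Φ.T, y l * (kap S.ζ (Φ.α l) (x.out⁻¹ * g * x.out) : ZMod n) = 0 := by
        refine Finset.sum_eq_zero fun l _ => ?_
        rw [W2_kap_zero Φ l.2 hg _ (h _ l l.2 (Or.inl hxN)), mul_zero]
      rw [h3, map_zero]
    rw [h2, map_zero]

/-- a finite, stable extension of `k` that contains `L` and the conjugates of the `α l` -/
theorem Fam.exists_field : ∃ F : IntermediateField k Ω, FiniteDimensional k F ∧ S.L ≤ F ∧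
    (∀ (g : Ω ≃ₐ[k] Ω), ∀ x ∈ F, g x ∈ F) ∧
    ∀ h : Ω ≃ₐ[k] Ω, ∀ l ∈ Φ.T, h (Φ.α l) ∈ F := by
  classical
  set A : Set Ω := {x | ∃ (h : Ω ≃ₐ[k] Ω) (l : ℕ), l ∈ Φ.T ∧ h (Φ.α l) = x} with hA
  have hAfin : A.Finite := by
    have h1 : A ⊆ ⋃ l ∈ (Φ.T : Set ℕ), (minpoly k (Φ.α l)).rootSet Ω := by
      rintro x ⟨h, l, hl, rfl⟩
      rw [Set.mem_iUnion₂]
      refine ⟨l, hl, ?_⟩
      have hint : IsIntegral k (Φ.α l) := Algebra.IsIntegral.isIntegral _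
      rw [Polynomial.mem_rootSet]
      refine ⟨minpoly.ne_zero hint, ?_⟩
      have h2 := Polynomial.aeval_algHom_apply (h : Ω →ₐ[k] Ω) (Φ.α l) (minpoly k (Φ.α l))
      rw [minpoly.aeval, map_zero] at h2
      exact h2
    exact (Set.Finite.biUnion Φ.T.finite_toSet fun l _ => Polynomial.rootSet_finite _ _).subset h1
  have hAf : Finite A := hAfin
  have hfd1 : FiniteDimensional k (IntermediateField.adjoin k A) :=
    IntermediateField.finiteDimensional_adjoin fun x _ => Algebra.IsIntegral.isIntegral x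
  have hfd2 : FiniteDimensional k S.L := S.fin
  refine ⟨S.L ⊔ IntermediateField.adjoin k A, inferInstance, le_sup_left, ?_, ?_⟩
  · intro g
    have h1 : S.L ⊔ IntermediateField.adjoin k A ≤
        (S.L ⊔ IntermediateField.adjoin k A).comap (g : Ω →ₐ[k] Ω) := by
      refine sup_le ?_ ?_
      · intro x hx
        exact (le_sup_left : S.L ≤ S.L ⊔ IntermediateField.adjoin k A) (S.stab g x hx)
      · rw [IntermediateField.adjoin_le_iff]
        rintro x ⟨h, l, hl, rfl⟩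
        refine (le_sup_right : IntermediateField.adjoin k A ≤ S.L ⊔ IntermediateField.adjoin k A) ?_
        exact IntermediateField.subset_adjoin k A ⟨g * h, l, hl, rfl⟩
    intro x hx
    exact h1 hx
  · intro h l hl
    exact (le_sup_right : IntermediateField.adjoin k A ≤ S.L ⊔ IntermediateField.adjoin k A)
      (IntermediateField.subset_adjoin k A ⟨h, l, hl, rfl⟩)

theorem Fam.w_cont : ∃ F : IntermediateField k Ω, FiniteDimensional k F ∧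
    ∀ y : Φ.T → ZMod n, ∀ g ∈ F.fixingSubgroup, Φ.w y g = 0 := by
  obtain ⟨F, hF, hL, -, hα⟩ := Φ.exists_field
  refine ⟨F, hF, fun y g hg => ?_⟩
  rw [IntermediateField.mem_fixingSubgroup_iff] at hg
  refine Φ.w_zero y ?_ fun h l hl => hg _ (hα h l hl)
  rw [IntermediateField.mem_fixingSubgroup_iff]
  exact fun x hx => hg x (hL hx)

end H16C
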