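import Pool.Agent.Lib.H16C.RM
import Pool.Agent.Lib.H16C.SE3
import Pool.Agent.Lib.H16C.W2

/-!
# PT0 (S/M): an inertia element `g₀` with `g₀ δ = ζ δ`; the degree of `k(δ)`

`exists_g0`: `A` a place with `S.Loc l (a l) A`, `d` admissible, `δ^n = d`, `E` any finite extension
of `k`.  Let `F` be a finite extension of `k`, stable under `Gal(Ω/k)`, containing `E`, `L`, `δ` and the
`h (α l)` (e.g. normal closure of the compositum; `Fam.exists_field`).  `exists_inert` for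
`S.L ≤ F`, `q = l`, `ζ = S.ζ ∈ L` (`Setup.mem_L`), `d ∈ L`, `v d = v l < 1` (`Adm`),
`hgen` = `Loc.unr`.
`finrank_adjoin`: for `L`-conjugates: `g₀^i δ = ζ^i δ`, `i < n`, are `n` different conjugates of `δ`
over `k`, so the minimal polynomial of `δ` over `k` has degree `≥ n`; it divides `X^n - d`.
`[k⟮δ⟯ : k]` = degree of the minimal polynomial (`IntermediateField.adjoin.finrank`).
-/

open IntermediateField

namespace H16C

variable {k : Type*} [Field k] [NumberField k] {Ω : Type*} [Field Ω] [Algebra k Ω] [IsAlgClosed Ω]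
  [Algebra.IsAlgebraic k Ω] [CharZero Ω] [DecidableEq Ω] {W : WeierstrassCurve.Affine k}
  [W.IsShortNF] [W.IsElliptic] {n b : ℕ} [NeZero n] {S : Setup W Ω n} (Φ : Fam S b)

theorem exists_g0 (l : Φ.T) {A : ValuationSubring Ω} (hA : S.Loc l (Φ.a l) A) {d : ℕ}
    (hd : Φ.Adm d) {δ : Ω} (hδ : δ ^ n = (d : Ω)) (E : IntermediateField k Ω)
    [FiniteDimensional k E] :
    ∃ F : IntermediateField k Ω, FiniteDimensional k F ∧ E ≤ F ∧ S.L ≤ F ∧ δ ∈ F ∧
      (∀ h : Ω ≃ₐ[k] Ω, ∀ l ∈ Φ.T, h (Φ.α l) ∈ F) ∧ (∀ (g : Ω ≃ₐ[k] Ω), ∀ x ∈ F, g x ∈ F) ∧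
      ∃ g₀ ∈ S.N, Inert A F g₀ ∧ g₀ δ = S.ζ * δ := by
  obtain ⟨F₁, hF₁, hL, -, hα⟩ := Φ.exists_field
  have hfd1 : FiniteDimensional k k⟮δ⟯ :=
    IntermediateField.adjoin.finiteDimensional (Algebra.IsIntegral.isIntegral δ)
  have : IsAlgClosure k Ω := ⟨inferInstance, inferInstance⟩
  have : Normal k Ω := IsAlgClosure.normal k Ω
  let K : IntermediateField k Ω := E ⊔ (k⟮δ⟯ ⊔ F₁)
  have hK : FiniteDimensional k K := inferInstance
  let F : IntermediateField k Ω := IntermediateField.normalClosure k K Ω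
  have hF : FiniteDimensional k F := inferInstance
  have hFn : Normal k F := inferInstance
  have hKF : K ≤ F := IntermediateField.le_normalClosure K
  have hst : ∀ (g : Ω ≃ₐ[k] Ω), ∀ x ∈ F, g x ∈ F := by
    intro g x hx
    have h1 := (IntermediateField.normal_iff_forall_map_le'.1 hFn) g
    exact h1 ⟨x, hx, rfl⟩
  have hEF : E ≤ F := le_sup_left.trans hKF
  have hδF : δ ∈ F := hKF ((le_sup_right : k⟮δ⟯ ⊔ F₁ ≤ K)
    ((le_sup_left : k⟮δ⟯ ≤ k⟮δ⟯ ⊔ F₁) (IntermediateField.mem_adjoin_simple_self k δ)))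
  have hF1F : F₁ ≤ F := (le_sup_right.trans (le_sup_right : k⟮δ⟯ ⊔ F₁ ≤ K)).trans hKF
  refine ⟨F, hF, hEF, hL.trans hF1F, hδF, fun h l hl => hF1F (hα h l hl), hst, ?_⟩
  have hζL : S.ζ ∈ S.L := S.mem_L fun g hg => (S.fix g hg).1
  have hlt : A.valuation ((l : ℕ) : Ω) < 1 := hA.lt
  have hvd : A.valuation (d : Ω) = A.valuation ((l : ℕ) : Ω) :=
    hd.2 A l (Finset.mem_insert_of_mem l.2) hlt
  obtain ⟨g, hg, hgi, hgd⟩ := exists_inert S.L F (hL.trans hF1F) (fun g _ x hx => hst g x hx) A l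
    (Φ.prime l l.2) hlt n (Nat.pos_of_ne_zero (NeZero.ne n)) S.ζ S.hζ hζL δ d hδ hδF
    (_root_.natCast_mem S.L d) (by exact_mod_cast hd.1) (by rw [hvd]; exact hlt)
    (fun z hz hz0 => by rw [hvd]; exact hA.unr z hz hz0)
  exact ⟨g, hg, hgi, hgd⟩

theorem finrank_adjoin (hT : Φ.T.Nonempty) {d : ℕ} (hd : Φ.Adm d) {δ : Ω}
    (hδ : δ ^ n = (d : Ω)) : Module.finrank k k⟮δ⟯ = n := by
  classical
  obtain ⟨l, hl⟩ := hT
  obtain ⟨A, hA⟩ := Φ.loc l hl
  obtain ⟨F, -, -, -, -, -, -, g₀, hg₀N, -, hg₀⟩ := exists_g0 Φ ⟨l, hl⟩ hA hd hδ ⊥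
  have hint : IsIntegral k δ := Algebra.IsIntegral.isIntegral δ
  have hn : n ≠ 0 := NeZero.ne n
  have hδ0 : δ ≠ 0 := by
    intro h0
    rw [h0, zero_pow hn] at hδ
    exact hd.1 (by exact_mod_cast hδ.symm)
  have hζ : g₀ S.ζ = S.ζ := (S.fix g₀ hg₀N).1
  have hpow : ∀ i : ℕ, (g₀ ^ i) δ = S.ζ ^ i * δ := by
    intro i
    induction i with
    | zero => rw [pow_zero, pow_zero, one_mul]; rfl
    | succ i ih =>
      rw [pow_succ', AlgEquiv.mul_apply, ih, map_mul, map_pow, hζ, hg₀, pow_succ]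
      ring
  rw [IntermediateField.adjoin.finrank hint]
  apply le_antisymm
  · have h1 : minpoly k δ ∣ Polynomial.X ^ n - Polynomial.C (d : k) := by
      apply minpoly.dvd
      simp [hδ]
    have h2 := Polynomial.natDegree_le_of_dvd h1 (Polynomial.X_pow_sub_C_ne_zero
      (Nat.pos_of_ne_zero hn) _)
    rwa [Polynomial.natDegree_X_pow_sub_C] at h2
  · have hmin : minpoly k δ ≠ 0 := minpoly.ne_zero hint
    have h1 : (Finset.range n).image (fun i => S.ζ ^ i * δ) ⊆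
        ((minpoly k δ).map (algebraMap k Ω)).roots.toFinset := by
      intro x hx
      rw [Finset.mem_image] at hx
      obtain ⟨i, -, rfl⟩ := hx
      rw [Multiset.mem_toFinset, Polynomial.mem_roots
        ((Polynomial.map_ne_zero_iff (algebraMap k Ω).injective).2 hmin), Polynomial.IsRoot.def,
        Polynomial.eval_map_algebraMap, ← hpow i]
      have h2 := Polynomial.aeval_algHom_apply ((g₀ ^ i : Ω ≃ₐ[k] Ω) : Ω →ₐ[k] Ω) δ (minpoly k δ)
      rw [minpoly.aeval, map_zero] at h2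
      exact h2
    have h2 : ((Finset.range n).image (fun i => S.ζ ^ i * δ)).card = n := by
      rw [Finset.card_image_of_injOn, Finset.card_range]
      intro i hi j hj hij
      have h3 : S.ζ ^ i = S.ζ ^ j := mul_right_cancel₀ hδ0 hij
      exact S.hζ.pow_inj (Finset.mem_range.1 hi) (Finset.mem_range.1 hj) h3
    calc n = ((Finset.range n).image (fun i => S.ζ ^ i * δ)).card := h2.symm
      _ ≤ ((minpoly k δ).map (algebraMap k Ω)).roots.toFinset.card := Finset.card_le_card h1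
      _ ≤ Multiset.card ((minpoly k δ).map (algebraMap k Ω)).roots := Multiset.toFinset_card_le _
      _ ≤ ((minpoly k δ).map (algebraMap k Ω)).natDegree := Polynomial.card_roots' _
      _ = (minpoly k δ).natDegree := Polynomial.natDegree_map _

end H16C
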