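import Pool.Agent.Lib.H16C.RU
import Pool.Agent.Lib.H16C.VC
import Pool.Agent.Lib.H16C.W2

/-!
# PT1 (S/M): `w_y` at the inertia elements above `l ∈ T`

`A` a place with `S.Loc l (a l) A`, `v = A.valuation`.  `¬ l ∣ b` and `v(l) < 1` give `v(b) = 1`
(`dvd_of_val`, `int_le`), so `v(n) = 1`.  `g ∈ N` inert on `F ⊇ L`.  `w_loc`: for `h`, `l'` with
`h ∉ N` or `l' ≠ l` put `β = h (α l')`, `c = β^n = h (a l') ∈ L`: `v c = 1` (`l' ≠ l`: `Fam.val'`,
`v(l') < 1` and `v(l₁) < 1` are impossible because different primes are coprime (`dvd_of_val`),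
`l₁ ∉ T`; `l' = l`, `h ∉ N`: `Loc.conj`), so `v β = 1`, `v(g β - β) < 1`, `(g β)^n = β^n`: `g β = β`
(`fixed_of_unit`).  So `w y g = e (y l * kap ζ (α l) g)`.
`kap ζ (α l) g = kap ζ δ g`: `η = α l / δ ∈ F`, `η^n = a l / d`, `v η = 1` (`Loc.eq`, `Adm`), so
`g η = η`, and `g (α l)/(α l) = g δ/δ` (`kap_spec`, `kap_eq`).
-/

namespace H16C

variable {k : Type*} [Field k] [NumberField k] {Ω : Type*} [Field Ω] [Algebra k Ω] [IsAlgClosed Ω]
  [Algebra.IsAlgebraic k Ω] [CharZero Ω] [DecidableEq Ω] {W : WeierstrassCurve.Affine k}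
  [W.IsShortNF] [W.IsElliptic] {n b : ℕ} [NeZero n] {S : Setup W Ω n} (Φ : Fam S b) (y : Φ.T → ZMod n)

/-- an element that is inert on `F` fixes an `n`-th root of an element it fixes, up to units -/
theorem PT1_fix {k : Type*} [Field k] {Ω : Type*} [Field Ω] [Algebra k Ω] {n : ℕ} [NeZero n]
    {A : ValuationSubring Ω} (hAn : A.valuation (n : Ω) = 1) {F : IntermediateField k Ω}
    {g : Ω ≃ₐ[k] Ω} (hg : Inert A F g) {η : Ω} (hη : η ∈ F) (hv : A.valuation (η ^ n) = 1)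
    (hgη : g (η ^ n) = η ^ n) : g η = η := by
  have hn : n ≠ 0 := NeZero.ne n
  have h1 : A.valuation η = 1 := by
    rw [map_pow] at hv
    exact (pow_eq_one_iff.1 hv).resolve_right hn
  refine fixed_of_unit A.valuation hAn h1 ?_ (hg η hη h1.le)
  rw [← map_pow, hgη]

/-- two different primes are not both in the maximal ideal -/
theorem PT1_prime {Ω : Type*} [Field Ω] {A : ValuationSubring Ω}
    {l l' : ℕ} (hl : l.Prime) (hl' : l'.Prime) (h : A.valuation (l : Ω) < 1)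
    (h' : A.valuation (l' : Ω) < 1) : l = l' := by
  have h1 : (l : ℤ) ∣ (l' : ℤ) := dvd_of_val (z := (l' : ℤ)) hl h (by simpa using h')
  exact (Nat.prime_dvd_prime_iff_eq hl hl').1 (Int.natCast_dvd_natCast.1 h1)

theorem val_b_eq_one {A : ValuationSubring Ω} {l : ℕ} (hl : l ∈ Φ.T) (h : A.valuation (l : Ω) < 1) :
    A.valuation (b : Ω) = 1 := by
  refine le_antisymm (by simpa using int_le A (b : ℤ)) (not_lt.1 fun h1 => ?_)
  have h2 : (l : ℤ) ∣ (b : ℤ) := dvd_of_val (z := (b : ℤ)) (Φ.prime l hl) h (by simpa using h1)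
  exact Φ.good l hl (Int.natCast_dvd_natCast.1 h2)

theorem w_inert (hb : Bad W Ω n b) (l : Φ.T) {A : ValuationSubring Ω} (hA : S.Loc l (Φ.a l) A)
    {d : ℕ} (hd : Φ.Adm d) {δ : Ω} (hδ : δ ^ n = (d : Ω)) {F : IntermediateField k Ω}
    (hLF : S.L ≤ F) (hα : ∀ h : Ω ≃ₐ[k] Ω, ∀ l ∈ Φ.T, h (Φ.α l) ∈ F) (hδF : δ ∈ F)
    {g : Ω ≃ₐ[k] Ω} (hgN : g ∈ S.N) (hg : Inert A F g) :
    Φ.w y g = S.e (y l * kap S.ζ δ g) := by
  have hn : n ≠ 0 := NeZero.ne n
  have hAb : A.valuation (b : Ω) = 1 := val_b_eq_one Φ l.2 hA.lt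
  have hAn : A.valuation (n : Ω) = 1 := by
    obtain ⟨m, hm⟩ := hb.dvd
    have h1 : (b : Ω) = (n : Ω) * ((6 * m : ℤ) : Ω) := by
      rw [hm]
      push_cast
      ring
    refine le_antisymm (by simpa using int_le A (n : ℤ)) ?_
    rw [← hAb, h1, map_mul]
    exact mul_le_of_le_one_right' (int_le A (6 * m : ℤ))
  have hd0 : (d : Ω) ≠ 0 := Nat.cast_ne_zero.2 hd.1
  have hδ0 : δ ≠ 0 := by
    rintro rfl
    rw [zero_pow hn] at hδ
    exact hd0 hδ.symm
  have hgd : g (d : Ω) = (d : Ω) := map_natCast g d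
  have hgc : ∀ (h : Ω ≃ₐ[k] Ω), ∀ l ∈ Φ.T, g (h (Φ.a l)) = h (Φ.a l) := fun h l hl =>
    (IntermediateField.mem_fixingSubgroup_iff _ _).1 hgN _ (S.stab h _ (Φ.mem l hl))
  rw [Φ.w_loc y hgN l]
  · have hc : (Φ.α l) ^ n = Φ.a l := Φ.pow l l.2
    have hα0 : Φ.α l ≠ 0 := by
      intro h0
      rw [h0, zero_pow hn] at hc
      exact Φ.ne l l.2 hc.symm
    have hgc1 : g (Φ.a l) = Φ.a l := hgc 1 l l.2
    have hv : A.valuation (d : Ω) = A.valuation ((l : ℕ) : Ω) :=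
      hd.2 A l (Finset.mem_insert_of_mem l.2) hA.lt
    have hpow : (Φ.α l / δ) ^ n = Φ.a l / (d : Ω) := by
      rw [div_pow, hc, hδ]
    have h3 : g (Φ.α l / δ) = Φ.α l / δ := by
      refine PT1_fix hAn hg (F.div_mem (hα 1 l l.2) hδF) ?_ ?_
      · rw [hpow, map_div₀, hA.eq, hv, div_self]
        rw [← hv, Valuation.ne_zero_iff]
        exact hd0
      · rw [hpow, map_div₀, hgc1, hgd]
    have h4 : g δ = S.ζ ^ (kap S.ζ δ g : ZMod n).val * δ :=
      kap_spec S.hζ hδ0 (by rw [hδ, hgd])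
    have h5 : (kap S.ζ (Φ.α l) g : ZMod n) = ((kap S.ζ δ g : ZMod n).val : ℕ) := by
      refine kap_eq S.hζ hα0 ?_
      have hgδ0 : g δ ≠ 0 := by
        rw [Ne, map_eq_zero]
        exact hδ0
      rw [map_div₀, div_eq_div_iff hgδ0 hδ0, h4] at h3
      have h6 : g (Φ.α l) * δ = (S.ζ ^ (kap S.ζ δ g : ZMod n).val * Φ.α l) * δ := by
        rw [h3]
        ring
      exact mul_right_cancel₀ hδ0 h6
    rw [h5, ZMod.natCast_zmod_val]
  · intro h l' hl' hor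
    have hc : h (Φ.α l') ^ n = h (Φ.a l') := by rw [← map_pow, Φ.pow l' hl']
    have hv : A.valuation (h (Φ.a l')) = 1 := by
      by_cases hll : l' = l
      · subst hll
        rcases hor with h1 | h1
        · exact hA.conj h h1
        · exact absurd rfl h1
      · rcases Φ.val' A h hl' with h1 | ⟨h1, -⟩ | ⟨h1, -⟩
        · exact h1
        · exact absurd (PT1_prime (Φ.prime l' hl') (Φ.prime l l.2) h1 hA.lt) hll
        · have h2 := PT1_prime Φ.prime₁ (Φ.prime l l.2) h1 hA.lt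
          exact absurd (h2 ▸ l.2) Φ.not_mem
    exact PT1_fix hAn hg (hα h l' hl') (by rw [hc, hv]) (by rw [hc, hgc h l' hl'])

end H16C
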