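import Pool.Agent.Lib.H16C.PT3

/-!
# PT2 (M): the point `P ∈ E(L)` attached to a trivialisation over `k(δ)`

`Φ.Triv y δ Q`: `w y g = g Q - Q` for `g δ = δ`.  For `g ∈ N` put `φ(g) = g Q - w y g`.
(1) `φ(g)` depends only on `kap ζ δ g`: if `g, g' ∈ N`, `kap g = kap g'` then `h = g⁻¹ g' ∈ N` fixes
`δ`, `h Q = Q + w y h`, `w y (g h) = w y g + w y h` (`w_hom`; `rho W g (w y h) = w y h`,
`fix_tors`), so `φ(g h) = g Q + g (w y h) - w y g - w y h = φ(g)`.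
(2) Choose (`exists_g0` for some `l ∈ T`, `Φ.loc`) `c ∈ N` with `c δ = ζ δ`, and
`P = ∑ i < n, φ(c^i)`.  For `h ∈ N`: `h φ(g) = φ(h g) + w y h`, and `h c^i` has
`kap = kap h + i`: so `h P = P + n w y h = P` (the sum over `ZMod n` is shifted).
(3) Let `S.Loc l (a l) A`, `g₀ ∈ N` inert on `F ∋ xc Q, yc Q` with `g₀ δ = ζ δ` (`exists_g0` with
`E = k(xc Q, yc Q)`, finite because `Ω/k` is algebraic).  By (1) `P = ∑ i < n, φ(g₀^i)`;
`w y (g₀^i) = i w y g₀ = i e(y l)` (`w_hom`, `w_inert`, `kap = 1` (`kap_eq`)), and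
`g₀^i Q - Q ∈ E₁` (`g₀^i` is inert on `F`, `F` stable: `rho_sub_mem`, `e1_add`).  So
`P - n Q + (n(n-1)/2) e(y l) = ∑ i < n (g₀^i Q - Q) ∈ E₁`
(`∑ i < n, i = n (n-1)/2`, `Finset.sum_range_id`).
-/

namespace H16C

variable {k : Type*} [Field k] [NumberField k] {Ω : Type*} [Field Ω] [Algebra k Ω] [IsAlgClosed Ω]
  [Algebra.IsAlgebraic k Ω] [CharZero Ω] [DecidableEq Ω] {W : WeierstrassCurve.Affine k}
  [W.IsShortNF] [W.IsElliptic] {n b : ℕ} [NeZero n] {S : Setup W Ω n} (Φ : Fam S b) (y : Φ.T → ZMod n)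

/-- `P` is the trace point of `Q` -/
def Fam.IsTrace (Q P : Pt W Ω) : Prop :=
  (∀ g ∈ S.N, rho W g P = P) ∧ ∀ (l : Φ.T) (A : ValuationSubring Ω), S.Loc l (Φ.a l) A →
    InE1 A.valuation (P - n • Q + (n * (n - 1) / 2) • S.e (y l))

omit [NeZero n] in
theorem PT2_sum_zmod {M : Type*} [AddCommMonoid M] [NeZero n] (f : ℕ → M) :
    ∑ z : ZMod n, f z.val = ∑ i ∈ Finset.range n, f i := by
  obtain ⟨m, rfl⟩ := Nat.exists_eq_succ_of_ne_zero (NeZero.ne n)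
  exact Fin.sum_univ_eq_sum_range f (m + 1)

theorem exists_trace (hb : Bad W Ω n b) (hT : Φ.T.Nonempty) {d : ℕ} (hd : Φ.Adm d) {δ : Ω}
    (hδ : δ ^ n = (d : Ω)) {Q : Pt W Ω} (hQ : Φ.Triv y δ Q) : ∃ P, Φ.IsTrace y Q P := by
  have hδ0 : δ ≠ 0 := by
    intro h
    rw [h, zero_pow (NeZero.ne n)] at hδ
    exact hd.1 (by exact_mod_cast hδ.symm)
  have hfix : ∀ g : Ω ≃ₐ[k] Ω, g (δ ^ n) = δ ^ n := by
    intro g
    rw [hδ, map_natCast]
  -- the function `φ`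
  obtain ⟨φ, hφ⟩ : ∃ φ : (Ω ≃ₐ[k] Ω) → Pt W Ω, ∀ g, φ g = rho W g Q - Φ.w y g := ⟨_, fun _ => rfl⟩
  -- `φ g` depends only on the Kummer character
  have hφ1 : ∀ g g' : Ω ≃ₐ[k] Ω, g ∈ S.N → g' ∈ S.N →
      (kap S.ζ δ g : ZMod n) = kap S.ζ δ g' → φ g = φ g' := by
    intro g g' hg hg' hkap
    obtain ⟨h, hh⟩ : ∃ h : Ω ≃ₐ[k] Ω, h = g⁻¹ * g' := ⟨_, rfl⟩
    have hgh : g' = g * h := by rw [hh]; group
    have hhN : h ∈ S.N := by rw [hh]; exact S.N.mul_mem (S.N.inv_mem hg) hg'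
    have hhδ : h δ = δ := by
      have h1 : g (h δ) = g δ := by
        rw [← AlgEquiv.mul_apply, ← hgh, kap_spec S.hζ hδ0 (hfix g'), ← hkap,
          ← kap_spec S.hζ hδ0 (hfix g)]
      exact g.injective h1
    have hQh := hQ h hhδ
    have hQh' : rho W h Q = Q + Φ.w y h := by rw [hQh]; abel
    have e1 : rho W g' Q = rho W g Q + Φ.w y h := by
      rw [hgh, map_mul]
      change rho W g (rho W h Q) = _
      rw [hQh', map_add, S.fix_tors hg (Φ.nsmul_w y h)]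
    rw [hφ, hφ, e1, hgh, Φ.w_hom y hg hhN]
    abel
  -- the element `c`
  obtain ⟨l₀, hl₀⟩ := hT
  obtain ⟨A₀, hA₀⟩ := Φ.loc l₀ hl₀
  obtain ⟨c, hc⟩ := PT3_common Φ y hb hd hδ Q ⟨l₀, hl₀⟩ hA₀
  have hkapc : ∀ (c : Ω ≃ₐ[k] Ω) (z : ZMod n), (c ^ z.val) δ = S.ζ ^ z.val * δ →
      (kap S.ζ δ (c ^ z.val) : ZMod n) = z := by
    intro c z hz
    rw [kap_eq S.hζ hδ0 hz, ZMod.natCast_zmod_val]
  have hψ : ∀ g ∈ S.N, φ g = φ (c ^ (kap S.ζ δ g : ZMod n).val) := by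
    intro g hg
    apply hφ1 g _ hg (hc _).1
    rw [hkapc c _ (hc _).2.1]
  refine ⟨∑ z : ZMod n, φ (c ^ z.val), ?_, ?_⟩
  · intro g hg
    have e1 : ∀ z : ZMod n, rho W g (φ (c ^ z.val)) =
        φ (c ^ ((kap S.ζ δ g : ZMod n) + z).val) + Φ.w y g := by
      intro z
      have h1 : rho W g (φ (c ^ z.val)) = φ (g * c ^ z.val) + Φ.w y g := by
        rw [hφ, hφ, map_sub, S.fix_tors hg (Φ.nsmul_w y _), map_mul, Φ.w_hom y hg (hc _).1]
        change rho W g (rho W (c ^ z.val) Q) - _ = rho W g (rho W (c ^ z.val) Q) - _ + _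
        abel
      rw [h1, hψ _ (S.N.mul_mem hg (hc _).1), kap_mul S.hζ hδ0 (S.fix g hg).1 (hfix _) (hfix _),
        hkapc c z (hc _).2.1]
    rw [map_sum, Finset.sum_congr rfl fun z _ => e1 z, Finset.sum_add_distrib,
      Finset.sum_const, Finset.card_univ, ZMod.card, Φ.nsmul_w, add_zero]
    exact Fintype.sum_equiv (Equiv.addLeft (kap S.ζ δ g : ZMod n)) _ _ (fun z => rfl)
  · intro l A hA
    obtain ⟨g₀, hg₀⟩ := PT3_common Φ y hb hd hδ Q l hA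
    have hAb : A.valuation (b : Ω) = 1 := val_b_eq_one Φ l.2 hA.lt
    obtain ⟨h4, h6, -⟩ := hb.good A hAb
    have e1 : ∀ z : ZMod n, φ (c ^ z.val) =
        (rho W (g₀ ^ z.val) Q - Q) + (Q - z.val • S.e (y l)) := by
      intro z
      rw [hφ1 _ _ (hc _).1 (hg₀ z.val).1
        (by rw [hkapc c z (hc _).2.1, hkapc g₀ z (hg₀ _).2.1]), hφ, (hg₀ z.val).2.2.1]
      abel
    have e2 : ∑ z : ZMod n, (Q - z.val • S.e (y l)) =
        n • Q - (n * (n - 1) / 2) • S.e (y l) := by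
      rw [Finset.sum_sub_distrib, Finset.sum_const, Finset.card_univ, ZMod.card,
        ← Finset.sum_smul, PT2_sum_zmod (fun i => i), Finset.sum_range_id]
    have e3 : ∑ z : ZMod n, φ (c ^ z.val) - n • Q + (n * (n - 1) / 2) • S.e (y l) =
        ∑ z : ZMod n, (rho W (g₀ ^ z.val) Q - Q) := by
      rw [Finset.sum_congr rfl fun z _ => e1 z, Finset.sum_add_distrib, e2]
      abel
    rw [e3]
    apply Finset.sum_induction _ (InE1 A.valuation)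
    · intro P P' hP hP'
      exact e1_add h4 h6 hP hP'
    · trivial
    · intro z _
      exact (hg₀ z.val).2.2.2

end H16C
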