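import Pool.Agent.Lib.H16C.PT4

/-!
# PT5 (M): `m/m'` is a `p`-th power modulo `l`

`d = c m`, `d' = c m'`, `l ∤ m m'`; `p ∣ n` prime, `y l ≠ 0` a multiple of `n/p` in `ℤ/n`.
`A` from `Φ.loc`; `v = A.valuation`, `v(b) = v(n) = 1`.  `F` = a finite extension of `k`, stable under
`Gal(Ω/k)`, containing `F₀` (`pair_rel`), `L`, `δ`, `δ'`.  `exists_frob` for `K = S.L`: `Q = l`
(`Loc.res`): `φ ∈ N` with `Frob A F l φ`.  `pair_rel`: `y l * (i - i') = 0` in `ℤ/n`,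
`i = kap_δ φ`, `i' = kap_δ' φ`.  As `y l = (n/p) u`, `p ∤ u` (otherwise `y l = 0`), `p ∣ i - i'`
(`i.val - i'.val` as an integer).  `η = (δ/δ')^(n/p) ∈ F`, `v η = 1` (`v δ^n = v d = v l = v δ'^n`),
`φ η = ζ^((i-i') n/p) η = η` (`ζ^n = 1`; `φ ζ = ζ`).  Frobenius: `v(η - η^l) < 1`, so
`v(η^(l-1) - 1) < 1`.  `η^p = (δ/δ')^n = d/d' = m/m'`.
`n ∣ l - 1`: `ζ ∈ L`, `v ζ = 1`, `φ ζ = ζ`: `v(ζ^(l-1) - 1) < 1`, so `ζ^(l-1) = 1` (`root_unit`), so
`n ∣ l - 1`.  So `p ∣ l - 1` and `η^(l-1) = (m/m')^((l-1)/p)`, hence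
`v(m^((l-1)/p) - m'^((l-1)/p)) < 1` (`v m' = 1`), and `dvd_of_val`.
-/

namespace H16C

variable {k : Type*} [Field k] [NumberField k] {Ω : Type*} [Field Ω] [Algebra k Ω] [IsAlgClosed Ω]
  [Algebra.IsAlgebraic k Ω] [CharZero Ω] [DecidableEq Ω] {W : WeierstrassCurve.Affine k}
  [W.IsShortNF] [W.IsElliptic] {n b : ℕ} [NeZero n] {S : Setup W Ω n} (Φ : Fam S b) (y : Φ.T → ZMod n)

omit [NumberField k] [IsAlgClosed Ω] [Algebra.IsAlgebraic k Ω] [CharZero Ω] [DecidableEq Ω] in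
theorem PT5_val_one {A : ValuationSubring Ω} {x : Ω} {N : ℕ} (hN : N ≠ 0)
    (h : A.valuation x ^ N = 1) : A.valuation x = 1 := by
  rcases lt_trichotomy (A.valuation x) 1 with h1 | h1 | h1
  · exact absurd h (ne_of_lt (pow_lt_one₀ zero_le h1 hN))
  · exact h1
  · exact absurd h (ne_of_gt (one_lt_pow₀ h1 hN))

omit [NumberField k] [IsAlgClosed Ω] [Algebra.IsAlgebraic k Ω] [CharZero Ω] [DecidableEq Ω] in
theorem PT5_frob {A : ValuationSubring Ω} {F : IntermediateField k Ω} {q : ℕ} (hq : 0 < q)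
    {φ : Ω ≃ₐ[k] Ω} (hφ : Frob A F q φ) {η : Ω} (hη : η ∈ F) (h1 : A.valuation η = 1)
    (h2 : φ η = η) : A.valuation (η ^ (q - 1) - 1) < 1 := by
  have h3 := hφ η hη h1.le
  rw [h2] at h3
  have h4 : η - η ^ q = -(η * (η ^ (q - 1) - 1)) := by
    have : η ^ q = η * η ^ (q - 1) := by
      rw [← pow_succ', Nat.sub_add_cancel hq]
    rw [this]
    ring
  rw [h4, Valuation.map_neg, map_mul, h1, one_mul] at h3
  exact h3

theorem PT5_dvd {n p : ℕ} [NeZero n] (hp : p.Prime) (hpn : p ∣ n) {u w : ZMod n} {i i' : ℕ}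
    (h : ((n / p : ℕ) : ZMod n) * u ≠ 0) (hw : w = ((n / p : ℕ) : ZMod n) * u)
    (h0 : w * ((i : ZMod n) - (i' : ZMod n)) = 0) : (p : ℤ) ∣ (i : ℤ) - i' := by
  obtain ⟨r, hr⟩ := hpn
  have hn : n ≠ 0 := NeZero.ne n
  have hr0 : r ≠ 0 := by
    rintro rfl
    exact hn (by simpa using hr)
  have hnp : n / p = r := by
    rw [hr]
    exact Nat.mul_div_cancel_left r hp.pos
  rw [hw, hnp] at h0
  rw [hnp] at h
  have hu : ((u.val : ℤ) : ZMod n) = u := by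
    rw [Int.cast_natCast, ZMod.natCast_zmod_val]
  have h1 : (((r : ℤ) * u.val * ((i : ℤ) - i') : ℤ) : ZMod n) = 0 := by
    push_cast
    rw [ZMod.natCast_zmod_val]
    exact h0
  rw [ZMod.intCast_zmod_eq_zero_iff_dvd] at h1
  have h2 : (p : ℤ) ∣ (u.val : ℤ) * ((i : ℤ) - i') := by
    have hr' : (r : ℤ) ≠ 0 := by exact_mod_cast hr0
    have h3 : (r : ℤ) * p ∣ (r : ℤ) * ((u.val : ℤ) * ((i : ℤ) - i')) := by
      have h4 : (n : ℤ) = (r : ℤ) * p := by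
        rw [hr]
        push_cast
        ring
      rw [← h4, ← mul_assoc]
      exact h1
    exact (mul_dvd_mul_iff_left hr').1 h3
  rcases (Nat.prime_iff_prime_int.1 hp).dvd_or_dvd h2 with h3 | h3
  · exfalso
    apply h
    rw [← hu, ← Int.cast_natCast (R := ZMod n) r, ← Int.cast_mul,
      ZMod.intCast_zmod_eq_zero_iff_dvd]
    have h4 : (n : ℤ) = (r : ℤ) * p := by
      rw [hr]
      push_cast
      ring
    rw [h4]
    exact mul_dvd_mul_left _ h3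
  · exact h3

theorem pts_final (hb : Bad W Ω n b) {c m m' : ℕ} (hd : Φ.Adm (c * m)) (hd' : Φ.Adm (c * m'))
    {δ δ' : Ω} (hδ : δ ^ n = ((c * m : ℕ) : Ω)) (hδ' : δ' ^ n = ((c * m' : ℕ) : Ω))
    {Q Q' P P' P₂ : Pt W Ω} (hQ : Φ.Triv y δ Q) (hQ' : Φ.Triv y δ' Q')
    (hP : Φ.IsTrace y Q P) (hP' : Φ.IsTrace y Q' P') (h2 : P - P' = n • P₂)
    (hP2 : ∀ g ∈ S.N, rho W g P₂ = P₂) (l : Φ.T) (hm : ¬ (l : ℕ) ∣ m) (hm' : ¬ (l : ℕ) ∣ m')
    {p : ℕ} (hp : p.Prime) (hpn : p ∣ n) (hy : y l ≠ 0) (hyp : ∃ u : ZMod n, y l = ((n / p : ℕ) : ZMod n) * u) :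
    (l : ℤ) ∣ (m : ℤ) ^ ((l - 1) / p) - (m' : ℤ) ^ ((l - 1) / p) := by
  have hn : n ≠ 0 := NeZero.ne n
  have hl : (l : ℕ).Prime := Φ.prime l l.2
  obtain ⟨A, hA⟩ := Φ.loc l l.2
  have hvl : A.valuation ((l : ℕ) : Ω) < 1 := hA.lt
  have hvb : A.valuation (b : Ω) = 1 := val_b_eq_one Φ l.2 hvl
  have hnat : ∀ z : ℕ, A.valuation (z : Ω) ≤ 1 := by
    intro z
    have := int_le A (z : ℤ)
    simpa using this
  have hvn : A.valuation (n : Ω) = 1 := by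
    obtain ⟨r, hr⟩ := hb.dvd
    have h1 : (b : Ω) = (n : Ω) * ((6 * r : ℕ) : Ω) := by
      rw [hr]
      push_cast
      ring
    refine le_antisymm (hnat n) ?_
    rw [← hvb, h1, map_mul]
    exact mul_le_of_le_one_right' (hnat _)
  have hc : c ≠ 0 := fun h => hd.1 (by rw [h, zero_mul])
  have hm0 : m ≠ 0 := fun h => hd.1 (by rw [h, mul_zero])
  have hm0' : m' ≠ 0 := fun h => hd'.1 (by rw [h, mul_zero])
  have hδ0 : δ ≠ 0 := by
    rintro rfl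
    rw [zero_pow hn] at hδ
    exact hd.1 (by exact_mod_cast hδ.symm)
  have hδ0' : δ' ≠ 0 := by
    rintro rfl
    rw [zero_pow hn] at hδ'
    exact hd'.1 (by exact_mod_cast hδ'.symm)
  have hvδ : A.valuation δ ^ n = A.valuation ((l : ℕ) : Ω) := by
    rw [← map_pow, hδ]
    exact hd.2 A l (Finset.mem_insert_of_mem l.2) hvl
  have hvδ' : A.valuation δ' ^ n = A.valuation ((l : ℕ) : Ω) := by
    rw [← map_pow, hδ']
    exact hd'.2 A l (Finset.mem_insert_of_mem l.2) hvl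
  have hl0 : A.valuation ((l : ℕ) : Ω) ≠ 0 := by
    rw [Ne, Valuation.zero_iff]
    exact_mod_cast hl.ne_zero
  -- the field
  obtain ⟨F₀, hF₀, hrel⟩ := pair_rel Φ y hb hd hd' hδ hδ' hQ hQ' hP hP' h2 hP2 l hA
  have hint : IsIntegral k δ' := by
    refine ⟨Polynomial.X ^ n - Polynomial.C ((c * m' : ℕ) : k), Polynomial.monic_X_pow_sub_C _ hn, ?_⟩
    simp [hδ']
  haveI : FiniteDimensional k (IntermediateField.adjoin k {δ'}) :=
    IntermediateField.adjoin.finiteDimensional hint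
  obtain ⟨F, hF, hEF, hLF, hδF, -, hst, -⟩ := exists_g0 Φ l hA hd hδ
    (F₀ ⊔ IntermediateField.adjoin k {δ'})
  have hδF' : δ' ∈ F := (le_trans le_sup_right hEF) (IntermediateField.mem_adjoin_simple_self k δ')
  have hF₀F : F₀ ≤ F := le_trans le_sup_left hEF
  haveI := S.fin
  obtain ⟨Qf, -, hQf, hex⟩ := exists_frob S.L A l hl hvl
  obtain rfl := hQf (fun x hx hvx => hA.res x hx hvx)
  obtain ⟨φ, hφN, hφF, -⟩ := hex F hLF hF (fun g _ x hx => hst g x hx)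
  have hrel' := hrel φ hφN (fun x hx hvx => hφF x (hF₀F hx) hvx)
  have hfixn : ∀ z : ℕ, φ (z : Ω) = z := fun z => map_natCast φ z
  have hkδ := kap_spec (k := k) S.hζ hδ0 (g := φ) (by rw [hδ, hfixn])
  have hkδ' := kap_spec (k := k) S.hζ hδ0' (g := φ) (by rw [hδ', hfixn])
  set i : ℕ := (kap S.ζ δ φ : ZMod n).val with hi
  set i' : ℕ := (kap S.ζ δ' φ : ZMod n).val with hi'
  have e1 : (kap S.ζ δ φ : ZMod n) = (i : ZMod n) := by rw [hi, ZMod.natCast_zmod_val]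
  have e2 : (kap S.ζ δ' φ : ZMod n) = (i' : ZMod n) := by rw [hi', ZMod.natCast_zmod_val]
  rw [e1, e2] at hrel'
  obtain ⟨u, hu⟩ := hyp
  have hpi := PT5_dvd hp hpn (u := u) (w := y l) (i := i) (i' := i') (by rw [← hu]; exact hy) hu hrel'
  -- η
  have hζ0 : S.ζ ≠ 0 := S.hζ.ne_zero hn
  obtain ⟨t, ht⟩ := hpi
  have hηφ : φ ((δ / δ') ^ (n / p)) = (δ / δ') ^ (n / p) := by
    rw [map_pow, map_div₀, hkδ, hkδ', mul_div_mul_comm, mul_pow]
    have h3 : (S.ζ ^ i / S.ζ ^ i') ^ (n / p) = 1 := by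
      have h4 : S.ζ ^ i / S.ζ ^ i' = S.ζ ^ ((p : ℤ) * t) := by
        rw [← ht, zpow_sub₀ hζ0, zpow_natCast, zpow_natCast]
      have h5 : (S.ζ ^ ((p : ℤ) * t)) ^ (n / p) = (S.ζ ^ n) ^ t := by
        rw [← zpow_natCast, ← zpow_mul, ← zpow_natCast S.ζ n, ← zpow_mul]
        congr 1
        have h6 : (n : ℤ) = (p : ℤ) * ((n / p : ℕ) : ℤ) := by
          exact_mod_cast (Nat.mul_div_cancel' hpn).symm
        conv_rhs => rw [h6]
        ring
      rw [h4, h5, S.hζ.pow_eq_one, one_zpow]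
    rw [h3, one_mul]
  have hvη1 : A.valuation (δ / δ') = 1 := by
    apply PT5_val_one hn
    rw [map_div₀, div_pow, hvδ, hvδ', div_self hl0]
  have hvη : A.valuation ((δ / δ') ^ (n / p)) = 1 := by
    rw [map_pow, hvη1, one_pow]
  have hηF : (δ / δ') ^ (n / p) ∈ F := pow_mem (div_mem hδF hδF') _
  have hfr := PT5_frob hl.pos hφF hηF hvη hηφ
  -- ζ
  have hζL : S.ζ ∈ S.L := S.mem_L (fun g hg => (S.fix g hg).1)
  have hvζ : A.valuation S.ζ = 1 := by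
    apply PT5_val_one hn
    rw [← map_pow, S.hζ.pow_eq_one, map_one]
  have hfz := PT5_frob hl.pos hφF (hLF hζL) hvζ (S.fix φ hφN).1
  have hζl : S.ζ ^ ((l : ℕ) - 1) = 1 := by
    refine root_unit A.valuation hvn ?_ hfz
    rw [← pow_mul, mul_comm, pow_mul, S.hζ.pow_eq_one, one_pow]
  have hnl : n ∣ (l : ℕ) - 1 := S.hζ.dvd_of_pow_eq_one _ hζl
  obtain ⟨r, hr⟩ := hpn.trans hnl
  have hr' : ((l : ℕ) - 1) / p = r := by
    rw [hr]
    exact Nat.mul_div_cancel_left r hp.pos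
  have hcΩ : (c : Ω) ≠ 0 := by exact_mod_cast hc
  have hmΩ' : (m' : Ω) ≠ 0 := by exact_mod_cast hm0'
  have hηp : ((δ / δ') ^ (n / p)) ^ ((l : ℕ) - 1) = ((m : Ω) / m') ^ r := by
    rw [hr, pow_mul, ← pow_mul (δ / δ'), Nat.div_mul_cancel hpn, div_pow, hδ, hδ']
    congr 1
    push_cast
    field_simp
  rw [hηp] at hfr
  rw [hr']
  refine dvd_of_val hl hvl ?_
  have h7 : (((m : ℤ) ^ r - (m' : ℤ) ^ r : ℤ) : Ω) = (m' : Ω) ^ r * (((m : Ω) / m') ^ r - 1) := by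
    push_cast
    rw [div_pow, mul_sub, mul_div_cancel₀ _ (pow_ne_zero r hmΩ'), mul_one]
  rw [h7, map_mul]
  have h8 : A.valuation ((m' : Ω) ^ r) ≤ 1 := by
    rw [map_pow]
    exact pow_le_one₀ zero_le (hnat m')
  exact lt_of_le_of_lt (mul_le_of_le_one_left' h8) hfr

end H16C
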