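import Pool.Agent.Lib.H16C.D1

/-!
# R1 (M): the group `E₁(v)` and congruent points

`v` a valuation of `F` with `v(a₄), v(a₆) ≤ 1`; `W` short.
`e1_neg`: `xc (-P) = xc P`.
`red_aux`: `R = (x, y)` with `v x ≤ 1` (so `v y ≤ 1`: `y² = x³ + a₄ x + a₆`), `Q = (X, Y) ∈ E₁`,
`Q ≠ O`: `v(Y)² = v(X)³`.  Then `R - Q ≠ O`, and its abscissa is `x'' = λ² - x - X`,
`λ = (y + Y)/(x - X)`:
`x'' - x = ((3x² + a₄) X + 2 y Y + a₄ x + 2 a₆ - x³) / (X - x)²`, `v(X - x) = v X`, and the
numerator has valuation `≤ max(v X, v Y) < v(X)²` (`v(Y)² = v(X)³ < v(X)⁴`).  So `v(x'') ≤ 1`.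
`e1_add`: `P, Q ∈ E₁`, both `≠ O`, `R = P + Q ≠ O`, if `v(xc R) ≤ 1` then `P = R - Q` has
`v(xc P) ≤ 1` by `red_aux`, contradiction.
`congr_mem`: `v(Δ) = 1`.  `P = (x, y)`, `P' = (x', y')`, `v x, v x' ≤ 1`, `v(x - x') < 1`,
`v(y - y') < 1`: `P - P' ∈ E₁`.  Note `Δ = -16(4a₄³ + 27a₆²)`, so `v(2) = 1`.
`x ≠ x'`: `x(P - P') = λ² - x - x'`, `λ = (y + y')/(x - x')`.  If `v(y + y') = 1`: `v λ > 1`.
If `v(y + y') < 1`: `v(2y) < 1`, `v y < 1`, so `v(f(x)) < 1` and `v(f'(x)) = 1`, `f' = 3x² + a₄`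
(otherwise `v(Δ) < 1`: `4a₄³ + 27a₆²` is a combination of `f(x)` and `f'(x)` with coefficients in
`ℤ[x, a₄, a₆]`), and `(y - y')(y + y') = f(x) - f(x') = (x - x')(f'(x) + (x - x')(...))`, so
`v(y-y') v(y+y') = v(x-x')`, `v λ = 1/v(y - y') > 1` (`y ≠ y'` as `x ≠ x'`).
`x = x'`: `y' = y` (then `P - P' = O`) or `y' = -y`, `v(2y) < 1`, `P - P' = 2P`,
`x(2P) = (f'(x)/(2y))² - 2x`, `v > 1` (`y ≠ 0` or `P - P' = O`).
-/

open WeierstrassCurve

namespace H16C

variable {F : Type*} [Field F] [DecidableEq F] {W : WeierstrassCurve.Affine F} [W.IsShortNF]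
  {Γ : Type*} [LinearOrderedCommGroupWithZero Γ] {v : Valuation F Γ}

omit [DecidableEq F] [W.IsShortNF] in
theorem R1_inE1 {P : W.Point} : InE1 v P ↔ P = 0 ∨ 1 < v (xc P) := by
  cases P with
  | zero =>
    constructor
    · intro _
      exact Or.inl rfl
    · intro _
      trivial
  | some x y h =>
    constructor
    · intro h1
      exact Or.inr h1
    · rintro (h1 | h1)
      · exact absurd h1 (WeierstrassCurve.Affine.Point.some_ne_zero _)
      · exact h1

theorem R1_sub {P Q : W.Point} (hP : P ≠ 0) (hQ : Q ≠ 0) (h : xc P ≠ xc Q) :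
    (xc P - xc Q) ^ 2 * xc (P - Q) = (yc P + yc Q) ^ 2 - (xc P + xc Q) * (xc P - xc Q) ^ 2 := by
  cases P with
  | zero => exact absurd rfl hP
  | some x₁ y₁ h₁ =>
    cases Q with
    | zero => exact absurd rfl hQ
    | some x₂ y₂ h₂ =>
      have hx : x₁ ≠ x₂ := h
      have hx' : x₁ - x₂ ≠ 0 := sub_ne_zero.2 hx
      rw [sub_eq_add_neg (WeierstrassCurve.Affine.Point.some x₁ y₁ h₁),
        WeierstrassCurve.Affine.Point.neg_some,
        WeierstrassCurve.Affine.Point.add_of_X_ne hx]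
      change (x₁ - x₂) ^ 2 * (W.addX x₁ x₂ (W.slope x₁ x₂ y₁ (W.negY x₂ y₂))) =
        (y₁ + y₂) ^ 2 - (x₁ + x₂) * (x₁ - x₂) ^ 2
      rw [WeierstrassCurve.Affine.slope_of_X_ne hx, WeierstrassCurve.Affine.addX,
        WeierstrassCurve.Affine.negY, a₁_of_isShortNF, a₂_of_isShortNF, a₃_of_isShortNF]
      field_simp
      ring

omit [DecidableEq F] in
theorem R1_nat (n : ℕ) : v (n : F) ≤ 1 := by
  induction n with
  | zero => simp
  | succ m ih =>
    rw [Nat.cast_succ]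
    exact v.map_add_le ih (le_of_eq v.map_one)

omit [DecidableEq F] in
theorem R1_y {P : W.Point} (h4 : v W.a₄ ≤ 1) (h6 : v W.a₆ ≤ 1) (hP : P ≠ 0) (hx : v (xc P) ≤ 1) :
    v (yc P) ≤ 1 := by
  have h1 : v (yc P ^ 2) ≤ 1 := by
    rw [eqn hP]
    refine v.map_add_le (v.map_add_le ?_ ?_) h6
    · rw [map_pow]
      exact pow_le_one' hx 3
    · rw [map_mul]
      exact mul_le_one' h4 hx
  rw [map_pow] at h1
  by_contra hcon
  push Not at hcon
  exact absurd h1 (not_le.2 (one_lt_pow₀ hcon two_ne_zero))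

omit [DecidableEq F] in
theorem R1_Y {Q : W.Point} (h4 : v W.a₄ ≤ 1) (h6 : v W.a₆ ≤ 1) (hQ : Q ≠ 0) (hX : 1 < v (xc Q)) :
    v (yc Q) < v (xc Q) ^ 2 := by
  have hX0 : 0 < v (xc Q) := zero_lt_one.trans hX
  have h1 : v (yc Q ^ 2) = v (xc Q) ^ 3 := by
    rw [eqn hQ, add_assoc, add_comm, ← map_pow]
    refine v.map_add_eq_of_lt_right ?_
    have h2 : v (W.a₄ * xc Q + W.a₆) ≤ v (xc Q) := by
      refine v.map_add_le ?_ (h6.trans hX.le)
      rw [map_mul]
      exact mul_le_of_le_one_left' h4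
    refine h2.trans_lt ?_
    rw [map_pow]
    exact lt_self_pow₀ hX (by norm_num)
  rw [map_pow] at h1
  by_contra hcon
  push Not at hcon
  have h3 : (v (xc Q) ^ 2) ^ 2 ≤ v (yc Q) ^ 2 := pow_le_pow_left₀ zero_le hcon 2
  rw [h1, ← pow_mul] at h3
  exact absurd h3 (not_le.2 (pow_lt_pow_right₀ hX (by norm_num)))

theorem red_aux (h4 : v W.a₄ ≤ 1) (h6 : v W.a₆ ≤ 1) {R Q : W.Point} (hR : R ≠ 0) (hQ : Q ≠ 0)
    (hx : v (xc R) ≤ 1) (hX : 1 < v (xc Q)) : v (xc (R - Q)) ≤ 1 := by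
  have hX0 : 0 < v (xc Q) := zero_lt_one.trans hX
  have hne : xc R ≠ xc Q := by
    intro h
    rw [h] at hx
    exact absurd hx (not_le.2 hX)
  have hy := R1_y h4 h6 hR hx
  have hY := R1_Y h4 h6 hQ hX
  have hs := R1_sub hR hQ hne
  have e1 := eqn hR
  have e2 := eqn hQ
  have hkey : (xc Q - xc R) ^ 2 * (xc (R - Q) - xc R) =
      (((3 : ℕ) : F) * xc R ^ 2 + W.a₄) * xc Q + ((2 : ℕ) : F) * (yc R * yc Q) +
        (W.a₄ * xc R + ((2 : ℕ) : F) * W.a₆ - xc R ^ 3) := by
    push_cast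
    linear_combination hs + e1 + e2
  have hvX : v (xc Q - xc R) = v (xc Q) := by
    rw [sub_eq_add_neg, add_comm]
    refine v.map_add_eq_of_lt_right ?_
    rw [v.map_neg]
    exact hx.trans_lt hX
  have hX2 : v (xc Q) < v (xc Q) ^ 2 := lt_self_pow₀ hX (by norm_num)
  have h12 : 1 < v (xc Q) ^ 2 := hX.trans hX2
  have hnum : v ((((3 : ℕ) : F) * xc R ^ 2 + W.a₄) * xc Q + ((2 : ℕ) : F) * (yc R * yc Q) +
        (W.a₄ * xc R + ((2 : ℕ) : F) * W.a₆ - xc R ^ 3)) < v (xc Q) ^ 2 := by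
    refine v.map_add_lt (v.map_add_lt ?_ ?_) ?_
    · rw [map_mul]
      refine lt_of_le_of_lt (mul_le_of_le_one_left' ?_) hX2
      refine v.map_add_le ?_ h4
      rw [map_mul, map_pow]
      exact mul_le_one' (R1_nat 3) (pow_le_one' hx 2)
    · rw [map_mul, map_mul]
      refine lt_of_le_of_lt ?_ hY
      exact (mul_le_of_le_one_left' (R1_nat 2)).trans (mul_le_of_le_one_left' hy)
    · refine lt_of_le_of_lt ?_ h12
      refine v.map_sub_le (v.map_add_le ?_ ?_) ?_
      · rw [map_mul]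
        exact mul_le_one' h4 hx
      · rw [map_mul]
        exact mul_le_one' (R1_nat 2) h6
      · rw [map_pow]
        exact pow_le_one' hx 3
  rw [← hkey, map_mul, map_pow, hvX] at hnum
  have h5 : v (xc (R - Q) - xc R) < 1 := by
    by_contra hcon
    push Not at hcon
    exact absurd hnum (not_lt.2 (le_mul_of_one_le_right' hcon))
  have h6' : xc (R - Q) = (xc (R - Q) - xc R) + xc R := by ring
  rw [h6']
  exact v.map_add_le h5.le hx

omit [DecidableEq F] in
theorem e1_neg {P : W.Point} (h : InE1 v P) : InE1 v (-P) := by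
  rw [R1_inE1] at h ⊢
  rcases h with h | h
  · left
    rw [h]
    rfl
  · right
    rwa [xc_neg]

theorem e1_add (h4 : v W.a₄ ≤ 1) (h6 : v W.a₆ ≤ 1) {P Q : W.Point} (hP : InE1 v P)
    (hQ : InE1 v Q) : InE1 v (P + Q) := by
  by_cases hP0 : P = 0
  · rw [hP0, zero_add]
    exact hQ
  by_cases hQ0 : Q = 0
  · rw [hQ0, add_zero]
    exact hP
  rw [R1_inE1] at hP hQ ⊢
  have hP1 := hP.resolve_left hP0
  have hQ1 := hQ.resolve_left hQ0
  by_cases hR : P + Q = 0
  · exact Or.inl hR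
  · right
    by_contra hcon
    push Not at hcon
    have h1 := red_aux h4 h6 hR hQ0 hcon hQ1
    rw [add_sub_cancel_right] at h1
    exact absurd h1 (not_le.2 hP1)

theorem e1_sub (h4 : v W.a₄ ≤ 1) (h6 : v W.a₆ ≤ 1) {P Q : W.Point} (hP : InE1 v P)
    (hQ : InE1 v Q) : InE1 v (P - Q) := by
  rw [sub_eq_add_neg]
  exact e1_add h4 h6 hP (e1_neg hQ)

theorem congr_mem (h4 : v W.a₄ ≤ 1) (h6 : v W.a₆ ≤ 1) (hΔ : v W.Δ = 1) {P Q : W.Point}
    (hP : P ≠ 0) (hQ : Q ≠ 0) (hxP : v (xc P) ≤ 1) (hxQ : v (xc Q) ≤ 1)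
    (hx : v (xc P - xc Q) < 1) (hy : v (yc P - yc Q) < 1) : InE1 v (P - Q) := by
  have hyP := R1_y h4 h6 hP hxP
  have hyQ := R1_y h4 h6 hQ hxQ
  have e1 := eqn hP
  have e2 := eqn hQ
  -- the discriminant
  have hdle : v (4 * W.a₄ ^ 3 + 27 * W.a₆ ^ 2) ≤ 1 := by
    refine v.map_add_le ?_ ?_
    · rw [map_mul, map_pow]
      exact mul_le_one' (by exact_mod_cast R1_nat (v := v) 4) (pow_le_one' h4 3)
    · rw [map_mul, map_pow]
      exact mul_le_one' (by exact_mod_cast R1_nat (v := v) 27) (pow_le_one' h6 2)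
  have h2le : v (2 : F) ≤ 1 := by exact_mod_cast R1_nat (v := v) 2
  have hΔ' : v (2 : F) ^ 4 * v (4 * W.a₄ ^ 3 + 27 * W.a₆ ^ 2) = 1 := by
    rw [← hΔ, Δ_of_isShortNF, ← map_pow, ← map_mul, ← v.map_neg]
    congr 1
    ring
  have hv2 : v (2 : F) = 1 := by
    refine le_antisymm h2le ?_
    by_contra hcon
    push Not at hcon
    have h1 : v (2 : F) ^ 4 < 1 := pow_lt_one₀ zero_le hcon (by norm_num)
    have h2 : v (2 : F) ^ 4 * v (4 * W.a₄ ^ 3 + 27 * W.a₆ ^ 2) < 1 :=
      lt_of_le_of_lt (mul_le_of_le_one_right' hdle) h1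
    rw [hΔ'] at h2
    exact lt_irrefl _ h2
  have hvd : v (4 * W.a₄ ^ 3 + 27 * W.a₆ ^ 2) = 1 := by
    rwa [hv2, one_pow, one_mul] at hΔ'
  have h20 : (2 : F) ≠ 0 := by
    intro h
    rw [h, map_zero] at hv2
    exact zero_ne_one hv2
  -- if `v y < 1` then `v (f' x) = 1`
  have hf' : v (yc P) < 1 → v (3 * xc P ^ 2 + W.a₄) = 1 := by
    intro hy1
    have hfle : v (3 * xc P ^ 2 + W.a₄) ≤ 1 := by
      refine v.map_add_le ?_ h4
      rw [map_mul, map_pow]
      exact mul_le_one' (by exact_mod_cast R1_nat (v := v) 3) (pow_le_one' hxP 2)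
    refine le_antisymm hfle ?_
    by_contra hcon
    push Not at hcon
    have hf0 : v (yc P ^ 2) < 1 := by
      rw [map_pow]
      exact pow_lt_one₀ zero_le hy1 two_ne_zero
    have hid : 4 * W.a₄ ^ 3 + 27 * W.a₆ ^ 2 =
        (((3 : ℕ) : F) * xc P ^ 2 + ((4 : ℕ) : F) * W.a₄) * (3 * xc P ^ 2 + W.a₄) *
          (3 * xc P ^ 2 + W.a₄) -
        (((3 : ℕ) : F) * xc P ^ 3 - ((5 : ℕ) : F) * W.a₄ * xc P - ((27 : ℕ) : F) * W.a₆ +
          ((8 : ℕ) : F) * xc P * (((3 : ℕ) : F) * xc P ^ 2 + ((4 : ℕ) : F) * W.a₄)) *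
          yc P ^ 2 := by
      rw [e1]
      push_cast
      ring
    have hA : v (((3 : ℕ) : F) * xc P ^ 2 + ((4 : ℕ) : F) * W.a₄) ≤ 1 := by
      refine v.map_add_le ?_ ?_
      · rw [map_mul, map_pow]
        exact mul_le_one' (R1_nat 3) (pow_le_one' hxP 2)
      · rw [map_mul]
        exact mul_le_one' (R1_nat 4) h4
    have h7 : v (4 * W.a₄ ^ 3 + 27 * W.a₆ ^ 2) < 1 := by
      rw [hid]
      refine v.map_sub_lt ?_ ?_
      · rw [map_mul, map_mul]
        exact lt_of_le_of_lt (mul_le_of_le_one_left' (mul_le_one' hA hfle)) hcon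
      · rw [map_mul]
        refine lt_of_le_of_lt (mul_le_of_le_one_left' ?_) hf0
        refine v.map_add_le (v.map_sub_le (v.map_sub_le ?_ ?_) ?_) ?_
        · rw [map_mul, map_pow]
          exact mul_le_one' (R1_nat 3) (pow_le_one' hxP 3)
        · rw [map_mul, map_mul]
          exact mul_le_one' (mul_le_one' (R1_nat 5) h4) hxP
        · rw [map_mul]
          exact mul_le_one' (R1_nat 27) h6
        · rw [map_mul, map_mul]
          exact mul_le_one' (mul_le_one' (R1_nat 8) hxP) hA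
    rw [hvd] at h7
    exact lt_irrefl _ h7
  by_cases hxx : xc P = xc Q
  · -- same abscissa
    rcases xc_eq hP hQ hxx with h | h
    · rw [h, sub_self]
      rw [R1_inE1]
      exact Or.inl rfl
    · have hQP : Q = -P := by rw [h, neg_neg]
      have hyQP : yc Q = -yc P := by rw [hQP, yc_neg]
      have hy2 : v (yc P) < 1 := by
        have h1 : yc P - yc Q = 2 * yc P := by rw [hyQP]; ring
        rw [h1, map_mul, hv2, one_mul] at hy
        exact hy
      have hPQ : P - Q = 2 • P := by rw [hQP, sub_neg_eq_add, two_smul]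
      rw [hPQ, R1_inE1]
      by_cases hy0 : yc P = 0
      · left
        exact (two_smul_eq_zero_iff h20 hP).2 hy0
      · right
        have hd := xc_dbl h20 hP hy0
        have hv1 : v (4 * yc P ^ 2 * xc (2 • P)) = 1 := by
          rw [hd]
          have hid : (xc P ^ 2 - W.a₄) ^ 2 - 8 * W.a₆ * xc P =
              -(((8 : ℕ) : F) * xc P * yc P ^ 2) + (3 * xc P ^ 2 + W.a₄) ^ 2 := by
            rw [e1]
            push_cast
            ring
          rw [hid]
          have h8 : v ((3 * xc P ^ 2 + W.a₄) ^ 2) = 1 := by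
            rw [map_pow, hf' hy2, one_pow]
          rw [← h8]
          refine v.map_add_eq_of_lt_right ?_
          rw [h8, v.map_neg, map_mul, map_mul, map_pow]
          refine lt_of_le_of_lt (mul_le_of_le_one_left' (mul_le_one' (R1_nat 8) hxP)) ?_
          exact pow_lt_one₀ zero_le hy2 two_ne_zero
        have h42 : v (4 : F) = 1 := by
          have : (4 : F) = 2 ^ 2 := by norm_num
          rw [this, map_pow, hv2, one_pow]
        rw [map_mul, map_mul, h42, one_mul, map_pow] at hv1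
        by_contra hcon
        push Not at hcon
        have h9 : v (yc P) ^ 2 * v (xc (2 • P)) < 1 :=
          lt_of_le_of_lt (mul_le_of_le_one_right' hcon) (pow_lt_one₀ zero_le hy2 two_ne_zero)
        rw [hv1] at h9
        exact lt_irrefl _ h9
  · -- different abscissas
    have hxs : xc P - xc Q ≠ 0 := sub_ne_zero.2 hxx
    have hvx0 : 0 < v (xc P - xc Q) := by
      rw [zero_lt_iff]
      exact (Valuation.ne_zero_iff v).2 hxs
    have hs := R1_sub hP hQ hxx
    rw [R1_inE1]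
    right
    by_contra hcon
    push Not at hcon
    have hle : v (yc P + yc Q) ≤ 1 := v.map_add_le hyP hyQ
    -- `v (y + y') ≤ v (x - x')`
    have h10 : v (yc P + yc Q) ≤ v (xc P - xc Q) := by
      have h11 : v ((yc P + yc Q) ^ 2) ≤ v (xc P - xc Q) ^ 2 := by
        have : (yc P + yc Q) ^ 2 = (xc P - xc Q) ^ 2 * (xc (P - Q) + (xc P + xc Q)) := by
          linear_combination -hs
        rw [this, map_mul, map_pow]
        exact mul_le_of_le_one_right' (v.map_add_le hcon (v.map_add_le hxP hxQ))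
      rw [map_pow] at h11
      by_contra h12
      push Not at h12
      exact absurd h11 (not_le.2 (pow_lt_pow_left₀ h12 zero_le two_ne_zero))
    have h13 : v (yc P + yc Q) < 1 := h10.trans_lt hx
    have hyP1 : v (yc P) < 1 := by
      have h14 : v (2 * yc P) < 1 := by
        have : 2 * yc P = (yc P + yc Q) + (yc P - yc Q) := by ring
        rw [this]
        exact v.map_add_lt h13 hy
      rwa [map_mul, hv2, one_mul] at h14
    have hfp := hf' hyP1
    have hfac : (yc P - yc Q) * (yc P + yc Q) = (xc P - xc Q) *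
        ((xc P - xc Q) * (xc P - xc Q - ((3 : ℕ) : F) * xc P) + (3 * xc P ^ 2 + W.a₄)) := by
      push_cast
      linear_combination e1 - e2
    have hone : v ((xc P - xc Q) * (xc P - xc Q - ((3 : ℕ) : F) * xc P) +
        (3 * xc P ^ 2 + W.a₄)) = 1 := by
      rw [← hfp]
      refine v.map_add_eq_of_lt_right ?_
      rw [hfp, map_mul]
      refine lt_of_le_of_lt (mul_le_of_le_one_right' ?_) hx
      refine v.map_sub_le hx.le ?_
      rw [map_mul]
      exact mul_le_one' (R1_nat 3) hxP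
    have h15 := congrArg v hfac
    rw [map_mul, map_mul, hone, mul_one] at h15
    have h16 : v (yc P - yc Q) * v (yc P + yc Q) < v (xc P - xc Q) := by
      calc v (yc P - yc Q) * v (yc P + yc Q) ≤ v (yc P - yc Q) * v (xc P - xc Q) :=
            mul_le_mul_right h10 _
        _ < 1 * v (xc P - xc Q) := by
            exact mul_lt_mul_of_pos_right hy hvx0
        _ = v (xc P - xc Q) := one_mul _
    rw [h15] at h16
    exact lt_irrefl _ h16

end H16C
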