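import Pool.Agent.Lib.H16C.T2

/-!
# SE1 (M): existence of the set-up `L = k(E[2n], μ_n, √-1)`

`Ω` algebraically closed, algebraic over `k`, characteristic `0`; the curve over `Ω` is short and
elliptic (instances in Defs).  `ζ` = a primitive `n`-th root of unity of `Ω`
(`HasEnoughRootsOfUnity`/`IsAlgClosed.exists_..`, e.g. `IsCyclotomicExtension`/
`(Polynomial.cyclotomic n Ω)` has a root, `IsPrimitiveRoot.isRoot_cyclotomic_iff`), `I² = -1`
(`IsAlgClosed.exists_pow_nat_eq`), `P0` from `exists_order`.
`s` = set of the coordinates `xc P`, `yc P` of the points `P` with `(2n) • P = 0`, together with `ζ`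
and `I`: finite (`tors_finite`).  `L = IntermediateField.adjoin k s`: finite dimensional (finite set of
algebraic elements, `IntermediateField.finiteDimensional_adjoin`).
`stab`: an automorphism `g` maps `s` into `L`: `rho W g P` is again killed by `2n` and has the
coordinates `g (xc P)`, `g (yc P)` (`rho` is `Point.map`; `map_some`); `g ζ` is an `n`-th root of unity,
so a power of `ζ`; `g I = ± I`.  Then `g L ⊆ L` (`IntermediateField.adjoin_le_iff`, comap).
`fix`: `g` fixes the coordinates of `P`, so `rho W g P = P`.  `gen`: `g` fixes the generators, so it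
fixes `L` (`IntermediateField.adjoin_le_iff` for the fixed field of `g`, or
`IntermediateField.adjoin_induction`): if `rho W g P = P`, `P ≠ 0` then `g` fixes its coordinates.
-/

open WeierstrassCurve

namespace H16C

section

variable {k : Type*} [Field k] {Ω : Type*} [Field Ω] [Algebra k Ω] [DecidableEq Ω]
  (W : WeierstrassCurve.Affine k)

theorem se1_xc (g : Ω ≃ₐ[k] Ω) (P : Pt W Ω) : xc (rho W g P) = g (xc P) := by
  rcases P with _ | ⟨x, y, h⟩
  · exact (map_zero g).symm
  · rfl

theorem se1_yc (g : Ω ≃ₐ[k] Ω) (P : Pt W Ω) : yc (rho W g P) = g (yc P) := by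
  rcases P with _ | ⟨x, y, h⟩
  · exact (map_zero g).symm
  · rfl

theorem se1_eq (g : Ω ≃ₐ[k] Ω) (P : Pt W Ω) (hx : g (xc P) = xc P) (hy : g (yc P) = yc P) :
    rho W g P = P := by
  rcases P with _ | ⟨x, y, h⟩
  · rfl
  · have hx' : g x = x := hx
    have hy' : g y = y := hy
    change WeierstrassCurve.Affine.Point.map (g : Ω →ₐ[k] Ω) _ = _
    rw [WeierstrassCurve.Affine.Point.map_some]
    congr

end

theorem exists_setup {k : Type*} [Field k] (Ω : Type*) [Field Ω] [Algebra k Ω]
    [IsAlgClosed Ω] [Algebra.IsAlgebraic k Ω] [CharZero Ω] [DecidableEq Ω]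
    (W : WeierstrassCurve.Affine k) [W.IsShortNF] [W.IsElliptic] (n : ℕ) (hn : 0 < n) :
    Nonempty (Setup W Ω n) := by
  classical
  have hn0 : NeZero (n : Ω) := ⟨by exact_mod_cast hn.ne'⟩
  obtain ⟨ζ, hζ⟩ : ∃ ζ : Ω, IsPrimitiveRoot ζ n := by
    have : NeZero n := ⟨hn.ne'⟩
    have hdeg : (Polynomial.cyclotomic n Ω).degree ≠ 0 := by
      rw [Polynomial.degree_cyclotomic]
      have := Nat.totient_pos.mpr hn
      exact_mod_cast this.ne'
    obtain ⟨ζ, hζ⟩ := IsAlgClosed.exists_root _ hdeg
    exact ⟨ζ, (Polynomial.isRoot_cyclotomic_iff).mp hζ⟩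
  obtain ⟨I, hI⟩ : ∃ I : Ω, I ^ 2 = -1 := IsAlgClosed.exists_pow_nat_eq (-1) two_pos
  obtain ⟨P0, hP0⟩ := exists_order (WeierstrassCurve.Affine.baseChange W Ω) n hn
  set T : Set (Pt W Ω) := {P | (2 * n) • P = 0} with hT
  have hTf : T.Finite := tors_finite (WeierstrassCurve.Affine.baseChange W Ω) (2 * n) (by omega)
  set s : Set Ω := xc '' T ∪ yc '' T ∪ {ζ, I} with hs
  have hsf : s.Finite := ((hTf.image _).union (hTf.image _)).union (Set.toFinite _)
  have hTg : ∀ (g : Ω ≃ₐ[k] Ω) (P : Pt W Ω), P ∈ T → rho W g P ∈ T := by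
    intro g P hP
    change (2 * n) • rho W g P = 0
    rw [← map_nsmul, show (2 * n) • P = 0 from hP, map_zero]
  set L : IntermediateField k Ω := IntermediateField.adjoin k s with hL
  have hsL : s ⊆ L := IntermediateField.subset_adjoin k s
  have hxL : ∀ P ∈ T, xc P ∈ L := fun P hP => hsL (Or.inl (Or.inl ⟨P, hP, rfl⟩))
  have hyL : ∀ P ∈ T, yc P ∈ L := fun P hP => hsL (Or.inl (Or.inr ⟨P, hP, rfl⟩))
  have hζL : ζ ∈ L := hsL (Or.inr (by simp))
  have hIL : I ∈ L := hsL (Or.inr (by simp))
  refine ⟨{ L := L, fin := ?_, stab := ?_, ζ := ζ, hζ := hζ, I := I, hI := hI, P0 := P0,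
            hP0 := hP0, fix := ?_, gen := ?_ }⟩
  · have : Finite s := hsf
    exact IntermediateField.finiteDimensional_adjoin
      (fun x _ => (Algebra.IsAlgebraic.isAlgebraic x).isIntegral)
  · intro g
    have hle : L ≤ L.comap (g : Ω →ₐ[k] Ω) := by
      rw [hL, IntermediateField.adjoin_le_iff, ← hL]
      rintro x ((⟨P, hP, rfl⟩ | ⟨P, hP, rfl⟩) | hx)
      · change g (xc P) ∈ L
        rw [← se1_xc]
        exact hxL _ (hTg g P hP)
      · change g (yc P) ∈ L
        rw [← se1_yc]
        exact hyL _ (hTg g P hP)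
      · rcases hx with rfl | hx
        · change g x ∈ L
          have h1 : g x ^ n = 1 := by rw [← map_pow, hζ.pow_eq_one, map_one]
          have : NeZero n := ⟨hn.ne'⟩
          obtain ⟨i, -, hi⟩ := hζ.eq_pow_of_pow_eq_one h1
          rw [← hi]
          exact pow_mem hζL i
        · rw [Set.mem_singleton_iff] at hx
          subst hx
          change g x ∈ L
          have h1 : g x ^ 2 = x ^ 2 := by rw [← map_pow, hI, map_neg, map_one]
          rcases sq_eq_sq_iff_eq_or_eq_neg.mp h1 with h2 | h2
          · rw [h2]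
            exact hIL
          · rw [h2]
            exact neg_mem hIL
    intro x hx
    exact hle hx
  · intro g hg
    rw [IntermediateField.mem_fixingSubgroup_iff] at hg
    refine ⟨hg _ hζL, hg _ hIL, ?_⟩
    intro P hP
    exact se1_eq W g P (hg _ (hxL P hP)) (hg _ (hyL P hP))
  · intro g hgζ hgI hgP
    have hle : L ≤ IntermediateField.fixedField (Subgroup.zpowers g) := by
      rw [hL, IntermediateField.adjoin_le_iff]
      have key : ∀ x : Ω, g x = x → x ∈ IntermediateField.fixedField (Subgroup.zpowers g) := by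
        intro x hx
        rw [IntermediateField.mem_fixedField_iff]
        intro f hf
        obtain ⟨i, rfl⟩ := hf
        have h1 : g ∈ MulAction.stabilizer (Ω ≃ₐ[k] Ω) x := hx
        exact Subgroup.zpow_mem _ h1 i
      rintro x ((⟨P, hP, rfl⟩ | ⟨P, hP, rfl⟩) | hx)
      · apply key
        rw [← se1_xc, hgP P hP]
      · apply key
        rw [← se1_yc, hgP P hP]
      · rcases hx with rfl | hx
        · exact key _ hgζ
        · rw [Set.mem_singleton_iff] at hx
          subst hx
          exact key _ hgI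
    rw [IntermediateField.mem_fixingSubgroup_iff]
    intro x hx
    have := hle hx
    rw [IntermediateField.mem_fixedField_iff] at this
    exact this g (Subgroup.mem_zpowers g)

end H16C
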