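import Pool.Agent.Lib.H16C.W2
import Pool.Agent.Lib.H16C.VC
import Pool.Agent.Lib.H16C.SE3

/-!
# SH1 (S/M): at a good place `w_y` vanishes on the inertia group of `Gal(Ω/k(δ))`

`g` inert on `F ⊇ L`: `g ∈ N` (`Setup.mem_of_inert`).  By `w_zero` it is enough that `g` fixes
`β = h (α l)` for all `h`, `l ∈ T`.  `β^n = h (a l) =: c ∈ L` (`S.stab`), so `g c = c`,
`(g β)^n = β^n`.  `Fam.val'`:
if `v c = 1`: `v β = 1`, `v(g β - β) < 1` (`β ∈ F`), `g β = β` (`fixed_of_unit`, `v(n) = 1`);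
if `v l < 1`, `v c = v l = v d` (`Adm`): `η = β/δ ∈ F`, `η^n = c/d`, `v η = 1`, `g η = η` in the
same way, and `g δ = δ`;
if `v l₁ < 1`, `v c · v l₁ = 1`, `v d = v l₁`: `η = β δ`.
-/

namespace H16C

variable {k : Type*} [Field k] [NumberField k] {Ω : Type*} [Field Ω] [Algebra k Ω] [IsAlgClosed Ω]
  [Algebra.IsAlgebraic k Ω] [CharZero Ω] [DecidableEq Ω] {W : WeierstrassCurve.Affine k}
  [W.IsShortNF] [W.IsElliptic] {n b : ℕ} [NeZero n] {S : Setup W Ω n} (Φ : Fam S b) (y : Φ.T → ZMod n)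

/-- an element that is inert on `F` fixes an `n`-th root of an element it fixes, up to units -/
theorem SH1_fix {k : Type*} [Field k] {Ω : Type*} [Field Ω] [Algebra k Ω] {n : ℕ} [NeZero n]
    {A : ValuationSubring Ω} (hAn : A.valuation (n : Ω) = 1) {F : IntermediateField k Ω}
    {g : Ω ≃ₐ[k] Ω} (hg : Inert A F g) {η : Ω} (hη : η ∈ F) (hv : A.valuation (η ^ n) = 1)
    (hgη : g (η ^ n) = η ^ n) : g η = η := by
  have hn : n ≠ 0 := NeZero.ne n
  have h1 : A.valuation η = 1 := by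
    rw [map_pow] at hv
    exact (pow_eq_one_iff.1 hv).resolve_right hn
  refine fixed_of_unit A.valuation hAn h1 ?_ (hg η hη h1.le)
  rw [← map_pow, hgη]

theorem good_inert (hb : Bad W Ω n b) {A : ValuationSubring Ω} (hAb : A.valuation (b : Ω) = 1)
    {d : ℕ} (hd : Φ.Adm d) {δ : Ω} (hδ : δ ^ n = (d : Ω)) {F : IntermediateField k Ω}
    (hLF : S.L ≤ F) (hα : ∀ h : Ω ≃ₐ[k] Ω, ∀ l ∈ Φ.T, h (Φ.α l) ∈ F) (hδF : δ ∈ F)
    {g : Ω ≃ₐ[k] Ω} (hg : Inert A F g) (hgδ : g δ = δ) : Φ.w y g = 0 := by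
  have hn : n ≠ 0 := NeZero.ne n
  have hgN : g ∈ S.N := S.mem_of_inert hb hAb fun x hx => hg x (hLF hx)
  have hAn : A.valuation (n : Ω) = 1 := by
    obtain ⟨m, hm⟩ := hb.dvd
    have h1 : (b : Ω) = (n : Ω) * ((6 * m : ℤ) : Ω) := by
      rw [hm]
      push_cast
      ring
    refine le_antisymm (by simpa using int_le A (n : ℤ)) ?_
    rw [← hAb, h1, map_mul]
    exact mul_le_of_le_one_right' (int_le A (6 * m : ℤ))
  have hd0 : (d : Ω) ≠ 0 := Nat.cast_ne_zero.2 hd.1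
  have hδ0 : δ ≠ 0 := by
    rintro rfl
    rw [zero_pow hn] at hδ
    exact hd0 hδ.symm
  have hgd : g (d : Ω) = (d : Ω) := map_natCast g d
  refine Φ.w_zero y hgN fun h l hl => ?_
  have hc : h (Φ.α l) ^ n = h (Φ.a l) := by rw [← map_pow, Φ.pow l hl]
  have hgc : g (h (Φ.a l)) = h (Φ.a l) :=
    (IntermediateField.mem_fixingSubgroup_iff _ _).1 hgN _ (S.stab h _ (Φ.mem l hl))
  rcases Φ.val' A h hl with h1 | ⟨h1, h2⟩ | ⟨h1, h2⟩
  · exact SH1_fix hAn hg (hα h l hl) (by rw [hc, h1]) (by rw [hc, hgc])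
  · have hv : A.valuation (d : Ω) = A.valuation (l : Ω) :=
      hd.2 A l (Finset.mem_insert_of_mem hl) h1
    have hpow : (h (Φ.α l) / δ) ^ n = h (Φ.a l) / (d : Ω) := by
      rw [div_pow, hc, hδ]
    have h3 : g (h (Φ.α l) / δ) = h (Φ.α l) / δ := by
      refine SH1_fix hAn hg (F.div_mem (hα h l hl) hδF) ?_ ?_
      · rw [hpow, map_div₀, h2, hv, div_self]
        rw [← hv, Valuation.ne_zero_iff]
        exact hd0
      · rw [hpow, map_div₀, hgc, hgd]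
    rw [map_div₀, hgδ, div_left_inj' hδ0] at h3
    exact h3
  · have hv : A.valuation (d : Ω) = A.valuation (Φ.l₁ : Ω) :=
      hd.2 A Φ.l₁ (Finset.mem_insert_self _ _) h1
    have hpow : (h (Φ.α l) * δ) ^ n = h (Φ.a l) * (d : Ω) := by
      rw [mul_pow, hc, hδ]
    have h3 : g (h (Φ.α l) * δ) = h (Φ.α l) * δ := by
      refine SH1_fix hAn hg (F.mul_mem (hα h l hl) hδF) ?_ ?_
      · rw [hpow, map_mul, hv, h2]
      · rw [hpow, map_mul, hgc, hgd]
    rw [map_mul, hgδ, mul_left_inj' hδ0] at h3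
    exact h3

end H16C
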