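import Pool.Agent.Lib.H16C.VC
import Pool.Agent.Lib.H16C.RU

/-!
# SH2 (S/M): at a bad place the decomposition group in `N` fixes all the `h (α l)`

`v(b) < 1`, `g ∈ N`, `v ∘ g = v`.  `β = h (α l)`, `β^n = h (a l) = c`, `v(c - 1) ≤ v(b)^(n+1)`
(`Fam.one'`).  `n ∣ b`, so `v(b) ≤ v(n) ≤ 1`; `v c = 1`, `v β = 1`.
`v(b)^(n+1) = v(b)^n v(b) < v(n)^n` (`v(n) ≠ 0`), so `root_near` with `ε = v(n)` gives `i` with
`v(β - ζ^i) < v(n)`.
`g β = ζ^j β` for some `j` (`g c = c` since `c ∈ L` by `S.stab`); suppose `η = ζ^j ≠ 1`.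
`γ = β - ζ^i`, `v(g γ) = v γ < v(n)`, `g γ = η β - ζ^i` (`g ζ = ζ`, `S.fix`), so
`v((η - 1) β) = v(g γ - γ) < v(n)`, but `v(η - 1) ≥ v(n)` (`val_sub`) and `v β = 1`: contradiction.
-/

namespace H16C

variable {k : Type*} [Field k] [NumberField k] {Ω : Type*} [Field Ω] [Algebra k Ω] [IsAlgClosed Ω]
  [Algebra.IsAlgebraic k Ω] [CharZero Ω] [DecidableEq Ω] {W : WeierstrassCurve.Affine k}
  [W.IsShortNF] [W.IsElliptic] {n b : ℕ} [NeZero n] {S : Setup W Ω n} (Φ : Fam S b)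

theorem bad_fix (hb : Bad W Ω n b) {A : ValuationSubring Ω} (hAb : A.valuation (b : Ω) < 1)
    {g : Ω ≃ₐ[k] Ω} (hg : g ∈ S.N) (hgA : ∀ x, A.valuation (g x) = A.valuation x)
    (h : Ω ≃ₐ[k] Ω) {l : ℕ} (hl : l ∈ Φ.T) : g (h (Φ.α l)) = h (Φ.α l) := by
  have hn : n ≠ 0 := NeZero.ne n
  have hc : h (Φ.α l) ^ n = h (Φ.a l) := by rw [← map_pow, Φ.pow l hl]
  have hb0 : A.valuation (b : Ω) ≠ 0 := by
    rw [Valuation.ne_zero_iff]
    exact Nat.cast_ne_zero.2 hb.ne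
  have hbn : A.valuation (b : Ω) ≤ A.valuation (n : Ω) := by
    obtain ⟨m, hm⟩ := hb.dvd
    have h1 : (b : Ω) = (n : Ω) * ((6 * m : ℤ) : Ω) := by
      rw [hm]
      push_cast
      ring
    rw [h1, map_mul]
    exact mul_le_of_le_one_right' (int_le A (6 * m : ℤ))
  have h1 := Φ.one' A h hl hAb
  have h2 : A.valuation (b : Ω) ^ (n + 1) < A.valuation (n : Ω) ^ n := by
    rw [pow_succ]
    have h3 : A.valuation (b : Ω) ^ n * A.valuation (b : Ω) < A.valuation (b : Ω) ^ n * 1 :=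
      mul_lt_mul_of_pos_left hAb (zero_lt_iff.2 (pow_ne_zero _ hb0))
    rw [mul_one] at h3
    exact h3.trans_le (pow_le_pow_left' hbn n)
  have h4 : A.valuation (h (Φ.a l) - 1) < 1 :=
    h1.trans_lt (h2.trans_le (pow_le_one' (int_le A (n : ℤ) |>.trans' (by simp)) n))
  have h5 : A.valuation (h (Φ.a l)) = 1 := by
    have h6 := Valuation.map_one_add_of_lt (v := A.valuation) h4
    rwa [add_sub_cancel] at h6
  have hβ : A.valuation (h (Φ.α l)) = 1 := by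
    rw [← hc, map_pow] at h5
    exact (pow_eq_one_iff.1 h5).resolve_right hn
  have hβ0 : h (Φ.α l) ≠ 0 := by
    intro h0
    rw [h0, map_zero] at hβ
    exact zero_ne_one hβ
  obtain ⟨i, -, hi⟩ := root_near A.valuation (Nat.pos_of_ne_zero hn) S.hζ
    (β := h (Φ.α l)) (ε := A.valuation (n : Ω)) (by rw [hc]; exact h1.trans_lt h2)
  have hgζ : g S.ζ = S.ζ := (S.fix g hg).1
  have hgc : g (h (Φ.a l)) = h (Φ.a l) :=
    (IntermediateField.mem_fixingSubgroup_iff _ _).1 hg _ (S.stab h _ (Φ.mem l hl))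
  by_contra hne
  have hη : (g (h (Φ.α l)) / h (Φ.α l)) ^ n = 1 := by
    rw [div_pow, ← map_pow, hc, hgc, div_self]
    rw [← hc]
    exact pow_ne_zero _ hβ0
  have hη1 : g (h (Φ.α l)) / h (Φ.α l) ≠ 1 := by
    intro h0
    rw [div_eq_one_iff_eq hβ0] at h0
    exact hne h0
  have h7 := val_sub A.valuation hη hη1
  have h8 : A.valuation (g (h (Φ.α l)) / h (Φ.α l) - 1)
      = A.valuation (g (h (Φ.α l)) - h (Φ.α l)) := by
    rw [div_sub_one hβ0, map_div₀, hβ, div_one]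
  have h9 : A.valuation (g (h (Φ.α l)) - S.ζ ^ i) < A.valuation (n : Ω) := by
    have h10 : g (h (Φ.α l)) - S.ζ ^ i = g (h (Φ.α l) - S.ζ ^ i) := by
      rw [map_sub, map_pow, hgζ]
    rw [h10, hgA]
    exact hi
  have h11 : g (h (Φ.α l)) - h (Φ.α l)
      = (g (h (Φ.α l)) - S.ζ ^ i) - (h (Φ.α l) - S.ζ ^ i) := by ring
  rw [h8, h11] at h7
  exact absurd h7 (not_le.2 ((Valuation.map_sub _ _ _).trans_lt (max_lt h9 hi)))

end H16C
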