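import Pool.Agent.Lib.H16C.C2
import Pool.Agent.Lib.H16C.LA3
import Pool.Agent.Lib.H16C.SH1
import Pool.Agent.Lib.H16C.SH2

/-!
# SH3 (S/M): `w_y` is locally trivial over `k(δ)`

`local_fin`, `v(b) = 1` : `K = k⟮δ⟯` (`IntermediateField.adjoin`), its fixing subgroup is the set of the
`g` with `g δ = δ`.  `F` = a finite extension of `k` with `K ≤ F`, `S.L ≤ F`, `h (α l) ∈ F`
(`Fam.exists_field`, join with `K`).  `lang` for `c = Φ.w y` (`w_mul`, `nsmul_w`), `hF`: `good_inert`.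
`v(b) < 1` (`v(b) ≤ 1` always, `int_le`): `cor_local` for `D = {g | v ∘ g = v}`, `H` = the
`n`-torsion: if `a ∈ N`, `x a x⁻¹ ∈ D` then `x a x⁻¹ ∈ N` (normal) and `bad_fix` gives
`x a x⁻¹ (x (α l)) = x (α l)`, so `a (α l) = α l` and `kap (α l) a = 0` (`kap_eq_zero_iff`) for all
`l ∈ T`: `Φ.f y a = 0`.
`local_inf`: `cor_local` for `D`: `a ∈ N`, `x a x⁻¹ ∈ D ∩ N` fixes `I` (`S.fix`), so it is `1`, `a = 1`
and `f y 1 = 0` (`f_mul`).
-/

namespace H16C

variable {k : Type*} [Field k] [NumberField k] {Ω : Type*} [Field Ω] [Algebra k Ω] [IsAlgClosed Ω]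
  [Algebra.IsAlgebraic k Ω] [CharZero Ω] [DecidableEq Ω] {W : WeierstrassCurve.Affine k}
  [W.IsShortNF] [W.IsElliptic] {n b : ℕ} [NeZero n] {S : Setup W Ω n} (Φ : Fam S b) (y : Φ.T → ZMod n)

theorem SH3_f_zero {a : Ω ≃ₐ[k] Ω} (ha : a ∈ S.N) (h : ∀ l ∈ Φ.T, a (Φ.α l) = Φ.α l) :
    Φ.f y a = 0 := by
  unfold Fam.f
  have h3 : ∑ l : Φ.T, y l * (kap S.ζ (Φ.α l) a : ZMod n) = 0 := by
    refine Finset.sum_eq_zero fun l _ => ?_
    rw [(kap_eq_zero_iff S.hζ (W2_alpha_ne Φ l.2) (W2_pow Φ l.2 ha)).2 (h l l.2), mul_zero]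
  rw [h3, map_zero]

theorem SH3_cor (D : Subgroup (Ω ≃ₐ[k] Ω))
    (hD : ∀ x : Ω ≃ₐ[k] Ω, ∀ a ∈ S.N, x * a * x⁻¹ ∈ D → Φ.f y a = 0) :
    ∃ Q : Pt W Ω, ∀ g ∈ D, Φ.w y g = rho W g Q - Q := by
  let H : AddSubgroup (Pt W Ω) := (nsmulAddMonoidHom n : Pt W Ω →+ Pt W Ω).ker
  obtain ⟨Q, -, hQ⟩ := cor_local (rho W) S.N (f := Φ.f y) (fun a ha b hb => Φ.f_mul y ha hb) H
    (by
      intro g m hm
      have hm' : n • m = 0 := hm
      change n • (rho W g m) = 0
      rw [← map_nsmul, hm', map_zero])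
    (fun g => S.nsmul_e _) D hD
  exact ⟨Q, hQ⟩

theorem local_fin (hb : Bad W Ω n b) {d : ℕ} (hd : Φ.Adm d) {δ : Ω} (hδ : δ ^ n = (d : Ω))
    (A : ValuationSubring Ω) (q : ℕ) (hq : q.Prime) (hA : A.valuation (q : Ω) < 1) :
    ∃ Q : Pt W Ω, ∀ g : Ω ≃ₐ[k] Ω, g δ = δ → (∀ x, A.valuation (g x) = A.valuation x) →
      Φ.w y g = rho W g Q - Q := by
  have hble : A.valuation (b : Ω) ≤ 1 := by
    have h1 := int_le A (b : ℤ)
    rwa [Int.cast_natCast] at h1
  rcases lt_or_eq_of_le hble with hAb | hAb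
  · let D : Subgroup (Ω ≃ₐ[k] Ω) :=
      { carrier := {g | ∀ x, A.valuation (g x) = A.valuation x}
        mul_mem' := fun {g h} hg hh x => by
          change A.valuation (g (h x)) = A.valuation x
          rw [hg, hh]
        one_mem' := fun x => rfl
        inv_mem' := fun {g} hg x => by
          have h1 := hg (g⁻¹ x)
          have h2 : g (g⁻¹ x) = x := g.apply_symm_apply x
          rw [h2] at h1
          exact h1.symm }
    obtain ⟨Q, hQ⟩ := SH3_cor Φ y D (by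
      intro x a ha hxa
      refine SH3_f_zero Φ y ha fun l hl => ?_
      have h1 := bad_fix Φ hb hAb ((S.normal_N).conj_mem a ha x) hxa x hl
      have h2 : (x * a * x⁻¹) (x (Φ.α l)) = x (a (Φ.α l)) := by
        change x (a (x⁻¹ (x (Φ.α l)))) = _
        rw [show x⁻¹ (x (Φ.α l)) = Φ.α l from x.symm_apply_apply _]
      rw [h2] at h1
      exact x.injective h1)
    exact ⟨Q, fun g _ hg => hQ g hg⟩
  · obtain ⟨F₁, hF₁, hL, -, hα⟩ := Φ.exists_field
    let K : IntermediateField k Ω := IntermediateField.adjoin k {δ}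
    have hfdK : FiniteDimensional k K :=
      IntermediateField.adjoin.finiteDimensional (Algebra.IsIntegral.isIntegral δ)
    have hδK : δ ∈ K := IntermediateField.mem_adjoin_simple_self k δ
    have hfd : FiniteDimensional k (K ⊔ F₁ : IntermediateField k Ω) := inferInstance
    obtain ⟨Q, hQ⟩ := lang hb K (K ⊔ F₁) le_sup_left A q hq hA hAb (Φ.w y)
      (fun g _ h _ => Φ.w_mul y g h) (fun g _ => Φ.nsmul_w y g) (fun g hg hin => by
        have hgδ : g δ = δ := (IntermediateField.mem_fixingSubgroup_iff _ _).1 hg _ hδK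
        exact good_inert Φ y hb hAb hd hδ (hL.trans le_sup_right)
          (fun h l hl => (le_sup_right : F₁ ≤ K ⊔ F₁) (hα h l hl))
          ((le_sup_left : K ≤ K ⊔ F₁) hδK) hin hgδ)
    refine ⟨Q, fun g hg hgA => hQ g ?_ hgA⟩
    rw [IntermediateField.mem_fixingSubgroup_iff]
    intro x hx
    have h1 : K ≤ IntermediateField.fixedField (Subgroup.zpowers g) := by
      rw [IntermediateField.adjoin_simple_le_iff, IntermediateField.mem_fixedField_iff]
      intro f hf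
      obtain ⟨j, rfl⟩ := Subgroup.mem_zpowers_iff.1 hf
      have h2 : g ∈ MulAction.stabilizer (Ω ≃ₐ[k] Ω) δ := hg
      exact (MulAction.stabilizer (Ω ≃ₐ[k] Ω) δ).zpow_mem h2 j
    exact (IntermediateField.mem_fixedField_iff _ _).1 (h1 hx) g (Subgroup.mem_zpowers g)

theorem local_inf (D : Subgroup (Ω ≃ₐ[k] Ω)) (hD : ∀ g ∈ D, g S.I = S.I → g = 1) :
    ∃ Q : Pt W Ω, ∀ g ∈ D, Φ.w y g = rho W g Q - Q := by
  refine SH3_cor Φ y D fun x a ha hxa => SH3_f_zero Φ y ha fun l hl => ?_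
  have h1 := hD _ hxa (S.fix _ ((S.normal_N).conj_mem a ha x)).2.1
  have h2 : a = 1 := by
    rw [mul_inv_eq_one] at h1
    exact mul_eq_left.1 h1
  rw [h2]
  rfl

end H16C
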