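import Pool.Agent.Lib.H16C.T1

/-!
# T2 (S/M): a point of exact order `n`

`F` algebraically closed of characteristic `0`.  For a prime `p`: `ΨSq p` has degree `p² - 1 > 0`
(`natDegree_ΨSq`), so a root `x`; with `y² = f(x)`, `P = (x, y)` (`exists_pt`): `psi p = 0`
(`psi_sq`), `p • P = 0` (`smul_eq_zero_of_psi`), `P ≠ 0`: order `p`.
`p^a`: `divisible` gives `P_a` with `p^(a-1) • P_a = P_1` of order `p`, so `P_a` has order `p^a`.
General `n`: induction over coprime factors (`AddCommute.addOrderOf_add_eq_mul_addOrderOf_of_coprime`,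
`Nat.recOnPosPrimePosCoprime`): the sum of points of coprime orders `a`, `b` has order `a b`.
-/

open WeierstrassCurve Polynomial

namespace H16C

section T2

variable {F : Type*} [Field F] [DecidableEq F] [CharZero F] [IsAlgClosed F]
    (W : WeierstrassCurve.Affine F) [W.IsShortNF] [W.IsElliptic]

theorem T2_prime (p : ℕ) (hp : p.Prime) : ∃ P : W.Point, addOrderOf P = p := by
  have h2 := hp.two_le
  have hdeg : (W.ΨSq p).natDegree = p ^ 2 - 1 := by
    have h := W.natDegree_ΨSq (n := (p : ℤ)) (by exact_mod_cast (Nat.cast_ne_zero (R := F)).mpr hp.ne_zero)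
    simpa using h
  have hne : (W.ΨSq p).degree ≠ 0 := by
    intro h
    have h1 := natDegree_eq_zero_iff_degree_le_zero.mpr h.le
    rw [hdeg] at h1
    have h3 : 4 ≤ p ^ 2 := by nlinarith
    omega
  obtain ⟨x, hx⟩ := IsAlgClosed.exists_root _ hne
  obtain ⟨y, hy⟩ := IsAlgClosed.exists_pow_nat_eq (x ^ 3 + W.a₄ * x + W.a₆) (n := 2) (by norm_num)
  obtain ⟨P, hP, hPx, hPy⟩ := exists_pt (W := W) x y hy
  have h3 : psi W x y p = 0 := by
    have h4 := psi_sq W hy (p : ℤ)
    rw [hx.eq_zero] at h4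
    exact pow_eq_zero_iff (two_ne_zero) |>.mp h4
  have h5 : p • P = 0 := by
    apply smul_eq_zero_of_psi hP p hp.pos
    rw [hPx, hPy]
    exact h3
  have := Fact.mk hp
  exact ⟨P, addOrderOf_eq_prime h5 hP⟩

theorem T2_pow (p a : ℕ) (hp : p.Prime) : ∃ P : W.Point, addOrderOf P = p ^ a := by
  induction a with
  | zero => exact ⟨0, by simp⟩
  | succ a ih =>
    rcases Nat.eq_zero_or_pos a with rfl | ha
    · obtain ⟨P, hP⟩ := T2_prime W p hp
      exact ⟨P, by rw [hP]; simp⟩
    · obtain ⟨P, hP⟩ := ih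
      obtain ⟨Q, hQ⟩ := divisible p hp.pos P
      have := Fact.mk hp
      refine ⟨Q, addOrderOf_eq_prime_pow ?_ ?_⟩
      · intro h
        obtain ⟨b, rfl⟩ : ∃ b, a = b + 1 := ⟨a - 1, by omega⟩
        rw [pow_succ, mul_nsmul', hQ] at h
        have h6 := addOrderOf_dvd_of_nsmul_eq_zero h
        rw [hP] at h6
        have h7 := Nat.le_of_dvd (pow_pos hp.pos b) h6
        have h8 : p ^ b < p ^ (b + 1) := Nat.pow_lt_pow_right hp.one_lt (Nat.lt_succ_self b)
        omega
      · rw [pow_succ, mul_nsmul', hQ, ← hP]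
        exact addOrderOf_nsmul_eq_zero P

end T2

theorem exists_order {F : Type*} [Field F] [DecidableEq F] [CharZero F] [IsAlgClosed F]
    (W : WeierstrassCurve.Affine F) [W.IsShortNF] [W.IsElliptic] (n : ℕ) (hn : 0 < n) :
    ∃ P : W.Point, addOrderOf P = n := by
  induction n using Nat.recOnPosPrimePosCoprime with
  | prime_pow p a hp ha => exact T2_pow W p a hp
  | zero => exact absurd hn (lt_irrefl 0)
  | one => exact ⟨0, by simp⟩
  | coprime a b ha hb hab iha ihb =>
    obtain ⟨P, hP⟩ := iha (by omega)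
    obtain ⟨Q, hQ⟩ := ihb (by omega)
    refine ⟨P + Q, ?_⟩
    rw [(AddCommute.all P Q).addOrderOf_add_eq_mul_addOrderOf_of_coprime (by rw [hP, hQ]; exact hab),
      hP, hQ]

end H16C
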