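import Pool.Agent.Lib.H16C.T1
import Pool.Agent.Lib.H16C.R1

/-!
# T3 (M): torsion and `E₁(v)`

`F` of characteristic `0`, `v(a₄), v(a₆) ≤ 1`, `v(n) = 1`.
`coeff_int`: the coefficients of `Φ n`, `ΨSq n` have `v ≤ 1`: let `W₀` be the curve over the
subring `v.integer` (or `v.valuationSubring`) with `a₁ = a₂ = a₃ = 0` and the given `a₄`, `a₆`; then
`W = W₀.map (algebraMap)` (`a₁, a₂, a₃ = 0`) and `map_Φ`, `map_ΨSq`.
`tors_inj`: `n • P = 0`, `P ∈ E₁(v)` implies `P = O`: otherwise let `2 ≤ N = addOrderOf P ∣ n`;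
`v N = 1` (`N ∣ n` and integers have `v ≤ 1`); `psi_order`, `psi_sq`: `(ΨSq N)(xc P) = 0`, all the
coefficients have `v ≤ 1`, the leading one is `N²` (`coeff_ΨSq`, degree `N² - 1`, `natDegree_ΨSq_le`),
`v(N²) = 1`: a root with `v > 1` is impossible (the leading term dominates).
`tors_surj`: `F` algebraically closed; `n • Z ∈ E₁(v)`.  Then there is `T` with `n • T = 0` and
`Z - T ∈ E₁(v)`.  If `R = n • Z = 0`: `T = Z`.  Otherwise `v(xc R) > 1`.  Let `C` be the finite set of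
`c` such that `h_c = Φ n - c ΨSq n` has a root `xc P`, `P ≠ 0`, `k • P = 0`, some `0 < k ≤ n` (as in
the proof of `divisible`: `tors_finite`, `no_common_root`).  The points `U ∈ E₁(v)` are infinitely
many (abscissae `(xc R)^j`, `exists_pt`), so the points `n • U` are infinitely many (`tors_finite`:
finite fibres), and only finitely many points have abscissa in `C`: choose `U ∈ E₁(v)` with
`R' = R + n • U ≠ 0`, `c = xc R' ∉ C`.  `R' ∈ E₁(v)` (`e1_add`), so `v c > 1`.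
The monic `h_c` of degree `n²` has the coefficient `-n² c + ...` of `X^(n²-1)`, of valuation
`v c > 1`, so it has a root `x'` with `v x' > 1`, `P' = (x', y') ∈ E₁(v)` (`exists_pt`), and `x'` is
not the abscissa of a point killed by some `0 < k ≤ n`; `xc_smul` gives `xc (n • P') = c`,
`n • P' = ± R'` (`xc_eq`); changing the sign of `P'`: `n • P' = R' = n • (Z + U)`.
`T = Z + U - P'`.
-/

open WeierstrassCurve Polynomial

namespace H16C

variable {F : Type*} [Field F] [DecidableEq F] [CharZero F] {W : WeierstrassCurve.Affine F}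
  [W.IsShortNF] [W.IsElliptic] {Γ : Type*} [LinearOrderedCommGroupWithZero Γ] {v : Valuation F Γ}

omit [DecidableEq F] [CharZero F] [W.IsElliptic] in
theorem coeff_int (h4 : v W.a₄ ≤ 1) (h6 : v W.a₆ ≤ 1) (n i : ℕ) :
    v ((W.Φ n).coeff i) ≤ 1 ∧ v ((W.ΨSq n).coeff i) ≤ 1 := by
  let W₀ : WeierstrassCurve v.integer := ⟨0, 0, 0, ⟨W.a₄, h4⟩, ⟨W.a₆, h6⟩⟩
  have hW : W = W₀.map (algebraMap v.integer F) := by
    refine WeierstrassCurve.ext ?_ ?_ ?_ ?_ ?_
    · rw [a₁_of_isShortNF]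
      exact (map_zero _).symm
    · rw [a₂_of_isShortNF]
      exact (map_zero _).symm
    · rw [a₃_of_isShortNF]
      exact (map_zero _).symm
    · rfl
    · rfl
  have h1 : W.Φ n = (W₀.Φ n).map (algebraMap v.integer F) := by
    rw [← WeierstrassCurve.map_Φ, ← hW]
  have h2 : W.ΨSq n = (W₀.ΨSq n).map (algebraMap v.integer F) := by
    rw [← WeierstrassCurve.map_ΨSq, ← hW]
  rw [h1, h2, coeff_map, coeff_map]
  exact ⟨((W₀.Φ n).coeff i).2, ((W₀.ΨSq n).coeff i).2⟩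

omit [DecidableEq F] [CharZero F] in
theorem T3_nat (m : ℕ) : v (m : F) ≤ 1 := natCast_mem v.integer m

omit [DecidableEq F] [CharZero F] in
theorem T3_dom (p : F[X]) (d : ℕ) (hp : ∀ i, v (p.coeff i) ≤ 1) (hd : p.natDegree ≤ d)
    (h1 : v (p.coeff d) = 1) {x : F} (hx : 1 < v x) : p.eval x ≠ 0 := by
  intro h0
  rw [eval_eq_sum_range' (Nat.lt_succ_of_le hd), Finset.sum_range_succ] at h0
  have h2 : v (∑ i ∈ Finset.range d, p.coeff i * x ^ i) < v x ^ d := by
    refine v.map_sum_lt (pow_ne_zero _ (zero_lt_one.trans hx).ne') ?_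
    intro i hi
    rw [map_mul, map_pow]
    calc v (p.coeff i) * v x ^ i ≤ 1 * v x ^ i := mul_le_mul_left (hp i) _
      _ = v x ^ i := one_mul _
      _ < v x ^ d := pow_lt_pow_right₀ hx (Finset.mem_range.mp hi)
  have h3 : v (∑ i ∈ Finset.range d, p.coeff i * x ^ i) = v x ^ d := by
    rw [eq_neg_of_add_eq_zero_left h0, Valuation.map_neg, map_mul, map_pow, h1, one_mul]
  exact h2.ne h3

omit [DecidableEq F] [CharZero F] in
theorem T3_dvd {n N : ℕ} (hn : v (n : F) = 1) (h : N ∣ n) : v (N : F) = 1 := by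
  obtain ⟨M, rfl⟩ := h
  rw [Nat.cast_mul, map_mul] at hn
  refine le_antisymm (T3_nat N) ?_
  calc (1 : Γ) = v (N : F) * v (M : F) := hn.symm
    _ ≤ v (N : F) * 1 := mul_le_mul_right (T3_nat M) _
    _ = v (N : F) := mul_one _

omit [DecidableEq F] [CharZero F] in
theorem T3_ne {n : ℕ} (hn : v (n : F) = 1) : n ≠ 0 := by
  rintro rfl
  rw [Nat.cast_zero, map_zero] at hn
  exact zero_ne_one hn

theorem tors_inj (h4 : v W.a₄ ≤ 1) (h6 : v W.a₆ ≤ 1) (n : ℕ) (hn : v (n : F) = 1) {P : W.Point}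
    (hP : n • P = 0) (h1 : InE1 v P) : P = 0 := by
  by_contra h0
  have hn0 := T3_ne hn
  have hN := addOrderOf_dvd_of_nsmul_eq_zero hP
  set N := addOrderOf P with hNdef
  have hN0 : N ≠ 0 := by
    intro h
    rw [h] at hN
    exact hn0 (Nat.eq_zero_of_zero_dvd hN)
  have hN1 : N ≠ 1 := by
    intro h
    exact h0 (AddMonoid.addOrderOf_eq_one_iff.mp h)
  have hN2 : 2 ≤ N := by omega
  have hvN := T3_dvd hn hN
  have h2 : psi W (xc P) (yc P) N = 0 := by
    refine psi_order two_ne_zero h0 N hN2 ?_ (addOrderOf_nsmul_eq_zero P)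
    intro k hk hkN hkP
    have := Nat.le_of_dvd hk (addOrderOf_dvd_of_nsmul_eq_zero hkP)
    omega
  have h3 := psi_sq W (eqn h0) (N : ℤ)
  rw [h2] at h3
  have h5 : 1 < v (xc P) := by
    rcases P with _ | ⟨x, y, h⟩
    · exact absurd rfl h0
    · exact h1
  refine T3_dom (W.ΨSq N) (N ^ 2 - 1) (fun i => (coeff_int h4 h6 N i).2) ?_ ?_ h5 ?_
  · simpa using W.natDegree_ΨSq_le (N : ℤ)
  · have h7 := W.coeff_ΨSq (N : ℤ)
    simp only [Int.natAbs_natCast, Int.cast_natCast] at h7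
    rw [h7, map_pow, hvN, one_pow]
  · rw [← h3]
    ring

omit [DecidableEq F] [CharZero F] [W.IsElliptic] in
theorem T3_lt {P : W.Point} (h0 : P ≠ 0) (h1 : InE1 v P) : 1 < v (xc P) := by
  rcases P with _ | ⟨x, y, h⟩
  · exact absurd rfl h0
  · exact h1

omit [DecidableEq F] [CharZero F] [W.IsElliptic] in
theorem T3_mem {P : W.Point} (h1 : 1 < v (xc P)) : InE1 v P := by
  rcases P with _ | ⟨x, y, h⟩
  · trivial
  · exact h1

theorem T3_nsmul (h4 : v W.a₄ ≤ 1) (h6 : v W.a₆ ≤ 1) {U : W.Point} (hU : InE1 v U) (m : ℕ) :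
    InE1 v (m • U) := by
  induction m with
  | zero =>
    rw [zero_smul]
    trivial
  | succ m ih =>
    rw [succ_nsmul]
    exact e1_add h4 h6 ih hU

omit [CharZero F] in
theorem T3_fin_xc (C : Set F) (hC : C.Finite) : {Q : W.Point | Q = 0 ∨ xc Q ∈ C}.Finite := by
  have h1 : {Q : W.Point | Q = 0 ∨ xc Q ∈ C} ⊆ {0} ∪ ⋃ c ∈ C, {Q : W.Point | Q ≠ 0 ∧ xc Q = c} := by
    intro Q hQ
    by_cases h0 : Q = 0
    · exact Or.inl h0
    · rcases hQ with h | h
      · exact absurd h h0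
      · exact Or.inr (Set.mem_biUnion h ⟨h0, rfl⟩)
  refine Set.Finite.subset ((Set.finite_singleton _).union (hC.biUnion fun c _ => ?_)) h1
  by_cases h2 : ∃ Q₀ : W.Point, Q₀ ≠ 0 ∧ xc Q₀ = c
  · obtain ⟨Q₀, h3, h5⟩ := h2
    refine Set.Finite.subset (Set.toFinite {Q₀, -Q₀}) ?_
    rintro Q ⟨h6, h7⟩
    exact xc_eq h6 h3 (h7.trans h5.symm)
  · refine Set.Finite.subset Set.finite_empty ?_
    rintro Q ⟨h6, h7⟩
    exact h2 ⟨Q, h6, h7⟩

theorem T3_exists_U [IsAlgClosed F] (n : ℕ) (hn : 0 < n) {X : F} (hX : 1 < v X) (R : W.Point)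
    (C : Set F) (hC : C.Finite) :
    ∃ U : W.Point, InE1 v U ∧ R + n • U ≠ 0 ∧ xc (R + n • U) ∉ C := by
  by_contra hcon
  push Not at hcon
  -- the points of E₁
  have h1 : ∀ j : ℕ, ∃ U : W.Point, U ≠ 0 ∧ xc U = X ^ (j + 1) := by
    intro j
    obtain ⟨y, hy⟩ := IsAlgClosed.exists_pow_nat_eq
      ((X ^ (j + 1)) ^ 3 + W.a₄ * X ^ (j + 1) + W.a₆) (n := 2) (by norm_num)
    obtain ⟨P, hP, hPx, -⟩ := exists_pt (W := W) _ y hy
    exact ⟨P, hP, hPx⟩
  choose U hU0 hUx using h1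
  have hvU : ∀ j, v (xc (U j)) = v X ^ (j + 1) := fun j => by rw [hUx, map_pow]
  have hUinj : Function.Injective U := by
    intro i j hij
    have h2 : v X ^ (i + 1) = v X ^ (j + 1) := by rw [← hvU, ← hvU, hij]
    have h3 := pow_right_injective₀ (zero_lt_one.trans hX) hX.ne' h2
    omega
  have hUE : ∀ j, InE1 v (U j) := fun j => T3_mem (by
    rw [hvU]
    exact one_lt_pow₀ hX (Nat.succ_ne_zero j))
  have hBad := T3_fin_xc (W := W) C hC
  have hmem : ∀ j, R + n • U j ∈ {Q : W.Point | Q = 0 ∨ xc Q ∈ C} := by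
    intro j
    by_cases h0 : R + n • U j = 0
    · exact Or.inl h0
    · exact Or.inr (hcon (U j) (hUE j) h0)
  have hfin : (Set.range U).Finite := by
    have h5 : Set.range U ⊆ ⋃ Q ∈ {Q : W.Point | Q = 0 ∨ xc Q ∈ C}, {V : W.Point | R + n • V = Q} := by
      rintro _ ⟨j, rfl⟩
      exact Set.mem_biUnion (hmem j) rfl
    refine Set.Finite.subset (hBad.biUnion fun Q _ => ?_) h5
    by_cases h2 : ∃ V₀ : W.Point, R + n • V₀ = Q
    · obtain ⟨V₀, hV₀⟩ := h2
      refine Set.Finite.subset ((tors_finite W n hn).image fun t => V₀ + t) ?_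
      intro V hV
      refine ⟨V - V₀, ?_, add_sub_cancel _ _⟩
      change n • (V - V₀) = 0
      rw [nsmul_sub, sub_eq_zero]
      exact add_left_cancel (hV.trans hV₀.symm)
    · refine Set.Finite.subset Set.finite_empty ?_
      intro V hV
      exact h2 ⟨V, hV⟩
  exact Set.infinite_range_of_injective hUinj hfin

theorem tors_surj [IsAlgClosed F] (h4 : v W.a₄ ≤ 1) (h6 : v W.a₆ ≤ 1) (n : ℕ)
    (hn : v (n : F) = 1) {Z : W.Point} (h : InE1 v (n • Z)) :
    ∃ T : W.Point, n • T = 0 ∧ InE1 v (Z - T) := by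
  by_cases hR : n • Z = 0
  · exact ⟨Z, hR, by rw [sub_self]; trivial⟩
  have hn0 : 0 < n := Nat.pos_of_ne_zero (T3_ne hn)
  have hX := T3_lt hR h
  set C : Set F := (fun P : W.Point => (W.Φ n).eval (xc P) / (W.ΨSq n).eval (xc P)) ''
    (⋃ k ∈ Finset.Icc 1 n, {P : W.Point | k • P = 0}) with hCdef
  have hC : C.Finite := by
    refine Set.Finite.image _ (Set.Finite.biUnion (Finset.finite_toSet _) fun k hk => ?_)
    have hk' := Finset.mem_Icc.mp (Finset.mem_coe.mp hk)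
    exact tors_finite W k (by omega)
  obtain ⟨U, hU, hR0, hc⟩ := T3_exists_U n hn0 hX (n • Z) C hC
  set R' := n • Z + n • U with hR'
  have hR'E : InE1 v R' := e1_add h4 h6 h (T3_nsmul h4 h6 hU n)
  have hvc := T3_lt hR0 hR'E
  set c := xc R' with hcdef
  -- the polynomial h_c
  have hΦ : (W.Φ n).natDegree = n ^ 2 := by simp
  have hΦ1 : (W.Φ n).Monic := W.leadingCoeff_Φ (n : ℤ)
  have hΨ : (W.ΨSq n).natDegree ≤ n ^ 2 - 1 := by simpa using W.natDegree_ΨSq_le (n : ℤ)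
  have hn2 : 0 < n ^ 2 := pow_pos hn0 2
  have hdeg : (Polynomial.C c * W.ΨSq n).degree < (W.Φ n).degree := by
    rw [degree_eq_natDegree hΦ1.ne_zero, hΦ]
    refine lt_of_le_of_lt degree_le_natDegree ?_
    have h7 : (Polynomial.C c * W.ΨSq n).natDegree ≤ n ^ 2 - 1 :=
      (natDegree_C_mul_le _ _).trans hΨ
    exact_mod_cast (show (Polynomial.C c * W.ΨSq n).natDegree < n ^ 2 by omega)
  set p : F[X] := W.Φ n - Polynomial.C c * W.ΨSq n with hp
  have hpm : p.Monic := hΦ1.sub_of_left hdeg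
  have hpd : p.natDegree = n ^ 2 := by
    rw [hp, natDegree_sub_eq_left_of_natDegree_lt, hΦ]
    rw [hΦ]
    exact lt_of_le_of_lt ((natDegree_C_mul_le _ _).trans hΨ) (by omega)
  have hnext : 1 < v p.nextCoeff := by
    rw [nextCoeff_of_natDegree_pos (by rw [hpd]; exact hn2), hpd, hp, coeff_sub, coeff_C_mul]
    have h7 := W.coeff_ΨSq (n : ℤ)
    simp only [Int.natAbs_natCast, Int.cast_natCast] at h7
    rw [h7]
    have h8 : v (c * (n : F) ^ 2) = v c := by
      rw [map_mul, map_pow, hn, one_pow, mul_one]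
    have h9 : v ((W.Φ n).coeff (n ^ 2 - 1)) < v (c * (n : F) ^ 2) := by
      rw [h8]
      exact lt_of_le_of_lt (coeff_int h4 h6 n _).1 hvc
    rw [v.map_sub_eq_of_lt_right h9, h8]
    exact hvc
  obtain ⟨x', hx', hvx⟩ : ∃ x' ∈ p.roots, 1 < v x' := by
    by_contra hcon
    push Not at hcon
    have h7 := (IsAlgClosed.splits p).nextCoeff_eq_neg_sum_roots_of_monic hpm
    have h8 : p.roots.sum ∈ v.integer := multiset_sum_mem _ fun a ha => hcon a ha
    have h9 : v p.roots.sum ≤ 1 := h8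
    rw [h7, Valuation.map_neg] at hnext
    exact absurd h9 (not_le.mpr hnext)
  have hroot : p.eval x' = 0 := (mem_roots hpm.ne_zero).mp hx'
  have hroot' : (W.Φ n).eval x' = c * (W.ΨSq n).eval x' := by
    rw [hp, eval_sub, eval_mul, eval_C, sub_eq_zero] at hroot
    exact hroot
  obtain ⟨y', hy'⟩ := IsAlgClosed.exists_pow_nat_eq (x' ^ 3 + W.a₄ * x' + W.a₆) (n := 2)
    (by norm_num)
  obtain ⟨P', hP', hPx, -⟩ := exists_pt (W := W) x' y' hy'
  have hP'E : InE1 v P' := T3_mem (by rw [hPx]; exact hvx)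
  have hk : ∀ k : ℕ, 0 < k → k ≤ n → k • P' ≠ 0 := by
    intro k hk hkn hkP
    apply hc
    refine ⟨P', Set.mem_biUnion (Finset.mem_coe.mpr (Finset.mem_Icc.mpr ⟨hk, hkn⟩)) hkP, ?_⟩
    change (W.Φ n).eval (xc P') / (W.ΨSq n).eval (xc P') = c
    rw [hPx, hroot']
    refine mul_div_cancel_right₀ _ ?_
    intro h7
    refine no_common_root W n hn0 x' h7 ?_
    rw [hroot', h7, mul_zero]
  obtain ⟨h7, h8⟩ := xc_smul n hn0 hk
  rw [hPx, hroot'] at h8
  rw [hPx] at h7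
  have h9 : xc (n • P') = xc R' := mul_right_cancel₀ h7 h8
  obtain ⟨P'', hE'', hn''⟩ : ∃ P'' : W.Point, InE1 v P'' ∧ n • P'' = R' := by
    rcases xc_eq (hk n hn0 le_rfl) hR0 h9 with h10 | h10
    · exact ⟨P', hP'E, h10⟩
    · exact ⟨-P', e1_neg hP'E, by rw [smul_neg, h10, neg_neg]⟩
  refine ⟨Z + U - P'', ?_, ?_⟩
  · rw [nsmul_sub, nsmul_add, hn'', hR', sub_self]
  · have h11 : Z - (Z + U - P'') = P'' - U := by abel
    rw [h11]
    exact e1_sub h4 h6 hE'' hU

end H16C
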