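import Pool.Agent.Lib.H16C.C1
import Pool.Agent.Lib.H16C.K1

/-!
# W1 (M): first properties of `N`, of the homomorphism `e` and of the cocycles `w_y`

`N = Gal(Ω/L)` is normal: `stab`; finite index: the cosets `g N` are determined by `g|L`, and there are
only finitely many `k`-embeddings of the finite extension `L` in `Ω`.
`e`: `ZMod.lift`; injective because `P0` has order `n` (`addOrderOf_dvd_iff_nsmul_eq_zero`).
`fix_tors`: `n • P = 0` implies `(2n) • P = 0`, `Setup.fix`.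
`f_mul`: for `g, h ∈ N`: `kap_mul` (`g`, `h` fix `ζ ∈ L` by `Setup.fix` and `a l = (α l)^n ∈ L`), and
`rho W g (e z) = e z` (`fix_tors`).
`w_mul`: `cor_cocycle`.  `w_add`: `cor_add` and additivity of `e`.  `nsmul_w`: `cor_mem` with
`H = {m | n • m = 0}`.
`w_hom`: `w_mul` and `rho W g` fixes the `n`-torsion point `w y h`.
-/

open WeierstrassCurve

namespace H16C

variable {k : Type*} [Field k] {Ω : Type*} [Field Ω] [Algebra k Ω] [IsAlgClosed Ω]
  [Algebra.IsAlgebraic k Ω] [CharZero Ω] [DecidableEq Ω] {W : WeierstrassCurve.Affine k}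
  {n b : ℕ} [NeZero n]

instance Setup.normal_N (S : Setup W Ω n) : S.N.Normal where
  conj_mem := by
    intro a ha g
    rw [IntermediateField.mem_fixingSubgroup_iff] at ha ⊢
    intro x hx
    have h1 := S.stab g⁻¹ x hx
    have h2 := ha _ h1
    change g (a (g⁻¹ x)) = x
    rw [h2]
    exact AlgEquiv.apply_symm_apply g x

instance Setup.finiteIndex_N (S : Setup W Ω n) : S.N.FiniteIndex := by
  have h0 : CharZero k := (algebraMap k Ω).charZero
  have h1 : IsAlgClosure k Ω := ⟨inferInstance, inferInstance⟩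
  have h2 : Normal k Ω := IsAlgClosure.normal k Ω
  have h3 : IsGalois k Ω := ⟨⟩
  have h4 := IntermediateField.finrank_eq_fixingSubgroup_index (F := k) (E' := Ω) S.L
  have h5 := S.fin
  have h6 : 0 < Module.finrank k S.L := Module.finrank_pos
  exact ⟨by rw [← h4]; exact h6.ne'⟩

theorem Setup.e_injective (S : Setup W Ω n) : Function.Injective S.e := by
  rw [Setup.e, ZMod.lift_injective]
  intro m hm
  have h1 : m • S.P0 = 0 := hm
  rw [ZMod.intCast_zmod_eq_zero_iff_dvd, ← S.hP0]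
  exact addOrderOf_dvd_iff_zsmul_eq_zero.mpr h1

theorem Setup.nsmul_e (S : Setup W Ω n) (z : ZMod n) : n • S.e z = 0 := by
  rw [← map_nsmul, nsmul_eq_mul, ZMod.natCast_self, zero_mul, map_zero]

theorem Setup.fix_tors (S : Setup W Ω n) {g : Ω ≃ₐ[k] Ω} (hg : g ∈ S.N) {P : Pt W Ω}
    (hP : n • P = 0) : rho W g P = P := by
  refine (S.fix g hg).2.2 P ?_
  rw [mul_nsmul', hP, smul_zero]

variable {S : Setup W Ω n} (Φ : Fam S b) (y y' : Φ.T → ZMod n)

theorem Fam.f_mul {g h : Ω ≃ₐ[k] Ω} (hg : g ∈ S.N) (hh : h ∈ S.N) :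
    Φ.f y (g * h) = Φ.f y g + rho W g (Φ.f y h) := by
  have h1 : rho W g (Φ.f y h) = Φ.f y h := S.fix_tors hg (S.nsmul_e _)
  rw [h1]
  unfold Fam.f
  rw [← map_add, ← Finset.sum_add_distrib]
  congr 1
  refine Finset.sum_congr rfl fun l _ => ?_
  rw [← mul_add]
  congr 1
  have hl := l.2
  have h2 : ∀ g ∈ S.N, g (Φ.α l ^ n) = Φ.α l ^ n := by
    intro g hg
    rw [Φ.pow l hl]
    exact (IntermediateField.mem_fixingSubgroup_iff _ _).mp hg _ (Φ.mem l hl)
  have h3 : Φ.α l ≠ 0 := by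
    intro h0
    have h4 := Φ.pow l hl
    rw [h0, zero_pow (NeZero.ne n)] at h4
    exact Φ.ne l hl h4.symm
  exact kap_mul S.hζ h3 (S.fix g hg).1 (h2 g hg) (h2 h hh)

theorem Fam.w_mul (g h : Ω ≃ₐ[k] Ω) : Φ.w y (g * h) = Φ.w y g + rho W g (Φ.w y h) := by
  unfold Fam.w
  refine cor_cocycle (rho W) S.N (f := Φ.f y) ?_ g h
  intro a ha b hb
  exact Φ.f_mul y ha hb

theorem Fam.w_add (g : Ω ≃ₐ[k] Ω) : Φ.w (y + y') g = Φ.w y g + Φ.w y' g := by
  have h1 : Φ.f (y + y') = fun x => Φ.f y x + Φ.f y' x := by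
    funext x
    unfold Fam.f
    rw [← map_add, ← Finset.sum_add_distrib]
    congr 1
    refine Finset.sum_congr rfl fun l _ => ?_
    rw [Pi.add_apply, add_mul]
  unfold Fam.w
  rw [h1]
  exact cor_add (rho W) S.N g

theorem Fam.nsmul_w (g : Ω ≃ₐ[k] Ω) : n • Φ.w y g = 0 := by
  let H : AddSubgroup (Pt W Ω) := (nsmulAddMonoidHom n : Pt W Ω →+ Pt W Ω).ker
  have h1 : Φ.w y g ∈ H := by
    refine cor_mem (rho W) S.N H ?_ ?_ g
    · intro g m hm
      have hm' : n • m = 0 := hm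
      change n • (rho W g m) = 0
      rw [← map_nsmul, hm', map_zero]
    · intro g
      exact S.nsmul_e _
  exact h1

theorem Fam.w_hom {g h : Ω ≃ₐ[k] Ω} (hg : g ∈ S.N) (hh : h ∈ S.N) :
    Φ.w y (g * h) = Φ.w y g + Φ.w y h := by
  rw [Φ.w_mul, S.fix_tors hg (Φ.nsmul_w y h)]

end H16C
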